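import Mathlib
import Pool.Agent.Run7.h4.YM.Vac

/-!
# Vortices: both fluxes, rectangles, the minimal action of a vortex
-/

open Matrix MeasureTheory
open Run7.h4.YM

namespace Run7.h4.VS

noncomputable section

/-- configurations over the quadrant `ℕ × ℕ` of the base: `u i t x y` is the link in direction `i`
at the site `(t, x, y)` -/
abbrev LC (N l : ℕ) : Type := Fin 4 → ℕ → ℕ → Fib l → SU N

section cells

variable {N l : ℕ} [NeZero l]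

/-- the fields of the fibre over the point `(t, x)` -/
def fsN (u : LC N l) (t x : ℕ) : FC N l := (u 2 t x, u 3 t x)

/-- the energy of the cell `(t, x)` of the base, with the centre flux `om N k ^ m` on its
plaquettes in the plane `(0, 1)` -/
def cN (k m : ℕ) (u : LC N l) (t x : ℕ) : ℝ :=
  (VL k (fsN u t x) + VL k (fsN u (t + 1) x) + VL k (fsN u t (x + 1)) +
    VL k (fsN u (t + 1) (x + 1))) / 4 +
  (KL (fsN u t x) (u 0 t x) (fsN u (t + 1) x) +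
    KL (fsN u t (x + 1)) (u 0 t (x + 1)) (fsN u (t + 1) (x + 1)) +
    KL (fsN u t x) (u 1 t x) (fsN u t (x + 1)) +
    KL (fsN u (t + 1) x) (u 1 (t + 1) x) (fsN u (t + 1) (x + 1))) / 2 +
  ∑ y : Fib l, aw (om N k ^ m)
    (u 0 t x y * u 1 (t + 1) x y * (u 0 t (x + 1) y)⁻¹ * (u 1 t x y)⁻¹)

/-- the energy of a rectangle of cells with the centre flux `m` -/
def EN (k : ℕ) (m : ℕ → ℕ → ℕ) (a b : ℕ) (u : LC N l) : ℝ :=
  ∑ t ∈ Finset.range a, ∑ x ∈ Finset.range b, cN k (m t x) u t x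

/-- the cells of the rectangle which touch its boundary -/
def ring (a b : ℕ) : Finset (ℕ × ℕ) :=
  (Finset.range a ×ˢ Finset.range b).filter fun p =>
    p.1 = 0 ∨ p.1 + 1 = a ∨ p.2 = 0 ∨ p.2 + 1 = b

/-- the points of the boundary of the rectangle -/
def bdy (a b t x : ℕ) : Prop := t ≤ a ∧ x ≤ b ∧ (t = 0 ∨ t = a ∨ x = 0 ∨ x = b)

/-- the flux concentrated in the corner cell -/
def corner (i : ℕ) (t x : ℕ) : ℕ := if t = 0 ∧ x = 0 then i else 0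

/-- the flat fibre -/
def vacF (P0 Q0 : SU N) : FC N l :=
  (fun y => if y.1 = 0 then P0 else 1, fun y => if y.2 = 0 then Q0 else 1)

/-- framed configurations of a rectangle: the exact vacuum over the boundary line -/
structure Framed (P0 Q0 : SU N) (a b : ℕ) (u : LC N l) : Prop where
  fib : ∀ t x, bdy a b t x → fsN u t x = vacF P0 Q0
  l0 : ∀ t, t < a → ∀ y, u 0 t 0 y = 1 ∧ u 0 t b y = 1
  l1 : ∀ x, x < b → ∀ y, u 1 0 x y = 1 ∧ u 1 a x y = 1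

/-- the minimal action of a vortex with flux `om N k ^ i` -/
def SF (k : ℕ) (P0 Q0 : SU N) (l : ℕ) [NeZero l] (i : ℕ) : ℝ :=
  sInf {E | ∃ (a b : ℕ) (u : LC N l), 1 ≤ a ∧ 1 ≤ b ∧ Framed P0 Q0 a b u ∧ E = EN k (corner i) a b u}

/-- two configurations agree over the boundary line of the rectangle -/
structure AgreeB (a b : ℕ) (u w : LC N l) : Prop where
  fib : ∀ t x, bdy a b t x → fsN w t x = fsN u t x
  l0 : ∀ t, t < a → w 0 t 0 = u 0 t 0 ∧ w 0 t b = u 0 t b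
  l1 : ∀ x, x < b → w 1 0 x = u 1 0 x ∧ w 1 a x = u 1 a x

end cells

/-- a standard pair of twist eaters with its rigidity -/
structure Std (N k : ℕ) [NeZero N] (hζ : IsPrimitiveRoot (om N k) N) (P0 Q0 : SU N) : Prop where
  rel : (Q0 * P0).1 = om N k • (P0 * Q0).1
  uni : ∀ P Q : SU N, (Q * P).1 = om N k • (P * Q).1 →
    ∃ g : SU N, P = g * P0 * g⁻¹ ∧ Q = g * Q0 * g⁻¹
  com : ∀ B : SU N, B * P0 = P0 * B → B * Q0 = Q0 * B → ∃ j : ℕ, j < N ∧ B = cz hζ j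

/-! ### Statements of the parts -/

/-- A1: linear stability of the pair. -/
def StA1 : Prop := ∀ (N k : ℕ) [NeZero N] (hζ : IsPrimitiveRoot (om N k) N) (P0 Q0 : SU N),
  Std N k hζ P0 Q0 → ∃ C : ℝ, 0 < C ∧ ∀ P Q : SU N, ∃ g : SU N,
    dd (g⁻¹ * P * g) P0 ≤ C * dd (Q * P) (cz hζ 1 * (P * Q)) ∧
    dd (g⁻¹ * Q * g) Q0 ≤ C * dd (Q * P) (cz hζ 1 * (P * Q))

/-- A2: linear stability of the commutant. -/
def StA2 : Prop := ∀ (N k : ℕ) [NeZero N] (hζ : IsPrimitiveRoot (om N k) N) (P0 Q0 : SU N),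
  Std N k hζ P0 Q0 → ∃ C : ℝ, 0 < C ∧ ∀ W : SU N, ∃ i : ℕ,
    dd W (cz hζ i) ≤ C * (dd (W * P0) (P0 * W) + dd (W * Q0) (Q0 * W))

/-- FR: frames of an almost flat fibre, with linear errors. -/
def StFR : Prop := ∀ (N k l : ℕ) [NeZero N] [NeZero l] (hζ : IsPrimitiveRoot (om N k) N)
  (P0 Q0 : SU N), Std N k hζ P0 Q0 → ∃ C : ℝ, 0 < C ∧ ∀ s : FC N l, ∃ g : Fib l → SU N, ∀ y : Fib l,
    dd ((g y)⁻¹ * s.1 y * g (y + (1, 0))) ((vacF (l := l) P0 Q0).1 y) ≤ C * Real.sqrt (VL k s) ∧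
    dd ((g y)⁻¹ * s.2 y * g (y + (0, 1))) ((vacF (l := l) P0 Q0).2 y) ≤ C * Real.sqrt (VL k s)

/-- LK: base links in frames are close to one centre element. -/
def StLK : Prop := ∀ (N k l : ℕ) [NeZero N] [NeZero l] (hζ : IsPrimitiveRoot (om N k) N)
  (P0 Q0 : SU N), Std N k hζ P0 Q0 → ∃ C : ℝ, 0 < C ∧
    ∀ (s s' : FC N l) (u g g' : Fib l → SU N) (e : ℝ),
    (∀ y : Fib l, dd ((g y)⁻¹ * s.1 y * g (y + (1, 0))) ((vacF (l := l) P0 Q0).1 y) ≤ e ∧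
      dd ((g y)⁻¹ * s.2 y * g (y + (0, 1))) ((vacF (l := l) P0 Q0).2 y) ≤ e) →
    (∀ y : Fib l, dd ((g' y)⁻¹ * s'.1 y * g' (y + (1, 0))) ((vacF (l := l) P0 Q0).1 y) ≤ e ∧
      dd ((g' y)⁻¹ * s'.2 y * g' (y + (0, 1))) ((vacF (l := l) P0 Q0).2 y) ≤ e) →
    ∃ i : ℕ, ∀ y : Fib l, dd ((g y)⁻¹ * u y * g' y) (cz hζ i) ≤ C * (e + Real.sqrt (KL s u s'))

/-- the charge of a cell: `lab s u s'` is the label of the link field `u` from the fibre `s` to the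
fibre `s'` -/
def chN {N l : ℕ} (lab : FC N l → (Fib l → SU N) → FC N l → ZMod N) (m : ℕ) (u : LC N l)
    (t x : ℕ) : ZMod N :=
  lab (fsN u t x) (u 0 t x) (fsN u (t + 1) x) +
    lab (fsN u (t + 1) x) (u 1 (t + 1) x) (fsN u (t + 1) (x + 1)) -
    lab (fsN u t (x + 1)) (u 0 t (x + 1)) (fsN u (t + 1) (x + 1)) -
    lab (fsN u t x) (u 1 t x) (fsN u t (x + 1)) + (m : ZMod N)

/-- KEY: the energy of a rectangle whose ring is good is at least the minimal action of the vortex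
with the charge of the rectangle, up to a multiple of the energy of the ring. -/
def StKEY : Prop := ∀ (N k l : ℕ) [NeZero N] [NeZero l] (hζ : IsPrimitiveRoot (om N k) N)
  (P0 Q0 : SU N), Std N k hζ P0 Q0 →
  ∃ (lab : FC N l → (Fib l → SU N) → FC N l → ZMod N) (δ0 C : ℝ), 0 < δ0 ∧ 0 < C ∧
    (∀ (m : ℕ) (u : LC N l) (t x : ℕ), cN k m u t x < δ0 → chN lab m u t x = 0) ∧
    ∀ (m : ℕ → ℕ → ℕ) (u : LC N l) (a b : ℕ), 1 ≤ a → 1 ≤ b →
      (∀ p ∈ ring a b, cN k (m p.1 p.2) u p.1 p.2 < δ0) → ∀ i : ℕ,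
      (∑ t ∈ Finset.range a, ∑ x ∈ Finset.range b, chN lab (m t x) u t x) = (i : ZMod N) →
      SF k P0 Q0 l i ≤ EN k m a b u + C * ∑ p ∈ ring a b, cN k (m p.1 p.2) u p.1 p.2

/-- COMB: combinatorics of the bad cells on the torus, for energies `e` and charges `q`. -/
def StCOMB : Prop := ∀ (N c : ℕ) [NeZero N] (S δ0 C ε : ℝ), 0 < δ0 → 0 < C → 0 < ε → ε < S →
  ∃ K : ℕ, 0 < K ∧ ∀ (n L : ℕ) [NeZero n] [NeZero L], K ≤ n → K ≤ L →
    ∀ (e : ZMod n → ZMod L → ℝ) (q : ZMod n → ZMod L → ZMod N), (∀ t x, 0 ≤ e t x) →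
    (∀ t x, e t x < δ0 → q t x = 0) →
    (∀ (s : ZMod n) (r : ZMod L) (a b : ℕ), 1 ≤ a → 1 ≤ b → a ≤ K → b ≤ K →
      (∀ p ∈ ring a b, e (s + p.1) (r + p.2) < δ0) →
      (c : ZMod N) * (∑ t ∈ Finset.range a, ∑ x ∈ Finset.range b, q (s + t) (r + x)) ≠ 0 →
      S ≤ (∑ t ∈ Finset.range a, ∑ x ∈ Finset.range b, e (s + t) (r + x)) +
        C * ∑ p ∈ ring a b, e (s + p.1) (r + p.2)) →
    (c : ZMod N) * (∑ t, ∑ x, q t x) ≠ 0 →
    ∃ (s : ZMod n) (r : ZMod L),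
      S - ε ≤ ∑ t ∈ Finset.range K, ∑ x ∈ Finset.range K, e (s + t) (r + x)

/-- INS: an almost flat block can be replaced by a block with a vortex, with the same boundary. -/
def StINS : Prop := ∀ (N k l : ℕ) [NeZero N] [NeZero l] (hζ : IsPrimitiveRoot (om N k) N)
  (P0 Q0 : SU N), Std N k hζ P0 Q0 → ∀ (i a b : ℕ) (v : LC N l), 1 ≤ a → 1 ≤ b →
  Framed P0 Q0 a b v → ∀ ε : ℝ, 0 < ε → ∃ δ : ℝ, 0 < δ ∧ ∀ u : LC N l,
    (∀ t, t < a → ∀ x, x < b → cN k 0 u t x < δ) →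
    ∃ w : LC N l, AgreeB a b u w ∧ EN k (corner i) a b w ≤ EN k (corner i) a b v + ε

end

end Run7.h4.VS
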