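import Mathlib
import Pool.Agent.Run7.h4.VS.Defs

/-!
# Centre multiplications, gauge transformations, small changes of a cell
-/

open Matrix MeasureTheory
open Run7.h4.YM

namespace Run7.h4.VS

set_option linter.unusedSectionVars false

noncomputable section

section cen

variable {N k : ℕ} [NeZero N] (hζ : IsPrimitiveRoot (om N k) N)

/-- central elements, indexed by residues -/
def zc (z : ZMod N) : SU N := cz hζ z.val

theorem zc_cast (i : ℕ) : zc hζ (i : ZMod N) = cz hζ i := by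
  unfold zc
  rw [ZMod.val_natCast, cz_mod]

theorem zc_comm (z : ZMod N) (g : SU N) : zc hζ z * g = g * zc hζ z := cz_comm hζ _ g

theorem zc_add (a b : ZMod N) : zc hζ (a + b) = zc hζ a * zc hζ b := by
  unfold zc
  rw [ZMod.val_add, cz_mod, cz_add]

theorem zc_zero : zc hζ 0 = 1 := by
  unfold zc
  rw [ZMod.val_zero, cz_zero]

theorem zc_neg (a : ZMod N) : zc hζ (-a) = (zc hζ a)⁻¹ := by
  have h := zc_add hζ (-a) a
  rw [neg_add_cancel, zc_zero] at h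
  exact eq_inv_of_mul_eq_one_left h.symm

theorem zc_sub (a b : ZMod N) : zc hζ (a - b) = zc hζ a * (zc hζ b)⁻¹ := by
  rw [sub_eq_add_neg, zc_add, zc_neg]

theorem zc_inj {a b : ZMod N} (h : zc hζ a = zc hζ b) : a = b := by
  unfold zc at h
  have h1 : (om N k ^ a.val) • (1 : Matrix (Fin N) (Fin N) ℂ) = (om N k ^ b.val) • 1 := by
    rw [← cz_val hζ, ← cz_val hζ, h]
  have i0 : Fin N := ⟨0, NeZero.pos N⟩
  have h2 := congrFun (congrFun h1 i0) i0
  simp only [Matrix.smul_apply, Matrix.one_apply_eq, smul_eq_mul, mul_one] at h2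
  have h3 := hζ.pow_inj (ZMod.val_lt a) (ZMod.val_lt b) h2
  exact ZMod.val_injective N h3

/-- `aw` with a power of the root -/
theorem aw_om (m : ℕ) (g : SU N) : aw (om N k ^ m) g = aw 1 (cz hζ m * g) := by
  unfold aw
  rw [tr_cz_mul, one_mul]

theorem aw_zc (m : ℕ) (g : SU N) : aw (om N k ^ m) g = aw 1 (zc hζ (m : ZMod N) * g) := by
  rw [zc_cast, aw_om]

include hζ in
theorem aw_om_congr {m m' : ℕ} (h : (m : ZMod N) = (m' : ZMod N)) (g : SU N) :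
    aw (om N k ^ m) g = aw (om N k ^ m') g := by
  rw [aw_zc hζ, aw_zc hζ, h]

include hζ in
theorem aw_om_nonneg (m : ℕ) (g : SU N) : 0 ≤ aw (om N k ^ m) g := by
  rw [aw_om hζ]; exact aw_one_nonneg _

/-- central factors in a plaquette -/
theorem four_zc (p q r s : ZMod N) (A B C D : SU N) :
    zc hζ p * A * (zc hζ q * B) * (zc hζ r * C)⁻¹ * (zc hζ s * D)⁻¹ =
      zc hζ (p + q - r - s) * (A * B * C⁻¹ * D⁻¹) := by
  rw [sub_eq_add_neg, sub_eq_add_neg, zc_add, zc_add, zc_add, _root_.mul_inv_rev,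
    _root_.mul_inv_rev, ← zc_neg hζ r, ← zc_neg hζ s]
  have c2 := zc_comm hζ q
  have c3 := zc_comm hζ (-r)
  have c4 := zc_comm hζ (-s)
  calc zc hζ p * A * (zc hζ q * B) * (C⁻¹ * zc hζ (-r)) * (D⁻¹ * zc hζ (-s))
      = zc hζ p * (A * zc hζ q) * B * (C⁻¹ * zc hζ (-r)) * (D⁻¹ * zc hζ (-s)) := by
        simp only [mul_assoc]
    _ = zc hζ p * (zc hζ q * A) * B * (zc hζ (-r) * C⁻¹) * (zc hζ (-s) * D⁻¹) := by
        rw [← c2 A, ← c3 C⁻¹, ← c4 D⁻¹]
    _ = zc hζ p * zc hζ q * ((A * B) * zc hζ (-r)) * C⁻¹ * (zc hζ (-s) * D⁻¹) := by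
        simp only [mul_assoc]
    _ = zc hζ p * zc hζ q * (zc hζ (-r) * (A * B)) * C⁻¹ * (zc hζ (-s) * D⁻¹) := by
        rw [← c3 (A * B)]
    _ = zc hζ p * zc hζ q * zc hζ (-r) * ((A * B * C⁻¹) * zc hζ (-s)) * D⁻¹ := by
        simp only [mul_assoc]
    _ = zc hζ p * zc hζ q * zc hζ (-r) * (zc hζ (-s) * (A * B * C⁻¹)) * D⁻¹ := by
        rw [← c4 (A * B * C⁻¹)]
    _ = _ := by simp only [mul_assoc]

end cen

section cell

variable {N l : ℕ} [NeZero N] [NeZero l] {k : ℕ} (hζ : IsPrimitiveRoot (om N k) N)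

include hζ in
theorem cN_congr {m m' : ℕ} (h : (m : ZMod N) = (m' : ZMod N)) (u : LC N l) (t x : ℕ) :
    cN k m u t x = cN k m' u t x := by
  unfold cN
  congr 1
  exact Finset.sum_congr rfl fun y _ => aw_om_congr hζ h _

include hζ in
theorem cN_nonneg (m : ℕ) (u : LC N l) (t x : ℕ) : 0 ≤ cN k m u t x := by
  unfold cN
  have v1 := VL_nonneg hζ (fsN u t x)
  have v2 := VL_nonneg hζ (fsN u (t + 1) x)
  have v3 := VL_nonneg hζ (fsN u t (x + 1))
  have v4 := VL_nonneg hζ (fsN u (t + 1) (x + 1))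
  have k1 := KL_nonneg (fsN u t x) (u 0 t x) (fsN u (t + 1) x)
  have k2 := KL_nonneg (fsN u t (x + 1)) (u 0 t (x + 1)) (fsN u (t + 1) (x + 1))
  have k3 := KL_nonneg (fsN u t x) (u 1 t x) (fsN u t (x + 1))
  have k4 := KL_nonneg (fsN u (t + 1) x) (u 1 (t + 1) x) (fsN u (t + 1) (x + 1))
  have w : 0 ≤ ∑ y : Fib l, aw (om N k ^ m)
    (u 0 t x y * u 1 (t + 1) x y * (u 0 t (x + 1) y)⁻¹ * (u 1 t x y)⁻¹) :=
    Finset.sum_nonneg fun y _ => aw_om_nonneg hζ m _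
  linarith

include hζ in
/-- the parts of a cell -/
theorem cN_parts (m : ℕ) (u : LC N l) (t x : ℕ) {E : ℝ} (h : cN k m u t x ≤ E) :
    VL k (fsN u t x) ≤ 4 * E ∧ VL k (fsN u (t + 1) x) ≤ 4 * E ∧ VL k (fsN u t (x + 1)) ≤ 4 * E ∧
    VL k (fsN u (t + 1) (x + 1)) ≤ 4 * E ∧
    KL (fsN u t x) (u 0 t x) (fsN u (t + 1) x) ≤ 2 * E ∧
    KL (fsN u t (x + 1)) (u 0 t (x + 1)) (fsN u (t + 1) (x + 1)) ≤ 2 * E ∧
    KL (fsN u t x) (u 1 t x) (fsN u t (x + 1)) ≤ 2 * E ∧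
    KL (fsN u (t + 1) x) (u 1 (t + 1) x) (fsN u (t + 1) (x + 1)) ≤ 2 * E ∧
    ∀ y : Fib l, aw (om N k ^ m)
      (u 0 t x y * u 1 (t + 1) x y * (u 0 t (x + 1) y)⁻¹ * (u 1 t x y)⁻¹) ≤ E := by
  unfold cN at h
  have v1 := VL_nonneg hζ (fsN u t x)
  have v2 := VL_nonneg hζ (fsN u (t + 1) x)
  have v3 := VL_nonneg hζ (fsN u t (x + 1))
  have v4 := VL_nonneg hζ (fsN u (t + 1) (x + 1))
  have k1 := KL_nonneg (fsN u t x) (u 0 t x) (fsN u (t + 1) x)
  have k2 := KL_nonneg (fsN u t (x + 1)) (u 0 t (x + 1)) (fsN u (t + 1) (x + 1))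
  have k3 := KL_nonneg (fsN u t x) (u 1 t x) (fsN u t (x + 1))
  have k4 := KL_nonneg (fsN u (t + 1) x) (u 1 (t + 1) x) (fsN u (t + 1) (x + 1))
  have w' : ∀ y : Fib l, 0 ≤ aw (om N k ^ m)
    (u 0 t x y * u 1 (t + 1) x y * (u 0 t (x + 1) y)⁻¹ * (u 1 t x y)⁻¹) := fun y =>
    aw_om_nonneg hζ m _
  have w : 0 ≤ ∑ y : Fib l, aw (om N k ^ m)
    (u 0 t x y * u 1 (t + 1) x y * (u 0 t (x + 1) y)⁻¹ * (u 1 t x y)⁻¹) :=
    Finset.sum_nonneg fun y _ => w' y
  refine ⟨by linarith, by linarith, by linarith, by linarith, by linarith, by linarith,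
    by linarith, by linarith, fun y => ?_⟩
  have h1 := Finset.single_le_sum (fun y _ => w' y) (Finset.mem_univ y)
  linarith

/-- gauge transformation of a fibre -/
def gF (γ : Fib l → SU N) (s : FC N l) : FC N l :=
  (fun y => (γ y)⁻¹ * s.1 y * γ (y + (1, 0)), fun y => (γ y)⁻¹ * s.2 y * γ (y + (0, 1)))

/-- gauge transformation of the links of the base -/
def gL (γ γ' : Fib l → SU N) (u : Fib l → SU N) : Fib l → SU N := fun y => (γ y)⁻¹ * u y * γ' y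

theorem aw_conj (c : ℂ) (g p : SU N) : aw c (g⁻¹ * p * g) = aw c p := by
  rw [aw_cyc, ← mul_assoc, mul_inv_cancel, one_mul]

/-- a gauge transformed plaquette -/
theorem gpl (a b c d g0 g1 g2 g3 : SU N) :
    g0⁻¹ * a * g1 * (g1⁻¹ * b * g3) * (g2⁻¹ * c * g3)⁻¹ * (g0⁻¹ * d * g2)⁻¹ =
      g0⁻¹ * (a * b * c⁻¹ * d⁻¹) * g0 := by group

theorem VL_gF (γ : Fib l → SU N) (s : FC N l) : VL k (gF γ s) = VL k s := by
  unfold VL gF
  refine Finset.sum_congr rfl fun y _ => ?_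
  have e : y + (0, 1) + (1, 0) = y + ((1, 0) : Fib l) + (0, 1) := by
    rw [add_assoc, add_assoc, add_comm ((0, 1) : Fib l)]
  simp only [e]
  rw [gpl, aw_conj]

theorem KL_gF (γ γ' : Fib l → SU N) (s s' : FC N l) (u : Fib l → SU N) :
    KL (gF γ s) (gL γ γ' u) (gF γ' s') = KL s u s' := by
  unfold KL gF gL
  refine Finset.sum_congr rfl fun y _ => ?_
  simp only
  rw [gpl, aw_conj, gpl, aw_conj]

/-- gauge transformation of a configuration -/
def gau (γ : ℕ → ℕ → Fib l → SU N) (u : LC N l) : LC N l := fun i t x =>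
  if i = 0 then gL (γ t x) (γ (t + 1) x) (u 0 t x) else
  if i = 1 then gL (γ t x) (γ t (x + 1)) (u 1 t x) else
  if i = 2 then (gF (γ t x) (fsN u t x)).1 else (gF (γ t x) (fsN u t x)).2

theorem gau_0 (γ : ℕ → ℕ → Fib l → SU N) (u : LC N l) (t x : ℕ) :
    gau γ u 0 t x = gL (γ t x) (γ (t + 1) x) (u 0 t x) := rfl

theorem gau_1 (γ : ℕ → ℕ → Fib l → SU N) (u : LC N l) (t x : ℕ) :
    gau γ u 1 t x = gL (γ t x) (γ t (x + 1)) (u 1 t x) := rfl

theorem gau_f (γ : ℕ → ℕ → Fib l → SU N) (u : LC N l) (t x : ℕ) :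
    fsN (gau γ u) t x = gF (γ t x) (fsN u t x) := rfl

theorem cN_gau (m : ℕ) (γ : ℕ → ℕ → Fib l → SU N) (u : LC N l) (t x : ℕ) :
    cN k m (gau γ u) t x = cN k m u t x := by
  have v : ∀ t x, VL k (fsN (gau γ u) t x) = VL k (fsN u t x) := fun t x => by
    rw [gau_f, VL_gF]
  have k0 : ∀ t x, KL (fsN (gau γ u) t x) (gau γ u 0 t x) (fsN (gau γ u) (t + 1) x) =
      KL (fsN u t x) (u 0 t x) (fsN u (t + 1) x) := fun t x => by
    rw [gau_f, gau_f, gau_0, KL_gF]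
  have k1 : ∀ t x, KL (fsN (gau γ u) t x) (gau γ u 1 t x) (fsN (gau γ u) t (x + 1)) =
      KL (fsN u t x) (u 1 t x) (fsN u t (x + 1)) := fun t x => by
    rw [gau_f, gau_f, gau_1, KL_gF]
  have w : ∀ y : Fib l, aw (om N k ^ m) (gau γ u 0 t x y * gau γ u 1 (t + 1) x y *
      (gau γ u 0 t (x + 1) y)⁻¹ * (gau γ u 1 t x y)⁻¹) = aw (om N k ^ m)
      (u 0 t x y * u 1 (t + 1) x y * (u 0 t (x + 1) y)⁻¹ * (u 1 t x y)⁻¹) := fun y => by
    rw [gau_0, gau_1, gau_0, gau_1]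
    unfold gL
    rw [gpl, aw_conj]
  unfold cN
  rw [v, v, v, v, k0, k0, k1, k1, Finset.sum_congr rfl fun y _ => w y]

/-- multiplication of the base links by central elements -/
def cen (p0 p1 : ℕ → ℕ → ZMod N) (u : LC N l) : LC N l := fun i t x =>
  if i = 0 then fun y => zc hζ (p0 t x) * u 0 t x y else
  if i = 1 then fun y => zc hζ (p1 t x) * u 1 t x y else u i t x

theorem cen_0 (p0 p1 : ℕ → ℕ → ZMod N) (u : LC N l) (t x : ℕ) :
    cen hζ p0 p1 u 0 t x = fun y => zc hζ (p0 t x) * u 0 t x y := rfl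

theorem cen_1 (p0 p1 : ℕ → ℕ → ZMod N) (u : LC N l) (t x : ℕ) :
    cen hζ p0 p1 u 1 t x = fun y => zc hζ (p1 t x) * u 1 t x y := rfl

theorem cen_f (p0 p1 : ℕ → ℕ → ZMod N) (u : LC N l) (t x : ℕ) :
    fsN (cen hζ p0 p1 u) t x = fsN u t x := rfl

theorem KL_cen (z : ZMod N) (s s' : FC N l) (u : Fib l → SU N) :
    KL s (fun y => zc hζ z * u y) s' = KL s u s' := by
  have h : ∀ A B C D : SU N, zc hζ z * A * B * (zc hζ z * C)⁻¹ * D⁻¹ = A * B * C⁻¹ * D⁻¹ := by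
    intro A B C D
    have h1 := four_zc hζ z 0 z 0 A B C D
    rw [zc_zero, one_mul, one_mul] at h1
    rw [h1]
    have : z + 0 - z - 0 = 0 := by ring
    rw [this, zc_zero, one_mul]
  unfold KL
  simp only [h]

theorem cN_cen (p0 p1 : ℕ → ℕ → ZMod N) (u : LC N l) {m m' : ℕ} {t x : ℕ}
    (h : (m' : ZMod N) = m + (p0 t x + p1 (t + 1) x - p0 t (x + 1) - p1 t x)) :
    cN k m (cen hζ p0 p1 u) t x = cN k m' u t x := by
  unfold cN
  simp only [cen_f, cen_0, cen_1, KL_cen]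
  congr 1
  refine Finset.sum_congr rfl fun y _ => ?_
  rw [four_zc, aw_zc hζ, aw_zc hζ, ← mul_assoc, ← zc_add, h]

/-- small changes of a plaquette -/
theorem aw_change {a b c d a' b' c' d' z : SU N} {η : ℝ}
    (ha : dd a a' ≤ η) (hb : dd b b' ≤ η) (hc : dd c c' ≤ η) (hd : dd d d' ≤ η) :
    aw 1 (z * (a * b * c⁻¹ * d⁻¹)) ≤ 2 * aw 1 (z * (a' * b' * c'⁻¹ * d'⁻¹)) + 16 * η ^ 2 := by
  have hη : 0 ≤ η := (dd_nonneg _ _).trans ha
  have h1 := dd_mul_mul (a * b * c⁻¹) d⁻¹ (a' * b' * c'⁻¹) d'⁻¹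
  have h2 := dd_mul_mul (a * b) c⁻¹ (a' * b') c'⁻¹
  have h3 := dd_mul_mul a b a' b'
  rw [dd_inv] at h1 h2
  have h4 : dd (z * (a * b * c⁻¹ * d⁻¹)) (z * (a' * b' * c'⁻¹ * d'⁻¹)) ≤ 4 * η := by
    rw [dd_mul_left]
    linarith
  have h5 := dd_triangle (z * (a * b * c⁻¹ * d⁻¹)) (z * (a' * b' * c'⁻¹ * d'⁻¹)) 1
  rw [aw_one_eq, aw_one_eq]
  obtain ⟨X, hX⟩ : ∃ X, X = dd (z * (a * b * c⁻¹ * d⁻¹)) 1 := ⟨_, rfl⟩
  obtain ⟨Y, hY⟩ : ∃ Y, Y = dd (z * (a' * b' * c'⁻¹ * d'⁻¹)) 1 := ⟨_, rfl⟩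
  rw [← hX, ← hY] at h5 ⊢
  have hX0 : 0 ≤ X := by rw [hX]; exact dd_nonneg _ _
  have hY0 : 0 ≤ Y := by rw [hY]; exact dd_nonneg _ _
  have h6 : X ≤ 4 * η + Y := by linarith
  have h7 : X ^ 2 ≤ (4 * η + Y) ^ 2 := pow_le_pow_left₀ hX0 h6 2
  nlinarith [sq_nonneg (4 * η - Y)]

theorem card_fib : (Finset.univ : Finset (Fib l)).card = l ^ 2 := by
  simp [ZMod.card]; ring

include hζ in
theorem VL_change {s s' : FC N l} {η : ℝ} (h1 : ∀ y, dd (s.1 y) (s'.1 y) ≤ η)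
    (h2 : ∀ y, dd (s.2 y) (s'.2 y) ≤ η) : VL k s ≤ 2 * VL k s' + (l : ℝ) ^ 2 * (16 * η ^ 2) := by
  unfold VL
  rw [Finset.mul_sum]
  have e : (l : ℝ) ^ 2 * (16 * η ^ 2) = ∑ _y : Fib l, 16 * η ^ 2 := by
    rw [Finset.sum_const, card_fib, nsmul_eq_mul]; push_cast; ring
  rw [e, ← Finset.sum_add_distrib]
  refine Finset.sum_le_sum fun y _ => ?_
  rw [aw_twf hζ, aw_twf hζ]
  exact aw_change (h1 _) (h2 _) (h1 _) (h2 _)

theorem KL_change {s s' : FC N l} {u v : Fib l → SU N} {r r' : FC N l} {η : ℝ}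
    (h1 : ∀ y, dd (s.1 y) (s'.1 y) ≤ η) (h2 : ∀ y, dd (s.2 y) (s'.2 y) ≤ η)
    (h3 : ∀ y, dd (r.1 y) (r'.1 y) ≤ η) (h4 : ∀ y, dd (r.2 y) (r'.2 y) ≤ η)
    (h5 : ∀ y, dd (u y) (v y) ≤ η) : KL s u r ≤ 2 * KL s' v r' + (l : ℝ) ^ 2 * (32 * η ^ 2) := by
  unfold KL
  rw [Finset.mul_sum]
  have e : (l : ℝ) ^ 2 * (32 * η ^ 2) = ∑ _y : Fib l, 32 * η ^ 2 := by
    rw [Finset.sum_const, card_fib, nsmul_eq_mul]; push_cast; ring
  rw [e, ← Finset.sum_add_distrib]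
  refine Finset.sum_le_sum fun y _ => ?_
  have e1 := aw_change (z := 1) (h5 y) (h3 y) (h5 (y + (1, 0))) (h1 y)
  have e2 := aw_change (z := 1) (h5 y) (h4 y) (h5 (y + (0, 1))) (h2 y)
  rw [one_mul, one_mul] at e1 e2
  linarith

include hζ in
/-- small changes of a cell -/
theorem cN_change (m : ℕ) (u v : LC N l) (t x : ℕ) {η : ℝ}
    (f00 : ∀ y, dd (u 2 t x y) (v 2 t x y) ≤ η ∧ dd (u 3 t x y) (v 3 t x y) ≤ η)
    (f10 : ∀ y, dd (u 2 (t + 1) x y) (v 2 (t + 1) x y) ≤ η ∧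
      dd (u 3 (t + 1) x y) (v 3 (t + 1) x y) ≤ η)
    (f01 : ∀ y, dd (u 2 t (x + 1) y) (v 2 t (x + 1) y) ≤ η ∧
      dd (u 3 t (x + 1) y) (v 3 t (x + 1) y) ≤ η)
    (f11 : ∀ y, dd (u 2 (t + 1) (x + 1) y) (v 2 (t + 1) (x + 1) y) ≤ η ∧
      dd (u 3 (t + 1) (x + 1) y) (v 3 (t + 1) (x + 1) y) ≤ η)
    (a0 : ∀ y, dd (u 0 t x y) (v 0 t x y) ≤ η) (a1 : ∀ y, dd (u 0 t (x + 1) y) (v 0 t (x + 1) y) ≤ η)
    (b0 : ∀ y, dd (u 1 t x y) (v 1 t x y) ≤ η)
    (b1 : ∀ y, dd (u 1 (t + 1) x y) (v 1 (t + 1) x y) ≤ η) :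
    cN k m u t x ≤ 2 * cN k m v t x + 96 * (l : ℝ) ^ 2 * η ^ 2 := by
  unfold cN
  have v1 := VL_change (k := k) (s := fsN u t x) (s' := fsN v t x) hζ (fun y => (f00 y).1)
    (fun y => (f00 y).2)
  have v2 := VL_change (k := k) (s := fsN u (t + 1) x) (s' := fsN v (t + 1) x) hζ
    (fun y => (f10 y).1) (fun y => (f10 y).2)
  have v3 := VL_change (k := k) (s := fsN u t (x + 1)) (s' := fsN v t (x + 1)) hζ
    (fun y => (f01 y).1) (fun y => (f01 y).2)
  have v4 := VL_change (k := k) (s := fsN u (t + 1) (x + 1)) (s' := fsN v (t + 1) (x + 1)) hζ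
    (fun y => (f11 y).1) (fun y => (f11 y).2)
  have k1 := KL_change (s := fsN u t x) (s' := fsN v t x) (r := fsN u (t + 1) x)
    (r' := fsN v (t + 1) x) (fun y => (f00 y).1) (fun y => (f00 y).2) (fun y => (f10 y).1)
    (fun y => (f10 y).2) a0
  have k2 := KL_change (s := fsN u t (x + 1)) (s' := fsN v t (x + 1))
    (r := fsN u (t + 1) (x + 1)) (r' := fsN v (t + 1) (x + 1)) (fun y => (f01 y).1)
    (fun y => (f01 y).2) (fun y => (f11 y).1) (fun y => (f11 y).2) a1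
  have k3 := KL_change (s := fsN u t x) (s' := fsN v t x) (r := fsN u t (x + 1))
    (r' := fsN v t (x + 1)) (fun y => (f00 y).1) (fun y => (f00 y).2) (fun y => (f01 y).1)
    (fun y => (f01 y).2) b0
  have k4 := KL_change (s := fsN u (t + 1) x) (s' := fsN v (t + 1) x)
    (r := fsN u (t + 1) (x + 1)) (r' := fsN v (t + 1) (x + 1)) (fun y => (f10 y).1)
    (fun y => (f10 y).2) (fun y => (f11 y).1) (fun y => (f11 y).2) b1
  have w : (∑ y : Fib l, aw (om N k ^ m)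
      (u 0 t x y * u 1 (t + 1) x y * (u 0 t (x + 1) y)⁻¹ * (u 1 t x y)⁻¹)) ≤
      2 * (∑ y : Fib l, aw (om N k ^ m)
        (v 0 t x y * v 1 (t + 1) x y * (v 0 t (x + 1) y)⁻¹ * (v 1 t x y)⁻¹)) +
      (l : ℝ) ^ 2 * (16 * η ^ 2) := by
    rw [Finset.mul_sum]
    have e : (l : ℝ) ^ 2 * (16 * η ^ 2) = ∑ _y : Fib l, 16 * η ^ 2 := by
      rw [Finset.sum_const, card_fib, nsmul_eq_mul]; push_cast; ring
    rw [e, ← Finset.sum_add_distrib]
    refine Finset.sum_le_sum fun y _ => ?_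
    rw [aw_om hζ, aw_om hζ]
    exact aw_change (a0 y) (b1 y) (a1 y) (b0 y)
  linarith

include hζ in
/-- moving the flux into the corner -/
theorem move (a b : ℕ) (ha : 1 ≤ a) (hb : 1 ≤ b) (f : ℕ → ℕ → ZMod N) (w : LC N l) (i : ℕ)
    (hi : (∑ t ∈ Finset.range a, ∑ x ∈ Finset.range b, f t x) = (i : ZMod N)) :
    ∃ w' : LC N l, AgreeB a b w w' ∧
      EN k (corner i) a b w' = ∑ t ∈ Finset.range a, ∑ x ∈ Finset.range b, cN k (f t x).val w t x := by
  -- potentials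
  obtain ⟨A, hA⟩ : ∃ A : ℕ → ℕ → ZMod N, A = fun t x =>
      if 0 < t ∧ t < a then -∑ s ∈ Finset.Ico t a, f s x else 0 := ⟨_, rfl⟩
  obtain ⟨c, hc⟩ : ∃ c : ℕ → ZMod N, c = fun x => ∑ s ∈ Finset.range a, f s x := ⟨_, rfl⟩
  obtain ⟨B, hB⟩ : ∃ B : ℕ → ℕ → ZMod N, B = fun t x =>
      if t = 0 ∧ 0 < x ∧ x < b then ∑ r ∈ Finset.Ico x b, c r else 0 := ⟨_, rfl⟩
  refine ⟨cen hζ B A w, ⟨fun t x _ => rfl, fun t ht => ?_, fun x hx => ?_⟩, ?_⟩
  · have h1 : B t 0 = 0 := by rw [hB]; simp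
    have h2 : B t b = 0 := by rw [hB]; simp
    rw [cen_0, cen_0, h1, h2, zc_zero]
    simp only [one_mul]
    exact ⟨trivial, trivial⟩
  · have h1 : A 0 x = 0 := by rw [hA]; simp
    have h2 : A a x = 0 := by rw [hA]; simp
    rw [cen_1, cen_1, h1, h2, zc_zero]
    simp only [one_mul]
    exact ⟨trivial, trivial⟩
  · unfold EN
    refine Finset.sum_congr rfl fun t ht => Finset.sum_congr rfl fun x hx => ?_
    rw [Finset.mem_range] at ht hx
    refine cN_cen hζ B A w ?_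
    rw [ZMod.natCast_val, ZMod.cast_id]
    have hAd : A (t + 1) x - A t x = if t = 0 then f 0 x - c x else f t x := by
      rw [hA]
      simp only
      by_cases h0 : t = 0
      · subst h0
        rw [if_pos rfl, if_neg (by omega : ¬ (0 < 0 ∧ 0 < a))]
        by_cases h1 : 1 < a
        · rw [if_pos ⟨by omega, by omega⟩, hc]
          simp only
          rw [Finset.range_eq_Ico, Finset.sum_eq_sum_Ico_succ_bot ha]
          ring
        · have : a = 1 := by omega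
          subst this
          rw [if_neg (by omega), hc]
          simp
      · rw [if_neg h0, if_pos (⟨by omega, by omega⟩ : 0 < t ∧ t < a)]
        by_cases h1 : t + 1 < a
        · rw [if_pos ⟨by omega, h1⟩, Finset.sum_eq_sum_Ico_succ_bot (by omega : t < a)]
          ring
        · have h2 : a = t + 1 := by omega
          rw [if_neg (by omega), h2, Finset.sum_eq_sum_Ico_succ_bot (by omega : t < t + 1)]
          simp
    have hBd : B t x - B t (x + 1) = if t = 0 then (if x = 0 then c 0 - ∑ r ∈ Finset.range b, c r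
        else c x) else 0 := by
      rw [hB]
      simp only
      by_cases h0 : t = 0
      · subst h0
        rw [if_pos rfl]
        by_cases h1 : x = 0
        · subst h1
          rw [if_pos rfl, if_neg (by omega)]
          by_cases h2 : 1 < b
          · rw [if_pos ⟨rfl, by omega, by omega⟩, Finset.range_eq_Ico,
              Finset.sum_eq_sum_Ico_succ_bot hb]
            ring
          · have : b = 1 := by omega
            subst this
            rw [if_neg (by omega)]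
            simp
        · rw [if_neg h1, if_pos ⟨rfl, by omega, by omega⟩]
          by_cases h2 : x + 1 < b
          · rw [if_pos ⟨rfl, by omega, by omega⟩, Finset.sum_eq_sum_Ico_succ_bot (by omega : x < b)]
            ring
          · have h3 : b = x + 1 := by omega
            rw [if_neg (by omega), h3, Finset.sum_eq_sum_Ico_succ_bot (by omega : x < x + 1)]
            simp
      · rw [if_neg h0, if_neg (by omega), if_neg (by omega), sub_zero]
    have hsum : (∑ r ∈ Finset.range b, c r) = (i : ZMod N) := by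
      rw [← hi, hc, Finset.sum_comm]
    have e : B t x + A (t + 1) x - B t (x + 1) - A t x =
        (B t x - B t (x + 1)) + (A (t + 1) x - A t x) := by ring
    rw [e, hAd, hBd, hsum]
    unfold corner
    by_cases h0 : t = 0
    · subst h0
      by_cases h1 : x = 0
      · subst h1
        simp
      · simp [h1]
    · simp [h0]

end cell

end

end Run7.h4.VS
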