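import Mathlib
import Pool.Agent.Run7.h4.VS.Base

/-!
# Gluing the exact vacuum along the boundary of a rectangle
-/

open Matrix MeasureTheory
open Run7.h4.YM

namespace Run7.h4.VS

set_option linter.unusedSectionVars false

noncomputable section

variable {N l : ℕ} [NeZero N] [NeZero l] {k : ℕ} (hζ : IsPrimitiveRoot (om N k) N)

/-- Data: frames of the fibres and labels of the links, with linear errors. -/
structure Fra (hζ : IsPrimitiveRoot (om N k) N) (P0 Q0 : SU N) (F : FC N l → Fib l → SU N)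
    (lab : FC N l → (Fib l → SU N) → FC N l → ZMod N) (C : ℝ) : Prop where
  pos : 0 < C
  fr : ∀ (s : FC N l) (y : Fib l), dd ((gF (F s) s).1 y) ((vacF (l := l) P0 Q0).1 y) ≤
      C * Real.sqrt (VL k s) ∧
    dd ((gF (F s) s).2 y) ((vacF (l := l) P0 Q0).2 y) ≤ C * Real.sqrt (VL k s)
  lk : ∀ (s s' : FC N l) (u : Fib l → SU N) (y : Fib l),
    dd (gL (F s) (F s') u y) (zc hζ (lab s u s')) ≤
      C * (Real.sqrt (VL k s) + Real.sqrt (VL k s') + Real.sqrt (KL s u s'))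

theorem exists_fra (hFR : StFR) (hLK : StLK) {P0 Q0 : SU N} (hs : Std N k hζ P0 Q0) :
    ∃ (F : FC N l → Fib l → SU N) (lab : FC N l → (Fib l → SU N) → FC N l → ZMod N) (C : ℝ),
      Fra hζ P0 Q0 F lab C := by
  obtain ⟨C1, hC1, h1⟩ := hFR N k l hζ P0 Q0 hs
  obtain ⟨C2, hC2, h2⟩ := hLK N k l hζ P0 Q0 hs
  choose F hF using h1
  have h3 : ∀ (s : FC N l) (u : Fib l → SU N) (s' : FC N l), ∃ i : ℕ, ∀ y : Fib l,
      dd ((F s y)⁻¹ * u y * F s' y) (cz hζ i) ≤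
        C2 * (C1 * (Real.sqrt (VL k s) + Real.sqrt (VL k s')) + Real.sqrt (KL s u s')) := by
    intro s u s'
    have a1 := Real.sqrt_nonneg (VL k s)
    have a2 := Real.sqrt_nonneg (VL k s')
    refine h2 s s' u (F s) (F s') _ (fun y => ?_) (fun y => ?_)
    · obtain ⟨b1, b2⟩ := hF s y
      constructor
      · refine b1.trans ?_
        nlinarith
      · refine b2.trans ?_
        nlinarith
    · obtain ⟨b1, b2⟩ := hF s' y
      constructor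
      · refine b1.trans ?_
        nlinarith
      · refine b2.trans ?_
        nlinarith
  choose lab hlab using h3
  refine ⟨F, fun s u s' => ((lab s u s' : ℕ) : ZMod N), max C1 (C2 * max C1 1), ?_⟩
  have hm : 0 < max C1 (C2 * max C1 1) := lt_of_lt_of_le hC1 (le_max_left _ _)
  refine ⟨hm, fun s y => ?_, fun s s' u y => ?_⟩
  · obtain ⟨b1, b2⟩ := hF s y
    have a1 := Real.sqrt_nonneg (VL k s)
    have a3 : C1 * Real.sqrt (VL k s) ≤ max C1 (C2 * max C1 1) * Real.sqrt (VL k s) :=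
      mul_le_mul_of_nonneg_right (le_max_left _ _) a1
    exact ⟨b1.trans a3, b2.trans a3⟩
  · rw [zc_cast]
    refine (hlab s u s' y).trans ?_
    have a1 := Real.sqrt_nonneg (VL k s)
    have a2 := Real.sqrt_nonneg (VL k s')
    have a3 := Real.sqrt_nonneg (KL s u s')
    have a4 : C1 ≤ max C1 1 := le_max_left _ _
    have a5 : 1 ≤ max C1 1 := le_max_right _ _
    have a6 : C1 * (Real.sqrt (VL k s) + Real.sqrt (VL k s')) + Real.sqrt (KL s u s') ≤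
        max C1 1 * (Real.sqrt (VL k s) + Real.sqrt (VL k s') + Real.sqrt (KL s u s')) := by
      nlinarith
    have a7 : C2 * max C1 1 ≤ max C1 (C2 * max C1 1) := le_max_right _ _
    calc C2 * (C1 * (Real.sqrt (VL k s) + Real.sqrt (VL k s')) + Real.sqrt (KL s u s'))
        ≤ C2 * (max C1 1 * (Real.sqrt (VL k s) + Real.sqrt (VL k s') + Real.sqrt (KL s u s'))) :=
          mul_le_mul_of_nonneg_left a6 hC2.le
      _ = C2 * max C1 1 * (Real.sqrt (VL k s) + Real.sqrt (VL k s') + Real.sqrt (KL s u s')) := by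
          ring
      _ ≤ _ := mul_le_mul_of_nonneg_right a7 (add_nonneg (add_nonneg a1 a2) a3)

variable {hζ} {P0 Q0 : SU N} {F : FC N l → Fib l → SU N}
  {lab : FC N l → (Fib l → SU N) → FC N l → ZMod N} {C : ℝ}

theorem sqrt4 {V E : ℝ} (hE : 0 ≤ E) (h : V ≤ 4 * E) : Real.sqrt V ≤ 2 * Real.sqrt E := by
  have h1 := Real.sqrt_le_sqrt h
  rw [Real.sqrt_mul (by norm_num), show Real.sqrt 4 = 2 by
    rw [show (4 : ℝ) = 2 ^ 2 by norm_num]; exact Real.sqrt_sq (by norm_num)] at h1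
  exact h1

theorem Fra.lkE (h : Fra hζ P0 Q0 F lab C) {s s' : FC N l} {u : Fib l → SU N} {E : ℝ}
    (hE : 0 ≤ E) (h1 : VL k s ≤ 4 * E) (h2 : VL k s' ≤ 4 * E) (h3 : KL s u s' ≤ 2 * E)
    (y : Fib l) : dd (gL (F s) (F s') u y) (zc hζ (lab s u s')) ≤ 6 * C * Real.sqrt E := by
  refine (h.lk s s' u y).trans ?_
  have a1 := sqrt4 hE h1
  have a2 := sqrt4 hE h2
  have a3 : Real.sqrt (KL s u s') ≤ 2 * Real.sqrt E := sqrt4 hE (by linarith)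
  have := h.pos
  nlinarith

theorem Fra.frE (h : Fra hζ P0 Q0 F lab C) {s : FC N l} {E : ℝ} (hE : 0 ≤ E)
    (h1 : VL k s ≤ 4 * E) (y : Fib l) :
    dd ((gF (F s) s).1 y) ((vacF (l := l) P0 Q0).1 y) ≤ 6 * C * Real.sqrt E ∧
      dd ((gF (F s) s).2 y) ((vacF (l := l) P0 Q0).2 y) ≤ 6 * C * Real.sqrt E := by
  have a1 := sqrt4 hE h1
  have a0 := h.pos
  have a2 := Real.sqrt_nonneg E
  have a3 : C * Real.sqrt (VL k s) ≤ 6 * C * Real.sqrt E := by nlinarith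
  obtain ⟨b1, b2⟩ := h.fr s y
  exact ⟨b1.trans a3, b2.trans a3⟩

/-- the charge of a good cell vanishes -/
theorem Fra.good (h : Fra hζ P0 Q0 F lab C) : ∃ δ0 : ℝ, 0 < δ0 ∧
    ∀ (m : ℕ) (u : LC N l) (t x : ℕ), cN k m u t x < δ0 → chN lab m u t x = 0 := by
  obtain ⟨r, hr, hgap⟩ := exists_gap hζ
  have hC := h.pos
  have hD : 0 < 24 * C + 2 := by linarith
  refine ⟨(r / (24 * C + 2)) ^ 2, by positivity, fun m u t x hc => ?_⟩
  obtain ⟨E, hE⟩ : ∃ E, E = cN k m u t x := ⟨_, rfl⟩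
  have hE0 : 0 ≤ E := by rw [hE]; exact cN_nonneg hζ m u t x
  rw [← hE] at hc
  have hsE : Real.sqrt E < r / (24 * C + 2) := by
    have h1 := Real.sqrt_lt_sqrt hE0 hc
    rwa [Real.sqrt_sq (by positivity)] at h1
  rw [lt_div_iff₀ hD] at hsE
  obtain ⟨v1, v2, v3, v4, k1, k2, k3, k4, w⟩ := cN_parts hζ m u t x (le_of_eq hE.symm)
  have b1 := h.lkE hE0 v1 v2 k1 0
  have b2 := h.lkE hE0 v3 v4 k2 0
  have b3 := h.lkE hE0 v1 v3 k3 0
  have b4 := h.lkE hE0 v2 v4 k4 0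
  have w0 := w 0
  rw [aw_zc hζ, aw_one_eq] at w0
  -- the four links in frames
  obtain ⟨a, ha⟩ : ∃ a, a = gL (F (fsN u t x)) (F (fsN u (t + 1) x)) (u 0 t x) 0 := ⟨_, rfl⟩
  obtain ⟨c, hc'⟩ : ∃ c, c = gL (F (fsN u t (x + 1))) (F (fsN u (t + 1) (x + 1)))
    (u 0 t (x + 1)) 0 := ⟨_, rfl⟩
  obtain ⟨d, hd⟩ : ∃ d, d = gL (F (fsN u t x)) (F (fsN u t (x + 1))) (u 1 t x) 0 := ⟨_, rfl⟩
  obtain ⟨b, hb⟩ : ∃ b, b = gL (F (fsN u (t + 1) x)) (F (fsN u (t + 1) (x + 1)))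
    (u 1 (t + 1) x) 0 := ⟨_, rfl⟩
  rw [← ha] at b1
  rw [← hc'] at b2
  rw [← hd] at b3
  rw [← hb] at b4
  obtain ⟨p, hp⟩ : ∃ p, p = u 0 t x 0 * u 1 (t + 1) x 0 * (u 0 t (x + 1) 0)⁻¹ * (u 1 t x 0)⁻¹ :=
    ⟨_, rfl⟩
  rw [← hp] at w0
  have e1 : a * b * c⁻¹ * d⁻¹ = (F (fsN u t x) 0)⁻¹ * p * F (fsN u t x) 0 := by
    rw [ha, hb, hc', hd, hp]
    unfold gL
    rw [gpl]
  obtain ⟨z0, hz0⟩ : ∃ z, z = lab (fsN u t x) (u 0 t x) (fsN u (t + 1) x) := ⟨_, rfl⟩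
  obtain ⟨z0', hz0'⟩ : ∃ z, z = lab (fsN u t (x + 1)) (u 0 t (x + 1)) (fsN u (t + 1) (x + 1)) :=
    ⟨_, rfl⟩
  obtain ⟨z1, hz1⟩ : ∃ z, z = lab (fsN u t x) (u 1 t x) (fsN u t (x + 1)) := ⟨_, rfl⟩
  obtain ⟨z1', hz1'⟩ : ∃ z, z = lab (fsN u (t + 1) x) (u 1 (t + 1) x) (fsN u (t + 1) (x + 1)) :=
    ⟨_, rfl⟩
  rw [← hz0] at b1
  rw [← hz0'] at b2
  rw [← hz1] at b3
  rw [← hz1'] at b4
  have hq : chN lab m u t x = z0 + z1' - z0' - z1 + (m : ZMod N) := by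
    unfold chN
    rw [← hz0, ← hz0', ← hz1, ← hz1']
  have e2 : zc hζ (z0 + z1' - z0' - z1) =
      zc hζ z0 * zc hζ z1' * (zc hζ z0')⁻¹ * (zc hζ z1)⁻¹ := by
    rw [zc_sub, zc_sub, zc_add]
  have s1 := dd_mul_mul (a * b * c⁻¹) d⁻¹ (zc hζ z0 * zc hζ z1' * (zc hζ z0')⁻¹) (zc hζ z1)⁻¹
  have s2 := dd_mul_mul (a * b) c⁻¹ (zc hζ z0 * zc hζ z1') (zc hζ z0')⁻¹
  have s3 := dd_mul_mul a b (zc hζ z0) (zc hζ z1')
  rw [dd_inv] at s1 s2
  have s4 : dd (a * b * c⁻¹ * d⁻¹) (zc hζ (z0 + z1' - z0' - z1)) ≤ 24 * C * Real.sqrt E := by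
    rw [e2]; linarith
  have s5 : dd (zc hζ (m : ZMod N) * (a * b * c⁻¹ * d⁻¹)) 1 ≤ 2 * Real.sqrt E := by
    have f1 : zc hζ (m : ZMod N) * (a * b * c⁻¹ * d⁻¹) =
        (F (fsN u t x) 0)⁻¹ * (zc hζ (m : ZMod N) * p) * F (fsN u t x) 0 := by
      rw [e1, ← mul_assoc, ← mul_assoc, zc_comm, ← mul_assoc, mul_assoc _ (zc hζ _) p]
    have f2 : dd (zc hζ (m : ZMod N) * (a * b * c⁻¹ * d⁻¹)) 1 = dd (zc hζ (m : ZMod N) * p) 1 := by
      rw [f1]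
      have g1 := dd_mul_right (zc hζ (m : ZMod N) * p) 1 (F (fsN u t x) 0)
      have g2 := dd_mul_left (zc hζ (m : ZMod N) * p * F (fsN u t x) 0) (1 * F (fsN u t x) 0)
        (F (fsN u t x) 0)⁻¹
      rw [← g1, ← g2]
      congr 1
      · group
      · group
    rw [f2]
    have g3 : dd (zc hζ (m : ZMod N) * p) 1 ^ 2 ≤ (2 * Real.sqrt E) ^ 2 := by
      rw [mul_pow, Real.sq_sqrt hE0]; linarith
    exact le_of_sq_le_sq g3 (by positivity)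
  have s6 : dd (zc hζ (m : ZMod N) * zc hζ (z0 + z1' - z0' - z1)) 1 < r := by
    have t1 := dd_triangle (zc hζ (m : ZMod N) * zc hζ (z0 + z1' - z0' - z1))
      (zc hζ (m : ZMod N) * (a * b * c⁻¹ * d⁻¹)) 1
    rw [dd_mul_left, dd_comm (zc hζ (z0 + z1' - z0' - z1)) (a * b * c⁻¹ * d⁻¹)] at t1
    linarith
  rw [← zc_add, ← zc_zero hζ] at s6
  have s7 : zc hζ ((m : ZMod N) + (z0 + z1' - z0' - z1)) = zc hζ 0 := by
    unfold zc at s6 ⊢
    exact hgap _ _ s6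
  rw [hq, add_comm]
  exact zc_inj hζ s7

end

end Run7.h4.VS
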