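import Mathlib
import Pool.Agent.Run7.h4.VS.Glue

/-!
# The energy of a rectangle with a charge
-/

open Matrix MeasureTheory
open Run7.h4.YM

namespace Run7.h4.VS

set_option linter.unusedSectionVars false
set_option linter.unusedVariables false

noncomputable section

variable {N l : ℕ} [NeZero N] [NeZero l] {k : ℕ} {hζ : IsPrimitiveRoot (om N k) N}
  {P0 Q0 : SU N} {F : FC N l → Fib l → SU N}
  {lab : FC N l → (Fib l → SU N) → FC N l → ZMod N} {C : ℝ}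

open Classical in
/-- frames over the boundary line -/
def gb (F : FC N l → Fib l → SU N) (a b : ℕ) (u : LC N l) (t x : ℕ) : Fib l → SU N :=
  if bdy a b t x then F (fsN u t x) else fun _ => 1

theorem gb_pos {a b t x : ℕ} (u : LC N l) (h : bdy a b t x) : gb F a b u t x = F (fsN u t x) := by
  unfold gb; rw [if_pos h]

/-- the configuration in the frames, without labels -/
def w1 (hζ : IsPrimitiveRoot (om N k) N) (F : FC N l → Fib l → SU N)
    (lab : FC N l → (Fib l → SU N) → FC N l → ZMod N) (a b : ℕ) (u : LC N l) : LC N l :=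
  cen hζ (fun t x => -lab (fsN u t x) (u 0 t x) (fsN u (t + 1) x))
    (fun t x => -lab (fsN u t x) (u 1 t x) (fsN u t (x + 1))) (gau (gb F a b u) u)

theorem cN_w1 (a b : ℕ) (u : LC N l) (m : ℕ) (t x : ℕ) :
    cN k (chN lab m u t x).val (w1 hζ F lab a b u) t x = cN k m u t x := by
  unfold w1
  rw [cN_cen hζ (m' := m), cN_gau]
  rw [ZMod.natCast_val, ZMod.cast_id]
  unfold chN
  ring

open Classical in
/-- the exact vacuum over the boundary line -/
def w2 (P0 Q0 : SU N) (a b : ℕ) (w : LC N l) : LC N l := fun i t x =>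
  if i = 0 then (if x = 0 ∨ x = b then fun _ => 1 else w 0 t x) else
  if i = 1 then (if t = 0 ∨ t = a then fun _ => 1 else w 1 t x) else
  if i = 2 then (if bdy a b t x then (vacF P0 Q0).1 else w 2 t x) else
  (if bdy a b t x then (vacF P0 Q0).2 else w 3 t x)

theorem w2_0 (P0 Q0 : SU N) (a b : ℕ) (w : LC N l) (t x : ℕ) :
    w2 P0 Q0 a b w 0 t x = if x = 0 ∨ x = b then fun _ => 1 else w 0 t x := rfl
theorem w2_1 (P0 Q0 : SU N) (a b : ℕ) (w : LC N l) (t x : ℕ) :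
    w2 P0 Q0 a b w 1 t x = if t = 0 ∨ t = a then fun _ => 1 else w 1 t x := rfl

open Classical in
theorem w2_2 (P0 Q0 : SU N) (a b : ℕ) (w : LC N l) (t x : ℕ) :
    w2 P0 Q0 a b w 2 t x = if bdy a b t x then (vacF P0 Q0).1 else w 2 t x := rfl

open Classical in
theorem w2_3 (P0 Q0 : SU N) (a b : ℕ) (w : LC N l) (t x : ℕ) :
    w2 P0 Q0 a b w 3 t x = if bdy a b t x then (vacF P0 Q0).2 else w 3 t x := rfl

theorem framed_w2 (P0 Q0 : SU N) (a b : ℕ) (w : LC N l) : Framed P0 Q0 a b (w2 P0 Q0 a b w) := by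
  refine ⟨fun t x h => ?_, fun t _ y => ?_, fun x _ y => ?_⟩
  · unfold fsN
    rw [w2_2, w2_3, if_pos h, if_pos h]
  · rw [w2_0, w2_0, if_pos (Or.inl rfl), if_pos (Or.inr rfl)]
    exact ⟨rfl, rfl⟩
  · rw [w2_1, w2_1, if_pos (Or.inl rfl), if_pos (Or.inr rfl)]
    exact ⟨rfl, rfl⟩

theorem Framed.agree {P0 Q0 : SU N} {a b : ℕ} {w w' : LC N l} (h : Framed P0 Q0 a b w)
    (h' : AgreeB a b w w') : Framed P0 Q0 a b w' := by
  refine ⟨fun t x hb => ?_, fun t ht y => ?_, fun x hx y => ?_⟩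
  · rw [h'.fib t x hb, h.fib t x hb]
  · rw [(h'.l0 t ht).1, (h'.l0 t ht).2]; exact h.l0 t ht y
  · rw [(h'.l1 x hx).1, (h'.l1 x hx).2]; exact h.l1 x hx y

/-- inner cells are not changed -/
theorem cN_w2_inner (m : ℕ) {a b t x : ℕ} (w : LC N l) (h1 : 0 < t) (h2 : t + 1 < a) (h3 : 0 < x)
    (h4 : x + 1 < b) : cN k m (w2 P0 Q0 a b w) t x = cN k m w t x := by
  have nb : ∀ t' x', (t' = t ∨ t' = t + 1) → (x' = x ∨ x' = x + 1) → ¬ bdy a b t' x' := by
    intro t' x' h5 h6 h7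
    unfold bdy at h7
    omega
  have f : ∀ t' x', (t' = t ∨ t' = t + 1) → (x' = x ∨ x' = x + 1) →
      fsN (w2 P0 Q0 a b w) t' x' = fsN w t' x' := by
    intro t' x' h5 h6
    unfold fsN
    rw [w2_2, w2_3, if_neg (nb t' x' h5 h6), if_neg (nb t' x' h5 h6)]
  unfold cN
  rw [f t x (by simp) (by simp), f (t + 1) x (by simp) (by simp), f t (x + 1) (by simp) (by simp),
    f (t + 1) (x + 1) (by simp) (by simp), w2_0, w2_0, w2_1, w2_1, if_neg (by omega),
    if_neg (by omega), if_neg (by omega), if_neg (by omega)]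

/-- cells at the boundary -/
theorem cN_w2 (h : Fra hζ P0 Q0 F lab C) (m : ℕ) {a b t x : ℕ} (ht : t < a) (hx : x < b)
    (u : LC N l) : cN k (chN lab m u t x).val (w2 P0 Q0 a b (w1 hζ F lab a b u)) t x ≤
      (2 + 3456 * (l : ℝ) ^ 2 * C ^ 2) * cN k m u t x := by
  obtain ⟨E, hE⟩ : ∃ E, E = cN k m u t x := ⟨_, rfl⟩
  have hE0 : 0 ≤ E := by rw [hE]; exact cN_nonneg hζ m u t x
  obtain ⟨v1, v2, v3, v4, k1, k2, k3, k4, -⟩ := cN_parts hζ m u t x (le_of_eq hE.symm)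
  have hC := h.pos
  have hη : 0 ≤ 6 * C * Real.sqrt E := by positivity
  -- fibres
  have f : ∀ t' x', VL k (fsN u t' x') ≤ 4 * E → ∀ y,
      dd (w2 P0 Q0 a b (w1 hζ F lab a b u) 2 t' x' y) (w1 hζ F lab a b u 2 t' x' y) ≤
        6 * C * Real.sqrt E ∧
      dd (w2 P0 Q0 a b (w1 hζ F lab a b u) 3 t' x' y) (w1 hζ F lab a b u 3 t' x' y) ≤
        6 * C * Real.sqrt E := by
    intro t' x' hV y
    rw [w2_2, w2_3]
    by_cases hb : bdy a b t' x'
    · rw [if_pos hb, if_pos hb, dd_comm ((vacF P0 Q0).1 y), dd_comm ((vacF P0 Q0).2 y)]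
      have e := h.frE hE0 hV y
      have e1 : gF (F (fsN u t' x')) (fsN u t' x') = fsN (w1 hζ F lab a b u) t' x' := by
        unfold w1
        rw [cen_f, gau_f, gb_pos u hb]
      rw [e1] at e
      exact e
    · rw [if_neg hb, if_neg hb, dd_self, dd_self]
      exact ⟨hη, hη⟩
  -- the links
  have g0 : ∀ x', (x' = x ∨ x' = x + 1) → VL k (fsN u t x') ≤ 4 * E →
      VL k (fsN u (t + 1) x') ≤ 4 * E → KL (fsN u t x') (u 0 t x') (fsN u (t + 1) x') ≤ 2 * E →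
      ∀ y, dd (w2 P0 Q0 a b (w1 hζ F lab a b u) 0 t x' y) (w1 hζ F lab a b u 0 t x' y) ≤
        6 * C * Real.sqrt E := by
    intro x' hx' h1 h2 h3 y
    rw [w2_0]
    by_cases hb : x' = 0 ∨ x' = b
    · rw [if_pos hb]
      have b1 : bdy a b t x' := by unfold bdy; omega
      have b2 : bdy a b (t + 1) x' := by unfold bdy; omega
      have e1 : w1 hζ F lab a b u 0 t x' y =
          zc hζ (-lab (fsN u t x') (u 0 t x') (fsN u (t + 1) x')) *
          gL (F (fsN u t x')) (F (fsN u (t + 1) x')) (u 0 t x') y := by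
        unfold w1
        rw [cen_0, gau_0, gb_pos u b1, gb_pos u b2]
      have e2 := h.lkE hE0 h1 h2 h3 y
      rw [e1, zc_neg, dd_comm]
      have e3 := dd_mul_left (gL (F (fsN u t x')) (F (fsN u (t + 1) x')) (u 0 t x') y)
        (zc hζ (lab (fsN u t x') (u 0 t x') (fsN u (t + 1) x')))
        (zc hζ (lab (fsN u t x') (u 0 t x') (fsN u (t + 1) x')))⁻¹
      rw [inv_mul_cancel] at e3
      rw [e3]
      exact e2
    · rw [if_neg hb, dd_self]; exact hη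
  have g1 : ∀ t', (t' = t ∨ t' = t + 1) → VL k (fsN u t' x) ≤ 4 * E →
      VL k (fsN u t' (x + 1)) ≤ 4 * E → KL (fsN u t' x) (u 1 t' x) (fsN u t' (x + 1)) ≤ 2 * E →
      ∀ y, dd (w2 P0 Q0 a b (w1 hζ F lab a b u) 1 t' x y) (w1 hζ F lab a b u 1 t' x y) ≤
        6 * C * Real.sqrt E := by
    intro t' ht' h1 h2 h3 y
    rw [w2_1]
    by_cases hb : t' = 0 ∨ t' = a
    · rw [if_pos hb]
      have b1 : bdy a b t' x := by unfold bdy; omega
      have b2 : bdy a b t' (x + 1) := by unfold bdy; omega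
      have e1 : w1 hζ F lab a b u 1 t' x y =
          zc hζ (-lab (fsN u t' x) (u 1 t' x) (fsN u t' (x + 1))) *
          gL (F (fsN u t' x)) (F (fsN u t' (x + 1))) (u 1 t' x) y := by
        unfold w1
        rw [cen_1, gau_1, gb_pos u b1, gb_pos u b2]
      have e2 := h.lkE hE0 h1 h2 h3 y
      rw [e1, zc_neg, dd_comm]
      have e3 := dd_mul_left (gL (F (fsN u t' x)) (F (fsN u t' (x + 1))) (u 1 t' x) y)
        (zc hζ (lab (fsN u t' x) (u 1 t' x) (fsN u t' (x + 1))))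
        (zc hζ (lab (fsN u t' x) (u 1 t' x) (fsN u t' (x + 1))))⁻¹
      rw [inv_mul_cancel] at e3
      rw [e3]
      exact e2
    · rw [if_neg hb, dd_self]; exact hη
  have main := cN_change hζ (chN lab m u t x).val (w2 P0 Q0 a b (w1 hζ F lab a b u))
    (w1 hζ F lab a b u) t x (f t x v1) (f (t + 1) x v2) (f t (x + 1) v3) (f (t + 1) (x + 1) v4)
    (g0 x (Or.inl rfl) v1 v2 k1) (g0 (x + 1) (Or.inr rfl) v3 v4 k2) (g1 t (Or.inl rfl) v1 v3 k3)
    (g1 (t + 1) (Or.inr rfl) v2 v4 k4)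
  rw [cN_w1, ← hE] at main
  rw [← hE]
  refine main.trans (le_of_eq ?_)
  have hs : Real.sqrt E ^ 2 = E := Real.sq_sqrt hE0
  calc 2 * E + 96 * (l : ℝ) ^ 2 * (6 * C * Real.sqrt E) ^ 2
      = 2 * E + 3456 * (l : ℝ) ^ 2 * C ^ 2 * Real.sqrt E ^ 2 := by ring
    _ = _ := by rw [hs]; ring

theorem sum_ring (a b : ℕ) (g : ℕ → ℕ → ℝ) : (∑ p ∈ ring a b, g p.1 p.2) =
    ∑ t ∈ Finset.range a, ∑ x ∈ Finset.range b,
      if (t = 0 ∨ t + 1 = a ∨ x = 0 ∨ x + 1 = b) then g t x else 0 := by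
  unfold ring
  rw [Finset.sum_filter, Finset.sum_product]

theorem EN_nonneg (hζ : IsPrimitiveRoot (om N k) N) (m : ℕ → ℕ → ℕ) (a b : ℕ) (u : LC N l) :
    0 ≤ EN k m a b u :=
  Finset.sum_nonneg fun _ _ => Finset.sum_nonneg fun _ _ => cN_nonneg hζ _ _ _ _

theorem SF_bdd (hζ : IsPrimitiveRoot (om N k) N) (P0 Q0 : SU N) (l : ℕ) [NeZero l] (i : ℕ) :
    BddBelow {E | ∃ (a b : ℕ) (u : LC N l), 1 ≤ a ∧ 1 ≤ b ∧ Framed P0 Q0 a b u ∧
      E = EN k (corner i) a b u} :=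
  ⟨0, by rintro E ⟨a, b, u, -, -, -, rfl⟩; exact EN_nonneg hζ _ _ _ _⟩

theorem SF_le (hζ : IsPrimitiveRoot (om N k) N) {i a b : ℕ} {u : LC N l} (ha : 1 ≤ a) (hb : 1 ≤ b)
    (hu : Framed P0 Q0 a b u) : SF k P0 Q0 l i ≤ EN k (corner i) a b u :=
  csInf_le (SF_bdd (N := N) (k := k) hζ P0 Q0 l i) ⟨a, b, u, ha, hb, hu, rfl⟩

/-- the energy of a rectangle and of its ring -/
theorem Fra.key (h : Fra hζ P0 Q0 F lab C) (m : ℕ → ℕ → ℕ) (u : LC N l) (a b : ℕ) (ha : 1 ≤ a)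
    (hb : 1 ≤ b) (i : ℕ)
    (hi : (∑ t ∈ Finset.range a, ∑ x ∈ Finset.range b, chN lab (m t x) u t x) = (i : ZMod N)) :
    SF k P0 Q0 l i ≤ EN k m a b u +
      (1 + 3456 * (l : ℝ) ^ 2 * C ^ 2) * ∑ p ∈ ring a b, cN k (m p.1 p.2) u p.1 p.2 := by
  obtain ⟨w', h1, h2⟩ := move (N := N) (l := l) (k := k) hζ a b ha hb
    (fun t x => chN lab (m t x) u t x) (w2 P0 Q0 a b (w1 hζ F lab a b u)) i hi
  have h3 := SF_le (N := N) (l := l) (k := k) hζ (i := i) ha hb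
    ((framed_w2 P0 Q0 a b (w1 hζ F lab a b u)).agree h1)
  rw [h2] at h3
  refine h3.trans ?_
  rw [sum_ring a b fun t x => cN k (m t x) u t x]
  unfold EN
  rw [Finset.mul_sum, ← Finset.sum_add_distrib]
  refine Finset.sum_le_sum fun t ht => ?_
  rw [Finset.mul_sum, ← Finset.sum_add_distrib]
  refine Finset.sum_le_sum fun x hx => ?_
  rw [Finset.mem_range] at ht hx
  by_cases hr : t = 0 ∨ t + 1 = a ∨ x = 0 ∨ x + 1 = b
  · rw [if_pos hr]
    have := cN_w2 h (m t x) ht hx u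
    linarith
  · rw [if_neg hr, mul_zero, add_zero]
    rw [cN_w2_inner _ _ (by omega) (by omega) (by omega) (by omega), cN_w1]

/-- KEY from FR and LK -/
theorem key_of (hFR : StFR) (hLK : StLK) : StKEY := by
  intro N k l _ _ hζ P0 Q0 hs
  obtain ⟨F, lab, C, h⟩ := exists_fra (N := N) (l := l) (k := k) hζ hFR hLK hs
  obtain ⟨δ0, hδ0, hgood⟩ := h.good
  exact ⟨lab, δ0, 1 + 3456 * (l : ℝ) ^ 2 * C ^ 2, hδ0, by positivity, hgood,
    fun m u a b ha hb _ i hi => h.key m u a b ha hb i hi⟩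

end

end Run7.h4.VS
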