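import Mathlib
import Pool.Agent.Run7.h4.VS.Key

/-!
# Stokes on a rectangle, positivity of the action of a vortex
-/

open MeasureTheory Matrix Filter Topology
open Run7.h4.YM

namespace Run7.h4.VS

set_option linter.unusedSectionVars false
set_option linter.unusedVariables false

noncomputable section

/-- Stokes on a rectangle -/
theorem stokes {R : Type*} [AddCommGroup R] (A B : ℕ → ℕ → R) (a b : ℕ) :
    (∑ t ∈ Finset.range a, ∑ x ∈ Finset.range b, (A t x + B (t + 1) x - A t (x + 1) - B t x)) =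
      ∑ t ∈ Finset.range a, (A t 0 - A t b) + ∑ x ∈ Finset.range b, (B a x - B 0 x) := by
  have h1 : ∀ t x, A t x + B (t + 1) x - A t (x + 1) - B t x =
      (A t x - A t (x + 1)) + (B (t + 1) x - B t x) := fun t x => by abel
  simp only [h1, Finset.sum_add_distrib]
  congr 1
  · exact Finset.sum_congr rfl fun t _ => Finset.sum_range_sub' (fun x => A t x) b
  · rw [Finset.sum_comm]
    exact Finset.sum_congr rfl fun x _ => Finset.sum_range_sub (fun t => B t x) a

variable {N l : ℕ} [NeZero N] [NeZero l] {k : ℕ}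

/-- the vacuum over the quadrant -/
def vacN (P0 Q0 : SU N) : LC N l := fun i t x =>
  if i = 0 then fun _ => 1 else if i = 1 then fun _ => 1 else
  if i = 2 then (vacF P0 Q0).1 else (vacF P0 Q0).2

theorem vacN_0 (P0 Q0 : SU N) (t x : ℕ) : (vacN P0 Q0 : LC N l) 0 t x = fun _ => 1 := rfl
theorem vacN_1 (P0 Q0 : SU N) (t x : ℕ) : (vacN P0 Q0 : LC N l) 1 t x = fun _ => 1 := rfl
theorem vacN_f (P0 Q0 : SU N) (t x : ℕ) : fsN (vacN P0 Q0 : LC N l) t x = vacF P0 Q0 := rfl

theorem framed_vacN (P0 Q0 : SU N) (a b : ℕ) : Framed P0 Q0 a b (vacN P0 Q0 : LC N l) :=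
  ⟨fun t x _ => rfl, fun t _ y => ⟨rfl, rfl⟩, fun x _ y => ⟨rfl, rfl⟩⟩

theorem SF_nonempty (P0 Q0 : SU N) (i : ℕ) :
    Set.Nonempty {E | ∃ (a b : ℕ) (u : LC N l), 1 ≤ a ∧ 1 ≤ b ∧ Framed P0 Q0 a b u ∧
      E = EN k (corner i) a b u} :=
  ⟨_, 1, 1, vacN P0 Q0, le_refl 1, le_refl 1, framed_vacN P0 Q0 1 1, rfl⟩

theorem sum_corner {a b : ℕ} (ha : 1 ≤ a) (hb : 1 ≤ b) (i : ℕ) :
    (∑ t ∈ Finset.range a, ∑ x ∈ Finset.range b, ((corner i t x : ℕ) : ZMod N)) = (i : ZMod N) := by
  rw [Finset.sum_eq_single 0]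
  · rw [Finset.sum_eq_single 0]
    · simp [corner]
    · intro x _ hx; simp [corner, hx]
    · intro h; exact absurd (Finset.mem_range.mpr hb) h
  · intro t _ ht
    exact Finset.sum_eq_zero fun x _ => by simp [corner, ht]
  · intro h; exact absurd (Finset.mem_range.mpr ha) h

/-- the total charge of a framed configuration -/
theorem Framed.charge {P0 Q0 : SU N} {a b : ℕ} {u : LC N l} (h : Framed P0 Q0 a b u) (ha : 1 ≤ a)
    (hb : 1 ≤ b) (lab : FC N l → (Fib l → SU N) → FC N l → ZMod N) (i : ℕ) :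
    (∑ t ∈ Finset.range a, ∑ x ∈ Finset.range b, chN lab (corner i t x) u t x) = (i : ZMod N) := by
  unfold chN
  have e := stokes (fun t x => lab (fsN u t x) (u 0 t x) (fsN u (t + 1) x))
    (fun t x => lab (fsN u t x) (u 1 t x) (fsN u t (x + 1))) a b
  have e2 : ∀ t ∈ Finset.range a, ((fun t x => lab (fsN u t x) (u 0 t x) (fsN u (t + 1) x)) t 0 -
      (fun t x => lab (fsN u t x) (u 0 t x) (fsN u (t + 1) x)) t b) = 0 := by
    intro t ht
    rw [Finset.mem_range] at ht
    simp only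
    have f1 := h.fib t 0 (by unfold bdy; omega)
    have f2 := h.fib (t + 1) 0 (by unfold bdy; omega)
    have f3 := h.fib t b (by unfold bdy; omega)
    have f4 := h.fib (t + 1) b (by unfold bdy; omega)
    have g1 : u 0 t 0 = fun _ => 1 := funext fun y => (h.l0 t ht y).1
    have g2 : u 0 t b = fun _ => 1 := funext fun y => (h.l0 t ht y).2
    rw [f1, f2, f3, f4, g1, g2, sub_self]
  have e3 : ∀ x ∈ Finset.range b, ((fun t x => lab (fsN u t x) (u 1 t x) (fsN u t (x + 1))) a x -
      (fun t x => lab (fsN u t x) (u 1 t x) (fsN u t (x + 1))) 0 x) = 0 := by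
    intro x hx
    rw [Finset.mem_range] at hx
    simp only
    have f1 := h.fib a x (by unfold bdy; omega)
    have f2 := h.fib a (x + 1) (by unfold bdy; omega)
    have f3 := h.fib 0 x (by unfold bdy; omega)
    have f4 := h.fib 0 (x + 1) (by unfold bdy; omega)
    have g1 : u 1 a x = fun _ => 1 := funext fun y => (h.l1 x hx y).2
    have g2 : u 1 0 x = fun _ => 1 := funext fun y => (h.l1 x hx y).1
    rw [f1, f2, f3, f4, g1, g2, sub_self]
  rw [Finset.sum_eq_zero e2, Finset.sum_eq_zero e3, add_zero] at e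
  simp only [Finset.sum_add_distrib] at e ⊢
  rw [sum_corner ha hb i]
  rw [e, zero_add]

/-- vortices have a positive action -/
theorem SF_pos (hζ : IsPrimitiveRoot (om N k) N) {P0 Q0 : SU N} {δ0 : ℝ} (hδ0 : 0 < δ0)
    {lab : FC N l → (Fib l → SU N) → FC N l → ZMod N}
    (hgood : ∀ (m : ℕ) (u : LC N l) (t x : ℕ), cN k m u t x < δ0 → chN lab m u t x = 0)
    {i : ℕ} (hi : ¬ N ∣ i) : δ0 ≤ SF k P0 Q0 l i := by
  refine le_csInf (SF_nonempty P0 Q0 i) ?_
  rintro E ⟨a, b, u, ha, hb, hu, rfl⟩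
  by_contra hlt
  rw [not_le] at hlt
  apply hi
  rw [← ZMod.natCast_eq_zero_iff, ← hu.charge ha hb lab i]
  refine Finset.sum_eq_zero fun t ht => Finset.sum_eq_zero fun x hx => hgood _ _ _ _ ?_
  refine lt_of_le_of_lt ?_ hlt
  unfold EN
  refine (Finset.single_le_sum (f := fun x => cN k (corner i t x) u t x)
    (fun x _ => cN_nonneg hζ _ _ _ _) hx).trans ?_
  exact Finset.single_le_sum (f := fun t => ∑ x ∈ Finset.range b, cN k (corner i t x) u t x)
    (fun t _ => Finset.sum_nonneg fun x _ => cN_nonneg hζ _ _ _ _) ht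

/-- the action depends on the flux modulo `N` -/
theorem SF_congr (hζ : IsPrimitiveRoot (om N k) N) (P0 Q0 : SU N) {i j : ℕ}
    (h : (i : ZMod N) = (j : ZMod N)) : SF k P0 Q0 l i = SF k P0 Q0 l j := by
  unfold SF
  congr 1
  ext E
  have e : ∀ (a b : ℕ) (u : LC N l), EN k (corner i) a b u = EN k (corner j) a b u := by
    intro a b u
    unfold EN
    refine Finset.sum_congr rfl fun t _ => Finset.sum_congr rfl fun x _ => cN_congr hζ ?_ _ _ _
    unfold corner
    split_ifs
    · exact h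
    · rfl
  simp only [e]

end

end Run7.h4.VS
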