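import Mathlib
import Pool.Agent.Run7.h4.YM.Vac

/-!
# The chessboard bound for the energy of a rectangle
-/

open MeasureTheory Matrix
open Run7.h4.YM

namespace Run7.h4.VS

set_option linter.unusedSectionVars false

section

variable {Ω : Type*} [MeasurableSpace Ω]

/-- The chessboard estimate for products over an even number of columns. -/
theorem chessK (S : RS Ω) {m : ℕ} [NeZero m] (T : Ω → Ω) (hT : MeasurePreserving T S.P S.P)
    (hw : ∀ U, S.w (T U) = S.w U) (q : ZMod (2 * m) → Ω → ℝ) (hq : ∀ t, Bd (q t))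
    (hpos : ∀ t U, 0 < q t U) (hqT : ∀ t U, q t (T U) = q (t + 1) U)
    (hqθ : ∀ t U, q t (S.θ U) = q (-t - 1) U)
    (had : ∀ a, a ≤ m → S.Ad (fun U => ∏ i ∈ Finset.range a, q (i : ZMod (2 * m)) U))
    {j : ℕ} (hj : 0 < j) (hjm : j ≤ m) :
    (S.I (fun U => ∏ i ∈ Finset.range (2 * j), q (i : ZMod (2 * m)) U) / S.I (fun _ => 1)) ^ m ≤
      (S.I (fun U => ∏ t, q t U) / S.I (fun _ => 1)) ^ j := by
  have hm : 0 < m := Nat.pos_of_ne_zero (NeZero.ne m)
  set Q : ℕ → Ω → ℝ := fun a U => ∏ i ∈ Finset.range a, q (i : ZMod (2 * m)) U with hQ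
  have hQbd : ∀ a, Bd (Q a) := fun a => Bd.prod _ fun i _ => hq _
  have hQpos : ∀ a U, 0 < Q a U := fun a U => Finset.prod_pos fun i _ => hpos _ _
  set E : ℕ → ℝ := fun a => S.I (Q a) with hE
  have hqk : ∀ (k : ℕ) (t : ZMod (2 * m)) U, q t (T^[k] U) = q (t + k) U := by
    intro k
    induction k with
    | zero => intro t U; simp
    | succ k ih =>
      intro t U
      rw [Function.iterate_succ, Function.comp, ih, hqT]
      push_cast
      congr 1
      ring
  have hform : ∀ a c : ℕ, S.b (Q a) (Q c) = E (a + c) := by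
    intro a c
    have h1 : S.b (Q a) (Q c) = S.I (fun U => Q a U * ∏ i ∈ Finset.range c, q (-(i : ZMod (2 * m)) - 1) U) := by
      unfold RS.b RS.I
      congr 1
      funext U
      simp only [hQ, hqθ]
    have h2 : Bd (fun U => Q a U * ∏ i ∈ Finset.range c, q (-(i : ZMod (2 * m)) - 1) U) :=
      (hQbd a).mul (Bd.prod _ fun i _ => hq _)
    rw [h1, ← S.I_shift (hT.iterate c) (iter_w hw c) h2]
    simp only [hE]
    congr 1
    funext U
    simp only [hQ, hqk]
    rw [add_comm a c, Finset.prod_range_add, mul_comm]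
    congr 1
    · rw [← Finset.prod_range_reflect]
      refine Finset.prod_congr rfl fun i hi => ?_
      rw [Finset.mem_range] at hi
      congr 1
      have : ((c - 1 - i : ℕ) : ZMod (2 * m)) = (c : ZMod (2 * m)) - 1 - i := by
        rw [Nat.cast_sub (by omega), Nat.cast_sub (by omega)]
        simp
      rw [this]; ring
    · refine Finset.prod_congr rfl fun i _ => ?_
      congr 1
      push_cast; ring
  have hcs : ∀ a c : ℕ, a ≤ m → c ≤ m → E (a + c) ^ 2 ≤ E (2 * a) * E (2 * c) := by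
    intro a c ha hc
    have := S.cs1 (hQbd a) (hQbd c) (had a ha) (had c hc)
    rw [hform, hform, hform] at this
    rw [two_mul, two_mul]
    exact this
  have hEpos : ∀ a, 0 < E a := fun a => S.I_pos (hQbd a) (hQpos a)
  have h0 : E 0 = S.I (fun _ => 1) := by
    simp [hE, hQ]
  have hlast : E (2 * m) = S.I (fun U => ∏ t, q t U) := by
    simp only [hE, hQ]
    congr 1
    funext U
    rw [prod_zmod]
  have hE0 := hEpos 0
  have key := lc_ratio (a := fun k => E (2 * k)) (M := m) (by simpa using hE0) (hEpos _)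
    (fun k hk => by
      have := hcs k (k + 2) (by omega) (by omega)
      have e : k + (k + 2) = 2 * (k + 1) := by ring
      rw [e] at this
      exact this) (j := j) (k := m) hj hjm (le_refl m)
  simp only [mul_zero] at key
  rw [← h0, ← hlast]
  exact key

end

noncomputable section

variable {N : ℕ} {l m m' : ℕ} [NeZero l] [NeZero m] [NeZero m']
  [MeasurableSpace (SU N)] [BorelSpace (SU N)] (μ : Measure (SU N)) [IsProbabilityMeasure μ]
  [μ.IsInvInvariant]

/-- the energy of a rectangle of cells at the origin -/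
def ER (k a b : ℕ) {n L : ℕ} [NeZero n] [NeZero L] (U : Link n L l → SU N) : ℝ :=
  ∑ i ∈ Finset.range a, ∑ j ∈ Finset.range b, cell k U (i : ZMod n) (j : ZMod L)

theorem bd_ER (k a b : ℕ) {n L : ℕ} [NeZero n] [NeZero L] :
    Bd (fun U : Link n L l → SU N => ER k a b U) :=
  Bd.sum _ fun _ _ => Bd.sum _ fun _ _ => bd_cell _ _ _

theorem region1 (k : ℕ) (β : ℝ) (a : ℕ) {j : ℕ} (hj : 0 < j) (hjm : j ≤ m') :
    (II μ k β (fun U : Cf N m m' l => Real.exp (β * ER k a (2 * j) U)) /
      ZZ μ m m' l k β) ^ m' ≤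
      (II μ k β (fun U : Cf N m m' l => Real.exp (β * ∑ i ∈ Finset.range a, ∑ x,
        cell k U (i : ZMod (2 * m)) x)) / ZZ μ m m' l k β) ^ j := by
  have h := chessK (S1 μ (2 * m) m' l k β) (m := m') T1 (mp_T1 μ)
    (fun U => by
      show Real.exp (-(β * action k (T1 U))) = Real.exp (-(β * action k U))
      rw [action_T1])
    (fun x U => Real.exp (β * ∑ i ∈ Finset.range a, cell k U (i : ZMod (2 * m)) x))
    (fun x => ((Bd.sum _ fun i _ => bd_cell k _ x).smul β).exp)
    (fun x U => Real.exp_pos _)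
    (fun x U => by
      show Real.exp (β * ∑ i ∈ Finset.range a, cell k (T1 U) (i : ZMod (2 * m)) x) =
        Real.exp (β * ∑ i ∈ Finset.range a, cell k U (i : ZMod (2 * m)) (x + 1))
      simp only [cell_T1])
    (fun x U => by
      show Real.exp (β * ∑ i ∈ Finset.range a, cell k ((r1 (2 * m) m' l).θ U)
        (i : ZMod (2 * m)) x) =
        Real.exp (β * ∑ i ∈ Finset.range a, cell k U (i : ZMod (2 * m)) (-x - 1))
      simp only [cell_r1])
    (fun c hc U V h => by
      show ∏ x ∈ Finset.range c, Real.exp (β * ∑ i ∈ Finset.range a,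
          cell k U (i : ZMod (2 * m)) (x : ZMod (2 * m'))) =
        ∏ x ∈ Finset.range c, Real.exp (β * ∑ i ∈ Finset.range a,
          cell k V (i : ZMod (2 * m)) (x : ZMod (2 * m')))
      refine Finset.prod_congr rfl fun x hx => ?_
      have e : ∀ i : ZMod (2 * m), cell k U i (x : ZMod (2 * m')) =
          cell k V i (x : ZMod (2 * m')) := fun i =>
        cell_dep1 (lt_of_lt_of_le (Finset.mem_range.mp hx) hc) i h
      simp only [e]) hj hjm
  have e : ∀ U : Cf N m m' l, ∏ x, Real.exp (β * ∑ i ∈ Finset.range a,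
      cell k U (i : ZMod (2 * m)) x) =
      Real.exp (β * ∑ i ∈ Finset.range a, ∑ x, cell k U (i : ZMod (2 * m)) x) := fun U => by
    rw [← Real.exp_sum, ← Finset.mul_sum, Finset.sum_comm]
  have e' : ∀ U : Cf N m m' l, ∏ x ∈ Finset.range (2 * j), Real.exp (β * ∑ i ∈ Finset.range a,
      cell k U (i : ZMod (2 * m)) (x : ZMod (2 * m'))) = Real.exp (β * ER k a (2 * j) U) :=
    fun U => by
    unfold ER
    rw [← Real.exp_sum, ← Finset.mul_sum, Finset.sum_comm]
  simp only [e, e'] at h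
  exact h

theorem region0 (k : ℕ) (β : ℝ) {j : ℕ} (hj : 0 < j) (hjm : j ≤ m) :
    (II μ k β (fun U : Cf N m m' l => Real.exp (β * ∑ i ∈ Finset.range (2 * j), ∑ x,
        cell k U (i : ZMod (2 * m)) x)) / ZZ μ m m' l k β) ^ m ≤
      (1 / ZZ μ m m' l k β) ^ j := by
  have h := chessK (S0 μ m (2 * m') l k β) (m := m) T0 (mp_T0 μ)
    (fun U => by
      show Real.exp (-(β * action k (T0 U))) = Real.exp (-(β * action k U))
      rw [action_T0])
    (fun t U => Real.exp (β * ∑ x, cell k U t x))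
    (fun t => ((Bd.sum _ fun x _ => bd_cell k t x).smul β).exp)
    (fun x U => Real.exp_pos _)
    (fun t U => by
      show Real.exp (β * ∑ x, cell k (T0 U) t x) = Real.exp (β * ∑ x, cell k U (t + 1) x)
      simp only [cell_T0])
    (fun t U => by
      show Real.exp (β * ∑ x, cell k ((r0 m (2 * m') l).θ U) t x) =
        Real.exp (β * ∑ x, cell k U (-t - 1) x)
      simp only [cell_r0])
    (fun a ha U V h => by
      show ∏ i ∈ Finset.range a, Real.exp (β * ∑ x, cell k U (i : ZMod (2 * m)) x) =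
        ∏ i ∈ Finset.range a, Real.exp (β * ∑ x, cell k V (i : ZMod (2 * m)) x)
      refine Finset.prod_congr rfl fun i hi => ?_
      have e : ∀ x, cell k U (i : ZMod (2 * m)) x = cell k V (i : ZMod (2 * m)) x :=
        fun x => cell_dep0 (lt_of_lt_of_le (Finset.mem_range.mp hi) ha) x h
      simp only [e]) hj hjm
  have e : ∀ U : Cf N m m' l, ∏ t, Real.exp (β * ∑ x, cell k U t x) =
      Real.exp (β * action k U) := fun U => by
    rw [← Real.exp_sum, ← Finset.mul_sum, action_cell]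
  have e' : ∀ U : Cf N m m' l, ∏ i ∈ Finset.range (2 * j), Real.exp (β * ∑ x,
      cell k U (i : ZMod (2 * m)) x) = Real.exp (β * ∑ i ∈ Finset.range (2 * j), ∑ x,
        cell k U (i : ZMod (2 * m)) x) := fun U => by
    rw [← Real.exp_sum, ← Finset.mul_sum]
  have e1 : II μ k β (fun U : Cf N m m' l => Real.exp (β * action k U)) = 1 := by
    unfold II
    have : ∀ U : Cf N m m' l, Real.exp (β * action k U) * Real.exp (-(β * action k U)) = 1 :=
      fun U => by rw [← Real.exp_add, add_neg_cancel, Real.exp_zero]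
    simp only [this]
    simp
  simp only [e, e'] at h
  have h' : (II μ k β (fun U : Cf N m m' l => Real.exp (β * ∑ i ∈ Finset.range (2 * j), ∑ x,
        cell k U (i : ZMod (2 * m)) x)) / ZZ μ m m' l k β) ^ m ≤
      (II μ k β (fun U : Cf N m m' l => Real.exp (β * action k U)) / ZZ μ m m' l k β) ^ j := h
  rw [e1] at h'
  exact h'

theorem II_pos (k : ℕ) (β : ℝ) {f : Cf N m m' l → ℝ} (hf : Bd f) (h : ∀ U, 0 < f U) :
    0 < II μ k β f := (S0 μ m (2 * m') l k β).I_pos hf h

variable [NeZero N] [μ.IsHaarMeasure]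

/-- the exponential moment of the energy of a rectangle -/
theorem region {k : ℕ} (hζ : IsPrimitiveRoot (om N k) N) {β η : ℝ} (hβ : 0 ≤ β) (hη : 0 < η)
    {j j' : ℕ} (hj : 0 < j) (hj' : 0 < j') (hjm : j ≤ m) (hjm' : j' ≤ m') :
    II μ k β (fun U : Cf N m m' l => Real.exp (β * ER k (2 * j) (2 * j') U)) ≤
      ((ball μ η ^ (4 * l ^ 2))⁻¹ * Real.exp (β * (48 * (l : ℝ) ^ 2 * η ^ 2))) ^ (4 * j * j') *
        ZZ μ m m' l k β := by
  have hZ := ZZ_pos (m := m) (m' := m') (l := l) μ k β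
  have h1 := region1 (m := m) (m' := m') (l := l) μ k β (2 * j) hj' hjm'
  have h0 := region0 (m := m) (m' := m') (l := l) μ k β hj hjm
  have hlow := ZZ_lower (l := l) hζ μ (m := m) (m' := m') (η := η) hβ
  obtain ⟨y, hy⟩ : ∃ y, y = ball μ η ^ (4 * l ^ 2) * Real.exp (-(β * (48 * (l : ℝ) ^ 2 * η ^ 2))) :=
    ⟨_, rfl⟩
  have hb := ball_pos μ hη
  have hy0 : 0 < y := by rw [hy]; positivity
  rw [← hy] at hlow
  obtain ⟨X, hX⟩ : ∃ X, X = II μ k β (fun U : Cf N m m' l =>
    Real.exp (β * ER k (2 * j) (2 * j') U)) / ZZ μ m m' l k β := ⟨_, rfl⟩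
  obtain ⟨Y, hY⟩ : ∃ Y, Y = II μ k β (fun U : Cf N m m' l => Real.exp (β * ∑ i ∈
    Finset.range (2 * j), ∑ x, cell k U (i : ZMod (2 * m)) x)) / ZZ μ m m' l k β := ⟨_, rfl⟩
  rw [← hX, ← hY] at h1
  rw [← hY] at h0
  have hX0 : 0 ≤ X := by
    rw [hX]
    exact div_nonneg (II_pos μ k β (((bd_ER k _ _).smul β).exp) fun _ => Real.exp_pos _).le hZ.le
  have hY0 : 0 ≤ Y := by
    rw [hY]
    refine div_nonneg (II_pos μ k β ?_ fun _ => Real.exp_pos _).le hZ.le
    exact ((Bd.sum _ fun _ _ => Bd.sum _ fun _ _ => bd_cell _ _ _).smul β).exp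
  have hm : 0 < m := NeZero.pos m
  have hm' : 0 < m' := NeZero.pos m'
  have e1 : X ^ (m' * m) ≤ (1 / ZZ μ m m' l k β) ^ (j * j') := by
    calc X ^ (m' * m) = (X ^ m') ^ m := pow_mul _ _ _
      _ ≤ (Y ^ j') ^ m := pow_le_pow_left₀ (pow_nonneg hX0 _) h1 _
      _ = (Y ^ m) ^ j' := by rw [← pow_mul, ← pow_mul, mul_comm]
      _ ≤ ((1 / ZZ μ m m' l k β) ^ j) ^ j' := pow_le_pow_left₀ (pow_nonneg hY0 _) h0 _
      _ = _ := by rw [← pow_mul]
  have e2 : 1 / ZZ μ m m' l k β ≤ (1 / y) ^ (2 * m' * (2 * m)) := by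
    rw [_root_.one_div_pow]
    exact one_div_le_one_div_of_le (by positivity) hlow
  have e3 : X ^ (m' * m) ≤ ((1 / y) ^ (4 * j * j')) ^ (m' * m) := by
    refine e1.trans ((pow_le_pow_left₀ (by positivity) e2 _).trans (le_of_eq ?_))
    rw [← pow_mul, ← pow_mul]
    congr 1
    ring
  have e4 : X ≤ (1 / y) ^ (4 * j * j') :=
    (pow_le_pow_iff_left₀ hX0 (by positivity) (by positivity)).mp e3
  rw [hX, div_le_iff₀ hZ] at e4
  refine e4.trans (le_of_eq ?_)
  congr 2
  rw [hy, one_div, mul_inv, ← Real.exp_neg, neg_neg]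

end

end Run7.h4.VS
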