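import Mathlib
import Pool.Agent.Run7.h4.VS.Key
import Pool.Agent.Run7.h4.VS.Region
import Pool.Agent.Run7.h630.R2.Dc

/-!
# The torus with both fluxes
-/

open MeasureTheory Matrix
open Run7.h4.YM

namespace Run7.h4.VS

set_option linter.unusedSectionVars false
set_option linter.unusedVariables false

noncomputable section

section defs

variable {N n L l : ℕ} [NeZero n] [NeZero L] [NeZero l]

/-- energy of the base plaquettes with flux -/
def Wm (k m : ℕ) (U : Link n L l → SU N) (t : ZMod n) (x : ZMod L) : ℝ :=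
  ∑ y : Fib l, aw (om N k ^ m) (U (0, t, x, y) * U (1, t + 1, x, y) *
    (U (0, t, x + 1, y))⁻¹ * (U (1, t, x, y))⁻¹)

/-- energy of a cell of the torus with flux -/
def cT (k m : ℕ) (U : Link n L l → SU N) (t : ZMod n) (x : ZMod L) : ℝ :=
  (Vf k U t x + Vf k U (t + 1) x + Vf k U t (x + 1) + Vf k U (t + 1) (x + 1)) / 4 +
  (K0 U t x + K0 U t (x + 1) + K1 U t x + K1 U (t + 1) x) / 2 + Wm k m U t x

/-- the action with the flux `f` -/
def AT (k : ℕ) (f : ZMod n → ZMod L → ZMod N) (U : Link n L l → SU N) : ℝ :=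
  ∑ t, ∑ x, cT k (f t x).val U t x

/-- the flux `i` at the cell `(s, r)` -/
def fl (i : ZMod N) (s : ZMod n) (r : ZMod L) (t : ZMod n) (x : ZMod L) : ZMod N :=
  if t = s ∧ x = r then i else 0

/-- the lift of a configuration, from the cell `(s, r)` -/
def lift (s : ZMod n) (r : ZMod L) (U : Link n L l → SU N) : LC N l :=
  fun i t x y => U (i, s + (t : ZMod n), r + (x : ZMod L), y)

theorem cast_succ' {n : ℕ} (s : ZMod n) (t : ℕ) : s + ((t + 1 : ℕ) : ZMod n) = s + t + 1 := by
  push_cast; ring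

theorem cN_lift [NeZero N] (k m : ℕ) (s : ZMod n) (r : ZMod L) (U : Link n L l → SU N) (t x : ℕ) :
    cN k m (lift s r U) t x = cT k m U (s + t) (r + x) := by
  unfold cN cT Wm
  have hf : ∀ t x : ℕ, fsN (lift s r U) t x = fs U (s + t) (r + x) := fun t x => rfl
  have h0 : ∀ t x : ℕ, lift s r U 0 t x = fun y => U (0, s + t, r + x, y) := fun t x => rfl
  have h1 : ∀ t x : ℕ, lift s r U 1 t x = fun y => U (1, s + t, r + x, y) := fun t x => rfl
  simp only [hf, h0, h1, cast_succ', Vf_eq, K0_eq, K1_eq]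

theorem lift_shift (s : ZMod n) (r : ZMod L) (U : Link n L l → SU N) (t x : ℕ) :
    lift (s + (t : ZMod n)) (r + (x : ZMod L)) U =
      fun i t' x' => lift s r U i (t + t') (x + x') := by
  funext i t' x' y
  unfold lift
  push_cast
  rw [add_assoc, add_assoc]

theorem cT_zero (k : ℕ) (U : Link n L l → SU N) (t : ZMod n) (x : ZMod L) :
    cT k 0 U t x = cell k U t x := by
  unfold cT cell Wm Wf
  rw [pow_zero]

theorem AT_zero (k : ℕ) (U : Link n L l → SU N) : AT k (fun _ _ => 0) U = action k U := by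
  unfold AT
  rw [action_cell]
  simp only [ZMod.val_zero, cT_zero]

end defs

section pos

variable {N n L l : ℕ} [NeZero N] [NeZero n] [NeZero L] [NeZero l] {k : ℕ}
  (hζ : IsPrimitiveRoot (om N k) N)

theorem cT_lift (k m : ℕ) (U : Link n L l → SU N) (t : ZMod n) (x : ZMod L) :
    cT k m U t x = cN k m (lift t x U) 0 0 := by
  rw [cN_lift]
  simp

include hζ in
theorem cT_nonneg (m : ℕ) (U : Link n L l → SU N) (t : ZMod n) (x : ZMod L) : 0 ≤ cT k m U t x := by
  rw [cT_lift]; exact cN_nonneg hζ _ _ _ _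

/-- centre multiplications on the torus -/
def cenT (c : ZMod n × ZMod L → Fin 2 → ZMod N) (U : Link n L l → SU N) : Link n L l → SU N :=
  fun e => zc hζ (if e.1 = 0 then c (e.2.1, e.2.2.1) 0 else
    if e.1 = 1 then c (e.2.1, e.2.2.1) 1 else 0) * U e

theorem lift_cenT (c : ZMod n × ZMod L → Fin 2 → ZMod N) (s : ZMod n) (r : ZMod L)
    (U : Link n L l → SU N) : lift s r (cenT hζ c U) =
      cen hζ (fun t x => c (s + t, r + x) 0) (fun t x => c (s + t, r + x) 1) (lift s r U) := by
  funext i t x y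
  unfold lift cenT
  fin_cases i
  · rfl
  · rfl
  · show zc hζ 0 * U (2, s + t, r + x, y) = U (2, s + t, r + x, y)
    rw [zc_zero, one_mul]
  · show zc hζ 0 * U (3, s + t, r + x, y) = U (3, s + t, r + x, y)
    rw [zc_zero, one_mul]

theorem cT_cenT (c : ZMod n × ZMod L → Fin 2 → ZMod N) (U : Link n L l → SU N) {m m' : ℕ}
    {t : ZMod n} {x : ZMod L}
    (h : (m' : ZMod N) = m + (c (t, x) 0 + c (t + 1, x) 1 - c (t, x + 1) 0 - c (t, x) 1)) :
    cT k m (cenT hζ c U) t x = cT k m' U t x := by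
  rw [cT_lift, cT_lift, lift_cenT]
  refine cN_cen hζ _ _ _ ?_
  rw [h]
  simp

theorem mp_cenT [MeasurableSpace (SU N)] [BorelSpace (SU N)] (μ : Measure (SU N))
    [IsProbabilityMeasure μ] [μ.IsMulLeftInvariant] (c : ZMod n × ZMod L → Fin 2 → ZMod N) :
    MeasurePreserving (cenT hζ c : (Link n L l → SU N) → (Link n L l → SU N))
      (Measure.pi fun _ : Link n L l => μ) (Measure.pi fun _ : Link n L l => μ) := by
  exact mp_gen μ (Equiv.refl _) (fun (e : Link n L l) (g : SU N) =>
    zc hζ (if e.1 = 0 then c (e.2.1, e.2.2.1) 0 else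
    if e.1 = 1 then c (e.2.1, e.2.2.1) 1 else 0) * g) (fun e => measurePreserving_mul_left μ _)

/-- the flux can be moved -/
theorem exists_move (i : ZMod N) (s : ZMod n) (r : ZMod L) :
    ∃ c : ZMod n × ZMod L → Fin 2 → ZMod N, ∀ (U : Link n L l → SU N) (t : ZMod n) (x : ZMod L),
      cT k (fl i 0 0 t x).val (cenT hζ c U) t x = cT k (fl i s r t x).val U t x := by
  obtain ⟨c, hc⟩ := Pool.Agent.Run7.h630.R2.dc_range
    (fun u : ZMod n × ZMod L => fl i s r u.1 u.2 - fl i 0 0 u.1 u.2) (by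
      rw [Finset.sum_sub_distrib, Fintype.sum_prod_type, Fintype.sum_prod_type]
      have h : ∀ (s : ZMod n) (r : ZMod L), (∑ t, ∑ x, fl i s r t x) = i := by
        intro s r
        unfold fl
        rw [Finset.sum_eq_single s]
        · rw [Finset.sum_eq_single r]
          · simp
          · intro x _ hx; simp [hx]
          · simp
        · intro t _ ht
          simp [ht]
        · simp
      rw [h, h, sub_self])
  refine ⟨c, fun U t x => cT_cenT hζ c U ?_⟩
  rw [ZMod.natCast_val, ZMod.cast_id, ZMod.natCast_val, ZMod.cast_id]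
  have h1 := hc (t, x)
  simp only [Prod.mk_add_mk, add_zero] at h1
  rw [h1]
  ring

/-- labels on the torus -/
def chT (lab : FC N l → (Fib l → SU N) → FC N l → ZMod N) (m : ℕ) (U : Link n L l → SU N)
    (t : ZMod n) (x : ZMod L) : ZMod N := chN lab m (lift t x U) 0 0

theorem chT_lift (lab : FC N l → (Fib l → SU N) → FC N l → ZMod N) (m : ℕ)
    (U : Link n L l → SU N) (s : ZMod n) (r : ZMod L) (t x : ℕ) :
    chN lab m (lift s r U) t x = chT lab m U (s + t) (r + x) := by
  unfold chT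
  rw [lift_shift]
  rfl

theorem chT_eq (lab : FC N l → (Fib l → SU N) → FC N l → ZMod N) (m : ℕ)
    (U : Link n L l → SU N) (t : ZMod n) (x : ZMod L) :
    chT lab m U t x = lab (fs U t x) (fun y => U (0, t, x, y)) (fs U (t + 1) x) +
      lab (fs U (t + 1) x) (fun y => U (1, t + 1, x, y)) (fs U (t + 1) (x + 1)) -
      lab (fs U t (x + 1)) (fun y => U (0, t, x + 1, y)) (fs U (t + 1) (x + 1)) -
      lab (fs U t x) (fun y => U (1, t, x, y)) (fs U t (x + 1)) + (m : ZMod N) := by
  unfold chT chN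
  have hf : ∀ t' x' : ℕ, fsN (lift t x U) t' x' = fs U (t + t') (x + x') := fun _ _ => rfl
  have h0 : ∀ t' x' : ℕ, lift t x U 0 t' x' = fun y => U (0, t + t', x + x', y) := fun _ _ => rfl
  have h1 : ∀ t' x' : ℕ, lift t x U 1 t' x' = fun y => U (1, t + t', x + x', y) := fun _ _ => rfl
  simp only [hf, h0, h1, cast_succ', Nat.cast_zero, add_zero]

/-- the total charge is the total flux -/
theorem sum_chT (lab : FC N l → (Fib l → SU N) → FC N l → ZMod N)
    (f : ZMod n → ZMod L → ZMod N) (U : Link n L l → SU N) :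
    (∑ t, ∑ x, chT lab (f t x).val U t x) = ∑ t, ∑ x, f t x := by
  have ht : ∀ g : ZMod n → ZMod L → ZMod N, ∑ t, ∑ x, g (t + 1) x = ∑ t, ∑ x, g t x := fun g =>
    Equiv.sum_comp (Equiv.addRight (1 : ZMod n)) (fun t => ∑ x, g t x)
  have hx : ∀ g : ZMod n → ZMod L → ZMod N, ∑ t, ∑ x, g t (x + 1) = ∑ t, ∑ x, g t x := fun g =>
    Finset.sum_congr rfl fun t _ => Equiv.sum_comp (Equiv.addRight (1 : ZMod L)) (fun x => g t x)
  simp only [chT_eq, Finset.sum_add_distrib, Finset.sum_sub_distrib]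
  rw [ht (fun t x => lab (fs U t x) (fun y => U (1, t, x, y)) (fs U t (x + 1))),
    hx (fun t x => lab (fs U t x) (fun y => U (0, t, x, y)) (fs U (t + 1) x))]
  have hm : ∀ t x, (((f t x).val : ℕ) : ZMod N) = f t x := fun t x => by
    rw [ZMod.natCast_val, ZMod.cast_id]
  simp only [hm]
  ring

theorem sum_fl (i : ZMod N) (s : ZMod n) (r : ZMod L) : (∑ t, ∑ x, fl i s r t x) = i := by
  unfold fl
  rw [Finset.sum_eq_single s]
  · rw [Finset.sum_eq_single r]
    · simp
    · intro x _ hx; simp [hx]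
    · simp
  · intro t _ ht
    simp [ht]
  · simp

end pos

end

end Run7.h4.VS
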