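import Mathlib
import Pool.Agent.Run7.h4.VS.Pos
import Pool.Agent.Run7.h4.VS.Torus

/-!
# The minimal action on large tori
-/

open MeasureTheory Matrix Filter Topology
open Run7.h4.YM

namespace Run7.h4.VS

set_option linter.unusedSectionVars false
set_option linter.unusedVariables false

noncomputable section

section vac

variable {N l : ℕ} [NeZero N] [NeZero l] {k : ℕ} (hζ : IsPrimitiveRoot (om N k) N)
  {P0 Q0 : SU N}

theorem Std.rel' {hζ : IsPrimitiveRoot (om N k) N} (hs : Std N k hζ P0 Q0) :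
    cz hζ 1 * (P0 * Q0) = Q0 * P0 := by
  apply Subtype.ext
  rw [hs.rel, coe_mul' (cz hζ 1), cz_val, pow_one, smul_mul_assoc, one_mul]

theorem aw_one_one : aw 1 (1 : SU N) = 0 := by
  rw [aw_one_eq, dd_self]; norm_num

theorem VL_vacF {hζ : IsPrimitiveRoot (om N k) N} (hs : Std N k hζ P0 Q0) :
    VL k (vacF P0 Q0 : FC N l) = 0 := by
  unfold VL
  refine Finset.sum_eq_zero fun y _ => ?_
  have h1 : tz hζ y * ((vacF P0 Q0 : FC N l).1 y * (vacF P0 Q0 : FC N l).2 (y + (1, 0)) *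
      ((vacF P0 Q0 : FC N l).1 (y + (0, 1)))⁻¹ * ((vacF P0 Q0 : FC N l).2 y)⁻¹) = 1 := by
    obtain ⟨a, b⟩ := y
    unfold vacF tz
    simp only [Prod.mk_add_mk, add_zero]
    by_cases ha : a = 0
    · by_cases hb : b = 0
      · subst ha; subst hb
        simp only [if_true, Prod.mk_zero_zero]
        rw [← mul_assoc, ← mul_assoc, hs.rel']
        group
      · simp [ha, hb]
    · by_cases hb : b = 0
      · simp [ha, hb]
      · simp [ha, hb]
  rw [aw_twf hζ, h1, aw_one_one]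

theorem KL_one (s : FC N l) : KL s (fun _ => 1) s = 0 := by
  unfold KL
  refine Finset.sum_eq_zero fun y _ => ?_
  simp [aw_one_one]

/-- a vacuum cell -/
theorem cN_vac {hζ : IsPrimitiveRoot (om N k) N} (hs : Std N k hζ P0 Q0) {u : LC N l} {t x : ℕ}
    (f1 : fsN u t x = vacF P0 Q0) (f2 : fsN u (t + 1) x = vacF P0 Q0)
    (f3 : fsN u t (x + 1) = vacF P0 Q0) (f4 : fsN u (t + 1) (x + 1) = vacF P0 Q0)
    (a1 : u 0 t x = fun _ => 1) (a2 : u 0 t (x + 1) = fun _ => 1)
    (b1 : u 1 t x = fun _ => 1) (b2 : u 1 (t + 1) x = fun _ => 1) : cN k 0 u t x = 0 := by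
  unfold cN
  rw [f1, f2, f3, f4, a1, a2, b1, b2, VL_vacF hs, KL_one, pow_zero]
  simp [aw_one_one]

/-- a cell depends on its links only -/
theorem cN_local {m : ℕ} {u v : LC N l} {t x t' x' : ℕ} (f1 : fsN u t x = fsN v t' x')
    (f2 : fsN u (t + 1) x = fsN v (t' + 1) x') (f3 : fsN u t (x + 1) = fsN v t' (x' + 1))
    (f4 : fsN u (t + 1) (x + 1) = fsN v (t' + 1) (x' + 1))
    (a1 : u 0 t x = v 0 t' x') (a2 : u 0 t (x + 1) = v 0 t' (x' + 1))
    (b1 : u 1 t x = v 1 t' x') (b2 : u 1 (t + 1) x = v 1 (t' + 1) x') :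
    cN k m u t x = cN k m v t' x' := by
  unfold cN
  rw [f1, f2, f3, f4, a1, a2, b1, b2]

end vac

section ext

variable {N l : ℕ} [NeZero N] [NeZero l] {k : ℕ} {P0 Q0 : SU N}

/-- the extension by the vacuum -/
def uext (P0 Q0 : SU N) (a b : ℕ) (u : LC N l) : LC N l := fun i t x =>
  if i = 0 then (if t < a ∧ x ≤ b then u 0 t x else fun _ => 1) else
  if i = 1 then (if t ≤ a ∧ x < b then u 1 t x else fun _ => 1) else
  if i = 2 then (if t ≤ a ∧ x ≤ b then u 2 t x else (vacF P0 Q0).1) else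
  (if t ≤ a ∧ x ≤ b then u 3 t x else (vacF P0 Q0).2)

theorem uext_0 (a b : ℕ) (u : LC N l) (t x : ℕ) : uext P0 Q0 a b u 0 t x =
    if t < a ∧ x ≤ b then u 0 t x else fun _ => 1 := rfl
theorem uext_1 (a b : ℕ) (u : LC N l) (t x : ℕ) : uext P0 Q0 a b u 1 t x =
    if t ≤ a ∧ x < b then u 1 t x else fun _ => 1 := rfl
theorem uext_f (a b : ℕ) (u : LC N l) (t x : ℕ) : fsN (uext P0 Q0 a b u) t x =
    if t ≤ a ∧ x ≤ b then fsN u t x else vacF P0 Q0 := by
  unfold fsN
  show (uext P0 Q0 a b u 2 t x, uext P0 Q0 a b u 3 t x) = _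
  by_cases h : t ≤ a ∧ x ≤ b
  · rw [if_pos h]
    show ((if t ≤ a ∧ x ≤ b then u 2 t x else (vacF P0 Q0).1),
      (if t ≤ a ∧ x ≤ b then u 3 t x else (vacF P0 Q0).2)) = _
    rw [if_pos h, if_pos h]
  · rw [if_neg h]
    show ((if t ≤ a ∧ x ≤ b then u 2 t x else (vacF P0 Q0).1),
      (if t ≤ a ∧ x ≤ b then u 3 t x else (vacF P0 Q0).2)) = _
    rw [if_neg h, if_neg h]

variable {a b : ℕ} {u : LC N l}

theorem ext_v0 (hu : Framed P0 Q0 a b u) {t x : ℕ} (h : ¬(t < a ∧ 0 < x ∧ x < b)) :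
    uext P0 Q0 a b u 0 t x = fun _ => 1 := by
  rw [uext_0]
  split_ifs with h1
  · have : x = 0 ∨ x = b := by omega
    rcases this with rfl | rfl
    · exact funext fun y => (hu.l0 t h1.1 y).1
    · exact funext fun y => (hu.l0 t h1.1 y).2
  · rfl

theorem ext_v1 (hu : Framed P0 Q0 a b u) {t x : ℕ} (h : ¬(0 < t ∧ t < a ∧ x < b)) :
    uext P0 Q0 a b u 1 t x = fun _ => 1 := by
  rw [uext_1]
  split_ifs with h1
  · have : t = 0 ∨ t = a := by omega
    rcases this with rfl | rfl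
    · exact funext fun y => (hu.l1 x h1.2 y).1
    · exact funext fun y => (hu.l1 x h1.2 y).2
  · rfl

theorem ext_vf (hu : Framed P0 Q0 a b u) {t x : ℕ} (h : ¬(0 < t ∧ t < a ∧ 0 < x ∧ x < b)) :
    fsN (uext P0 Q0 a b u) t x = vacF P0 Q0 := by
  rw [uext_f]
  split_ifs with h1
  · exact hu.fib t x (by unfold bdy; omega)
  · rfl

variable {n L : ℕ} [NeZero n] [NeZero L]

/-- a configuration of the torus from one of the quadrant -/
def tor (n L : ℕ) (v : LC N l) : Link n L l → SU N := fun e => v e.1 e.2.1.val e.2.2.1.val e.2.2.2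

theorem lift_tor (v : LC N l) (i : Fin 4) (t x : ℕ) :
    lift (0 : ZMod n) (0 : ZMod L) (tor n L v) i t x = v i (t % n) (x % L) := by
  funext y
  unfold lift tor
  simp only [zero_add, ZMod.val_natCast]

theorem lift_tor_f (v : LC N l) (t x : ℕ) :
    fsN (lift (0 : ZMod n) (0 : ZMod L) (tor n L v)) t x = fsN v (t % n) (x % L) := by
  unfold fsN
  rw [lift_tor, lift_tor]

theorem mod_succ' {n t : ℕ} (h : t < n) : (t + 1) % n = t + 1 ∨ (t + 1 = n ∧ (t + 1) % n = 0) := by
  rcases Nat.lt_or_ge (t + 1) n with h1 | h1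
  · exact Or.inl (Nat.mod_eq_of_lt h1)
  · have : t + 1 = n := by omega
    exact Or.inr ⟨this, by rw [this, Nat.mod_self]⟩

/-- the action of the extension -/
theorem AT_tor {hζ : IsPrimitiveRoot (om N k) N} (hs : Std N k hζ P0 Q0)
    (hu : Framed P0 Q0 a b u) (ha : 1 ≤ a) (hb : 1 ≤ b) (hn : a < n) (hL : b < L) (i : ℕ) :
    AT k (fl (i : ZMod N) 0 0) (tor n L (uext P0 Q0 a b u)) = EN k (corner i) a b u := by
  have h1 : AT k (fl (i : ZMod N) 0 0) (tor n L (uext P0 Q0 a b u)) =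
      ∑ t ∈ Finset.range n, ∑ x ∈ Finset.range L,
        if t < a ∧ x < b then cN k (corner i t x) u t x else 0 := by
    unfold AT
    rw [sum_zmod]
    refine Finset.sum_congr rfl fun t ht => ?_
    rw [sum_zmod]
    refine Finset.sum_congr rfl fun x hx => ?_
    rw [Finset.mem_range] at ht hx
    have e1 := cN_lift k (fl (i : ZMod N) 0 0 (t : ZMod n) (x : ZMod L)).val (0 : ZMod n)
      (0 : ZMod L) (tor n L (uext P0 Q0 a b u)) t x
    rw [zero_add, zero_add] at e1
    rw [← e1]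
    have ht' : t % n = t := Nat.mod_eq_of_lt ht
    have hx' : x % L = x := Nat.mod_eq_of_lt hx
    by_cases hc : t < a ∧ x < b
    · rw [if_pos hc]
      have ht1 : (t + 1) % n = t + 1 := Nat.mod_eq_of_lt (by omega)
      have hx1 : (x + 1) % L = x + 1 := Nat.mod_eq_of_lt (by omega)
      have e2 : cN k (fl (i : ZMod N) 0 0 (t : ZMod n) (x : ZMod L)).val
          (lift (0 : ZMod n) (0 : ZMod L) (tor n L (uext P0 Q0 a b u))) t x =
          cN k (fl (i : ZMod N) 0 0 (t : ZMod n) (x : ZMod L)).val u t x := by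
        refine cN_local ?_ ?_ ?_ ?_ ?_ ?_ ?_ ?_
        · rw [lift_tor_f, ht', hx', uext_f, if_pos (by omega)]
        · rw [lift_tor_f, ht1, hx', uext_f, if_pos (by omega)]
        · rw [lift_tor_f, ht', hx1, uext_f, if_pos (by omega)]
        · rw [lift_tor_f, ht1, hx1, uext_f, if_pos (by omega)]
        · rw [lift_tor, ht', hx', uext_0, if_pos (by omega)]
        · rw [lift_tor, ht', hx1, uext_0, if_pos (by omega)]
        · rw [lift_tor, ht', hx', uext_1, if_pos (by omega)]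
        · rw [lift_tor, ht1, hx', uext_1, if_pos (by omega)]
      rw [e2]
      refine cN_congr hζ ?_ _ _ _
      rw [ZMod.natCast_val, ZMod.cast_id]
      unfold fl corner
      by_cases h0 : t = 0 ∧ x = 0
      · obtain ⟨rfl, rfl⟩ := h0
        simp
      · rw [if_neg h0, if_neg]
        · simp
        · rintro ⟨h2, h3⟩
          apply h0
          rw [ZMod.natCast_eq_zero_iff] at h2 h3
          exact ⟨Nat.eq_zero_of_dvd_of_lt h2 ht, Nat.eq_zero_of_dvd_of_lt h3 hx⟩
    · rw [if_neg hc]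
      have e3 : (fl (i : ZMod N) 0 0 (t : ZMod n) (x : ZMod L)).val = 0 := by
        unfold fl
        rw [if_neg, ZMod.val_zero]
        rintro ⟨h2, h3⟩
        rw [ZMod.natCast_eq_zero_iff] at h2 h3
        have := Nat.eq_zero_of_dvd_of_lt h2 ht
        have := Nat.eq_zero_of_dvd_of_lt h3 hx
        omega
      rw [e3]
      have mt := mod_succ' ht
      have mx := mod_succ' hx
      refine cN_vac hs ?_ ?_ ?_ ?_ ?_ ?_ ?_ ?_
      · rw [lift_tor_f, ht', hx']; exact ext_vf hu (by omega)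
      · rw [lift_tor_f, hx']; exact ext_vf hu (by omega)
      · rw [lift_tor_f, ht']; exact ext_vf hu (by omega)
      · rw [lift_tor_f]; exact ext_vf hu (by omega)
      · rw [lift_tor, ht', hx']; exact ext_v0 hu (by omega)
      · rw [lift_tor, ht']; exact ext_v0 hu (by omega)
      · rw [lift_tor, ht', hx']; exact ext_v1 hu (by omega)
      · rw [lift_tor, hx']; exact ext_v1 hu (by omega)
  rw [h1]
  unfold EN
  rw [← Finset.sum_subset (Finset.range_mono hn.le) (fun t _ ht => ?_)]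
  · refine Finset.sum_congr rfl fun t ht => ?_
    rw [← Finset.sum_subset (Finset.range_mono hL.le) (fun x _ hx => ?_)]
    · refine Finset.sum_congr rfl fun x hx => ?_
      rw [Finset.mem_range] at ht hx
      rw [if_pos ⟨ht, hx⟩]
    · rw [Finset.mem_range] at hx
      rw [if_neg (fun h => hx h.2)]
  · rw [Finset.mem_range] at ht
    exact Finset.sum_eq_zero fun x _ => by rw [if_neg (fun h => ht h.1)]

end ext

end

end Run7.h4.VS
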