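import Mathlib
import Pool.Agent.Run7.h4.VS.Torus

/-!
# Upper bound for the partition function with a vortex
-/

open MeasureTheory Matrix Filter Topology
open Run7.h4.YM

namespace Run7.h4.VS

set_option linter.unusedSectionVars false
set_option linter.unusedVariables false

noncomputable section

section

variable {N n L l : ℕ} [NeZero N] [NeZero n] [NeZero L] [NeZero l] {k : ℕ}
  (hζ : IsPrimitiveRoot (om N k) N)

/-- energy of a square -/
def EB (k K : ℕ) (f : ZMod n → ZMod L → ZMod N) (s : ZMod n) (r : ZMod L)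
    (U : Link n L l → SU N) : ℝ :=
  ∑ t ∈ Finset.range K, ∑ x ∈ Finset.range K, cT k (f (s + t) (r + x)).val U (s + t) (r + x)

omit [NeZero n] [NeZero L] [NeZero l] in
theorem mul_zero_of {c : ℕ} {z : ZMod N} (h : N ∣ c * z.val) : (c : ZMod N) * z = 0 := by
  have h4 := (ZMod.natCast_eq_zero_iff (c * z.val) N).mpr h
  rw [Nat.cast_mul, ZMod.natCast_val, ZMod.cast_id] at h4
  exact h4

include hζ in
/-- some square has at least the energy of a vortex -/
theorem square_of {P0 Q0 : SU N} {c : ℕ} {S δ0 C ε1 : ℝ} {K : ℕ}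
    {lab : FC N l → (Fib l → SU N) → FC N l → ZMod N}
    (hgood : ∀ (m : ℕ) (u : LC N l) (t x : ℕ), cN k m u t x < δ0 → chN lab m u t x = 0)
    (hkey : ∀ (m : ℕ → ℕ → ℕ) (u : LC N l) (a b : ℕ), 1 ≤ a → 1 ≤ b →
      (∀ p ∈ ring a b, cN k (m p.1 p.2) u p.1 p.2 < δ0) → ∀ i : ℕ,
      (∑ t ∈ Finset.range a, ∑ x ∈ Finset.range b, chN lab (m t x) u t x) = (i : ZMod N) →
      SF k P0 Q0 l i ≤ EN k m a b u + C * ∑ p ∈ ring a b, cN k (m p.1 p.2) u p.1 p.2)
    (hS : ∀ i : ℕ, ¬ N ∣ c * i → S ≤ SF k P0 Q0 l i)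
    (hcomb : ∀ (e : ZMod n → ZMod L → ℝ) (q : ZMod n → ZMod L → ZMod N), (∀ t x, 0 ≤ e t x) →
    (∀ t x, e t x < δ0 → q t x = 0) →
    (∀ (s : ZMod n) (r : ZMod L) (a b : ℕ), 1 ≤ a → 1 ≤ b → a ≤ K → b ≤ K →
      (∀ p ∈ ring a b, e (s + p.1) (r + p.2) < δ0) →
      (c : ZMod N) * (∑ t ∈ Finset.range a, ∑ x ∈ Finset.range b, q (s + t) (r + x)) ≠ 0 →
      S ≤ (∑ t ∈ Finset.range a, ∑ x ∈ Finset.range b, e (s + t) (r + x)) +
        C * ∑ p ∈ ring a b, e (s + p.1) (r + p.2)) →
    (c : ZMod N) * (∑ t, ∑ x, q t x) ≠ 0 →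
    ∃ (s : ZMod n) (r : ZMod L),
      S - ε1 ≤ ∑ t ∈ Finset.range K, ∑ x ∈ Finset.range K, e (s + t) (r + x))
    (f : ZMod n → ZMod L → ZMod N) (hf : (c : ZMod N) * (∑ t, ∑ x, f t x) ≠ 0)
    (U : Link n L l → SU N) : ∃ (s : ZMod n) (r : ZMod L), S - ε1 ≤ EB k K f s r U := by
  refine hcomb (fun t x => cT k (f t x).val U t x) (fun t x => chT lab (f t x).val U t x)
    (fun t x => cT_nonneg hζ _ _ _ _) (fun t x h => ?_) (fun s r a b ha hb _ _ hr hq => ?_) ?_
  · refine hgood _ _ _ _ ?_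
    rw [← cT_lift]; exact h
  · obtain ⟨Q, hQ⟩ : ∃ Q, Q = ∑ t ∈ Finset.range a, ∑ x ∈ Finset.range b,
          chT lab (f (s + t) (r + x)).val U (s + t) (r + x) := ⟨_, rfl⟩
    have hq' : (c : ZMod N) * Q ≠ 0 := by rw [hQ]; exact hq
    have h1 : (∑ t ∈ Finset.range a, ∑ x ∈ Finset.range b,
        chN lab (f (s + t) (r + x)).val (lift s r U) t x) = ((Q.val : ℕ) : ZMod N) := by
      rw [ZMod.natCast_val, ZMod.cast_id, hQ]
      refine Finset.sum_congr rfl fun t _ => Finset.sum_congr rfl fun x _ => ?_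
      rw [chT_lift]
    have h2 := hkey (fun t x => (f (s + t) (r + x)).val) (lift s r U) a b ha hb
      (fun p hp => by
        rw [cN_lift]
        exact hr p hp) Q.val h1
    have h3 := hS Q.val (fun hd => hq' (mul_zero_of hd))
    refine h3.trans (h2.trans (le_of_eq ?_))
    unfold EN
    simp only [cN_lift]
  · rw [sum_chT]
    exact hf

theorem natCast_ne {n : ℕ} [NeZero n] {t : ℕ} (h0 : t ≠ 0) (h1 : t < n) (s : ZMod n) :
    s + (t : ZMod n) ≠ s := by
  intro h
  have h2 : (t : ZMod n) = 0 := by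
    have := add_eq_left.mp h
    exact this
  rw [ZMod.natCast_eq_zero_iff] at h2
  exact h0 (Nat.eq_zero_of_dvd_of_lt h2 h1)

/-- the energy outside of the square does not see a flux inside -/
theorem AT_sub_EB {K : ℕ} (hK : 0 < K) (hn : K ≤ n) (hL : K ≤ L) (i : ZMod N) (s : ZMod n)
    (r : ZMod L) (U : Link n L l → SU N) :
    AT k (fl i s r) U - EB k K (fl i s r) s r U =
      action k U - ∑ t ∈ Finset.range K, ∑ x ∈ Finset.range K, cell k U (s + t) (r + x) := by
  have h1 : AT k (fl i s r) U - action k U = cT k i.val U s r - cell k U s r := by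
    rw [← AT_zero k U]
    unfold AT
    rw [← Finset.sum_sub_distrib, Finset.sum_eq_single s]
    · rw [← Finset.sum_sub_distrib, Finset.sum_eq_single r]
      · unfold fl; rw [if_pos ⟨rfl, rfl⟩, ZMod.val_zero, cT_zero]
      · intro x _ hx
        unfold fl
        rw [if_neg (fun h => hx h.2), sub_self]
      · simp
    · intro t _ ht
      rw [← Finset.sum_sub_distrib]
      refine Finset.sum_eq_zero fun x _ => ?_
      unfold fl
      rw [if_neg (fun h => ht h.1), sub_self]
    · simp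
  have h2 : EB k K (fl i s r) s r U -
      ∑ t ∈ Finset.range K, ∑ x ∈ Finset.range K, cell k U (s + t) (r + x) =
        cT k i.val U s r - cell k U s r := by
    unfold EB
    rw [← Finset.sum_sub_distrib, Finset.sum_eq_single 0]
    · rw [← Finset.sum_sub_distrib, Finset.sum_eq_single 0]
      · simp [fl]
      · intro x hx hx0
        unfold fl
        rw [if_neg (fun h => natCast_ne hx0 (lt_of_lt_of_le (Finset.mem_range.mp hx) hL) r h.2),
          ZMod.val_zero, cT_zero, sub_self]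
      · intro h; exact absurd (Finset.mem_range.mpr hK) h
    · intro t ht ht0
      rw [← Finset.sum_sub_distrib]
      refine Finset.sum_eq_zero fun x _ => ?_
      unfold fl
      rw [if_neg (fun h => natCast_ne ht0 (lt_of_lt_of_le (Finset.mem_range.mp ht) hn) s h.1),
        ZMod.val_zero, cT_zero, sub_self]
    · intro h; exact absurd (Finset.mem_range.mpr hK) h
  linarith

variable [MeasurableSpace (SU N)] [BorelSpace (SU N)] (μ : Measure (SU N)) [IsProbabilityMeasure μ]

theorem cont_cT (m : ℕ) (t : ZMod n) (x : ZMod L) :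
    Continuous fun U : Link n L l → SU N => cT k m U t x := by
  have h : ∀ U : Link n L l → SU N, cT k m U t x = cell k U t x + (Wm k m U t x - Wm k 0 U t x) := by
    intro U
    rw [← cT_zero]
    unfold cT
    ring
  have hW : ∀ m, Continuous fun U : Link n L l → SU N => Wm k m U t x := by
    intro m
    unfold Wm
    exact continuous_finsetSum _ fun y _ => cont_aw4 _ (continuous_apply _) (continuous_apply _)
      (continuous_apply _) (continuous_apply _)
  have h2 : (fun U : Link n L l → SU N => cT k m U t x) =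
      fun U => cell k U t x + (Wm k m U t x - Wm k 0 U t x) := funext h
  rw [h2]
  exact (cont_cell k t x).add ((hW m).sub (hW 0))

theorem cont_AT (f : ZMod n → ZMod L → ZMod N) :
    Continuous fun U : Link n L l → SU N => AT k f U :=
  continuous_finsetSum _ fun t _ => continuous_finsetSum _ fun x _ => cont_cT _ _ _

theorem cont_EB (K : ℕ) (f : ZMod n → ZMod L → ZMod N) (s : ZMod n) (r : ZMod L) :
    Continuous fun U : Link n L l → SU N => EB k K f s r U :=
  continuous_finsetSum _ fun t _ => continuous_finsetSum _ fun x _ => cont_cT _ _ _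

/-- the partition function with both fluxes -/
def Zi (μ : Measure (SU N)) (n L l k : ℕ) [NeZero n] [NeZero L] [NeZero l] (i : ZMod N) (β : ℝ) :
    ℝ := ∫ U : Link n L l → SU N, Real.exp (-(β * AT k (fl i 0 0) U)) ∂(Measure.pi fun _ => μ)

end

section

variable {N m m' l : ℕ} [NeZero N] [NeZero m] [NeZero m'] [NeZero l] {k : ℕ}
  (hζ : IsPrimitiveRoot (om N k) N)
  [MeasurableSpace (SU N)] [BorelSpace (SU N)] (μ : Measure (SU N)) [IsProbabilityMeasure μ]
  [μ.IsHaarMeasure]

theorem II_T0i [μ.IsInvInvariant] (k : ℕ) (β : ℝ) (i : ℕ) {f : Cf N m m' l → ℝ} (hf : Bd f) :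
    II μ k β (fun U => f (T0^[i] U)) = II μ k β f := by
  induction i generalizing f with
  | zero => rfl
  | succ i ih =>
    have h : (fun U : Cf N m m' l => f (T0^[i + 1] U)) =
        fun U => (fun V => f (T0^[i] V)) (T0 U) := by
      funext U
      rw [Function.iterate_succ]
      rfl
    rw [h, II_T0 μ k β (f := fun V => f (T0^[i] V)) (hf.comp ((mp_T0 μ).iterate i).measurable),
      ih hf]

theorem II_T1i [μ.IsInvInvariant] (k : ℕ) (β : ℝ) (i : ℕ) {f : Cf N m m' l → ℝ} (hf : Bd f) :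
    II μ k β (fun U => f (T1^[i] U)) = II μ k β f := by
  induction i generalizing f with
  | zero => rfl
  | succ i ih =>
    have h : (fun U : Cf N m m' l => f (T1^[i + 1] U)) =
        fun U => (fun V => f (T1^[i] V)) (T1 U) := by
      funext U
      rw [Function.iterate_succ]
      rfl
    rw [h, II_T1 μ k β (f := fun V => f (T1^[i] V)) (hf.comp ((mp_T1 μ).iterate i).measurable),
      ih hf]

theorem cell_shift {n L : ℕ} [NeZero n] [NeZero L] (U : Link n L l → SU N) (i j : ℕ) (t : ZMod n)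
    (x : ZMod L) : cell k (T0^[i] (T1^[j] U)) t x = cell k U (t + i) (x + j) := by
  have h1 : ∀ (i : ℕ) (U : Link n L l → SU N) t x, cell k (T0^[i] U) t x = cell k U (t + i) x := by
    intro i
    induction i with
    | zero => intro U t x; simp
    | succ i ih =>
      intro U t x
      rw [Function.iterate_succ, Function.comp, ih, cell_T0]
      push_cast
      rw [add_assoc]
  have h2 : ∀ (i : ℕ) (U : Link n L l → SU N) t x, cell k (T1^[i] U) t x = cell k U t (x + i) := by
    intro i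
    induction i with
    | zero => intro U t x; simp
    | succ i ih =>
      intro U t x
      rw [Function.iterate_succ, Function.comp, ih, cell_T1]
      push_cast
      rw [add_assoc]
  rw [h1, h2]

include hζ in
theorem cell_nonneg {n L : ℕ} [NeZero n] [NeZero L] (U : Link n L l → SU N) (t : ZMod n)
    (x : ZMod L) : 0 ≤ cell k U t x := by
  rw [← cT_zero]; exact cT_nonneg hζ _ _ _ _

include hζ in
/-- the integral without the energy of a square -/
theorem int_square {β η : ℝ} (hβ : 0 ≤ β) (hη : 0 < η) {K : ℕ} (hK : 0 < K) (hm : K ≤ m)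
    (hm' : K ≤ m') (i : ZMod N) (s : ZMod (2 * m)) (r : ZMod (2 * m')) :
    (∫ U : Cf N m m' l, Real.exp (-(β * (AT k (fl i 0 0) U - EB k K (fl i 0 0) s r U)))
      ∂(Measure.pi fun _ => μ)) ≤
      ((ball μ η ^ (4 * l ^ 2))⁻¹ * Real.exp (β * (48 * (l : ℝ) ^ 2 * η ^ 2))) ^ (4 * K * K) *
        ZZ μ m m' l k β := by
  have hinv := inv_inv' μ
  obtain ⟨c, hc⟩ := exists_move (l := l) (k := k) hζ i s r
  have hbd : Bd (fun U : Cf N m m' l => AT k (fl i 0 0) U - EB k K (fl i 0 0) s r U) :=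
    Bd.of_continuous ((cont_AT _).sub (cont_EB _ _ _ _))
  have h1 := mp_int (mp_cenT (n := 2 * m) (L := 2 * m') (l := l) (k := k) hζ μ c)
    ((hbd.smul β).neg.exp)
  rw [h1]
  have hAT : ∀ U : Cf N m m' l, AT k (fl i 0 0) (cenT hζ c U) = AT k (fl i s r) U := fun U => by
    unfold AT
    exact Finset.sum_congr rfl fun t _ => Finset.sum_congr rfl fun x _ => hc U t x
  have hEB : ∀ U : Cf N m m' l, EB k K (fl i 0 0) s r (cenT hζ c U) = EB k K (fl i s r) s r U :=
    fun U => by
    unfold EB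
    exact Finset.sum_congr rfl fun t _ => Finset.sum_congr rfl fun x _ => hc U _ _
  have h2 : ∀ U : Cf N m m' l, Real.exp (-(β * (AT k (fl i 0 0) (cenT hζ c U) -
      EB k K (fl i 0 0) s r (cenT hζ c U)))) =
      (fun V : Cf N m m' l => Real.exp (β * ER k K K V)) (T0^[s.val] (T1^[r.val] U)) *
        Real.exp (-(β * action k U)) := by
    intro U
    rw [hAT, hEB, AT_sub_EB (l := l) (k := k) hK (by omega) (by omega) i s r U]
    simp only
    rw [← Real.exp_add]
    congr 1
    unfold ER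
    simp only [cell_shift, ZMod.natCast_val, ZMod.cast_id]
    have : ∀ (i j : ℕ), cell k U ((i : ZMod (2 * m)) + s) ((j : ZMod (2 * m')) + r) =
        cell k U (s + i) (r + j) := fun i j => by rw [add_comm _ s, add_comm _ r]
    simp only [this]
    ring
  simp only [h2]
  have hE : Bd (fun V : Cf N m m' l => Real.exp (β * ER k K K V)) := ((bd_ER k K K).smul β).exp
  have h3 : (∫ U : Cf N m m' l, (fun V : Cf N m m' l => Real.exp (β * ER k K K V))
      (T0^[s.val] (T1^[r.val] U)) * Real.exp (-(β * action k U)) ∂(Measure.pi fun _ => μ)) =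
      II μ k β (fun V : Cf N m m' l => Real.exp (β * ER k K K V)) := by
    have e1 := II_T1i μ k β r.val (f := fun V : Cf N m m' l =>
      (fun V : Cf N m m' l => Real.exp (β * ER k K K V)) (T0^[s.val] V))
      (hE.comp ((mp_T0 μ).iterate _).measurable)
    have e2 := II_T0i μ k β s.val hE
    rw [← e2, ← e1]
    rfl
  rw [h3]
  refine le_trans (II_mono μ k β hE (((bd_ER k (2 * K) (2 * K)).smul β).exp) fun U => ?_)
    (region μ hζ hβ hη hK hK hm hm')
  refine Real.exp_le_exp.mpr (mul_le_mul_of_nonneg_left ?_ hβ)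
  unfold ER
  refine (Finset.sum_le_sum fun t _ => ?_).trans
    (Finset.sum_le_sum_of_subset_of_nonneg (Finset.range_mono (by omega)) fun t _ _ =>
      Finset.sum_nonneg fun x _ => cell_nonneg hζ _ _ _)
  exact Finset.sum_le_sum_of_subset_of_nonneg (Finset.range_mono (by omega)) fun x _ _ =>
    cell_nonneg hζ _ _ _

include hζ in
/-- upper bound with explicit constants -/
theorem Zi_le {β η S ε1 : ℝ} (hβ : 0 ≤ β) (hη : 0 < η) {K : ℕ} (hK : 0 < K) (hm : K ≤ m)
    (hm' : K ≤ m') (i : ZMod N)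
    (hsq : ∀ U : Cf N m m' l, ∃ (s : ZMod (2 * m)) (r : ZMod (2 * m')),
      S - ε1 ≤ EB k K (fl i 0 0) s r U) :
    Zi μ (2 * m) (2 * m') l k i β ≤ (2 * m : ℕ) * ((2 * m' : ℕ) *
      (Real.exp (-(β * (S - ε1))) *
      (((ball μ η ^ (4 * l ^ 2))⁻¹ * Real.exp (β * (48 * (l : ℝ) ^ 2 * η ^ 2))) ^ (4 * K * K) *
        ZZ μ m m' l k β))) := by
  have hbd : ∀ (s : ZMod (2 * m)) (r : ZMod (2 * m')), Bd (fun U : Cf N m m' l =>
      Real.exp (-(β * (S - ε1))) *
        Real.exp (-(β * (AT k (fl i 0 0) U - EB k K (fl i 0 0) s r U)))) := fun s r => by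
    have h0 : Bd (fun U : Cf N m m' l => AT k (fl i 0 0) U - EB k K (fl i 0 0) s r U) :=
      Bd.of_continuous ((cont_AT _).sub (cont_EB _ _ _ _))
    exact (h0.smul β).neg.exp.smul _
  have hbd0 : Bd (fun U : Cf N m m' l => Real.exp (-(β * AT k (fl i 0 0) U))) :=
    ((Bd.of_continuous (cont_AT _)).smul β).neg.exp
  have hpt : ∀ U : Cf N m m' l, Real.exp (-(β * AT k (fl i 0 0) U)) ≤
      ∑ s : ZMod (2 * m), ∑ r : ZMod (2 * m'), Real.exp (-(β * (S - ε1))) *
        Real.exp (-(β * (AT k (fl i 0 0) U - EB k K (fl i 0 0) s r U))) := by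
    intro U
    obtain ⟨s, r, h⟩ := hsq U
    have h1 : Real.exp (-(β * AT k (fl i 0 0) U)) ≤ Real.exp (-(β * (S - ε1))) *
        Real.exp (-(β * (AT k (fl i 0 0) U - EB k K (fl i 0 0) s r U))) := by
      rw [← Real.exp_add]
      refine Real.exp_le_exp.mpr ?_
      nlinarith
    refine h1.trans ((Finset.single_le_sum (f := fun r : ZMod (2 * m') =>
      Real.exp (-(β * (S - ε1))) *
        Real.exp (-(β * (AT k (fl i 0 0) U - EB k K (fl i 0 0) s r U))))
      (fun r _ => by positivity) (Finset.mem_univ r)).trans ?_)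
    exact Finset.single_le_sum (f := fun s : ZMod (2 * m) => ∑ r : ZMod (2 * m'),
      Real.exp (-(β * (S - ε1))) *
        Real.exp (-(β * (AT k (fl i 0 0) U - EB k K (fl i 0 0) s r U))))
      (fun s _ => Finset.sum_nonneg fun r _ => by positivity) (Finset.mem_univ s)
  have hsum : Bd (fun U : Cf N m m' l => ∑ s : ZMod (2 * m), ∑ r : ZMod (2 * m'),
      Real.exp (-(β * (S - ε1))) *
        Real.exp (-(β * (AT k (fl i 0 0) U - EB k K (fl i 0 0) s r U)))) :=
    Bd.sum _ fun s _ => Bd.sum _ fun r _ => hbd s r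
  have h1 : Zi μ (2 * m) (2 * m') l k i β ≤ ∫ U : Cf N m m' l, ∑ s : ZMod (2 * m),
      ∑ r : ZMod (2 * m'), Real.exp (-(β * (S - ε1))) *
        Real.exp (-(β * (AT k (fl i 0 0) U - EB k K (fl i 0 0) s r U)))
        ∂(Measure.pi fun _ => μ) :=
    integral_mono hbd0.integrable hsum.integrable hpt
  refine h1.trans ?_
  rw [integral_finsetSum _ fun s _ => (Bd.sum _ fun r _ => hbd s r).integrable]
  have hcs : (Finset.univ : Finset (ZMod (2 * m))).card = 2 * m := by
    rw [Finset.card_univ, ZMod.card]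
  have hcr : (Finset.univ : Finset (ZMod (2 * m'))).card = 2 * m' := by
    rw [Finset.card_univ, ZMod.card]
  refine (Finset.sum_le_card_nsmul _ _ ((2 * m' : ℕ) * (Real.exp (-(β * (S - ε1))) *
      (((ball μ η ^ (4 * l ^ 2))⁻¹ * Real.exp (β * (48 * (l : ℝ) ^ 2 * η ^ 2))) ^ (4 * K * K) *
        ZZ μ m m' l k β))) fun s _ => ?_).trans (le_of_eq ?_)
  · rw [integral_finsetSum _ fun r _ => (hbd s r).integrable]
    refine (Finset.sum_le_card_nsmul _ _ (Real.exp (-(β * (S - ε1))) *
      (((ball μ η ^ (4 * l ^ 2))⁻¹ * Real.exp (β * (48 * (l : ℝ) ^ 2 * η ^ 2))) ^ (4 * K * K) *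
        ZZ μ m m' l k β)) fun r _ => ?_).trans (le_of_eq ?_)
    · rw [integral_const_mul]
      exact mul_le_mul_of_nonneg_left (int_square hζ μ hβ hη hK hm hm' i s r)
        (Real.exp_pos _).le
    · rw [hcr, nsmul_eq_mul]
  · rw [hcs, nsmul_eq_mul]

end

end

end Run7.h4.VS
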