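import Mathlib
import Pool.Agent.Run7.h4.VS.Lim
import Pool.Agent.Run7.h4.VS.UpU

/-!
# The minimal action on large tori: the limit
-/

open MeasureTheory Matrix Filter Topology
open Run7.h4.YM

namespace Run7.h4.VS

set_option linter.unusedSectionVars false
set_option linter.unusedVariables false

noncomputable section

/-- the minimal action on a torus -/
def Sm {N : ℕ} (n L l k : ℕ) [NeZero n] [NeZero L] [NeZero l] (i : ZMod N) : ℝ :=
  sInf (Set.range fun U : Link n L l → SU N => AT k (fl i 0 0) U)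

theorem card_ring (n L : ℕ) : ((ring n L).card : ℝ) ≤ 2 * n + 2 * L := by
  have h1 : (ring n L) ⊆ ((({0} : Finset ℕ) ×ˢ Finset.range L) ∪ (({n - 1} : Finset ℕ) ×ˢ
      Finset.range L)) ∪ ((Finset.range n ×ˢ ({0} : Finset ℕ)) ∪
        (Finset.range n ×ˢ ({L - 1} : Finset ℕ))) := by
    intro p hp
    unfold ring at hp
    rw [Finset.mem_filter, Finset.mem_product, Finset.mem_range, Finset.mem_range] at hp
    simp only [Finset.mem_union, Finset.mem_product, Finset.mem_singleton, Finset.mem_range]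
    omega
  have h2 := Finset.card_le_card h1
  have h3 := Finset.card_union_le ((({0} : Finset ℕ) ×ˢ Finset.range L) ∪ (({n - 1} : Finset ℕ) ×ˢ
      Finset.range L)) ((Finset.range n ×ˢ ({0} : Finset ℕ)) ∪
        (Finset.range n ×ˢ ({L - 1} : Finset ℕ)))
  have h4 := Finset.card_union_le (({0} : Finset ℕ) ×ˢ Finset.range L) (({n - 1} : Finset ℕ) ×ˢ
      Finset.range L)
  have h5 := Finset.card_union_le (Finset.range n ×ˢ ({0} : Finset ℕ))
        (Finset.range n ×ˢ ({L - 1} : Finset ℕ))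
  simp only [Finset.card_product, Finset.card_singleton, Finset.card_range, one_mul, mul_one] at *
  have h6 : (ring n L).card ≤ 2 * n + 2 * L := by omega
  exact_mod_cast h6

variable {N l : ℕ} [NeZero N] [NeZero l] {k : ℕ} {hζ : IsPrimitiveRoot (om N k) N}
  {P0 Q0 : SU N} {F : FC N l → Fib l → SU N}
  {lab : FC N l → (Fib l → SU N) → FC N l → ZMod N} {C : ℝ}

section

variable {n L : ℕ} [NeZero n] [NeZero L]

theorem sum_shift {M : Type*} [AddCommMonoid M] (g : ZMod n → ZMod L → M) (s : ZMod n)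
    (r : ZMod L) : (∑ t ∈ Finset.range n, ∑ x ∈ Finset.range L, g (s + t) (r + x)) =
      ∑ t, ∑ x, g t x := by
  rw [← Equiv.sum_comp (Equiv.addLeft s) (fun t => ∑ x, g t x), sum_zmod]
  refine Finset.sum_congr rfl fun t _ => ?_
  rw [← Equiv.sum_comp (Equiv.addLeft r) (fun x => g (Equiv.addLeft s (t : ZMod n)) x), sum_zmod]
  rfl

/-- lower bound for the action of every configuration -/
theorem Fra.torus (h : Fra hζ P0 Q0 F lab C) (i : ℕ) (U : Link n L l → SU N) :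
    SF k P0 Q0 l i ≤ AT k (fl (i : ZMod N) 0 0) U *
      (1 + (1 + 3456 * (l : ℝ) ^ 2 * C ^ 2) * (2 / n + 2 / L)) := by
  obtain ⟨D, hD⟩ : ∃ D, D = 1 + 3456 * (l : ℝ) ^ 2 * C ^ 2 := ⟨_, rfl⟩
  have hD0 : 0 ≤ D := by rw [hD]; positivity
  obtain ⟨f, hf⟩ : ∃ f : ZMod n → ZMod L → ZMod N, f = fl (i : ZMod N) 0 0 := ⟨_, rfl⟩
  have hfs : (∑ t, ∑ x, f t x) = (i : ZMod N) := by rw [hf, sum_fl]
  rw [← hf]
  obtain ⟨A, hA⟩ : ∃ A, A = AT k f U := ⟨_, rfl⟩
  have hn : (0 : ℝ) < n := by exact_mod_cast NeZero.pos n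
  have hL : (0 : ℝ) < L := by exact_mod_cast NeZero.pos L
  have h1 : ∀ (s : ZMod n) (r : ZMod L), SF k P0 Q0 l i ≤ A + D * ∑ p ∈ ring n L,
      cT k (f (s + p.1) (r + p.2)).val U (s + p.1) (r + p.2) := by
    intro s r
    have h2 := h.key (fun t x => (f (s + t) (r + x)).val) (lift s r U) n L (NeZero.pos n)
      (NeZero.pos L) i (by
        simp only [chT_lift]
        rw [sum_shift (fun t x => chT lab (f t x).val U t x), sum_chT, hfs])
    refine h2.trans (le_of_eq ?_)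
    rw [← hD, hA]
    unfold EN AT
    simp only [cN_lift]
    rw [sum_shift (fun t x => cT k (f t x).val U t x)]
  have h3 : ∑ s : ZMod n, ∑ r : ZMod L, SF k P0 Q0 l i ≤ ∑ s : ZMod n, ∑ r : ZMod L,
      (A + D * ∑ p ∈ ring n L, cT k (f (s + p.1) (r + p.2)).val U (s + p.1) (r + p.2)) :=
    Finset.sum_le_sum fun s _ => Finset.sum_le_sum fun r _ => h1 s r
  have h4 : ∑ s : ZMod n, ∑ r : ZMod L, ∑ p ∈ ring n L,
      cT k (f (s + p.1) (r + p.2)).val U (s + p.1) (r + p.2) = (ring n L).card * A := by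
    have e : ∀ s : ZMod n, ∑ r : ZMod L, ∑ p ∈ ring n L,
        cT k (f (s + p.1) (r + p.2)).val U (s + p.1) (r + p.2) =
        ∑ p ∈ ring n L, ∑ r : ZMod L, cT k (f (s + p.1) (r + p.2)).val U (s + p.1) (r + p.2) :=
      fun s => Finset.sum_comm
    rw [Finset.sum_congr rfl fun s _ => e s, Finset.sum_comm]
    have e2 : ∀ p ∈ ring n L, ∑ s : ZMod n, ∑ r : ZMod L,
        cT k (f (s + p.1) (r + p.2)).val U (s + p.1) (r + p.2) = A := by
      intro p _
      rw [hA]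
      unfold AT
      refine (Equiv.sum_comp (Equiv.addRight (p.1 : ZMod n)) (fun s => ∑ r : ZMod L,
        cT k (f s (r + p.2)).val U s (r + p.2))).trans ?_
      refine Finset.sum_congr rfl fun s _ => ?_
      exact Equiv.sum_comp (Equiv.addRight (p.2 : ZMod L)) (fun r => cT k (f s r).val U s r)
    rw [Finset.sum_congr rfl e2, Finset.sum_const, nsmul_eq_mul]
  have h5 : ∑ s : ZMod n, ∑ r : ZMod L, (A + D * ∑ p ∈ ring n L,
      cT k (f (s + p.1) (r + p.2)).val U (s + p.1) (r + p.2)) =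
      (n : ℝ) * L * A + D * ((ring n L).card * A) := by
    simp only [Finset.sum_add_distrib, ← Finset.mul_sum]
    rw [h4]
    simp only [Finset.sum_const, Finset.card_univ, ZMod.card, nsmul_eq_mul]
    ring
  rw [h5] at h3
  simp only [Finset.sum_const, Finset.card_univ, ZMod.card, nsmul_eq_mul] at h3
  have hA0 : 0 ≤ A := by
    rw [hA]
    exact Finset.sum_nonneg fun t _ => Finset.sum_nonneg fun x _ => cT_nonneg hζ _ _ _ _
  have h6 : D * ((ring n L).card * A) ≤ D * ((2 * n + 2 * L) * A) :=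
    mul_le_mul_of_nonneg_left (mul_le_mul_of_nonneg_right (card_ring n L) hA0) hD0
  have h7 : (n : ℝ) * L * SF k P0 Q0 l i ≤ (n : ℝ) * L * (A * (1 + D * (2 / n + 2 / L))) := by
    calc (n : ℝ) * L * SF k P0 Q0 l i = n * (L * SF k P0 Q0 l i) := by ring
      _ ≤ (n : ℝ) * L * A + D * ((2 * n + 2 * L) * A) := h3.trans (by linarith)
      _ = (n : ℝ) * L * (A * (1 + D * (2 / n + 2 / L))) := by
        field_simp
        ring
  rw [← hD, ← hA]
  exact le_of_mul_le_mul_left h7 (by positivity)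

theorem Sm_bdd (hζ : IsPrimitiveRoot (om N k) N) (i : ZMod N) :
    BddBelow (Set.range fun U : Link n L l → SU N => AT k (fl i 0 0) U) :=
  ⟨0, by
    rintro _ ⟨U, rfl⟩
    exact Finset.sum_nonneg fun t _ => Finset.sum_nonneg fun x _ => cT_nonneg hζ _ _ _ _⟩

theorem Sm_nonneg (hζ : IsPrimitiveRoot (om N k) N) (i : ZMod N) : 0 ≤ Sm n L l k i := by
  refine Real.sInf_nonneg ?_
  rintro _ ⟨U, rfl⟩
  exact Finset.sum_nonneg fun t _ => Finset.sum_nonneg fun x _ => cT_nonneg hζ _ _ _ _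

theorem Fra.torus' (h : Fra hζ P0 Q0 F lab C) (i : ℕ) :
    SF k P0 Q0 l i ≤ Sm n L l k (i : ZMod N) *
      (1 + (1 + 3456 * (l : ℝ) ^ 2 * C ^ 2) * (2 / n + 2 / L)) := by
  obtain ⟨D, hD⟩ : ∃ D : ℝ, D = 1 + (1 + 3456 * (l : ℝ) ^ 2 * C ^ 2) * (2 / n + 2 / L) := ⟨_, rfl⟩
  have hD0 : 0 < D := by rw [hD]; positivity
  have h1 := fun U : Link n L l → SU N => h.torus i U
  rw [← hD] at h1 ⊢
  rw [← div_le_iff₀ hD0]
  unfold Sm
  refine le_csInf ⟨_, fun _ => 1, rfl⟩ ?_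
  rintro _ ⟨U, rfl⟩
  rw [div_le_iff₀ hD0]
  exact h1 U

end

/-- the minimal actions converge -/
theorem Fra.lim (h : Fra hζ P0 Q0 F lab C) (hs : Std N k hζ P0 Q0) (i : ℕ) :
    Tendsto (fun p : ℕ × ℕ => Sm (p.1 + 1) (p.2 + 1) l k (i : ZMod N)) atTop
      (𝓝 (SF k P0 Q0 l i)) := by
  obtain ⟨D, hD⟩ : ∃ D, D = 1 + 3456 * (l : ℝ) ^ 2 * C ^ 2 := ⟨_, rfl⟩
  have hD0 : 0 ≤ D := by rw [hD]; positivity
  obtain ⟨S, hS⟩ : ∃ S, S = SF k P0 Q0 l i := ⟨_, rfl⟩
  have hS0 : 0 ≤ S := by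
    rw [hS]
    refine le_csInf (SF_nonempty P0 Q0 i) ?_
    rintro E ⟨a, b, u, -, -, -, rfl⟩
    exact EN_nonneg hζ _ _ _ _
  rw [← hS, Metric.tendsto_atTop]
  intro ε hε
  -- upper bound
  obtain ⟨E, ⟨a, b, u, ha, hb, hu, rfl⟩, hE⟩ := exists_lt_of_csInf_lt (SF_nonempty (l := l)
    (k := k) P0 Q0 i) (show SF k P0 Q0 l i < SF k P0 Q0 l i + ε by linarith)
  obtain ⟨M, hM⟩ := exists_nat_gt (4 * D * (S + ε) / ε)
  refine ⟨(max (max a b) (M + 1), max (max a b) (M + 1)), fun p hp => ?_⟩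
  obtain ⟨hp1, hp2⟩ := hp
  simp only at hp1 hp2
  have n1 : a < p.1 + 1 := by have := le_max_left a b; have := le_max_left (max a b) (M + 1); omega
  have n2 : b < p.2 + 1 := by have := le_max_right a b; have := le_max_left (max a b) (M + 1); omega
  have n3 : M < p.1 + 1 := by have := le_max_right (max a b) (M + 1); omega
  have n4 : M < p.2 + 1 := by have := le_max_right (max a b) (M + 1); omega
  obtain ⟨s, hsm⟩ : ∃ s, s = Sm (p.1 + 1) (p.2 + 1) l k (i : ZMod N) := ⟨_, rfl⟩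
  rw [← hsm]
  have up : s < S + ε := by
    rw [hsm, hS]
    refine lt_of_le_of_lt (csInf_le (Sm_bdd hζ _) ⟨tor (p.1 + 1) (p.2 + 1) (uext P0 Q0 a b u), rfl⟩) ?_
    simp only
    rw [AT_tor hs hu ha hb n1 n2]
    exact hE
  have hs0 : 0 ≤ s := by rw [hsm]; exact Sm_nonneg hζ _
  have lo := h.torus' (n := p.1 + 1) (L := p.2 + 1) i
  rw [← hsm, ← hS, ← hD] at lo
  have hM0 : (0 : ℝ) ≤ M := Nat.cast_nonneg M
  have m1 : 4 * D * (S + ε) < ε * M := by
    rw [div_lt_iff₀ hε] at hM; linarith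
  have q1 : (2 : ℝ) / ((p.1 + 1 : ℕ) : ℝ) ≤ 2 / (M + 1) := by
    refine div_le_div_of_nonneg_left (by norm_num) (by positivity) ?_
    exact_mod_cast n3
  have q2 : (2 : ℝ) / ((p.2 + 1 : ℕ) : ℝ) ≤ 2 / (M + 1) := by
    refine div_le_div_of_nonneg_left (by norm_num) (by positivity) ?_
    exact_mod_cast n4
  have lo2 : S ≤ s + (S + ε) * (D * (4 / (M + 1))) := by
    have e1 : S ≤ s * (1 + D * (4 / (M + 1))) := by
      refine lo.trans (mul_le_mul_of_nonneg_left ?_ hs0)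
      have : D * (2 / ((p.1 + 1 : ℕ) : ℝ) + 2 / ((p.2 + 1 : ℕ) : ℝ)) ≤ D * (4 / (M + 1)) := by
        refine mul_le_mul_of_nonneg_left ?_ hD0
        have : (4 : ℝ) / (M + 1) = 2 / (M + 1) + 2 / (M + 1) := by ring
        linarith
      linarith
    have e2 : s * (D * (4 / (M + 1))) ≤ (S + ε) * (D * (4 / (M + 1))) :=
      mul_le_mul_of_nonneg_right up.le (by positivity)
    linarith
  have lo3 : (S + ε) * (D * (4 / (M + 1))) < ε := by
    have : (S + ε) * (D * (4 / (M + 1))) = 4 * D * (S + ε) / (M + 1) := by ring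
    rw [this, div_lt_iff₀ (by positivity)]
    linarith
  rw [Real.dist_eq, abs_lt]
  constructor <;> linarith

end

end Run7.h4.VS
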