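import Mathlib
import Pool.Agent.Run7.h4.VS.Lim2

/-!
# Lower bound for the partition function with a vortex: geometry
-/

open MeasureTheory Matrix Filter Topology
open Run7.h4.YM

namespace Run7.h4.VS

set_option linter.unusedSectionVars false
set_option linter.unusedVariables false

noncomputable section

section lip

variable {N l : ℕ} [NeZero N] [NeZero l] {k : ℕ}

theorem dd_le (a b : SU N) : dd a b ≤ 2 * N := by
  have h1 := dd_sq_tr a b
  have h2 : -(N : ℝ) ≤ (trace (a * b⁻¹).1).re := by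
    have h3 := dd_sq_tr (a * b⁻¹) 1
    have h4 : ‖trace (a * b⁻¹).1‖ ≤ N := by
      rw [Matrix.trace]
      refine (norm_sum_le _ _).trans ?_
      refine (Finset.sum_le_card_nsmul _ _ 1 fun i _ => ?_).trans (by simp)
      exact entry_le (a * b⁻¹) i i
    have h5 := Complex.abs_re_le_norm (trace (a * b⁻¹).1)
    have h6 := neg_abs_le (trace (a * b⁻¹).1).re
    linarith
  have hN : (1 : ℝ) ≤ N := by exact_mod_cast NeZero.pos N
  have h3 : dd a b ^ 2 ≤ (2 * N) ^ 2 := by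
    rw [h1]; nlinarith
  exact le_of_sq_le_sq h3 (by positivity)

theorem aw_lip {a b c d a' b' c' d' z : SU N} {η : ℝ}
    (ha : dd a a' ≤ η) (hb : dd b b' ≤ η) (hc : dd c c' ≤ η) (hd : dd d d' ≤ η) :
    aw 1 (z * (a * b * c⁻¹ * d⁻¹)) ≤ aw 1 (z * (a' * b' * c'⁻¹ * d'⁻¹)) + 8 * N * η := by
  have hη : 0 ≤ η := (dd_nonneg _ _).trans ha
  have h1 := dd_mul_mul (a * b * c⁻¹) d⁻¹ (a' * b' * c'⁻¹) d'⁻¹
  have h2 := dd_mul_mul (a * b) c⁻¹ (a' * b') c'⁻¹
  have h3 := dd_mul_mul a b a' b'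
  rw [dd_inv] at h1 h2
  have h4 : dd (z * (a * b * c⁻¹ * d⁻¹)) (z * (a' * b' * c'⁻¹ * d'⁻¹)) ≤ 4 * η := by
    rw [dd_mul_left]
    linarith
  have h5 := dd_triangle (z * (a * b * c⁻¹ * d⁻¹)) (z * (a' * b' * c'⁻¹ * d'⁻¹)) 1
  have h6 := dd_le (z * (a * b * c⁻¹ * d⁻¹)) 1
  have h7 := dd_le (z * (a' * b' * c'⁻¹ * d'⁻¹)) 1
  rw [aw_one_eq, aw_one_eq]
  obtain ⟨X, hX⟩ : ∃ X, X = dd (z * (a * b * c⁻¹ * d⁻¹)) 1 := ⟨_, rfl⟩
  obtain ⟨Y, hY⟩ : ∃ Y, Y = dd (z * (a' * b' * c'⁻¹ * d'⁻¹)) 1 := ⟨_, rfl⟩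
  rw [← hX, ← hY] at h5
  rw [← hX] at h6 ⊢
  rw [← hY] at h7 ⊢
  have hX0 : 0 ≤ X := by rw [hX]; exact dd_nonneg _ _
  have hY0 : 0 ≤ Y := by rw [hY]; exact dd_nonneg _ _
  have h8 : X - Y ≤ 4 * η := by linarith
  have h9 : (X - Y) * (X + Y) ≤ 4 * η * (4 * N) := by
    rcases le_total X Y with h | h
    · have : (X - Y) * (X + Y) ≤ 0 := mul_nonpos_of_nonpos_of_nonneg (by linarith) (by linarith)
      have : 0 ≤ 4 * η * (4 * (N : ℝ)) := by positivity
      linarith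
    · exact mul_le_mul h8 (by linarith) (by linarith) (by linarith)
  nlinarith

variable (hζ : IsPrimitiveRoot (om N k) N)

include hζ in
theorem VL_lip {s s' : FC N l} {η : ℝ} (h1 : ∀ y, dd (s.1 y) (s'.1 y) ≤ η)
    (h2 : ∀ y, dd (s.2 y) (s'.2 y) ≤ η) : VL k s ≤ VL k s' + (l : ℝ) ^ 2 * (8 * N * η) := by
  unfold VL
  have e : (l : ℝ) ^ 2 * (8 * N * η) = ∑ _y : Fib l, 8 * N * η := by
    rw [Finset.sum_const, card_fib, nsmul_eq_mul]; push_cast; ring
  rw [e, ← Finset.sum_add_distrib]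
  refine Finset.sum_le_sum fun y _ => ?_
  rw [aw_twf hζ, aw_twf hζ]
  exact aw_lip (h1 _) (h2 _) (h1 _) (h2 _)

theorem KL_lip {s s' : FC N l} {u v : Fib l → SU N} {r r' : FC N l} {η : ℝ}
    (h1 : ∀ y, dd (s.1 y) (s'.1 y) ≤ η) (h2 : ∀ y, dd (s.2 y) (s'.2 y) ≤ η)
    (h3 : ∀ y, dd (r.1 y) (r'.1 y) ≤ η) (h4 : ∀ y, dd (r.2 y) (r'.2 y) ≤ η)
    (h5 : ∀ y, dd (u y) (v y) ≤ η) : KL s u r ≤ KL s' v r' + (l : ℝ) ^ 2 * (16 * N * η) := by
  unfold KL
  have e : (l : ℝ) ^ 2 * (16 * N * η) = ∑ _y : Fib l, 16 * N * η := by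
    rw [Finset.sum_const, card_fib, nsmul_eq_mul]; push_cast; ring
  rw [e, ← Finset.sum_add_distrib]
  refine Finset.sum_le_sum fun y _ => ?_
  have e1 := aw_lip (z := 1) (h5 y) (h3 y) (h5 (y + (1, 0))) (h1 y)
  have e2 := aw_lip (z := 1) (h5 y) (h4 y) (h5 (y + (0, 1))) (h2 y)
  rw [one_mul, one_mul] at e1 e2
  linarith

include hζ in
/-- Lipschitz bound for a cell -/
theorem cN_lip (m : ℕ) (u v : LC N l) (t x : ℕ) {η : ℝ}
    (f00 : ∀ y, dd (u 2 t x y) (v 2 t x y) ≤ η ∧ dd (u 3 t x y) (v 3 t x y) ≤ η)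
    (f10 : ∀ y, dd (u 2 (t + 1) x y) (v 2 (t + 1) x y) ≤ η ∧
      dd (u 3 (t + 1) x y) (v 3 (t + 1) x y) ≤ η)
    (f01 : ∀ y, dd (u 2 t (x + 1) y) (v 2 t (x + 1) y) ≤ η ∧
      dd (u 3 t (x + 1) y) (v 3 t (x + 1) y) ≤ η)
    (f11 : ∀ y, dd (u 2 (t + 1) (x + 1) y) (v 2 (t + 1) (x + 1) y) ≤ η ∧
      dd (u 3 (t + 1) (x + 1) y) (v 3 (t + 1) (x + 1) y) ≤ η)
    (a0 : ∀ y, dd (u 0 t x y) (v 0 t x y) ≤ η) (a1 : ∀ y, dd (u 0 t (x + 1) y) (v 0 t (x + 1) y) ≤ η)
    (b0 : ∀ y, dd (u 1 t x y) (v 1 t x y) ≤ η)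
    (b1 : ∀ y, dd (u 1 (t + 1) x y) (v 1 (t + 1) x y) ≤ η) :
    cN k m u t x ≤ cN k m v t x + 48 * (l : ℝ) ^ 2 * N * η := by
  unfold cN
  have v1 := VL_lip (k := k) (s := fsN u t x) (s' := fsN v t x) hζ (fun y => (f00 y).1)
    (fun y => (f00 y).2)
  have v2 := VL_lip (k := k) (s := fsN u (t + 1) x) (s' := fsN v (t + 1) x) hζ
    (fun y => (f10 y).1) (fun y => (f10 y).2)
  have v3 := VL_lip (k := k) (s := fsN u t (x + 1)) (s' := fsN v t (x + 1)) hζ
    (fun y => (f01 y).1) (fun y => (f01 y).2)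
  have v4 := VL_lip (k := k) (s := fsN u (t + 1) (x + 1)) (s' := fsN v (t + 1) (x + 1)) hζ
    (fun y => (f11 y).1) (fun y => (f11 y).2)
  have k1 := KL_lip (s := fsN u t x) (s' := fsN v t x) (r := fsN u (t + 1) x)
    (r' := fsN v (t + 1) x) (fun y => (f00 y).1) (fun y => (f00 y).2) (fun y => (f10 y).1)
    (fun y => (f10 y).2) a0
  have k2 := KL_lip (s := fsN u t (x + 1)) (s' := fsN v t (x + 1))
    (r := fsN u (t + 1) (x + 1)) (r' := fsN v (t + 1) (x + 1)) (fun y => (f01 y).1)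
    (fun y => (f01 y).2) (fun y => (f11 y).1) (fun y => (f11 y).2) a1
  have k3 := KL_lip (s := fsN u t x) (s' := fsN v t x) (r := fsN u t (x + 1))
    (r' := fsN v t (x + 1)) (fun y => (f00 y).1) (fun y => (f00 y).2) (fun y => (f01 y).1)
    (fun y => (f01 y).2) b0
  have k4 := KL_lip (s := fsN u (t + 1) x) (s' := fsN v (t + 1) x)
    (r := fsN u (t + 1) (x + 1)) (r' := fsN v (t + 1) (x + 1)) (fun y => (f10 y).1)
    (fun y => (f10 y).2) (fun y => (f11 y).1) (fun y => (f11 y).2) b1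
  have w : (∑ y : Fib l, aw (om N k ^ m)
      (u 0 t x y * u 1 (t + 1) x y * (u 0 t (x + 1) y)⁻¹ * (u 1 t x y)⁻¹)) ≤
      (∑ y : Fib l, aw (om N k ^ m)
        (v 0 t x y * v 1 (t + 1) x y * (v 0 t (x + 1) y)⁻¹ * (v 1 t x y)⁻¹)) +
      (l : ℝ) ^ 2 * (8 * N * η) := by
    have e : (l : ℝ) ^ 2 * (8 * N * η) = ∑ _y : Fib l, 8 * N * η := by
      rw [Finset.sum_const, card_fib, nsmul_eq_mul]; push_cast; ring
    rw [e, ← Finset.sum_add_distrib]
    refine Finset.sum_le_sum fun y _ => ?_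
    rw [aw_om hζ, aw_om hζ]
    exact aw_lip (a0 y) (b1 y) (a1 y) (b0 y)
  linarith

end lip

section blk

variable {N n L l : ℕ} [NeZero N] [NeZero n] [NeZero L] [NeZero l] {k : ℕ}

/-- the interior links of the block -/
def inB (a b : ℕ) : Set (Link n L l) := fun e =>
  (e.1 = 0 ∧ e.2.1.val < a ∧ 0 < e.2.2.1.val ∧ e.2.2.1.val < b) ∨
  (e.1 = 1 ∧ 0 < e.2.1.val ∧ e.2.1.val < a ∧ e.2.2.1.val < b) ∨
  (e.1 ≠ 0 ∧ e.1 ≠ 1 ∧ 0 < e.2.1.val ∧ e.2.1.val < a ∧ 0 < e.2.2.1.val ∧ e.2.2.1.val < b)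

/-- `V` inside of the block, `U` outside -/
def mx (a b : ℕ) (U V : Link n L l → SU N) : Link n L l → SU N := mix (inB a b)ᶜ U V

theorem mx_in {a b : ℕ} {U V : Link n L l → SU N} {e : Link n L l} (h : e ∈ inB a b) :
    mx a b U V e = V e := by
  unfold mx mix
  rw [if_neg (fun h' => h' h)]

theorem mx_out {a b : ℕ} {U V : Link n L l → SU N} {e : Link n L l} (h : e ∉ inB a b) :
    mx a b U V e = U e := by
  unfold mx mix
  rw [if_pos (show e ∈ (inB a b)ᶜ from h)]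

theorem lift_val (U : Link n L l → SU N) (i : Fin 4) (t x : ℕ) (y : Fib l) :
    lift (0 : ZMod n) (0 : ZMod L) U i t x y = U (i, (t : ZMod n), (x : ZMod L), y) := by
  unfold lift
  rw [zero_add, zero_add]

theorem lift_mx_out {a b : ℕ} {U V : Link n L l → SU N} {i : Fin 4} {t x : ℕ}
    (h : ∀ y : Fib l, ((i, (t : ZMod n), (x : ZMod L), y) : Link n L l) ∉ inB a b) :
    lift (0 : ZMod n) (0 : ZMod L) (mx a b U V) i t x = lift (0 : ZMod n) (0 : ZMod L) U i t x := by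
  funext y
  rw [lift_val, lift_val, mx_out (h y)]

theorem out0 {a b t x : ℕ} (h : ¬ (t % n < a ∧ 0 < x % L ∧ x % L < b)) (y : Fib l) :
    ((0, (t : ZMod n), (x : ZMod L), y) : Link n L l) ∉ inB a b := by
  rintro (h1 | h1 | h1)
  · obtain ⟨-, h2⟩ := h1
    simp only [ZMod.val_natCast] at h2
    exact h h2
  · exact absurd (show (0 : Fin 4) = 1 from h1.1) (by decide)
  · exact h1.1 rfl

theorem out1 {a b t x : ℕ} (h : ¬ (0 < t % n ∧ t % n < a ∧ x % L < b)) (y : Fib l) :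
    ((1, (t : ZMod n), (x : ZMod L), y) : Link n L l) ∉ inB a b := by
  rintro (h1 | h1 | h1)
  · exact absurd (show (1 : Fin 4) = 0 from h1.1) (by decide)
  · obtain ⟨-, h2⟩ := h1
    simp only [ZMod.val_natCast] at h2
    exact h h2
  · exact h1.2.1 rfl

theorem out2 {a b t x : ℕ} (h : ¬ (0 < t % n ∧ t % n < a ∧ 0 < x % L ∧ x % L < b)) (i : Fin 4)
    (hi : i = 2 ∨ i = 3) (y : Fib l) :
    ((i, (t : ZMod n), (x : ZMod L), y) : Link n L l) ∉ inB a b := by
  rintro (h1 | h1 | h1)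
  · have h3 : i = 0 := h1.1
    subst h3
    exact absurd hi (by decide)
  · have h3 : i = 1 := h1.1
    subst h3
    exact absurd hi (by decide)
  · obtain ⟨-, -, h2⟩ := h1
    simp only [ZMod.val_natCast] at h2
    exact h h2

theorem lift_mx_f {a b t x : ℕ} {U V : Link n L l → SU N}
    (h : ¬ (0 < t % n ∧ t % n < a ∧ 0 < x % L ∧ x % L < b)) :
    fsN (lift (0 : ZMod n) (0 : ZMod L) (mx a b U V)) t x =
      fsN (lift (0 : ZMod n) (0 : ZMod L) U) t x := by
  unfold fsN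
  rw [lift_mx_out (out2 h 2 (Or.inl rfl)), lift_mx_out (out2 h 3 (Or.inr rfl))]

/-- cells outside of the block -/
theorem cN_mx_out {a b : ℕ} (ha : 1 ≤ a) (hb : 1 ≤ b) (hn : a < n) (hL : b < L) {t x : ℕ}
    (ht : t < n) (hx : x < L) (h : ¬ (t < a ∧ x < b)) (m : ℕ) (U V : Link n L l → SU N) :
    cN k m (lift (0 : ZMod n) (0 : ZMod L) (mx a b U V)) t x =
      cN k m (lift (0 : ZMod n) (0 : ZMod L) U) t x := by
  have ht' : t % n = t := Nat.mod_eq_of_lt ht
  have hx' : x % L = x := Nat.mod_eq_of_lt hx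
  have mt := mod_succ' ht
  have mxx := mod_succ' hx
  refine cN_local ?_ ?_ ?_ ?_ ?_ ?_ ?_ ?_
  · exact lift_mx_f (by rw [ht', hx']; omega)
  · exact lift_mx_f (by rw [hx']; omega)
  · exact lift_mx_f (by rw [ht']; omega)
  · exact lift_mx_f (by omega)
  · exact lift_mx_out (out0 (by rw [ht', hx']; omega))
  · exact lift_mx_out (out0 (by rw [ht']; omega))
  · exact lift_mx_out (out1 (by rw [ht', hx']; omega))
  · exact lift_mx_out (out1 (by rw [hx']; omega))

/-- the energy outside of the block -/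
def Out (k a b : ℕ) (U : Link n L l → SU N) : ℝ :=
  ∑ t ∈ Finset.range n, ∑ x ∈ Finset.range L,
    if t < a ∧ x < b then 0 else cN k 0 (lift (0 : ZMod n) (0 : ZMod L) U) t x

theorem Out_mx {a b : ℕ} (ha : 1 ≤ a) (hb : 1 ≤ b) (hn : a < n) (hL : b < L)
    (U V : Link n L l → SU N) : Out k a b (mx a b U V) = Out k a b U := by
  unfold Out
  refine Finset.sum_congr rfl fun t ht => Finset.sum_congr rfl fun x hx => ?_
  rw [Finset.mem_range] at ht hx
  split_ifs with h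
  · rfl
  · exact cN_mx_out ha hb hn hL ht hx h 0 U V

theorem split_block {a b : ℕ} (hn : a < n) (hL : b < L) (g : ℕ → ℕ → ℝ) :
    (∑ t ∈ Finset.range n, ∑ x ∈ Finset.range L, g t x) =
      (∑ t ∈ Finset.range a, ∑ x ∈ Finset.range b, g t x) +
      ∑ t ∈ Finset.range n, ∑ x ∈ Finset.range L, if t < a ∧ x < b then 0 else g t x := by
  have h1 : (∑ t ∈ Finset.range a, ∑ x ∈ Finset.range b, g t x) =
      ∑ t ∈ Finset.range n, ∑ x ∈ Finset.range L, if t < a ∧ x < b then g t x else 0 := by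
    rw [← Finset.sum_subset (Finset.range_mono hn.le) (fun t _ ht => ?_)]
    · refine Finset.sum_congr rfl fun t ht => ?_
      rw [← Finset.sum_subset (Finset.range_mono hL.le) (fun x _ hx => ?_)]
      · refine Finset.sum_congr rfl fun x hx => ?_
        rw [Finset.mem_range] at ht hx
        rw [if_pos ⟨ht, hx⟩]
      · rw [Finset.mem_range] at hx
        rw [if_neg (fun h => hx h.2)]
    · rw [Finset.mem_range] at ht
      exact Finset.sum_eq_zero fun x _ => by rw [if_neg (fun h => ht h.1)]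
  rw [h1, ← Finset.sum_add_distrib]
  refine Finset.sum_congr rfl fun t _ => ?_
  rw [← Finset.sum_add_distrib]
  refine Finset.sum_congr rfl fun x _ => ?_
  split_ifs <;> simp

/-- the action is the energy of the block plus the energy outside -/
theorem AT_split (hζ : IsPrimitiveRoot (om N k) N) {a b : ℕ} (ha : 1 ≤ a) (hb : 1 ≤ b)
    (hn : a < n) (hL : b < L) (i : ℕ) (U : Link n L l → SU N) :
    AT k (fl (i : ZMod N) 0 0) U =
      EN k (corner i) a b (lift (0 : ZMod n) (0 : ZMod L) U) + Out k a b U := by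
  have h1 : AT k (fl (i : ZMod N) 0 0) U = ∑ t ∈ Finset.range n, ∑ x ∈ Finset.range L,
      cN k (corner i t x) (lift (0 : ZMod n) (0 : ZMod L) U) t x := by
    unfold AT
    rw [sum_zmod]
    refine Finset.sum_congr rfl fun t ht => ?_
    rw [sum_zmod]
    refine Finset.sum_congr rfl fun x hx => ?_
    rw [Finset.mem_range] at ht hx
    have e1 := cN_lift k (fl (i : ZMod N) 0 0 (t : ZMod n) (x : ZMod L)).val (0 : ZMod n)
      (0 : ZMod L) U t x
    rw [zero_add, zero_add] at e1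
    rw [← e1]
    refine cN_congr hζ ?_ _ _ _
    rw [ZMod.natCast_val, ZMod.cast_id]
    unfold fl corner
    by_cases h0 : t = 0 ∧ x = 0
    · obtain ⟨rfl, rfl⟩ := h0
      simp
    · rw [if_neg h0, if_neg]
      · simp
      · rintro ⟨h2, h3⟩
        apply h0
        rw [ZMod.natCast_eq_zero_iff] at h2 h3
        exact ⟨Nat.eq_zero_of_dvd_of_lt h2 ht, Nat.eq_zero_of_dvd_of_lt h3 hx⟩
  rw [h1, split_block hn hL]
  unfold EN Out
  congr 1
  refine Finset.sum_congr rfl fun t _ => Finset.sum_congr rfl fun x _ => ?_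
  by_cases h : t < a ∧ x < b
  · rw [if_pos h, if_pos h]
  · rw [if_neg h, if_neg h]
    have : corner i t x = 0 := by unfold corner; rw [if_neg]; omega
    rw [this]

theorem Out_le (hζ : IsPrimitiveRoot (om N k) N) {a b : ℕ} (ha : 1 ≤ a) (hb : 1 ≤ b)
    (hn : a < n) (hL : b < L) (U : Link n L l → SU N) : Out k a b U ≤ action k U := by
  have h := AT_split (n := n) (L := L) hζ ha hb hn hL 0 U
  have e : (fl ((0 : ℕ) : ZMod N) (0 : ZMod n) (0 : ZMod L)) = fun _ _ => 0 := by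
    funext t x
    unfold fl
    simp
  rw [e, AT_zero] at h
  rw [h]
  have := EN_nonneg hζ (corner 0) a b (lift (0 : ZMod n) (0 : ZMod L) U)
  linarith

/-- the block with an interior close to `w` -/
theorem EN_mx (hζ : IsPrimitiveRoot (om N k) N) {a b : ℕ} (hn : a < n) (hL : b < L) (i : ℕ)
    {U V : Link n L l → SU N} {w : LC N l} {η : ℝ} (hη : 0 ≤ η)
    (hw : AgreeB a b (lift (0 : ZMod n) (0 : ZMod L) U) w)
    (hV : ∀ (j : Fin 4) (t x : ℕ) (y : Fib l), t < a → x < b →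
      dd (V (j, (t : ZMod n), (x : ZMod L), y)) (w j t x y) ≤ η) :
    EN k (corner i) a b (lift (0 : ZMod n) (0 : ZMod L) (mx a b U V)) ≤
      EN k (corner i) a b w + a * (b * (48 * (l : ℝ) ^ 2 * N * η)) := by
  have key : ∀ t x, t < a → x < b → cN k (corner i t x)
      (lift (0 : ZMod n) (0 : ZMod L) (mx a b U V)) t x ≤ cN k (corner i t x) w t x +
      48 * (l : ℝ) ^ 2 * N * η := by
    intro t x ht hx
    have hmod : ∀ t' : ℕ, t' ≤ a → t' % n = t' := fun t' h => Nat.mod_eq_of_lt (by omega)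
    have hmodx : ∀ x' : ℕ, x' ≤ b → x' % L = x' := fun x' h => Nat.mod_eq_of_lt (by omega)
    have F : ∀ t' x', t' ≤ a → x' ≤ b → ∀ y,
        dd (lift (0 : ZMod n) (0 : ZMod L) (mx a b U V) 2 t' x' y) (w 2 t' x' y) ≤ η ∧
        dd (lift (0 : ZMod n) (0 : ZMod L) (mx a b U V) 3 t' x' y) (w 3 t' x' y) ≤ η := by
      intro t' x' ht' hx' y
      by_cases hb : 0 < t' ∧ t' < a ∧ 0 < x' ∧ x' < b
      · have m1 : ∀ j : Fin 4, j ≠ 0 → j ≠ 1 →
            ((j, (t' : ZMod n), (x' : ZMod L), y) : Link n L l) ∈ inB a b := by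
          intro j hj0 hj1
          refine Or.inr (Or.inr ⟨hj0, hj1, ?_⟩)
          simp only [ZMod.val_natCast, hmod t' ht', hmodx x' hx']
          exact hb
        rw [lift_val, lift_val, mx_in (m1 2 (by decide) (by decide)),
          mx_in (m1 3 (by decide) (by decide))]
        exact ⟨hV 2 t' x' y hb.2.1 hb.2.2.2, hV 3 t' x' y hb.2.1 hb.2.2.2⟩
      · have e1 : fsN (lift (0 : ZMod n) (0 : ZMod L) (mx a b U V)) t' x' = fsN w t' x' := by
          rw [lift_mx_f (by rw [hmod t' ht', hmodx x' hx']; exact hb)]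
          exact (hw.fib t' x' (by unfold bdy; omega)).symm
        have e2 : lift (0 : ZMod n) (0 : ZMod L) (mx a b U V) 2 t' x' = w 2 t' x' :=
          congrArg Prod.fst e1
        have e3 : lift (0 : ZMod n) (0 : ZMod L) (mx a b U V) 3 t' x' = w 3 t' x' :=
          congrArg Prod.snd e1
        rw [e2, e3, dd_self, dd_self]
        exact ⟨hη, hη⟩
    have G0 : ∀ x', x' ≤ b → ∀ y,
        dd (lift (0 : ZMod n) (0 : ZMod L) (mx a b U V) 0 t x' y) (w 0 t x' y) ≤ η := by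
      intro x' hx' y
      by_cases hb : 0 < x' ∧ x' < b
      · have m1 : ((0, (t : ZMod n), (x' : ZMod L), y) : Link n L l) ∈ inB a b := by
          refine Or.inl ⟨rfl, ?_⟩
          simp only [ZMod.val_natCast, hmod t ht.le, hmodx x' hx']
          exact ⟨ht, hb⟩
        rw [lift_val, mx_in m1]
        exact hV 0 t x' y ht hb.2
      · have e1 : lift (0 : ZMod n) (0 : ZMod L) (mx a b U V) 0 t x' = w 0 t x' := by
          rw [lift_mx_out (out0 (by rw [hmod t ht.le, hmodx x' hx']; omega))]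
          have : x' = 0 ∨ x' = b := by omega
          rcases this with rfl | rfl
          · exact (hw.l0 t ht).1.symm
          · exact (hw.l0 t ht).2.symm
        rw [e1, dd_self]; exact hη
    have G1 : ∀ t', t' ≤ a → ∀ y,
        dd (lift (0 : ZMod n) (0 : ZMod L) (mx a b U V) 1 t' x y) (w 1 t' x y) ≤ η := by
      intro t' ht' y
      by_cases hb : 0 < t' ∧ t' < a
      · have m1 : ((1, (t' : ZMod n), (x : ZMod L), y) : Link n L l) ∈ inB a b := by
          refine Or.inr (Or.inl ⟨rfl, ?_⟩)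
          simp only [ZMod.val_natCast, hmod t' ht', hmodx x hx.le]
          exact ⟨hb.1, hb.2, hx⟩
        rw [lift_val, mx_in m1]
        exact hV 1 t' x y hb.2 hx
      · have e1 : lift (0 : ZMod n) (0 : ZMod L) (mx a b U V) 1 t' x = w 1 t' x := by
          rw [lift_mx_out (out1 (by rw [hmod t' ht', hmodx x hx.le]; omega))]
          have : t' = 0 ∨ t' = a := by omega
          rcases this with rfl | rfl
          · exact (hw.l1 x hx).1.symm
          · exact (hw.l1 x hx).2.symm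
        rw [e1, dd_self]; exact hη
    exact cN_lip hζ _ _ _ t x (F t x ht.le hx.le) (F (t + 1) x ht hx.le) (F t (x + 1) ht.le hx)
      (F (t + 1) (x + 1) ht hx) (G0 x hx.le) (G0 (x + 1) hx) (G1 t ht.le) (G1 (t + 1) ht)
  unfold EN
  have e : (a : ℝ) * (b * (48 * (l : ℝ) ^ 2 * N * η)) =
      ∑ _t ∈ Finset.range a, ∑ _x ∈ Finset.range b, 48 * (l : ℝ) ^ 2 * N * η := by
    simp only [Finset.sum_const, Finset.card_range, nsmul_eq_mul]
  rw [e, ← Finset.sum_add_distrib]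
  refine Finset.sum_le_sum fun t ht => ?_
  rw [← Finset.sum_add_distrib]
  refine Finset.sum_le_sum fun x hx => ?_
  rw [Finset.mem_range] at ht hx
  exact key t x ht hx

end blk

end

end Run7.h4.VS
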