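import Mathlib
import Pool.Agent.Run7.h4.VS.Lim

/-!
# Inserting the vacuum into a rectangle with a good ring
-/

open Matrix MeasureTheory
open Run7.h4.YM

namespace Run7.h4.VS

set_option linter.unusedSectionVars false
set_option linter.unusedVariables false

noncomputable section

variable {N l : ℕ} [NeZero N] [NeZero l] {k : ℕ} {hζ : IsPrimitiveRoot (om N k) N}
  {P0 Q0 : SU N} {F : FC N l → Fib l → SU N}
  {lab : FC N l → (Fib l → SU N) → FC N l → ZMod N} {C : ℝ}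

/-- the labels on the boundary line, with a sign -/
def pb0 (lab : FC N l → (Fib l → SU N) → FC N l → ZMod N) (b : ℕ) (u : LC N l) (t x : ℕ) :
    ZMod N := if x = 0 ∨ x = b then -lab (fsN u t x) (u 0 t x) (fsN u (t + 1) x) else 0

/-- the labels on the boundary line, with a sign -/
def pb1 (lab : FC N l → (Fib l → SU N) → FC N l → ZMod N) (a : ℕ) (u : LC N l) (t x : ℕ) :
    ZMod N := if t = 0 ∨ t = a then -lab (fsN u t x) (u 1 t x) (fsN u t (x + 1)) else 0

open Classical in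
/-- `w` over the boundary line, the exact vacuum inside -/
def w3 (P0 Q0 : SU N) (a b : ℕ) (w : LC N l) : LC N l := fun i t x =>
  if i = 0 then (if x = 0 ∨ x = b then w 0 t x else fun _ => 1) else
  if i = 1 then (if t = 0 ∨ t = a then w 1 t x else fun _ => 1) else
  if i = 2 then (if bdy a b t x then w 2 t x else (vacF P0 Q0).1) else
  (if bdy a b t x then w 3 t x else (vacF P0 Q0).2)

theorem w3_0 (P0 Q0 : SU N) (a b : ℕ) (w : LC N l) (t x : ℕ) :
    w3 P0 Q0 a b w 0 t x = if x = 0 ∨ x = b then w 0 t x else fun _ => 1 := rfl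
theorem w3_1 (P0 Q0 : SU N) (a b : ℕ) (w : LC N l) (t x : ℕ) :
    w3 P0 Q0 a b w 1 t x = if t = 0 ∨ t = a then w 1 t x else fun _ => 1 := rfl

open Classical in
theorem w3_2 (P0 Q0 : SU N) (a b : ℕ) (w : LC N l) (t x : ℕ) :
    w3 P0 Q0 a b w 2 t x = if bdy a b t x then w 2 t x else (vacF P0 Q0).1 := rfl

open Classical in
theorem w3_3 (P0 Q0 : SU N) (a b : ℕ) (w : LC N l) (t x : ℕ) :
    w3 P0 Q0 a b w 3 t x = if bdy a b t x then w 3 t x else (vacF P0 Q0).2 := rfl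

/-- the configuration in the frames, without labels on the boundary line -/
def wB (hζ : IsPrimitiveRoot (om N k) N) (F : FC N l → Fib l → SU N)
    (lab : FC N l → (Fib l → SU N) → FC N l → ZMod N) (a b : ℕ) (u : LC N l) : LC N l :=
  cen hζ (pb0 lab b u) (pb1 lab a u) (gau (gb F a b u) u)

/-- back to the original frames -/
def w4 (hζ : IsPrimitiveRoot (om N k) N) (P0 Q0 : SU N) (F : FC N l → Fib l → SU N)
    (lab : FC N l → (Fib l → SU N) → FC N l → ZMod N) (a b : ℕ) (u : LC N l) : LC N l :=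
  gau (fun t x y => (gb F a b u t x y)⁻¹) (cen hζ (fun t x => -pb0 lab b u t x)
    (fun t x => -pb1 lab a u t x) (w3 P0 Q0 a b (wB hζ F lab a b u)))

theorem agree_w4 (a b : ℕ) (u : LC N l) : AgreeB a b u (w4 hζ P0 Q0 F lab a b u) := by
  have hz : ∀ (z : ZMod N) (g : SU N), zc hζ (-z) * (zc hζ z * g) = g := fun z g => by
    rw [← mul_assoc, ← zc_add, neg_add_cancel, zc_zero, one_mul]
  refine ⟨fun t x hb => ?_, fun t ht => ?_, fun x hx => ?_⟩
  · unfold w4
    rw [gau_f, cen_f]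
    have h1 : fsN (w3 P0 Q0 a b (wB hζ F lab a b u)) t x =
        gF (gb F a b u t x) (fsN u t x) := by
      unfold fsN
      rw [w3_2, w3_3, if_pos hb, if_pos hb]
      rfl
    rw [h1]
    unfold gF
    refine Prod.ext (funext fun y => ?_) (funext fun y => ?_)
    · simp only; group
    · simp only; group
  · have key : ∀ x, (x = 0 ∨ x = b) → w4 hζ P0 Q0 F lab a b u 0 t x = u 0 t x := by
      intro x hx
      unfold w4
      rw [gau_0, cen_0, w3_0, if_pos hx]
      unfold wB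
      rw [cen_0, gau_0]
      funext y
      unfold gL
      beta_reduce
      rw [hz]
      group
    exact ⟨key 0 (Or.inl rfl), key b (Or.inr rfl)⟩
  · have key : ∀ t, (t = 0 ∨ t = a) → w4 hζ P0 Q0 F lab a b u 1 t x = u 1 t x := by
      intro t ht
      unfold w4
      rw [gau_1, cen_1, w3_1, if_pos ht]
      unfold wB
      rw [cen_1, gau_1]
      funext y
      unfold gL
      beta_reduce
      rw [hz]
      group
    exact ⟨key 0 (Or.inl rfl), key a (Or.inr rfl)⟩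

/-- the flux distribution of `w4` -/
def curlp (lab : FC N l → (Fib l → SU N) → FC N l → ZMod N) (a b : ℕ) (u : LC N l) (t x : ℕ) :
    ZMod N := pb0 lab b u t x + pb1 lab a u (t + 1) x - pb0 lab b u t (x + 1) - pb1 lab a u t x

theorem cN_w4 (a b : ℕ) (u : LC N l) (t x : ℕ) :
    cN k (curlp lab a b u t x).val (w4 hζ P0 Q0 F lab a b u) t x =
      cN k 0 (w3 P0 Q0 a b (wB hζ F lab a b u)) t x := by
  unfold w4
  rw [cN_gau, cN_cen hζ (m' := 0)]
  rw [ZMod.natCast_val, ZMod.cast_id]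
  unfold curlp
  push_cast
  ring

/-- inner cells -/
theorem cN_w3_inner (hs : Std N k hζ P0 Q0) {a b t x : ℕ} (w : LC N l) (h1 : 0 < t)
    (h2 : t + 1 < a) (h3 : 0 < x) (h4 : x + 1 < b) : cN k 0 (w3 P0 Q0 a b w) t x = 0 := by
  have f : ∀ t' x', (t' = t ∨ t' = t + 1) → (x' = x ∨ x' = x + 1) →
      fsN (w3 P0 Q0 a b w) t' x' = vacF P0 Q0 := by
    intro t' x' h5 h6
    have nb : ¬ bdy a b t' x' := by
      intro h7
      unfold bdy at h7
      omega
    unfold fsN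
    rw [w3_2, w3_3, if_neg nb, if_neg nb]
  refine cN_vac hs (f t x (by simp) (by simp)) (f (t + 1) x (by simp) (by simp))
    (f t (x + 1) (by simp) (by simp)) (f (t + 1) (x + 1) (by simp) (by simp)) ?_ ?_ ?_ ?_
  · rw [w3_0, if_neg (by omega)]
  · rw [w3_0, if_neg (by omega)]
  · rw [w3_1, if_neg (by omega)]
  · rw [w3_1, if_neg (by omega)]

/-- cells at the boundary -/
theorem cN_w3 (h : Fra hζ P0 Q0 F lab C) (hs : Std N k hζ P0 Q0) (m : ℕ) {a b t x : ℕ}
    (ht : t < a) (hx : x < b) (u : LC N l) :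
    cN k 0 (w3 P0 Q0 a b (wB hζ F lab a b u)) t x ≤
      3456 * (l : ℝ) ^ 2 * C ^ 2 * cN k m u t x := by
  obtain ⟨E, hE⟩ : ∃ E, E = cN k m u t x := ⟨_, rfl⟩
  have hE0 : 0 ≤ E := by rw [hE]; exact cN_nonneg hζ m u t x
  obtain ⟨v1, v2, v3, v4, k1, k2, k3, k4, -⟩ := cN_parts hζ m u t x (le_of_eq hE.symm)
  have hC := h.pos
  have hη : 0 ≤ 6 * C * Real.sqrt E := by positivity
  -- fibres
  have f : ∀ t' x', VL k (fsN u t' x') ≤ 4 * E → ∀ y,
      dd (w3 P0 Q0 a b (wB hζ F lab a b u) 2 t' x' y) (vacN P0 Q0 2 t' x' y) ≤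
        6 * C * Real.sqrt E ∧
      dd (w3 P0 Q0 a b (wB hζ F lab a b u) 3 t' x' y) (vacN P0 Q0 3 t' x' y) ≤
        6 * C * Real.sqrt E := by
    intro t' x' hV y
    have n2 : vacN P0 Q0 2 t' x' = (vacF P0 Q0 : FC N l).1 := rfl
    have n3 : vacN P0 Q0 3 t' x' = (vacF P0 Q0 : FC N l).2 := rfl
    rw [w3_2, w3_3, n2, n3]
    by_cases hb : bdy a b t' x'
    · rw [if_pos hb, if_pos hb]
      have e := h.frE hE0 hV y
      have e1 : gF (F (fsN u t' x')) (fsN u t' x') = fsN (wB hζ F lab a b u) t' x' := by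
        unfold wB
        rw [cen_f, gau_f, gb_pos u hb]
      rw [e1] at e
      exact e
    · rw [if_neg hb, if_neg hb, dd_self, dd_self]
      exact ⟨hη, hη⟩
  -- the links
  have zz : ∀ (z : ZMod N) (g : SU N), dd (zc hζ (-z) * g) 1 = dd g (zc hζ z) := by
    intro z g
    have e3 := dd_mul_left g (zc hζ z) (zc hζ z)⁻¹
    rw [inv_mul_cancel] at e3
    rw [zc_neg, e3]
  have g0 : ∀ x', (x' = x ∨ x' = x + 1) → VL k (fsN u t x') ≤ 4 * E →
      VL k (fsN u (t + 1) x') ≤ 4 * E → KL (fsN u t x') (u 0 t x') (fsN u (t + 1) x') ≤ 2 * E →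
      ∀ y, dd (w3 P0 Q0 a b (wB hζ F lab a b u) 0 t x' y) (vacN P0 Q0 0 t x' y) ≤
        6 * C * Real.sqrt E := by
    intro x' hx' h1 h2 h3 y
    rw [w3_0, vacN_0]
    by_cases hb : x' = 0 ∨ x' = b
    · rw [if_pos hb]
      have b1 : bdy a b t x' := by unfold bdy; omega
      have b2 : bdy a b (t + 1) x' := by unfold bdy; omega
      have e1 : wB hζ F lab a b u 0 t x' y =
          zc hζ (-lab (fsN u t x') (u 0 t x') (fsN u (t + 1) x')) *
          gL (F (fsN u t x')) (F (fsN u (t + 1) x')) (u 0 t x') y := by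
        unfold wB
        rw [cen_0, gau_0, gb_pos u b1, gb_pos u b2]
        unfold pb0
        rw [if_pos hb]
      rw [e1, zz]
      exact h.lkE hE0 h1 h2 h3 y
    · rw [if_neg hb, dd_self]; exact hη
  have g1 : ∀ t', (t' = t ∨ t' = t + 1) → VL k (fsN u t' x) ≤ 4 * E →
      VL k (fsN u t' (x + 1)) ≤ 4 * E → KL (fsN u t' x) (u 1 t' x) (fsN u t' (x + 1)) ≤ 2 * E →
      ∀ y, dd (w3 P0 Q0 a b (wB hζ F lab a b u) 1 t' x y) (vacN P0 Q0 1 t' x y) ≤
        6 * C * Real.sqrt E := by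
    intro t' ht' h1 h2 h3 y
    rw [w3_1, vacN_1]
    by_cases hb : t' = 0 ∨ t' = a
    · rw [if_pos hb]
      have b1 : bdy a b t' x := by unfold bdy; omega
      have b2 : bdy a b t' (x + 1) := by unfold bdy; omega
      have e1 : wB hζ F lab a b u 1 t' x y =
          zc hζ (-lab (fsN u t' x) (u 1 t' x) (fsN u t' (x + 1))) *
          gL (F (fsN u t' x)) (F (fsN u t' (x + 1))) (u 1 t' x) y := by
        unfold wB
        rw [cen_1, gau_1, gb_pos u b1, gb_pos u b2]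
        unfold pb1
        rw [if_pos hb]
      rw [e1, zz]
      exact h.lkE hE0 h1 h2 h3 y
    · rw [if_neg hb, dd_self]; exact hη
  have main := cN_change hζ 0 (w3 P0 Q0 a b (wB hζ F lab a b u)) (vacN P0 Q0) t x (f t x v1)
    (f (t + 1) x v2) (f t (x + 1) v3) (f (t + 1) (x + 1) v4)
    (g0 x (Or.inl rfl) v1 v2 k1) (g0 (x + 1) (Or.inr rfl) v3 v4 k2) (g1 t (Or.inl rfl) v1 v3 k3)
    (g1 (t + 1) (Or.inr rfl) v2 v4 k4)
  have hv : cN k 0 (vacN P0 Q0 : LC N l) t x = 0 :=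
    cN_vac hs rfl rfl rfl rfl rfl rfl rfl rfl
  rw [hv] at main
  rw [← hE]
  refine main.trans (le_of_eq ?_)
  have hsq : Real.sqrt E ^ 2 = E := Real.sq_sqrt hE0
  calc 2 * (0 : ℝ) + 96 * (l : ℝ) ^ 2 * (6 * C * Real.sqrt E) ^ 2
      = 3456 * (l : ℝ) ^ 2 * C ^ 2 * Real.sqrt E ^ 2 := by ring
    _ = _ := by rw [hsq]

theorem sum_curlp (a b : ℕ) (m : ℕ → ℕ → ℕ) (u : LC N l) :
    (∑ t ∈ Finset.range a, ∑ x ∈ Finset.range b, curlp lab a b u t x) =
      ∑ t ∈ Finset.range a, ∑ x ∈ Finset.range b,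
        ((m t x : ZMod N) - chN lab (m t x) u t x) := by
  have h1 := stokes (pb0 lab b u) (pb1 lab a u) a b
  have h2 := stokes (fun t x => -lab (fsN u t x) (u 0 t x) (fsN u (t + 1) x))
    (fun t x => -lab (fsN u t x) (u 1 t x) (fsN u t (x + 1))) a b
  have h3 : (∑ t ∈ Finset.range a, ∑ x ∈ Finset.range b, curlp lab a b u t x) =
      ∑ t ∈ Finset.range a, ∑ x ∈ Finset.range b, (pb0 lab b u t x + pb1 lab a u (t + 1) x -
        pb0 lab b u t (x + 1) - pb1 lab a u t x) := rfl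
  rw [h3, h1]
  have h4 : (∑ t ∈ Finset.range a, ∑ x ∈ Finset.range b,
        ((m t x : ZMod N) - chN lab (m t x) u t x)) =
      ∑ t ∈ Finset.range a, ∑ x ∈ Finset.range b,
        (-lab (fsN u t x) (u 0 t x) (fsN u (t + 1) x) +
          -lab (fsN u (t + 1) x) (u 1 (t + 1) x) (fsN u (t + 1) (x + 1)) -
          -lab (fsN u t (x + 1)) (u 0 t (x + 1)) (fsN u (t + 1) (x + 1)) -
          -lab (fsN u t x) (u 1 t x) (fsN u t (x + 1))) := by
    refine Finset.sum_congr rfl fun t _ => Finset.sum_congr rfl fun x _ => ?_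
    unfold chN
    ring
  rw [h4, h2]
  congr 1
  · refine Finset.sum_congr rfl fun t _ => ?_
    unfold pb0
    rw [if_pos (Or.inl rfl), if_pos (Or.inr rfl)]
  · refine Finset.sum_congr rfl fun x _ => ?_
    unfold pb1
    rw [if_pos (Or.inr rfl), if_pos (Or.inl rfl)]

/-- **The vacuum inside.** -/
theorem Fra.vacIn (h : Fra hζ P0 Q0 F lab C) (hs : Std N k hζ P0 Q0) (m : ℕ → ℕ → ℕ) (u : LC N l)
    {a b : ℕ} (ha : 1 ≤ a) (hb : 1 ≤ b) {i : ℕ}
    (hi : (∑ t ∈ Finset.range a, ∑ x ∈ Finset.range b,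
      ((m t x : ZMod N) - chN lab (m t x) u t x)) = (i : ZMod N)) :
    ∃ w : LC N l, AgreeB a b u w ∧ EN k (corner i) a b w ≤
      3456 * (l : ℝ) ^ 2 * C ^ 2 * ∑ p ∈ ring a b, cN k (m p.1 p.2) u p.1 p.2 := by
  rw [← sum_curlp] at hi
  obtain ⟨w', h1, h2⟩ := move (N := N) (l := l) (k := k) hζ a b ha hb
    (curlp lab a b u) (w4 hζ P0 Q0 F lab a b u) i hi
  have h0 := agree_w4 (k := k) (hζ := hζ) (P0 := P0) (Q0 := Q0) (F := F) (lab := lab) a b u
  refine ⟨w', ⟨fun t x hb' => ?_, fun t ht => ?_, fun x hx => ?_⟩, ?_⟩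
  · rw [h1.fib t x hb', h0.fib t x hb']
  · rw [(h1.l0 t ht).1, (h1.l0 t ht).2]; exact h0.l0 t ht
  · rw [(h1.l1 x hx).1, (h1.l1 x hx).2]; exact h0.l1 x hx
  · rw [h2, sum_ring a b fun t x => cN k (m t x) u t x, Finset.mul_sum]
    refine Finset.sum_le_sum fun t ht => ?_
    rw [Finset.mul_sum]
    refine Finset.sum_le_sum fun x hx => ?_
    rw [Finset.mem_range] at ht hx
    rw [cN_w4]
    by_cases hr : t = 0 ∨ t + 1 = a ∨ x = 0 ∨ x + 1 = b
    · rw [if_pos hr]
      exact cN_w3 h hs (m t x) ht hx u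
    · rw [if_neg hr, mul_zero]
      exact le_of_eq (cN_w3_inner hs _ (by omega) (by omega) (by omega) (by omega))

end

end Run7.h4.VS
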