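import Mathlib
import Pool.Agent.Run7.h4.YM.Defs

/-!
# Definitions for the final statement: both fluxes
-/

open MeasureTheory Matrix
open Run7.h4.YM

namespace Run7.h4.VS

noncomputable section

/-- the twists: `exp (2 π i k / N)` on the plaquettes in the plane `(2, 3)` at the sites with last
two coordinates `0`, and `exp (2 π i j / N)` on the plaquettes in the plane `(0, 1)` at the sites
with first two coordinates `0` -/
def twist2 {n L l : ℕ} (N k j : ℕ) (x : Site n L l) (a b : Fin 4) : ℂ :=
  if a = 2 ∧ b = 3 ∧ x.2.2 = 0 then Complex.exp (2 * Real.pi * Complex.I * (k / N)) else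
  if a = 0 ∧ b = 1 ∧ x.1 = 0 ∧ x.2.1 = 0 then Complex.exp (2 * Real.pi * Complex.I * (j / N)) else 1

/-- the Wilson action with the fluxes `k` and `j` -/
def action2 {N n L l : ℕ} [NeZero n] [NeZero L] [NeZero l] (k j : ℕ)
    (U : Link n L l → SU N) : ℝ :=
  ∑ x : Site n L l, ∑ a : Fin 4, ∑ b ∈ Finset.Ioi a,
    ((N : ℝ) - (twist2 N k j x a b * Matrix.trace (plaq U x a b).1).re)

/-- the partition function with the fluxes `k` and `j` -/
def Zf {N : ℕ} (n L l : ℕ) [NeZero n] [NeZero L] [NeZero l] [MeasurableSpace (SU N)]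
    (μ : Measure (SU N)) (k j : ℕ) (β : ℝ) : ℝ :=
  ∫ U : Link n L l → SU N, Real.exp (-(β * action2 k j U)) ∂(Measure.pi fun _ => μ)

end

end Run7.h4.VS
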