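import Mathlib
import Pool.Agent.Run7.h4.VS.UpU

/-!
# Upper bound for the partition function with a vortex, final form
-/

open MeasureTheory Matrix Filter Topology
open Run7.h4.YM

namespace Run7.h4.VS

set_option linter.unusedSectionVars false
set_option linter.unusedVariables false

noncomputable section

/-- powers against exponentials -/
theorem poly_exp (A ε : ℝ) (hA : 0 ≤ A) (hε : 0 < ε) :
    ∃ β0 : ℝ, 0 < β0 ∧ ∀ β, β0 ≤ β → A * β ^ 2 ≤ Real.exp (β * ε) := by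
  have h1 := Real.tendsto_pow_mul_exp_neg_atTop_nhds_zero 2
  have h2 : Tendsto (fun β : ℝ => β * ε) atTop atTop := Tendsto.atTop_mul_const hε tendsto_id
  have h3 := h1.comp h2
  have hpos : 0 < ε ^ 2 / (A + 1) := by positivity
  have h4 := (h3.eventually (gt_mem_nhds hpos)).and (eventually_ge_atTop (1 : ℝ))
  rw [eventually_atTop] at h4
  obtain ⟨b, hb⟩ := h4
  refine ⟨max b 1, by positivity, fun β hβ => ?_⟩
  have h5 := (hb β ((le_max_left _ _).trans hβ)).1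
  have h6 := (hb β ((le_max_left _ _).trans hβ)).2
  simp only [Function.comp] at h5
  rw [Real.exp_neg, ← div_eq_mul_inv, div_lt_iff₀ (Real.exp_pos _)] at h5
  have hE := Real.exp_pos (β * ε)
  have h7 : ε ^ 2 / (A + 1) * Real.exp (β * ε) * (A + 1) = ε ^ 2 * Real.exp (β * ε) := by
    field_simp
  have h8 : (β * ε) ^ 2 * (A + 1) < ε ^ 2 * Real.exp (β * ε) := by
    rw [← h7]
    exact mul_lt_mul_of_pos_right h5 (by linarith)
  have h9 : ε ^ 2 * (β ^ 2 * (A + 1)) < ε ^ 2 * Real.exp (β * ε) := by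
    calc ε ^ 2 * (β ^ 2 * (A + 1)) = (β * ε) ^ 2 * (A + 1) := by ring
      _ < _ := h8
  have h10 := lt_of_mul_lt_mul_left h9 (by positivity)
  nlinarith [sq_nonneg β]

theorem upperU (hKEY : StKEY) (hCOMB : StCOMB) (N k l : ℕ) [NeZero N] [NeZero l]
    (hζ : IsPrimitiveRoot (om N k) N) (P0 Q0 : SU N) (hs : Std N k hζ P0 Q0)
    [MeasurableSpace (SU N)] [BorelSpace (SU N)] (μ : Measure (SU N)) [IsProbabilityMeasure μ]
    [μ.IsHaarMeasure] (c : ℕ) (S : ℝ) (hS0 : 0 < S)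
    (hS : ∀ i : ℕ, ¬ N ∣ c * i → S ≤ SF k P0 Q0 l i) (ε : ℝ) (hε : 0 < ε) :
    ∃ M : ℕ, ∀ C0 : ℝ, 0 < C0 → ∃ β0 : ℝ, 0 < β0 ∧ ∀ β : ℝ, β0 ≤ β → ∀ (m m' : ℕ) [NeZero m]
      [NeZero m'], M ≤ m → M ≤ m' → (m : ℝ) ≤ C0 * β → (m' : ℝ) ≤ C0 * β →
      ∀ i : ZMod N, (c : ZMod N) * i ≠ 0 →
      Zi μ (2 * m) (2 * m') l k i β ≤ Real.exp (-(β * (S - ε))) * ZZ μ m m' l k β := by
  obtain ⟨lab, δ0, C, hδ0, hC, hgood, hkey⟩ := hKEY N k l hζ P0 Q0 hs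
  obtain ⟨ε1, hε1⟩ : ∃ ε1, ε1 = min (ε / 4) (S / 2) := ⟨_, rfl⟩
  have hε10 : 0 < ε1 := by rw [hε1]; exact lt_min (by linarith) (by linarith)
  have hε11 : ε1 ≤ ε / 4 := by rw [hε1]; exact min_le_left _ _
  have hε12 : ε1 < S := by
    have : ε1 ≤ S / 2 := by rw [hε1]; exact min_le_right _ _
    linarith
  obtain ⟨K, hK, hcomb⟩ := hCOMB N c S δ0 C ε1 hδ0 hC hε10 hε12
  have hl : (0 : ℝ) < l := by exact_mod_cast NeZero.pos l
  have hKr : (0 : ℝ) < K := by exact_mod_cast hK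
  obtain ⟨η, hη⟩ : ∃ η : ℝ, η = Real.sqrt (ε / (4 * (48 * (l : ℝ) ^ 2 * (4 * K * K)))) := ⟨_, rfl⟩
  have hη0 : 0 < η := by rw [hη]; exact Real.sqrt_pos.mpr (by positivity)
  have hη2 : 48 * (l : ℝ) ^ 2 * η ^ 2 * (4 * K * K) = ε / 4 := by
    rw [hη, Real.sq_sqrt (by positivity)]; field_simp
  obtain ⟨D, hD⟩ : ∃ D : ℝ, D = ((ball μ η ^ (4 * l ^ 2))⁻¹) ^ (4 * K * K) := ⟨_, rfl⟩
  have hb := ball_pos μ hη0
  have hD0 : 0 < D := by rw [hD]; positivity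
  refine ⟨K, fun C0 hC0 => ?_⟩
  obtain ⟨β0, hβ0, hpe⟩ := poly_exp (4 * C0 ^ 2 * D) (ε / 2) (by positivity) (by linarith)
  refine ⟨β0, hβ0, fun β hβ m m' _ _ hm hm' hmC hmC' i hi => ?_⟩
  have hβp : 0 < β := lt_of_lt_of_le hβ0 hβ
  have hinv := inv_inv' μ
  have hZ := ZZ_pos (m := m) (m' := m') (l := l) μ k β
  have hsq : ∀ U : Cf N m m' l, ∃ (s : ZMod (2 * m)) (r : ZMod (2 * m')),
      S - ε1 ≤ EB k K (fl i 0 0) s r U := fun U =>
    square_of hζ hgood hkey hS (hcomb (2 * m) (2 * m') (by omega) (by omega)) (fl i 0 0)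
      (by rw [sum_fl]; exact hi) U
  refine (Zi_le hζ μ hβp.le hη0 hK hm hm' i hsq).trans ?_
  obtain ⟨Z, hZe⟩ : ∃ Z, Z = ZZ μ m m' l k β := ⟨_, rfl⟩
  rw [← hZe] at hZ ⊢
  have e1 : ((ball μ η ^ (4 * l ^ 2))⁻¹ * Real.exp (β * (48 * (l : ℝ) ^ 2 * η ^ 2))) ^
      (4 * K * K) = D * Real.exp (β * (ε / 4)) := by
    rw [mul_pow, ← hD, ← Real.exp_nat_mul]
    congr 2
    push_cast
    rw [← hη2]
    ring
  rw [e1]
  have e2 : Real.exp (-(β * (S - ε1))) ≤ Real.exp (-(β * (S - ε / 4))) :=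
    Real.exp_le_exp.mpr (by nlinarith)
  have hmp : (0 : ℝ) ≤ m := Nat.cast_nonneg m
  have hmp' : (0 : ℝ) ≤ m' := Nat.cast_nonneg m'
  have e3 : ((2 * m : ℕ) : ℝ) * (2 * m' : ℕ) ≤ 4 * C0 ^ 2 * β ^ 2 := by
    push_cast
    have : (m : ℝ) * m' ≤ (C0 * β) * (C0 * β) := mul_le_mul hmC hmC' hmp' (by positivity)
    nlinarith
  have e4 := hpe β hβ
  have e5 : Real.exp (-(β * (S - ε))) = Real.exp (β * (ε / 2)) *
      (Real.exp (-(β * (S - ε / 4))) * Real.exp (β * (ε / 4))) := by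
    rw [← Real.exp_add, ← Real.exp_add]; congr 1; ring
  calc ((2 * m : ℕ) : ℝ) * ((2 * m' : ℕ) * (Real.exp (-(β * (S - ε1))) *
        (D * Real.exp (β * (ε / 4)) * Z)))
      = (((2 * m : ℕ) : ℝ) * (2 * m' : ℕ)) * (Real.exp (-(β * (S - ε1))) *
        (D * Real.exp (β * (ε / 4)) * Z)) := by ring
    _ ≤ (4 * C0 ^ 2 * β ^ 2) * (Real.exp (-(β * (S - ε / 4))) *
        (D * Real.exp (β * (ε / 4)) * Z)) := by
        refine mul_le_mul e3 (mul_le_mul_of_nonneg_right e2 (by positivity)) (by positivity)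
          (by positivity)
    _ = (4 * C0 ^ 2 * D * β ^ 2) * ((Real.exp (-(β * (S - ε / 4))) * Real.exp (β * (ε / 4))) * Z) := by
        ring
    _ ≤ Real.exp (β * (ε / 2)) * ((Real.exp (-(β * (S - ε / 4))) * Real.exp (β * (ε / 4))) * Z) :=
        mul_le_mul_of_nonneg_right e4 (by positivity)
    _ = _ := by rw [e5]; ring

end

end Run7.h4.VS
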