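import Mathlib
import Pool.Agent.Run7.h4.YM.Rect
import Pool.Agent.Run7.h4.VS.Low
import Pool.Agent.Run7.h4.VS.UpV

/-!
# Lower bound for the partition function with a vortex
-/

open MeasureTheory Matrix Filter Topology
open Run7.h4.YM

namespace Run7.h4.VS

set_option linter.unusedSectionVars false
set_option linter.unusedVariables false

noncomputable section

section inner

variable {N n L l : ℕ} [NeZero N] [NeZero n] [NeZero L] [NeZero l] {k : ℕ}
  (hζ : IsPrimitiveRoot (om N k) N)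
  [MeasurableSpace (SU N)] [BorelSpace (SU N)] (μ : Measure (SU N)) [IsProbabilityMeasure μ]
  [μ.IsHaarMeasure]

omit [NeZero N] [NeZero n] [NeZero L] [NeZero l] [BorelSpace (SU N)] [μ.IsHaarMeasure] in
theorem ball_nonneg (η : ℝ) : 0 ≤ ball μ η := measureReal_nonneg

omit [NeZero N] [NeZero n] [NeZero L] [NeZero l] [BorelSpace (SU N)] [μ.IsHaarMeasure] in
theorem ball_le_one (η : ℝ) : ball μ η ≤ 1 := by
  unfold ball
  exact measureReal_le_one

/-- links of the block -/
def blk (a b : ℕ) (e : Link n L l) : Prop := e.2.1.val < a ∧ e.2.2.1.val < b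

open Classical in
theorem card_blk (a b : ℕ) :
    (Finset.univ.filter fun e : Link n L l => blk a b e).card ≤ 4 * a * b * l ^ 2 := by
  have h : (Finset.univ.filter fun e : Link n L l => blk a b e).card ≤
      ((Finset.univ : Finset (Fin 4)) ×ˢ (Finset.range a ×ˢ (Finset.range b ×ˢ
        (Finset.univ : Finset (Fib l))))).card := by
    refine Finset.card_le_card_of_injOn
      (fun e => (e.1, e.2.1.val, e.2.2.1.val, e.2.2.2)) ?_ ?_
    · intro e he
      have he' : blk a b e := by simpa using he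
      simp only [Finset.coe_product, Finset.coe_univ, Finset.coe_range, Set.mem_prod,
        Set.mem_univ, Set.mem_Iio, true_and, and_true]
      exact he'
    · intro e _ e' _ h
      simp only [Prod.mk.injEq] at h
      obtain ⟨h1, h2, h3, h4⟩ := h
      have h2' := ZMod.val_injective n h2
      have h3' := ZMod.val_injective L h3
      exact Prod.ext h1 (Prod.ext h2' (Prod.ext h3' h4))
  refine h.trans (le_of_eq ?_)
  rw [Finset.card_product, Finset.card_product, Finset.card_product, card_fib,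
    Finset.card_univ, Finset.card_range, Finset.card_range, Fintype.card_fin]
  ring

include hζ in
theorem inner_low {a b i : ℕ} (ha : 1 ≤ a) (hb : 1 ≤ b) (hn : a < n) (hL : b < L) {β ρ : ℝ}
    (hβ : 0 ≤ β) (hρ : 0 < ρ) (U : Link n L l → SU N) {w : LC N l}
    (hw : AgreeB a b (lift (0 : ZMod n) (0 : ZMod L) U) w) :
    ball μ ρ ^ (4 * a * b * l ^ 2) * Real.exp (-(β * (EN k (corner i) a b w +
      a * (b * (48 * (l : ℝ) ^ 2 * N * ρ)) + action k U))) ≤
    ∫ V : Link n L l → SU N, Real.exp (-(β * AT k (fl (i : ZMod N) 0 0) (mx a b U V)))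
      ∂(Measure.pi fun _ => μ) := by
  classical
  obtain ⟨w', hw'⟩ : ∃ w' : Link n L l → SU N, w' = fun e => w e.1 e.2.1.val e.2.2.1.val e.2.2.2 :=
    ⟨_, rfl⟩
  obtain ⟨E, hE⟩ : ∃ E : Set (Link n L l → SU N), E = Set.univ.pi fun e =>
    if blk a b e then {g : SU N | dd g (w' e) < ρ} else Set.univ := ⟨_, rfl⟩
  have hball : ∀ h : SU N, MeasurableSet {g : SU N | dd g h < ρ} := fun h =>
    (isOpen_lt (continuous_dd' continuous_id continuous_const) continuous_const).measurableSet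
  have hEm : MeasurableSet E := by
    rw [hE]
    refine MeasurableSet.univ_pi fun e => ?_
    split_ifs
    · exact hball _
    · exact MeasurableSet.univ
  have hPE : ball μ ρ ^ (4 * a * b * l ^ 2) ≤ (Measure.pi fun _ : Link n L l => μ).real E := by
    unfold Measure.real
    rw [hE, Measure.pi_pi, ENNReal.toReal_prod]
    have h1 : ∀ e : Link n L l, (μ (if blk a b e then {g : SU N | dd g (w' e) < ρ}
        else Set.univ)).toReal = if blk a b e then ball μ ρ else 1 := by
      intro e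
      split_ifs
      · exact ball_eq μ ρ _
      · simp
    rw [Finset.prod_congr rfl fun e _ => h1 e, Finset.prod_ite, Finset.prod_const,
      Finset.prod_const_one, mul_one]
    exact pow_le_pow_of_le_one (ball_nonneg μ ρ) (ball_le_one μ ρ) (card_blk a b)
  have hact : ∀ V ∈ E, AT k (fl (i : ZMod N) 0 0) (mx a b U V) ≤ EN k (corner i) a b w +
      a * (b * (48 * (l : ℝ) ^ 2 * N * ρ)) + action k U := by
    intro V hV
    rw [AT_split hζ ha hb hn hL, Out_mx ha hb hn hL]
    have h1 := Out_le (n := n) (L := L) hζ ha hb hn hL U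
    have h2 := EN_mx (n := n) (L := L) hζ hn hL i (U := U) (V := V) hρ.le hw (by
      intro j t x y ht hx
      have h3 : V ((j, (t : ZMod n), (x : ZMod L), y) : Link n L l) ∈
          (if blk a b ((j, (t : ZMod n), (x : ZMod L), y) : Link n L l) then
            {g : SU N | dd g (w' (j, (t : ZMod n), (x : ZMod L), y)) < ρ} else Set.univ) := by
        rw [hE] at hV
        exact hV _ (Set.mem_univ _)
      have e1 : t % n = t := Nat.mod_eq_of_lt (by omega)
      have e2 : x % L = x := Nat.mod_eq_of_lt (by omega)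
      have h4 : blk a b ((j, (t : ZMod n), (x : ZMod L), y) : Link n L l) := by
        unfold blk
        simp only [ZMod.val_natCast, e1, e2]
        exact ⟨ht, hx⟩
      rw [if_pos h4] at h3
      have h5 : dd (V (j, (t : ZMod n), (x : ZMod L), y)) (w' (j, (t : ZMod n), (x : ZMod L), y)) <
        ρ := h3
      rw [hw'] at h5
      simp only [ZMod.val_natCast, e1, e2] at h5
      exact h5.le)
    linarith
  have hcont : Continuous fun V : Link n L l → SU N => mx a b U V := by
    unfold mx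
    refine continuous_pi fun e => ?_
    unfold mix
    by_cases h : e ∈ (inB a b : Set (Link n L l))ᶜ
    · simp only [h, if_true]; exact continuous_const
    · simp only [h, if_false]; exact continuous_apply e
  have hint : Integrable (fun V : Link n L l → SU N =>
      Real.exp (-(β * AT k (fl (i : ZMod N) 0 0) (mx a b U V)))) (Measure.pi fun _ => μ) :=
    (((Bd.of_continuous ((cont_AT (k := k) (fl (i : ZMod N) (0 : ZMod n) (0 : ZMod L))).comp
      hcont)).smul β).neg.exp).integrable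
  obtain ⟨c, hc⟩ : ∃ c : ℝ, c = Real.exp (-(β * (EN k (corner i) a b w +
      a * (b * (48 * (l : ℝ) ^ 2 * N * ρ)) + action k U))) := ⟨_, rfl⟩
  have h1 : ∫ V in E, c ∂(Measure.pi fun _ : Link n L l => μ) ≤
      ∫ V in E, Real.exp (-(β * AT k (fl (i : ZMod N) 0 0) (mx a b U V)))
        ∂(Measure.pi fun _ => μ) := by
    refine setIntegral_mono_on (integrable_const _).integrableOn hint.integrableOn hEm ?_
    intro V hV
    rw [hc]
    exact Real.exp_le_exp.mpr (neg_le_neg (mul_le_mul_of_nonneg_left (hact V hV) hβ))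
  have h2 : ∫ V in E, Real.exp (-(β * AT k (fl (i : ZMod N) 0 0) (mx a b U V)))
        ∂(Measure.pi fun _ => μ) ≤ ∫ V : Link n L l → SU N,
      Real.exp (-(β * AT k (fl (i : ZMod N) 0 0) (mx a b U V))) ∂(Measure.pi fun _ => μ) :=
    setIntegral_le_integral hint (Filter.Eventually.of_forall fun U => (Real.exp_pos _).le)
  refine le_trans ?_ (h1.trans h2)
  rw [setIntegral_const, smul_eq_mul, ← hc]
  exact mul_le_mul_of_nonneg_right hPE (by rw [hc]; exact (Real.exp_pos _).le)

end inner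

section outer

variable {N m m' l : ℕ} [NeZero N] [NeZero m] [NeZero m'] [NeZero l] {k : ℕ}
  (hζ : IsPrimitiveRoot (om N k) N)
  [MeasurableSpace (SU N)] [BorelSpace (SU N)] (μ : Measure (SU N)) [IsProbabilityMeasure μ]
  [μ.IsHaarMeasure]

/-- indicator of the good block -/
def gdb (k : ℕ) (a b : ℕ) (δ : ℝ) (U : Cf N m m' l) : ℝ :=
  ∏ t ∈ Finset.range a, ∏ x ∈ Finset.range b, (1 - bad (k := k) δ t x U)

theorem bd_gdb (a b : ℕ) (δ : ℝ) : Bd (gdb (N := N) (m := m) (m' := m') (l := l) k a b δ) :=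
  Bd.prod _ fun t _ => Bd.prod _ fun x _ => (Bd.const 1).sub (bd_bad δ t x)

theorem bad_cases (δ : ℝ) (t x : ℕ) (U : Cf N m m' l) :
    (bad (k := k) δ t x U = 0 ∧ cell k U (t : ZMod (2 * m)) (x : ZMod (2 * m')) < δ) ∨
    (bad (k := k) δ t x U = 1 ∧ δ ≤ cell k U (t : ZMod (2 * m)) (x : ZMod (2 * m'))) := by
  unfold bad
  split_ifs with h
  · exact Or.inr ⟨rfl, h⟩
  · exact Or.inl ⟨rfl, not_le.mp h⟩

theorem gdb_cases (a b : ℕ) (δ : ℝ) (U : Cf N m m' l) :
    (gdb k a b δ U = 1 ∧ ∀ t, t < a → ∀ x, x < b →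
      cell k U (t : ZMod (2 * m)) (x : ZMod (2 * m')) < δ) ∨
    (gdb k a b δ U = 0 ∧ 1 ≤ ∑ t ∈ Finset.range a, ∑ x ∈ Finset.range b, bad (k := k) δ t x U) := by
  by_cases h : ∀ t, t < a → ∀ x, x < b → cell k U (t : ZMod (2 * m)) (x : ZMod (2 * m')) < δ
  · refine Or.inl ⟨?_, h⟩
    unfold gdb
    refine Finset.prod_eq_one fun t ht => Finset.prod_eq_one fun x hx => ?_
    rw [Finset.mem_range] at ht hx
    rcases bad_cases (k := k) δ t x U with h1 | h1
    · rw [h1.1, sub_zero]
    · exact absurd (h t ht x hx) (not_lt.mpr h1.2)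
  · right
    push Not at h
    obtain ⟨t, ht, x, hx, h1⟩ := h
    have h2 : bad (k := k) δ t x U = 1 := by
      unfold bad
      rw [if_pos h1]
    refine ⟨?_, ?_⟩
    · unfold gdb
      refine Finset.prod_eq_zero (Finset.mem_range.mpr ht) ?_
      refine Finset.prod_eq_zero (Finset.mem_range.mpr hx) ?_
      rw [h2, sub_self]
    · have hnn : ∀ t x : ℕ, 0 ≤ bad (k := k) δ t x U := fun t x => by
        unfold bad
        split_ifs <;> norm_num
      have h3 : bad (k := k) δ t x U ≤ ∑ x ∈ Finset.range b, bad (k := k) δ t x U :=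
        Finset.single_le_sum (f := fun x => bad (k := k) δ t x U) (fun x _ => hnn t x)
          (Finset.mem_range.mpr hx)
      have h4 : (∑ x ∈ Finset.range b, bad (k := k) δ t x U) ≤
          ∑ t ∈ Finset.range a, ∑ x ∈ Finset.range b, bad (k := k) δ t x U :=
        Finset.single_le_sum (f := fun t => ∑ x ∈ Finset.range b, bad (k := k) δ t x U)
          (fun t _ => Finset.sum_nonneg fun x _ => hnn t x) (Finset.mem_range.mpr ht)
      linarith

/-- most configurations have a good block -/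
theorem gdb_low {p β : ℝ} {δ : ℝ} (a b : ℕ)
    (hp : ∀ i j : ℕ, II μ k β (bad (N := N) (m := m) (m' := m') (l := l) (k := k) δ i j) ≤
      p * ZZ μ m m' l k β) :
    ZZ μ m m' l k β * (1 - a * b * p) ≤
      II μ k β (gdb (N := N) (m := m) (m' := m') (l := l) k a b δ) := by
  have hinv := inv_inv' μ
  have h1 : II μ k β (fun _ : Cf N m m' l => (1 : ℝ)) ≤
      II μ k β (fun U : Cf N m m' l => gdb k a b δ U +
        ∑ t ∈ Finset.range a, ∑ x ∈ Finset.range b, bad (k := k) δ t x U) := by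
    refine II_mono μ k β (Bd.const 1) ((bd_gdb a b δ).add
      (Bd.sum _ fun t _ => Bd.sum _ fun x _ => bd_bad δ t x)) fun U => ?_
    rcases gdb_cases (k := k) a b δ U with h | h
    · have hnn : ∀ t x : ℕ, 0 ≤ bad (k := k) δ t x U := fun t x => by
        unfold bad
        split_ifs <;> norm_num
      have : 0 ≤ ∑ t ∈ Finset.range a, ∑ x ∈ Finset.range b, bad (k := k) δ t x U :=
        Finset.sum_nonneg fun t _ => Finset.sum_nonneg fun x _ => hnn t x
      linarith [h.1]
    · linarith [h.1, h.2]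
  rw [II_add μ k β (bd_gdb a b δ) (Bd.sum _ fun t _ => Bd.sum _ fun x _ => bd_bad δ t x),
    II_sum μ k β _ (fun t _ => Bd.sum _ fun x _ => bd_bad δ t x)] at h1
  have h2 : (∑ t ∈ Finset.range a, II μ k β (fun U : Cf N m m' l =>
      ∑ x ∈ Finset.range b, bad (k := k) δ t x U)) ≤ a * (b * (p * ZZ μ m m' l k β)) := by
    refine (Finset.sum_le_card_nsmul _ _ (b * (p * ZZ μ m m' l k β)) fun t _ => ?_).trans
      (le_of_eq (by rw [Finset.card_range, nsmul_eq_mul]))
    rw [II_sum μ k β _ (fun x _ => bd_bad δ t x)]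
    refine (Finset.sum_le_card_nsmul _ _ (p * ZZ μ m m' l k β) fun x _ => hp t x).trans
      (le_of_eq (by rw [Finset.card_range, nsmul_eq_mul]))
  have h3 : II μ k β (fun _ : Cf N m m' l => (1 : ℝ)) = ZZ μ m m' l k β := rfl
  rw [h3] at h1
  have h4 : II μ k β (fun U : Cf N m m' l => gdb k a b δ U) =
    II μ k β (gdb (N := N) (m := m) (m' := m') (l := l) k a b δ) := rfl
  rw [h4] at h1
  linarith

include hζ in
/-- the integral over the configurations with a good block -/
theorem Zi_ge {a b i : ℕ} (ha : 1 ≤ a) (hb : 1 ≤ b) (hn : a < 2 * m) (hL : b < 2 * m')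
    {β ρ δ E0 : ℝ} (hβ : 0 ≤ β) (hρ : 0 < ρ)
    (hw : ∀ u : LC N l, (∀ t, t < a → ∀ x, x < b → cN k 0 u t x < δ) →
      ∃ w : LC N l, AgreeB a b u w ∧ EN k (corner i) a b w ≤ E0) :
    ball μ ρ ^ (4 * a * b * l ^ 2) * Real.exp (-(β * (E0 +
      a * (b * (48 * (l : ℝ) ^ 2 * N * ρ))))) *
        II μ k β (gdb (N := N) (m := m) (m' := m') (l := l) k a b δ) ≤
      Zi μ (2 * m) (2 * m') l k (i : ZMod N) β := by
  have hinv := inv_inv' μ
  have hAT : Bd (fun U : Cf N m m' l => Real.exp (-(β * AT k (fl (i : ZMod N) 0 0) U))) :=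
    ((Bd.of_continuous (cont_AT _)).smul β).neg.exp
  have hm := mp_mix (ι := Link (2 * m) (2 * m') l) μ (inB a b)ᶜ
  have e1 : Zi μ (2 * m) (2 * m') l k (i : ZMod N) β = ∫ U : Cf N m m' l, ∫ V : Cf N m m' l,
      Real.exp (-(β * AT k (fl (i : ZMod N) 0 0) (mx a b U V))) ∂(Measure.pi fun _ => μ)
        ∂(Measure.pi fun _ => μ) := by
    unfold Zi
    rw [mp_int hm hAT]
    exact integral_prod _ ((hAT.comp hm.measurable).integrable)
  have hi : Integrable (fun U : Cf N m m' l => ∫ V : Cf N m m' l,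
      Real.exp (-(β * AT k (fl (i : ZMod N) 0 0) (mx a b U V))) ∂(Measure.pi fun _ => μ))
        (Measure.pi fun _ => μ) := ((hAT.comp hm.measurable).integrable).integral_prod_left
  rw [e1]
  unfold II
  rw [← integral_const_mul]
  refine integral_mono ((((bd_gdb a b δ).mul (bd_w k β)).smul _).integrable) hi fun U => ?_
  have hnn : 0 ≤ ∫ V : Cf N m m' l,
      Real.exp (-(β * AT k (fl (i : ZMod N) 0 0) (mx a b U V))) ∂(Measure.pi fun _ => μ) :=
    integral_nonneg fun V => (Real.exp_pos _).le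
  rcases gdb_cases (k := k) a b δ U with h | h
  · obtain ⟨w, hw1, hw2⟩ := hw (lift (0 : ZMod (2 * m)) (0 : ZMod (2 * m')) U) (fun t ht x hx => by
      rw [cN_lift, cT_zero, zero_add, zero_add]
      exact h.2 t ht x hx)
    have h1 := inner_low (n := 2 * m) (L := 2 * m') hζ μ ha hb hn hL (β := β) (i := i) hβ hρ U hw1
    simp only [h.1, one_mul]
    refine le_trans ?_ h1
    rw [mul_assoc, ← Real.exp_add]
    refine mul_le_mul_of_nonneg_left (Real.exp_le_exp.mpr ?_) (pow_nonneg (ball_nonneg μ ρ) _)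
    nlinarith
  · simp only [h.1, zero_mul, mul_zero]
    exact hnn

end outer

/-- The lower bound. -/
theorem lowerL (hINS : StINS) {N k l : ℕ} [NeZero N] [NeZero l] (hζ : IsPrimitiveRoot (om N k) N)
    {P0 Q0 : SU N} (hP : Std N k hζ P0 Q0)
    [MeasurableSpace (SU N)] [BorelSpace (SU N)] (μ : Measure (SU N)) [IsProbabilityMeasure μ]
    [μ.IsHaarMeasure] (i : ℕ) {ε : ℝ} (hε : 0 < ε) : ∃ (β0 : ℝ) (M : ℕ), 0 < β0 ∧ 0 < M ∧
    ∀ β : ℝ, β0 ≤ β → ∀ (m m' : ℕ) [NeZero m] [NeZero m'], M ≤ m → M ≤ m' →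
      Real.exp (-(β * (SF k P0 Q0 l i + ε))) * ZZ μ m m' l k β ≤
        Zi μ (2 * m) (2 * m') l k (i : ZMod N) β := by
  have hN : (0 : ℝ) < N := by exact_mod_cast NeZero.pos N
  have hl : (0 : ℝ) < l := by exact_mod_cast NeZero.pos l
  -- a framed configuration with almost minimal energy
  obtain ⟨S, hS⟩ : ∃ S, S = SF k P0 Q0 l i := ⟨_, rfl⟩
  have hlt : SF k P0 Q0 l i < S + ε / 4 := by rw [← hS]; linarith
  unfold SF at hlt
  obtain ⟨E, ⟨a, b, v, ha, hb, hv, rfl⟩, hE⟩ := exists_lt_of_csInf_lt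
    (SF_nonempty (k := k) (l := l) P0 Q0 i) hlt
  rw [hS] at hE
  obtain ⟨δ, hδ, hins⟩ := hINS N k l hζ P0 Q0 hP i a b v ha hb hv (ε / 4) (by positivity)
  obtain ⟨C, hC, hbad⟩ := bad_bound (l := l) hζ μ hδ
  have ha' : (0 : ℝ) < a := by exact_mod_cast ha
  have hb' : (0 : ℝ) < b := by exact_mod_cast hb
  obtain ⟨ρ, hρ⟩ : ∃ ρ : ℝ, ρ = ε / 4 / (a * (b * (48 * (l : ℝ) ^ 2 * N))) := ⟨_, rfl⟩
  have hρ0 : 0 < ρ := by rw [hρ]; positivity
  have hρ1 : (a : ℝ) * (b * (48 * (l : ℝ) ^ 2 * N * ρ)) = ε / 4 := by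
    rw [hρ]; field_simp
  obtain ⟨y, hy⟩ : ∃ y : ℝ, y = ball μ ρ ^ (4 * a * b * l ^ 2) := ⟨_, rfl⟩
  have hy0 : 0 < y := by rw [hy]; exact pow_pos (ball_pos μ hρ0) _
  -- thresholds
  obtain ⟨β1, hβ1⟩ : ∃ β1 : ℝ, β1 = 2 / δ * (2 * a * b * C) := ⟨_, rfl⟩
  obtain ⟨β2, hβ2⟩ : ∃ β2 : ℝ, β2 = 4 / ε * (2 / y) := ⟨_, rfl⟩
  have hβ1p : 0 < β1 := by rw [hβ1]; positivity
  have hβ2p : 0 < β2 := by rw [hβ2]; positivity
  refine ⟨β1 + β2, a + b + 1, by positivity, by omega, fun β hβ m m' _ _ hm hm' => ?_⟩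
  have hinv := inv_inv' μ
  have hβ0 : 0 ≤ β := by linarith
  have hZ := ZZ_pos (N := N) (m := m) (m' := m') (l := l) μ k β
  have h1 := Zi_ge (m := m) (m' := m') hζ μ ha hb (by omega) (by omega) (δ := δ) (i := i) hβ0 hρ0
    (E0 := SF k P0 Q0 l i + ε / 2) (fun u hu => by
      obtain ⟨w, hw1, hw2⟩ := hins u hu
      exact ⟨w, hw1, by linarith⟩)
  have h2 := gdb_low (m := m) (m' := m') μ (k := k) (l := l) (δ := δ)
    (p := C * Real.exp (-(β * (δ / 2)))) (β := β) a b (fun i j => hbad β hβ0 m m' i j)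
  have h3 : (a : ℝ) * b * (C * Real.exp (-(β * (δ / 2)))) ≤ 1 / 2 := by
    have h4 : 2 * a * b * C ≤ β * (δ / 2) := by
      have h5 : β1 ≤ β := by linarith
      have := mul_le_mul_of_nonneg_right h5 (by positivity : (0 : ℝ) ≤ δ / 2)
      have e1 : β1 * (δ / 2) = 2 * a * b * C := by rw [hβ1]; field_simp
      linarith
    have h5 : 2 * a * b * C ≤ Real.exp (β * (δ / 2)) := by
      have := Real.add_one_le_exp (β * (δ / 2)); linarith
    have h6 : Real.exp (-(β * (δ / 2))) * Real.exp (β * (δ / 2)) = 1 := by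
      rw [← Real.exp_add, neg_add_cancel, Real.exp_zero]
    have h7 := mul_le_mul_of_nonneg_left h5 (Real.exp_pos (-(β * (δ / 2)))).le
    rw [h6] at h7
    nlinarith
  have h4 : ZZ μ m m' l k β / 2 ≤ II μ k β (gdb (N := N) (m := m) (m' := m') (l := l) k a b δ) := by
    refine le_trans ?_ h2
    have := mul_le_mul_of_nonneg_left h3 hZ.le
    linarith
  refine le_trans ?_ h1
  rw [hρ1, ← hy]
  have h5 : 2 / y ≤ Real.exp (β * (ε / 4)) := by
    have h6 : 2 / y ≤ β * (ε / 4) := by
      have h7 : β2 ≤ β := by linarith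
      have := mul_le_mul_of_nonneg_right h7 (by positivity : (0 : ℝ) ≤ ε / 4)
      have e1 : β2 * (ε / 4) = 2 / y := by rw [hβ2]; field_simp
      linarith
    have := Real.add_one_le_exp (β * (ε / 4)); linarith
  have h6 : 2 ≤ y * Real.exp (β * (ε / 4)) := by
    rw [div_le_iff₀ hy0] at h5
    linarith
  have h7 : Real.exp (-(β * (SF k P0 Q0 l i + ε))) * Real.exp (β * (ε / 4)) =
      Real.exp (-(β * (SF k P0 Q0 l i + ε / 2 + ε / 4))) := by
    rw [← Real.exp_add]; congr 1; ring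
  rw [← h7]
  have hA := Real.exp_pos (-(β * (SF k P0 Q0 l i + ε)))
  calc Real.exp (-(β * (SF k P0 Q0 l i + ε))) * ZZ μ m m' l k β
      = 2 * Real.exp (-(β * (SF k P0 Q0 l i + ε))) * (ZZ μ m m' l k β / 2) := by ring
    _ ≤ (y * Real.exp (β * (ε / 4))) * Real.exp (-(β * (SF k P0 Q0 l i + ε))) *
        (ZZ μ m m' l k β / 2) := by
        refine mul_le_mul_of_nonneg_right (mul_le_mul_of_nonneg_right h6 hA.le) (by positivity)
    _ = y * (Real.exp (-(β * (SF k P0 Q0 l i + ε))) * Real.exp (β * (ε / 4))) *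
        (ZZ μ m m' l k β / 2) := by ring
    _ ≤ _ := mul_le_mul_of_nonneg_left h4 (by positivity)

end

end Run7.h4.VS
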