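import Mathlib
import Pool.Agent.Run7.h4.VS.FDefs
import Pool.Agent.Run7.h4.VS.Low2

/-!
# The action with both fluxes in terms of the cells
-/

open MeasureTheory Matrix Filter Topology
open Run7.h4.YM

namespace Run7.h4.VS

set_option linter.unusedSectionVars false
set_option linter.unusedVariables false

noncomputable section

section

variable {N n L l : ℕ} [NeZero N] [NeZero n] [NeZero L] [NeZero l]

theorem AT_eq (k : ℕ) (f : ZMod n → ZMod L → ZMod N) (U : Link n L l → SU N) :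
    AT k f U = ∑ t, ∑ x, (Vf k U t x + K0 U t x + K1 U t x + Wm k (f t x).val U t x) := by
  have ht : ∀ f : ZMod n → ZMod L → ℝ, ∑ t, ∑ x, f (t + 1) x = ∑ t, ∑ x, f t x := fun f =>
    Equiv.sum_comp (Equiv.addRight (1 : ZMod n)) (fun t => ∑ x, f t x)
  have hx : ∀ f : ZMod n → ZMod L → ℝ, ∑ t, ∑ x, f t (x + 1) = ∑ t, ∑ x, f t x := fun f =>
    Finset.sum_congr rfl fun t _ => Equiv.sum_comp (Equiv.addRight (1 : ZMod L)) (fun x => f t x)
  unfold AT cT
  simp only [Finset.sum_add_distrib, ← Finset.sum_div]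
  rw [ht (fun t x => Vf k U t x), hx (fun t x => Vf k U t x), hx (fun t x => K0 U t x),
    ht (fun t x => K1 U t x)]
  rw [hx (fun t x => Vf k U (t + 1) x), ht (fun t x => Vf k U t x)]
  ring

/-- energy of the plaquettes of the base with the flux `j` of the final statement -/
theorem action2_eq (k j : ℕ) (U : Link n L l → SU N) :
    action2 k j U = ∑ t, ∑ x, (Vf k U t x + K0 U t x + K1 U t x +
      ∑ y : Fib l, aw (if t = 0 ∧ x = 0 then Complex.exp (2 * Real.pi * Complex.I * (j / N)) else 1)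
        (U (0, t, x, y) * U (1, t + 1, x, y) * (U (0, t, x + 1, y))⁻¹ * (U (1, t, x, y))⁻¹)) := by
  unfold action2
  have hI0 : (Finset.Ioi (0 : Fin 4)) = {1, 2, 3} := by decide
  have hI1 : (Finset.Ioi (1 : Fin 4)) = {2, 3} := by decide
  have hI2 : (Finset.Ioi (2 : Fin 4)) = {3} := by decide
  have hI3 : (Finset.Ioi (3 : Fin 4)) = ∅ := by decide
  rw [Fintype.sum_prod_type]
  refine Finset.sum_congr rfl fun t _ => ?_
  rw [Fintype.sum_prod_type]
  refine Finset.sum_congr rfl fun x _ => ?_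
  unfold Vf K0 K1
  rw [← Finset.sum_add_distrib, ← Finset.sum_add_distrib, ← Finset.sum_add_distrib]
  refine Finset.sum_congr rfl fun y _ => ?_
  obtain ⟨a, b⟩ := y
  rw [Fin.sum_univ_four, hI0, hI1, hI2, hI3]
  simp [twist2, twf, plaq, dir, aw, Prod.mk_eq_zero]
  ring

theorem om_val {k : ℕ} (hζ : IsPrimitiveRoot (om N k) N) (i : ℕ) :
    om N k ^ ((i : ZMod N)).val = om N k ^ i := by
  rw [ZMod.val_natCast]
  conv_rhs => rw [← Nat.mod_add_div i N, pow_add, pow_mul, hζ.pow_eq_one, one_pow, mul_one]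

theorem action2_AT {k j i : ℕ} (hζ : IsPrimitiveRoot (om N k) N)
    (hi : om N k ^ i = Complex.exp (2 * Real.pi * Complex.I * (j / N))) (U : Link n L l → SU N) :
    action2 k j U = AT k (fl (i : ZMod N) 0 0) U := by
  rw [action2_eq, AT_eq]
  refine Finset.sum_congr rfl fun t _ => Finset.sum_congr rfl fun x _ => ?_
  congr 1
  unfold Wm fl
  refine Finset.sum_congr rfl fun y _ => ?_
  congr 1
  split_ifs with h
  · rw [om_val hζ, hi]
  · rw [ZMod.val_zero, pow_zero]

theorem exists_flux {k : ℕ} (hζ : IsPrimitiveRoot (om N k) N) (j : ℕ) :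
    ∃ i : ℕ, om N k ^ i = Complex.exp (2 * Real.pi * Complex.I * (j / N)) := by
  have h : Complex.exp (2 * Real.pi * Complex.I * (j / N)) ^ N = 1 := by
    rw [← Complex.exp_nat_mul]
    have hN : (N : ℂ) ≠ 0 := by exact_mod_cast NeZero.ne N
    have e : (N : ℂ) * (2 * Real.pi * Complex.I * (j / N)) = (j : ℤ) * (2 * Real.pi * Complex.I) := by
      field_simp
      push_cast
      ring
    rw [e, Complex.exp_int_mul_two_pi_mul_I]
  obtain ⟨i, -, hi⟩ := hζ.eq_pow_of_pow_eq_one h
  exact ⟨i, hi⟩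

/-- the relation of the two labels of the flux -/
theorem flux_rel {k i j : ℕ} (hi : om N k ^ i = Complex.exp (2 * Real.pi * Complex.I * (j / N))) :
    ((k : ZMod N)) * i = j := by
  unfold om at hi
  rw [← Complex.exp_nat_mul, Complex.exp_eq_exp_iff_exists_int] at hi
  obtain ⟨z, hz⟩ := hi
  have hN : (N : ℂ) ≠ 0 := by exact_mod_cast NeZero.ne N
  have hpi : (2 * Real.pi * Complex.I : ℂ) ≠ 0 := Complex.two_pi_I_ne_zero
  have h2 : (k : ℂ) * i = j + z * N := by
    have h2 : (N : ℂ) * (i * (2 * Real.pi * Complex.I * (k / N))) =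
        N * (2 * Real.pi * Complex.I * (j / N) + z * (2 * Real.pi * Complex.I)) := by rw [hz]
    field_simp at h2
    linear_combination h2
  have h3 : ((k * i : ℕ) : ℤ) = (j : ℤ) + z * N := by exact_mod_cast h2
  have h4 : (((k * i : ℕ) : ℤ) : ZMod N) = (((j : ℤ) + z * N : ℤ) : ZMod N) := by rw [h3]
  push_cast at h4
  rw [h4]
  simp

variable [MeasurableSpace (SU N)]

theorem Zf_eq (μ : Measure (SU N)) {k j i : ℕ} (hζ : IsPrimitiveRoot (om N k) N)
    (hi : om N k ^ i = Complex.exp (2 * Real.pi * Complex.I * (j / N))) (β : ℝ) :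
    Zf n L l μ k j β = Zi μ n L l k (i : ZMod N) β := by
  unfold Zf Zi
  simp only [action2_AT hζ hi]

theorem Zf_zero (μ : Measure (SU N)) {k : ℕ} (m m' : ℕ) [NeZero m] [NeZero m']
    (hζ : IsPrimitiveRoot (om N k) N) (β : ℝ) :
    Zf (2 * m) (2 * m') l μ k 0 β = ZZ μ m m' l k β := by
  have h : om N k ^ 0 = Complex.exp (2 * Real.pi * Complex.I * ((0 : ℕ) / N)) := by simp
  rw [Zf_eq μ hζ h]
  unfold Zi ZZ II
  have e : (fl ((0 : ℕ) : ZMod N) (0 : ZMod (2 * m)) (0 : ZMod (2 * m'))) = fun _ _ => 0 := by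
    funext t x
    unfold fl
    simp
  simp only [e, AT_zero, one_mul]

end

end

end Run7.h4.VS
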