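import Mathlib
import Pool.Agent.Run7.h4.YM.Weyl2
import Pool.Agent.Run7.h4.VS.Conv
import Pool.Agent.Run7.h4.VS.Lim2

/-!
# The bounds for the partition functions in terms of the final definitions
-/

open MeasureTheory Matrix Filter Topology
open Run7.h4.YM

namespace Run7.h4.VS

set_option linter.unusedSectionVars false
set_option linter.unusedVariables false

noncomputable section

/-- the two sharp bounds for the partition functions with a vortex -/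
structure Bnd (N l k : ℕ) [NeZero N] [NeZero l] [MeasurableSpace (SU N)] (μ : Measure (SU N))
    (S : ℕ → ℝ) : Prop where
  pos : ∃ δ : ℝ, 0 < δ ∧ ∀ j, ¬ N ∣ j → δ ≤ S j
  congr : ∀ j j' : ℕ, (j : ZMod N) = (j' : ZMod N) → S j = S j'
  lim : ∀ j, Tendsto (fun p : ℕ × ℕ => sInf (Set.range fun U : Link (p.1 + 1) (p.2 + 1) l → SU N =>
    action2 k j U)) atTop (𝓝 (S j))
  up : ∀ (c : ℕ) (T : ℝ), 0 < T → (∀ j, ¬ N ∣ c * j → T ≤ S j) → ∀ ε : ℝ, 0 < ε → ∃ M : ℕ,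
    ∀ C0 : ℝ, 0 < C0 → ∃ β0 : ℝ, 0 < β0 ∧ ∀ β : ℝ, β0 ≤ β → ∀ (m m' : ℕ) [NeZero m] [NeZero m'],
      M ≤ m → M ≤ m' → (m : ℝ) ≤ C0 * β → (m' : ℝ) ≤ C0 * β → ∀ j : ℕ, ¬ N ∣ c * j →
      Zf (2 * m) (2 * m') l μ k j β ≤ Real.exp (-(β * (T - ε))) * Zf (2 * m) (2 * m') l μ k 0 β
  lo : ∀ (j : ℕ) (ε : ℝ), 0 < ε → ∃ (β0 : ℝ) (M : ℕ), 0 < β0 ∧ 0 < M ∧ ∀ β : ℝ, β0 ≤ β →
    ∀ (m m' : ℕ) [NeZero m] [NeZero m'], M ≤ m → M ≤ m' →
      Real.exp (-(β * (S j + ε))) * Zf (2 * m) (2 * m') l μ k 0 β ≤ Zf (2 * m) (2 * m') l μ k j β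

theorem exists_std {N k : ℕ} [NeZero N] (hζ : IsPrimitiveRoot (om N k) N) :
    ∃ P0 Q0 : SU N, Std N k hζ P0 Q0 := by
  obtain ⟨P0, Q0, h1, h2, h3⟩ := weyl_pair hζ
  exact ⟨P0, Q0, h1, h2, h3⟩

theorem bounds (hFR : StFR) (hLK : StLK) (hCOMB : StCOMB) (hINS : StINS) (N l k : ℕ) [NeZero N]
    [NeZero l] (hk : Nat.Coprime k N) [MeasurableSpace (SU N)] [BorelSpace (SU N)]
    (μ : Measure (SU N)) [IsProbabilityMeasure μ] [μ.IsHaarMeasure] : ∃ S : ℕ → ℝ,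
    Bnd N l k μ S := by
  have hζ := om_prim (N := N) hk
  obtain ⟨P0, Q0, hs⟩ := exists_std hζ
  obtain ⟨F, lab, C, hfra⟩ := exists_fra (l := l) hζ hFR hLK hs
  obtain ⟨δ0, hδ0, hgood⟩ := hfra.good
  have hKEY := key_of hFR hLK
  choose ix hix using fun j => exists_flux hζ j
  have hrel : ∀ j, (k : ZMod N) * (ix j : ℕ) = (j : ℕ) := fun j => flux_rel (hix j)
  have hku : IsUnit (k : ZMod N) := (ZMod.isUnit_iff_coprime k N).mpr hk
  have hdvd : ∀ c j : ℕ, N ∣ c * j ↔ (c : ZMod N) * (ix j : ZMod N) = 0 := by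
    intro c j
    rw [← ZMod.natCast_eq_zero_iff, Nat.cast_mul, ← hrel j]
    constructor
    · intro h
      have h1 : (k : ZMod N) * ((c : ZMod N) * (ix j : ZMod N)) = 0 := by
        rw [← h]; ring
      exact (hku.mul_right_eq_zero).mp h1
    · intro h
      have h1 : (c : ZMod N) * ((k : ZMod N) * (ix j : ZMod N)) =
          k * ((c : ZMod N) * (ix j : ZMod N)) := by ring
      rw [h1, h, mul_zero]
  have hdvd1 : ∀ j : ℕ, N ∣ j ↔ N ∣ ix j := by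
    intro j
    have h1 := hdvd 1 j
    rw [one_mul, Nat.cast_one, one_mul] at h1
    rw [h1, ZMod.natCast_eq_zero_iff]
  refine ⟨fun j => SF k P0 Q0 l (ix j), ⟨δ0, hδ0, fun j hj => ?_⟩, fun j j' h => ?_, fun j => ?_,
    fun c T hT hTS ε hε => ?_, fun j ε hε => ?_⟩
  · exact SF_pos hζ hδ0 hgood (fun h => hj ((hdvd1 j).mpr h))
  · refine SF_congr hζ P0 Q0 ?_
    rw [← hrel j, ← hrel j'] at h
    exact hku.mul_left_cancel h
  · have h1 := hfra.lim hs (ix j)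
    refine h1.congr fun p => ?_
    unfold Sm
    congr 1
    ext E
    simp only [Set.mem_range]
    constructor
    · rintro ⟨U, rfl⟩
      exact ⟨U, action2_AT hζ (hix j) U⟩
    · rintro ⟨U, rfl⟩
      exact ⟨U, (action2_AT hζ (hix j) U).symm⟩
  · obtain ⟨M, hM⟩ := upperU hKEY hCOMB N k l hζ P0 Q0 hs μ c T hT (fun i hi => by
      -- a flux with the label `i`
      have h1 := hTS (k * i) (fun hd => hi (by
        have h2 : (k : ZMod N) * ((c : ZMod N) * i) = 0 := by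
          rw [← ZMod.natCast_eq_zero_iff] at hd
          push_cast at hd
          rw [← hd]; ring
        rw [← ZMod.natCast_eq_zero_iff]
        push_cast
        exact (hku.mul_right_eq_zero).mp h2))
      refine h1.trans (le_of_eq (SF_congr hζ P0 Q0 ?_))
      have h3 := hrel (k * i)
      push_cast at h3
      exact hku.mul_left_cancel h3) ε hε
    refine ⟨M, fun C0 hC0 => ?_⟩
    obtain ⟨β0, hβ0, h⟩ := hM C0 hC0
    refine ⟨β0, hβ0, fun β hβ m m' _ _ hm hm' hC hC' j hj => ?_⟩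
    rw [Zf_zero μ m m' hζ, Zf_eq μ hζ (hix j)]
    exact h β hβ m m' hm hm' hC hC' (ix j : ZMod N) (fun h0 => hj ((hdvd c j).mpr h0))
  · obtain ⟨β0, M, hβ0, hM, h⟩ := lowerL hINS (l := l) hζ hs μ (ix j) hε
    refine ⟨β0, M, hβ0, hM, fun β hβ m m' _ _ hm hm' => ?_⟩
    rw [Zf_zero μ m m' hζ, Zf_eq μ hζ (hix j)]
    exact h β hβ m m' hm hm'

end

end Run7.h4.VS
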