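import Mathlib
import Pool.Agent.Run7.h4.VS.FDefs

/-!
# Definitions for the final statement: minimal action, electric fluxes
-/

open MeasureTheory Matrix
open Run7.h4.YM

namespace Run7.h4.VS

noncomputable section

/-- the infimum of the Wilson action with the fluxes `k` and `j` over all configurations on the
periodic lattice with sides `n, L, l, l` -/
def minAction (N n L l k j : ℕ) [NeZero n] [NeZero L] [NeZero l] : ℝ :=
  sInf (Set.range fun U : Link n L l → SU N => action2 k j U)

/-- the partition function in the sector of the electric flux `c` through the `(0, 1)` torus: the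
cosine transform of `Zf` in the magnetic flux `j` -/
def Ze {N : ℕ} (n L l : ℕ) [NeZero n] [NeZero L] [NeZero l] [MeasurableSpace (SU N)]
    (μ : Measure (SU N)) (k c : ℕ) (β : ℝ) : ℝ :=
  (1 / N) * ∑ j ∈ Finset.range N, Real.cos (2 * Real.pi * (c * j) / N) * Zf n L l μ k j β

end

end Run7.h4.VS
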