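import Mathlib

/-!
# The logarithm of a dilute even function on `ZMod N`
-/

open Finset Filter Topology

namespace Run7.h4.VS

set_option linter.unusedSectionVars false
set_option linter.unusedVariables false

noncomputable section

section

variable {N : ℕ} [NeZero N]

/-- the cosine on `ZMod N` -/
def cs (z : ZMod N) : ℝ := (ZMod.stdAddChar z : ℂ).re

theorem cs_int (n : ℤ) : cs (n : ZMod N) = Real.cos (2 * Real.pi * n / N) := by
  unfold cs
  rw [ZMod.stdAddChar_coe]
  have e : (2 * Real.pi * Complex.I * n / N : ℂ) = ((2 * Real.pi * n / N : ℝ) : ℂ) * Complex.I := by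
    push_cast; ring
  rw [e, Complex.exp_ofReal_mul_I_re]

theorem cs_nat (n : ℕ) : cs (n : ZMod N) = Real.cos (2 * Real.pi * n / N) := by
  have := cs_int (N := N) (n : ℤ)
  push_cast at this
  exact this

theorem exists_int (z : ZMod N) : ∃ n : ℤ, (n : ZMod N) = z :=
  ⟨z.val, by rw [Int.cast_natCast, ZMod.natCast_val, ZMod.cast_id]⟩

theorem cs_add_sub (a b : ZMod N) : cs (a + b) + cs (a - b) = 2 * (cs a * cs b) := by
  obtain ⟨m, rfl⟩ := exists_int a
  obtain ⟨n, rfl⟩ := exists_int b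
  rw [← Int.cast_add, ← Int.cast_sub, cs_int, cs_int, cs_int, cs_int]
  have e1 : 2 * Real.pi * ((m + n : ℤ) : ℝ) / N = 2 * Real.pi * m / N + 2 * Real.pi * n / N := by
    push_cast; ring
  have e2 : 2 * Real.pi * ((m - n : ℤ) : ℝ) / N = 2 * Real.pi * m / N - 2 * Real.pi * n / N := by
    push_cast; ring
  rw [e1, e2, Real.cos_add, Real.cos_sub]
  ring

theorem cs_neg (a : ZMod N) : cs (-a) = cs a := by
  obtain ⟨m, rfl⟩ := exists_int a
  rw [← Int.cast_neg, cs_int, cs_int]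
  have e : 2 * Real.pi * ((-m : ℤ) : ℝ) / N = -(2 * Real.pi * m / N) := by push_cast; ring
  rw [e, Real.cos_neg]

theorem cs_zero : cs (0 : ZMod N) = 1 := by
  have := cs_nat (N := N) 0
  simpa using this

theorem abs_cs_le (a : ZMod N) : |cs a| ≤ 1 := by
  obtain ⟨m, rfl⟩ := exists_int a
  rw [cs_int]
  exact Real.abs_cos_le_one _

theorem sum_cs (m : ZMod N) : ∑ c : ZMod N, cs (c * m) = if m = 0 then (N : ℝ) else 0 := by
  have h := AddChar.sum_mulShift (R := ZMod N) (R' := ℂ) m (ZMod.isPrimitive_stdAddChar N)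
  have h2 := congrArg Complex.re h
  rw [Complex.re_sum] at h2
  unfold cs
  rw [h2]
  split_ifs with h3
  · rw [ZMod.card]; simp
  · simp

/-- powers for the convolution -/
def cp (a : ZMod N → ℝ) : ℕ → ZMod N → ℝ
  | 0 => fun j => if j = 0 then 1 else 0
  | s + 1 => fun j => ∑ i, a i * cp a s (j - i)

theorem cp_succ (a : ZMod N → ℝ) (s : ℕ) (j : ZMod N) :
    cp a (s + 1) j = ∑ i, a i * cp a s (j - i) := rfl

theorem cp_one (a : ZMod N → ℝ) (j : ZMod N) : cp a 1 j = a j := by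
  rw [cp_succ, Finset.sum_eq_single j]
  · simp [cp]
  · intro i _ hi
    have : j - i ≠ 0 := sub_ne_zero.mpr (Ne.symm hi)
    simp [cp, this]
  · intro h; exact absurd (Finset.mem_univ _) h

theorem cp_nonneg {a : ZMod N → ℝ} (ha : ∀ i, 0 ≤ a i) (s : ℕ) : ∀ j, 0 ≤ cp a s j := by
  induction s with
  | zero => intro j; simp only [cp]; split_ifs <;> norm_num
  | succ s ih => intro j; rw [cp_succ]; exact Finset.sum_nonneg fun i _ => mul_nonneg (ha i) (ih _)

theorem cp_even {a : ZMod N → ℝ} (he : ∀ i, a (-i) = a i) (s : ℕ) : ∀ j, cp a s (-j) = cp a s j := by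
  induction s with
  | zero => intro j; simp only [cp, neg_eq_zero]
  | succ s ih =>
    intro j
    rw [cp_succ, cp_succ]
    refine Fintype.sum_equiv (Equiv.neg _) _ _ fun i => ?_
    have e1 : a ((Equiv.neg (ZMod N)) i) = a i := he i
    have e2 : j - (Equiv.neg (ZMod N)) i = -(-j - i) := by
      change j - (-i) = -(-j - i)
      ring
    rw [e1, e2, ih]

theorem cs_conv {a b : ZMod N → ℝ} (he : ∀ i, a (-i) = a i) (c : ZMod N) :
    (∑ i, a i * cs (c * i)) * (∑ m, b m * cs (c * m)) =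
      ∑ m, (∑ i, a i * b (m - i)) * cs (c * m) := by
  have h1 : ∑ m, (∑ i, a i * b (m - i)) * cs (c * m) =
      ∑ i, ∑ m, a i * b m * cs (c * (m + i)) := by
    simp only [Finset.sum_mul]
    rw [Finset.sum_comm]
    refine Finset.sum_congr rfl fun i _ => ?_
    refine Fintype.sum_equiv (Equiv.subRight i) _ _ fun m => ?_
    simp only [Equiv.subRight_apply, sub_add_cancel]
  have h2 : ∑ i, ∑ m, a i * b m * cs (c * (m - i)) = ∑ i, ∑ m, a i * b m * cs (c * (m + i)) := by
    refine Fintype.sum_equiv (Equiv.neg _) _ _ fun i => ?_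
    refine Finset.sum_congr rfl fun m _ => ?_
    have e1 : a ((Equiv.neg (ZMod N)) i) = a i := he i
    have e2 : m + (Equiv.neg (ZMod N)) i = m - i := by
      change m + (-i) = m - i
      ring
    rw [e1, e2]
  rw [h1, Finset.sum_mul_sum]
  have h3 : ∑ i, ∑ m, a i * cs (c * i) * (b m * cs (c * m)) =
      (∑ i, ∑ m, a i * b m * cs (c * (m + i)) + ∑ i, ∑ m, a i * b m * cs (c * (m - i))) / 2 := by
    rw [← Finset.sum_add_distrib, Finset.sum_div]
    refine Finset.sum_congr rfl fun i _ => ?_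
    rw [← Finset.sum_add_distrib, Finset.sum_div]
    refine Finset.sum_congr rfl fun m _ => ?_
    have := cs_add_sub (c * m) (c * i)
    rw [← mul_add, ← mul_sub] at this
    have e : a i * b m * cs (c * (m + i)) + a i * b m * cs (c * (m - i)) =
        a i * b m * (cs (c * (m + i)) + cs (c * (m - i))) := by ring
    rw [e, this]
    ring
  rw [h3, h2]
  ring

theorem cp_four {a : ZMod N → ℝ} (he : ∀ i, a (-i) = a i) (c : ZMod N) (s : ℕ) :
    (∑ i, a i * cs (c * i)) ^ s = ∑ j, cp a s j * cs (c * j) := by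
  induction s with
  | zero =>
    rw [pow_zero, Finset.sum_eq_single (0 : ZMod N)]
    · simp [cp, cs_zero]
    · intro j _ hj; simp [cp, hj]
    · intro h; exact absurd (Finset.mem_univ _) h
  | succ s ih =>
    rw [pow_succ', ih, cs_conv he]
    rfl

theorem cp_inv {a : ZMod N → ℝ} (he : ∀ i, a (-i) = a i) (j : ZMod N) (s : ℕ) :
    ∑ c, cs (c * j) * (∑ i, a i * cs (c * i)) ^ s = N * cp a s j := by
  have h1 : ∑ c, cs (c * j) * (∑ i, a i * cs (c * i)) ^ s =
      ∑ m, cp a s m * ((∑ c, cs (c * (m + j)) + ∑ c, cs (c * (m - j))) / 2) := by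
    simp only [cp_four he, Finset.mul_sum, ← Finset.sum_add_distrib, Finset.sum_div]
    rw [Finset.sum_comm]
    refine Finset.sum_congr rfl fun m _ => Finset.sum_congr rfl fun c _ => ?_
    have := cs_add_sub (c * m) (c * j)
    rw [← mul_add, ← mul_sub] at this
    rw [this]
    ring
  rw [h1]
  have h2 : ∀ m, cp a s m * ((∑ c, cs (c * (m + j)) + ∑ c, cs (c * (m - j))) / 2) =
      (if m = -j then cp a s m * N else 0) / 2 + (if m = j then cp a s m * N else 0) / 2 := by
    intro m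
    rw [sum_cs, sum_cs]
    simp only [sub_eq_zero, add_eq_zero_iff_eq_neg]
    split_ifs <;> ring
  simp only [h2, Finset.sum_add_distrib, ← Finset.sum_div, Finset.sum_ite_eq', Finset.mem_univ,
    if_true, cp_even he]
  ring

section bounds

variable {a S : ZMod N → ℝ} {β ε T : ℝ}

theorem cp_b1 (hβ : 0 ≤ β) (ha : ∀ i, 0 ≤ a i) (ha0 : a 0 = 0)
    (hb : ∀ i, i ≠ 0 → a i ≤ Real.exp (-(β * (S i - ε)))) (hS0 : S 0 = 0)
    (hsub : ∀ i j, S (i + j) ≤ S i + S j) (s : ℕ) :
    ∀ j, cp a s j ≤ (N : ℝ) ^ s * Real.exp (-(β * (S j - s * ε))) := by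
  induction s with
  | zero =>
    intro j
    simp only [cp]
    split_ifs with h
    · subst h; rw [hS0]; simp
    · simp only [pow_zero, one_mul]; exact (Real.exp_pos _).le
  | succ s ih =>
    intro j
    rw [cp_succ]
    have h1 : ∀ i ∈ (Finset.univ : Finset (ZMod N)), a i * cp a s (j - i) ≤
        (N : ℝ) ^ s * Real.exp (-(β * (S j - ((s + 1 : ℕ) : ℝ) * ε))) := by
      intro i _
      by_cases hi : i = 0
      · subst hi; rw [ha0, zero_mul]; positivity
      · refine (mul_le_mul (hb i hi) (ih (j - i)) (cp_nonneg ha s _) (Real.exp_pos _).le).trans ?_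
        have e : Real.exp (-(β * (S i - ε))) * ((N : ℝ) ^ s *
            Real.exp (-(β * (S (j - i) - s * ε)))) = (N : ℝ) ^ s *
            Real.exp (-(β * (S i - ε)) + -(β * (S (j - i) - s * ε))) := by
          rw [Real.exp_add]; ring
        rw [e]
        refine mul_le_mul_of_nonneg_left (Real.exp_le_exp.mpr ?_) (by positivity)
        have h2 := hsub i (j - i)
        rw [add_sub_cancel] at h2
        have h3 := mul_le_mul_of_nonneg_left h2 hβ
        push_cast
        nlinarith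
    refine (Finset.sum_le_sum h1).trans (le_of_eq ?_)
    rw [Finset.sum_const, Finset.card_univ, ZMod.card, nsmul_eq_mul, pow_succ]
    ring

theorem cp_b2 (hβ : 0 ≤ β) (ha : ∀ i, 0 ≤ a i) (ha0 : a 0 = 0)
    (hb : ∀ i, i ≠ 0 → a i ≤ Real.exp (-(β * (S i - ε)))) (hS0 : S 0 = 0)
    (hsub : ∀ i j, S (i + j) ≤ S i + S j) (hT : 0 ≤ T) (hTS : ∀ i, i ≠ 0 → T ≤ S i) (s : ℕ) :
    cp a (s + 1) 0 ≤ (N : ℝ) ^ (s + 1) * Real.exp (-(β * (T - (s + 1) * ε))) := by
  rw [cp_succ]
  have h1 : ∀ i ∈ (Finset.univ : Finset (ZMod N)), a i * cp a s (0 - i) ≤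
      (N : ℝ) ^ s * Real.exp (-(β * (T - (s + 1) * ε))) := by
    intro i _
    by_cases hi : i = 0
    · subst hi; rw [ha0, zero_mul]; positivity
    · refine (mul_le_mul (hb i hi) (cp_b1 hβ ha ha0 hb hS0 hsub s (0 - i)) (cp_nonneg ha s _)
        (Real.exp_pos _).le).trans ?_
      have e : Real.exp (-(β * (S i - ε))) * ((N : ℝ) ^ s *
          Real.exp (-(β * (S (0 - i) - s * ε)))) = (N : ℝ) ^ s *
          Real.exp (-(β * (S i - ε)) + -(β * (S (0 - i) - s * ε))) := by
        rw [Real.exp_add]; ring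
      rw [e]
      refine mul_le_mul_of_nonneg_left (Real.exp_le_exp.mpr ?_) (by positivity)
      have h2 := hTS i hi
      have h4 : T ≤ S (0 - i) := hTS _ (by rw [zero_sub]; exact neg_ne_zero.mpr hi)
      have h3 := mul_le_mul_of_nonneg_left h2 hβ
      have h5 := mul_le_mul_of_nonneg_left (hT.trans h4) hβ
      nlinarith
  refine (Finset.sum_le_sum h1).trans (le_of_eq ?_)
  rw [Finset.sum_const, Finset.card_univ, ZMod.card, nsmul_eq_mul, pow_succ]
  ring

theorem cp_b3 (hβ : 0 ≤ β) (ha : ∀ i, 0 ≤ a i) (ha0 : a 0 = 0)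
    (hb : ∀ i, i ≠ 0 → a i ≤ Real.exp (-(β * (S i - ε)))) (hS0 : S 0 = 0)
    (hsub : ∀ i j, S (i + j) ≤ S i + S j) (hT : 0 ≤ T) (hTS : ∀ i, i ≠ 0 → T ≤ S i) {j : ZMod N}
    {γ : ℝ} (hγ : γ ≤ T) (hj : ∀ i, i ≠ 0 → i ≠ j → S j + γ ≤ S i + S (j - i)) (s : ℕ) :
    cp a (s + 2) j ≤ (N : ℝ) ^ (s + 2) * Real.exp (-(β * (S j + γ - (s + 2) * ε))) := by
  rw [cp_succ]
  have h1 : ∀ i ∈ (Finset.univ : Finset (ZMod N)), a i * cp a (s + 1) (j - i) ≤
      (N : ℝ) ^ (s + 1) * Real.exp (-(β * (S j + γ - (s + 2) * ε))) := by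
    intro i _
    by_cases hi : i = 0
    · subst hi; rw [ha0, zero_mul]; positivity
    · by_cases hij : i = j
      · subst hij
        rw [sub_self]
        refine (mul_le_mul (hb i hi) (cp_b2 hβ ha ha0 hb hS0 hsub hT hTS s) (cp_nonneg ha _ _)
          (Real.exp_pos _).le).trans ?_
        have e : Real.exp (-(β * (S i - ε))) * ((N : ℝ) ^ (s + 1) *
            Real.exp (-(β * (T - (s + 1) * ε)))) = (N : ℝ) ^ (s + 1) *
            Real.exp (-(β * (S i - ε)) + -(β * (T - (s + 1) * ε))) := by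
          rw [Real.exp_add]; ring
        rw [e]
        refine mul_le_mul_of_nonneg_left (Real.exp_le_exp.mpr ?_) (by positivity)
        have h3 := mul_le_mul_of_nonneg_left hγ hβ
        nlinarith
      · refine (mul_le_mul (hb i hi) (cp_b1 hβ ha ha0 hb hS0 hsub (s + 1) (j - i))
          (cp_nonneg ha _ _) (Real.exp_pos _).le).trans ?_
        have e : Real.exp (-(β * (S i - ε))) * ((N : ℝ) ^ (s + 1) *
            Real.exp (-(β * (S (j - i) - ((s + 1 : ℕ) : ℝ) * ε)))) = (N : ℝ) ^ (s + 1) *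
            Real.exp (-(β * (S i - ε)) + -(β * (S (j - i) - ((s + 1 : ℕ) : ℝ) * ε))) := by
          rw [Real.exp_add]; ring
        rw [e]
        refine mul_le_mul_of_nonneg_left (Real.exp_le_exp.mpr ?_) (by positivity)
        have h3 := mul_le_mul_of_nonneg_left (hj i hi hij) hβ
        push_cast
        nlinarith
  refine (Finset.sum_le_sum h1).trans (le_of_eq ?_)
  rw [Finset.sum_const, Finset.card_univ, ZMod.card, nsmul_eq_mul, pow_succ (N : ℝ) (s + 1)]
  ring

end bounds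

/-- the logarithm -/
def lg (a : ZMod N → ℝ) (j : ZMod N) : ℝ :=
  (1 / N) * ∑ c, cs (c * j) * Real.log (1 + ∑ i, a i * cs (c * i))

theorem log_taylor {x X : ℝ} (hx : |x| ≤ X) (hX : X ≤ 1 / 2) (r : ℕ) :
    |Real.log (1 + x) - ∑ s ∈ Finset.range r, (-1) ^ s / (s + 1) * x ^ (s + 1)| ≤
      2 * X ^ (r + 1) := by
  have h1 : |-x| < 1 := by rw [abs_neg]; linarith
  have h2 := Real.abs_log_sub_add_sum_range_le h1 r
  rw [sub_neg_eq_add, abs_neg] at h2
  have e : (∑ i ∈ Finset.range r, (-x) ^ (i + 1) / ((i : ℝ) + 1)) + Real.log (1 + x) =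
      Real.log (1 + x) - ∑ s ∈ Finset.range r, (-1) ^ s / (s + 1) * x ^ (s + 1) := by
    rw [sub_eq_add_neg, add_comm, ← Finset.sum_neg_distrib]
    congr 1
    refine Finset.sum_congr rfl fun s _ => ?_
    rw [neg_pow x (s + 1), pow_succ (-1 : ℝ) s]
    ring
  rw [e] at h2
  refine h2.trans ?_
  have hx0 := abs_nonneg x
  rw [div_le_iff₀ (by linarith)]
  have h3 : |x| ^ (r + 1) ≤ X ^ (r + 1) := pow_le_pow_left₀ hx0 hx _
  have h4 : 0 ≤ X ^ (r + 1) := pow_nonneg (hx0.trans hx) _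
  nlinarith

theorem lg_taylor {a : ZMod N → ℝ} (he : ∀ i, a (-i) = a i) {X : ℝ} (hX : X ≤ 1 / 2)
    (hx : ∀ c, |∑ i, a i * cs (c * i)| ≤ X) (j : ZMod N) (r : ℕ) :
    |lg a j - ∑ s ∈ Finset.range r, (-1) ^ s / (s + 1) * cp a (s + 1) j| ≤ 2 * X ^ (r + 1) := by
  have hN : (0 : ℝ) < N := by exact_mod_cast NeZero.pos N
  have e : (∑ s ∈ Finset.range r, (-1 : ℝ) ^ s / (s + 1) * cp a (s + 1) j) =
      (1 / N) * ∑ c, cs (c * j) * ∑ s ∈ Finset.range r, (-1 : ℝ) ^ s / (s + 1) *
        (∑ i, a i * cs (c * i)) ^ (s + 1) := by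
    simp only [Finset.mul_sum (s := Finset.range r)]
    rw [Finset.sum_comm]
    rw [Finset.mul_sum]
    refine Finset.sum_congr rfl fun s _ => ?_
    have h := cp_inv he j (s + 1)
    have h2 : ∑ c, cs (c * j) * ((-1 : ℝ) ^ s / (s + 1) * (∑ i, a i * cs (c * i)) ^ (s + 1)) =
        (-1 : ℝ) ^ s / (s + 1) * (N * cp a (s + 1) j) := by
      rw [← h, Finset.mul_sum]
      exact Finset.sum_congr rfl fun c _ => by ring
    rw [h2]
    field_simp
  rw [e]
  unfold lg
  rw [← mul_sub, ← Finset.sum_sub_distrib, abs_mul, abs_of_pos (by positivity)]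
  have h3 : |∑ c, (cs (c * j) * Real.log (1 + ∑ i, a i * cs (c * i)) -
      cs (c * j) * ∑ s ∈ Finset.range r, (-1 : ℝ) ^ s / (s + 1) *
        (∑ i, a i * cs (c * i)) ^ (s + 1))| ≤ N * (2 * X ^ (r + 1)) := by
    refine (Finset.abs_sum_le_sum_abs _ _).trans ?_
    have h4 : ∀ c ∈ (Finset.univ : Finset (ZMod N)),
        |cs (c * j) * Real.log (1 + ∑ i, a i * cs (c * i)) -
          cs (c * j) * ∑ s ∈ Finset.range r, (-1 : ℝ) ^ s / (s + 1) *
          (∑ i, a i * cs (c * i)) ^ (s + 1)| ≤ 2 * X ^ (r + 1) := by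
      intro c _
      rw [← mul_sub, abs_mul]
      have h5 := log_taylor (hx c) hX r
      have h6 := abs_cs_le (c * j)
      have h7 := abs_nonneg (Real.log (1 + ∑ i, a i * cs (c * i)) -
        ∑ s ∈ Finset.range r, (-1 : ℝ) ^ s / (s + 1) * (∑ i, a i * cs (c * i)) ^ (s + 1))
      nlinarith
    refine (Finset.sum_le_sum h4).trans (le_of_eq ?_)
    rw [Finset.sum_const, Finset.card_univ, ZMod.card, nsmul_eq_mul]
  have h5 := mul_le_mul_of_nonneg_left h3 (by positivity : (0 : ℝ) ≤ 1 / N)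
  refine h5.trans (le_of_eq ?_)
  field_simp

end

end

end Run7.h4.VS
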