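import Mathlib
import Pool.Agent.Run7.h4.VS.Dens

/-!
# The logarithm of a dilute even function on `ZMod N`: asymptotics
-/

open Finset Filter Topology

namespace Run7.h4.VS

set_option linter.unusedSectionVars false
set_option linter.unusedVariables false

noncomputable section

section

variable {N : ℕ} [NeZero N]

theorem sum_small {a S : ZMod N → ℝ} {β ε T : ℝ} (hβ : 0 ≤ β) (ha : ∀ i, 0 ≤ a i) (ha0 : a 0 = 0)
    (hb : ∀ i, i ≠ 0 → a i ≤ Real.exp (-(β * (S i - ε)))) (hTS : ∀ i, i ≠ 0 → T ≤ S i)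
    (hε : ε ≤ T / 4) (c : ZMod N) :
    |∑ i, a i * cs (c * i)| ≤ N * Real.exp (-(β * (3 * T / 4))) := by
  refine (Finset.abs_sum_le_sum_abs _ _).trans ?_
  have h1 : ∀ i ∈ (Finset.univ : Finset (ZMod N)), |a i * cs (c * i)| ≤
      Real.exp (-(β * (3 * T / 4))) := by
    intro i _
    by_cases hi : i = 0
    · subst hi; rw [ha0, zero_mul, abs_zero]; exact (Real.exp_pos _).le
    · rw [abs_mul, abs_of_nonneg (ha i)]
      have h2 := abs_cs_le (c * i)
      have h3 := hb i hi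
      have h4 : Real.exp (-(β * (S i - ε))) ≤ Real.exp (-(β * (3 * T / 4))) := by
        refine Real.exp_le_exp.mpr (neg_le_neg (mul_le_mul_of_nonneg_left ?_ hβ))
        have := hTS i hi
        linarith
      have h5 := ha i
      nlinarith [abs_nonneg (cs (c * i))]
  refine (Finset.sum_le_sum h1).trans (le_of_eq ?_)
  rw [Finset.sum_const, Finset.card_univ, ZMod.card, nsmul_eq_mul]

theorem coef_le (s : ℕ) {y : ℝ} (hy : 0 ≤ y) : |(-1 : ℝ) ^ s / (s + 1) * y| ≤ y := by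
  rw [abs_mul, abs_div, abs_pow, abs_neg, abs_one, one_pow, abs_of_nonneg hy]
  have h1 : |((s : ℝ) + 1)| = (s : ℝ) + 1 := abs_of_nonneg (by positivity)
  rw [h1]
  have h2 : (1 : ℝ) / (s + 1) ≤ 1 := by
    rw [div_le_one (by positivity)]
    have : (0 : ℝ) ≤ s := by positivity
    linarith
  nlinarith

theorem one_le_N : (1 : ℝ) ≤ N := by
  exact_mod_cast NeZero.pos N

/-- the upper bound for the logarithm -/
theorem lg_up {S : ZMod N → ℝ} {T : ℝ} (hS0 : S 0 = 0) (hsub : ∀ i j, S (i + j) ≤ S i + S j)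
    (hT : 0 < T) (hTS : ∀ i, i ≠ 0 → T ≤ S i) {ε : ℝ} (hε : 0 < ε) :
    ∃ ε' : ℝ, 0 < ε' ∧ ∃ β0 : ℝ, 0 < β0 ∧ ∀ β : ℝ, β0 ≤ β → ∀ a : ZMod N → ℝ, (∀ i, 0 ≤ a i) →
      (∀ i, a (-i) = a i) → a 0 = 0 → (∀ i, i ≠ 0 → a i ≤ Real.exp (-(β * (S i - ε')))) →
      (∀ c, |∑ i, a i * cs (c * i)| ≤ 1 / 2) ∧
      ∀ j, |lg a j| ≤ Real.exp (-(β * (S j - ε))) := by
  obtain ⟨B, hB⟩ : ∃ B : ℝ, ∀ j : ZMod N, S j ≤ B := by
    obtain ⟨B, hB⟩ := (Set.finite_range S).bddAbove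
    exact ⟨B, fun j => hB ⟨j, rfl⟩⟩
  obtain ⟨r, hr⟩ := exists_nat_ge (B / (3 * T / 4))
  have hr' : B ≤ (r + 1) * (3 * T / 4) := by
    rw [div_le_iff₀ (by linarith)] at hr
    nlinarith
  obtain ⟨ε', hε'⟩ : ∃ ε' : ℝ, ε' = min (T / 4) (ε / (2 * (r + 1))) := ⟨_, rfl⟩
  have hε0 : 0 < ε' := by rw [hε']; exact lt_min (by linarith) (by positivity)
  have hεT : ε' ≤ T / 4 := by rw [hε']; exact min_le_left _ _
  have hεr : (r + 1) * ε' ≤ ε / 2 := by
    have : ε' ≤ ε / (2 * (r + 1)) := by rw [hε']; exact min_le_right _ _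
    rw [le_div_iff₀ (by positivity)] at this
    linarith
  have hNr : (0 : ℝ) < (r + 2) * (N : ℝ) ^ (r + 1) := by
    have := one_le_N (N := N)
    positivity
  have hN1 := one_le_N (N := N)
  refine ⟨ε', hε0, max 1 (max (2 * (2 * N) / T) (2 * ((r + 2) * (N : ℝ) ^ (r + 1)) / ε)),
    lt_max_of_lt_left one_pos, fun β hβ a ha he ha0 hb => ?_⟩
  have hβ1 : 1 ≤ β := (le_max_left _ _).trans hβ
  have hβ2 : 2 * (2 * N) / T ≤ β := ((le_max_left _ _).trans (le_max_right _ _)).trans hβ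
  have hβ3 : 2 * ((r + 2) * (N : ℝ) ^ (r + 1)) / ε ≤ β :=
    ((le_max_right _ _).trans (le_max_right _ _)).trans hβ
  have hβ0 : 0 ≤ β := by linarith
  have hx := sum_small hβ0 ha ha0 hb hTS hεT
  have hX : (N : ℝ) * Real.exp (-(β * (3 * T / 4))) ≤ 1 / 2 := by
    rw [Real.exp_neg, ← div_eq_mul_inv, div_le_iff₀ (Real.exp_pos _)]
    rw [div_le_iff₀ hT] at hβ2
    have h1 := Real.add_one_le_exp (β * (3 * T / 4))
    nlinarith
  refine ⟨fun c => (hx c).trans hX, fun j => ?_⟩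
  have h1 := lg_taylor he hX hx j r
  have h2 : |∑ s ∈ Finset.range r, (-1 : ℝ) ^ s / (s + 1) * cp a (s + 1) j| ≤
      r * ((N : ℝ) ^ (r + 1) * Real.exp (-(β * (S j - ε / 2)))) := by
    refine (Finset.abs_sum_le_sum_abs _ _).trans ?_
    have h3 : ∀ s ∈ Finset.range r, |(-1 : ℝ) ^ s / (s + 1) * cp a (s + 1) j| ≤
        (N : ℝ) ^ (r + 1) * Real.exp (-(β * (S j - ε / 2))) := by
      intro s hs
      rw [Finset.mem_range] at hs
      refine (coef_le s (cp_nonneg ha _ _)).trans ?_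
      refine (cp_b1 hβ0 ha ha0 hb hS0 hsub (s + 1) j).trans ?_
      refine mul_le_mul (pow_le_pow_right₀ hN1 (by omega)) (Real.exp_le_exp.mpr ?_)
        (Real.exp_pos _).le (by positivity)
      refine neg_le_neg (mul_le_mul_of_nonneg_left ?_ hβ0)
      have h4 : ((s + 1 : ℕ) : ℝ) ≤ r + 1 := by
        have : s + 1 ≤ r + 1 := by omega
        exact_mod_cast this
      nlinarith
    refine (Finset.sum_le_sum h3).trans (le_of_eq ?_)
    rw [Finset.sum_const, Finset.card_range, nsmul_eq_mul]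
  have h5 : ((N : ℝ) * Real.exp (-(β * (3 * T / 4)))) ^ (r + 1) ≤
      (N : ℝ) ^ (r + 1) * Real.exp (-(β * (S j - ε / 2))) := by
    rw [mul_pow, ← Real.exp_nat_mul]
    refine mul_le_mul_of_nonneg_left (Real.exp_le_exp.mpr ?_) (by positivity)
    have h6 := mul_le_mul_of_nonneg_left ((hB j).trans hr') hβ0
    push_cast
    nlinarith
  have h7 : |lg a j| ≤ (r + 2) * (N : ℝ) ^ (r + 1) * Real.exp (-(β * (S j - ε / 2))) := by
    have h8 := abs_le.mp h1
    have h9 := abs_le.mp h2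
    rw [abs_le]
    constructor <;> nlinarith
  refine h7.trans ?_
  have h8 : (r + 2) * (N : ℝ) ^ (r + 1) ≤ Real.exp (β * (ε / 2)) := by
    rw [div_le_iff₀ hε] at hβ3
    have := Real.add_one_le_exp (β * (ε / 2))
    linarith
  refine (mul_le_mul_of_nonneg_right h8 (Real.exp_pos _).le).trans (le_of_eq ?_)
  rw [← Real.exp_add]
  congr 1
  ring

/-- the lower bound for the logarithm at an irreducible point -/
theorem lg_lo {S : ZMod N → ℝ} {T : ℝ} (hS0 : S 0 = 0) (hsub : ∀ i j, S (i + j) ≤ S i + S j)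
    (hT : 0 < T) (hTS : ∀ i, i ≠ 0 → T ≤ S i) {j : ZMod N}
    (hj : ∀ i, i ≠ 0 → i ≠ j → S j < S i + S (j - i)) {ε : ℝ} (hε : 0 < ε) :
    ∃ ε' : ℝ, 0 < ε' ∧ ∃ β0 : ℝ, 0 < β0 ∧ ∀ β : ℝ, β0 ≤ β → ∀ a : ZMod N → ℝ, (∀ i, 0 ≤ a i) →
      (∀ i, a (-i) = a i) → a 0 = 0 → (∀ i, i ≠ 0 → a i ≤ Real.exp (-(β * (S i - ε')))) →
      Real.exp (-(β * (S j + ε'))) ≤ a j → Real.exp (-(β * (S j + ε))) ≤ lg a j := by
  obtain ⟨γ, hγ0, hγT, hγ⟩ : ∃ γ : ℝ, 0 < γ ∧ γ ≤ T ∧
      ∀ i, i ≠ 0 → i ≠ j → S j + γ ≤ S i + S (j - i) := by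
    obtain ⟨f, hf⟩ : ∃ f : ZMod N → ℝ, f = fun i => if i ≠ 0 ∧ i ≠ j then
      min T (S i + S (j - i) - S j) else T := ⟨_, rfl⟩
    have hfpos : ∀ i, 0 < f i := by
      intro i
      rw [hf]
      simp only
      split_ifs with h
      · exact lt_min hT (by linarith [hj i h.1 h.2])
      · exact hT
    obtain ⟨i0, _, hi0⟩ := Finset.exists_min_image (Finset.univ : Finset (ZMod N)) f
      Finset.univ_nonempty
    refine ⟨f i0, hfpos i0, (hi0 0 (Finset.mem_univ _)).trans (le_of_eq ?_), fun i h1 h2 => ?_⟩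
    · rw [hf]; simp
    · have h3 := hi0 i (Finset.mem_univ _)
      have h4 : f i ≤ S i + S (j - i) - S j := by
        rw [hf]
        simp only
        rw [if_pos ⟨h1, h2⟩]
        exact min_le_right _ _
      linarith
  obtain ⟨r, hr⟩ := exists_nat_ge ((S j + T) / (3 * T / 4))
  have hr' : S j + γ ≤ (r + 2) * (3 * T / 4) := by
    rw [div_le_iff₀ (by linarith)] at hr
    nlinarith
  obtain ⟨ε', hε'⟩ : ∃ ε' : ℝ, ε' = min (min (T / 4) (ε / 2)) (γ / (4 * (r + 2))) := ⟨_, rfl⟩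
  have hε0 : 0 < ε' := by
    rw [hε']; exact lt_min (lt_min (by linarith) (by linarith)) (by positivity)
  have hεT : ε' ≤ T / 4 := by rw [hε']; exact (min_le_left _ _).trans (min_le_left _ _)
  have hεε : ε' ≤ ε / 2 := by rw [hε']; exact (min_le_left _ _).trans (min_le_right _ _)
  have hεr : (r + 2) * ε' ≤ γ / 4 := by
    have : ε' ≤ γ / (4 * (r + 2)) := by rw [hε']; exact min_le_right _ _
    rw [le_div_iff₀ (by positivity)] at this
    linarith
  have hεγ : ε' ≤ γ / 4 := by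
    have : (0 : ℝ) ≤ r := by positivity
    nlinarith
  have hN1 := one_le_N (N := N)
  obtain ⟨K, hK⟩ : ∃ K : ℝ, K = (r + 2) * (N : ℝ) ^ (r + 2) := ⟨_, rfl⟩
  have hK0 : 0 < K := by rw [hK]; positivity
  refine ⟨ε', hε0, max 1 (max (2 * (2 * N) / T) (max (2 * (2 * K) / γ) (2 / ε))),
    lt_max_of_lt_left one_pos, fun β hβ a ha he ha0 hb hlo => ?_⟩
  have hβ1 : 1 ≤ β := (le_max_left _ _).trans hβ
  have hβ2 : 2 * (2 * N) / T ≤ β := ((le_max_left _ _).trans (le_max_right _ _)).trans hβ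
  have hβ3 : 2 * (2 * K) / γ ≤ β := (((le_max_left _ _).trans (le_max_right _ _)).trans
    (le_max_right _ _)).trans hβ
  have hβ4 : 2 / ε ≤ β := (((le_max_right _ _).trans (le_max_right _ _)).trans
    (le_max_right _ _)).trans hβ
  have hβ0 : 0 ≤ β := by linarith
  have hx := sum_small hβ0 ha ha0 hb hTS hεT
  have hX : (N : ℝ) * Real.exp (-(β * (3 * T / 4))) ≤ 1 / 2 := by
    rw [Real.exp_neg, ← div_eq_mul_inv, div_le_iff₀ (Real.exp_pos _)]
    rw [div_le_iff₀ hT] at hβ2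
    have h1 := Real.add_one_le_exp (β * (3 * T / 4))
    nlinarith
  have h1 := lg_taylor he hX hx j (r + 1)
  rw [Finset.sum_range_succ', cp_one] at h1
  have h2 : |∑ s ∈ Finset.range r, (-1 : ℝ) ^ (s + 1) / (((s + 1 : ℕ) : ℝ) + 1) *
      cp a (s + 1 + 1) j| ≤ r * ((N : ℝ) ^ (r + 2) * Real.exp (-(β * (S j + 3 * γ / 4)))) := by
    refine (Finset.abs_sum_le_sum_abs _ _).trans ?_
    have h3 : ∀ s ∈ Finset.range r, |(-1 : ℝ) ^ (s + 1) / (((s + 1 : ℕ) : ℝ) + 1) *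
        cp a (s + 1 + 1) j| ≤ (N : ℝ) ^ (r + 2) * Real.exp (-(β * (S j + 3 * γ / 4))) := by
      intro s hs
      rw [Finset.mem_range] at hs
      refine (coef_le (s + 1) (cp_nonneg ha _ _)).trans ?_
      refine (cp_b3 hβ0 ha ha0 hb hS0 hsub hT.le hTS hγT hγ s).trans ?_
      refine mul_le_mul (pow_le_pow_right₀ hN1 (by omega)) (Real.exp_le_exp.mpr ?_)
        (Real.exp_pos _).le (by positivity)
      refine neg_le_neg (mul_le_mul_of_nonneg_left ?_ hβ0)
      have h4 : (s : ℝ) + 2 ≤ r + 2 := by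
        have : s + 2 ≤ r + 2 := by omega
        exact_mod_cast this
      nlinarith
    refine (Finset.sum_le_sum h3).trans (le_of_eq ?_)
    rw [Finset.sum_const, Finset.card_range, nsmul_eq_mul]
  have h5 : ((N : ℝ) * Real.exp (-(β * (3 * T / 4)))) ^ (r + 1 + 1) ≤
      (N : ℝ) ^ (r + 2) * Real.exp (-(β * (S j + 3 * γ / 4))) := by
    rw [mul_pow, ← Real.exp_nat_mul]
    refine mul_le_mul_of_nonneg_left (Real.exp_le_exp.mpr ?_) (by positivity)
    have h6 := mul_le_mul_of_nonneg_left hr' hβ0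
    push_cast
    nlinarith
  have h7 : a j - K * Real.exp (-(β * (S j + 3 * γ / 4))) ≤ lg a j := by
    have h8 := (abs_le.mp h1).1
    have h9 := (abs_le.mp h2).1
    have e : (-1 : ℝ) ^ 0 / (((0 : ℕ) : ℝ) + 1) * a j = a j := by simp
    rw [e] at h8
    rw [hK]
    have h12 : 0 ≤ (N : ℝ) ^ (r + 2) * Real.exp (-(β * (S j + 3 * γ / 4))) := by positivity
    linarith
  refine le_trans ?_ h7
  -- the error is at most half of the main term
  have h8 : K * Real.exp (-(β * (S j + 3 * γ / 4))) ≤ 1 / 2 * Real.exp (-(β * (S j + ε'))) := by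
    have h9 : K ≤ 1 / 2 * Real.exp (β * (γ / 2)) := by
      rw [div_le_iff₀ hγ0] at hβ3
      have := Real.add_one_le_exp (β * (γ / 2))
      linarith
    refine (mul_le_mul_of_nonneg_right h9 (Real.exp_pos _).le).trans ?_
    rw [mul_assoc, ← Real.exp_add]
    refine mul_le_mul_of_nonneg_left (Real.exp_le_exp.mpr ?_) (by norm_num)
    have := mul_le_mul_of_nonneg_left hεγ hβ0
    linarith
  have h9 : Real.exp (-(β * (S j + ε))) ≤ 1 / 2 * Real.exp (-(β * (S j + ε'))) := by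
    have h10 : 1 ≤ 1 / 2 * Real.exp (β * (ε / 2)) := by
      rw [div_le_iff₀ hε] at hβ4
      have := Real.add_one_le_exp (β * (ε / 2))
      linarith
    calc Real.exp (-(β * (S j + ε))) = 1 * Real.exp (-(β * (S j + ε))) := (one_mul _).symm
      _ ≤ 1 / 2 * Real.exp (β * (ε / 2)) * Real.exp (-(β * (S j + ε))) :=
        mul_le_mul_of_nonneg_right h10 (Real.exp_pos _).le
      _ = 1 / 2 * Real.exp (β * (ε / 2) + -(β * (S j + ε))) := by rw [Real.exp_add]; ring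
      _ ≤ _ := by
        refine mul_le_mul_of_nonneg_left (Real.exp_le_exp.mpr ?_) (by norm_num)
        have := mul_le_mul_of_nonneg_left hεε hβ0
        linarith
  linarith

end

end

end Run7.h4.VS
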