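import Mathlib
import Pool.Agent.Run7.h4.VS.Low2
import Pool.Agent.Run7.h4.VS.Vin

/-!
# General flux distributions; the Peierls step
-/

open MeasureTheory Matrix Filter Topology
open Run7.h4.YM

namespace Run7.h4.VS

set_option linter.unusedSectionVars false
set_option linter.unusedVariables false

noncomputable section

section gen

variable {N n L l : ℕ} [NeZero N] [NeZero n] [NeZero L] [NeZero l] {k : ℕ}
  (hζ : IsPrimitiveRoot (om N k) N)

/-- the flux can be moved, general distribution -/
theorem exists_move_gen (f : ZMod n → ZMod L → ZMod N) :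
    ∃ c : ZMod n × ZMod L → Fin 2 → ZMod N, ∀ (U : Link n L l → SU N) (t : ZMod n) (x : ZMod L),
      cT k (f t x).val (cenT hζ c U) t x = cT k (fl (∑ t, ∑ x, f t x) 0 0 t x).val U t x := by
  obtain ⟨c, hc⟩ := Pool.Agent.Run7.h630.R2.dc_range
    (fun u : ZMod n × ZMod L => fl (∑ t, ∑ x, f t x) 0 0 u.1 u.2 - f u.1 u.2) (by
      rw [Finset.sum_sub_distrib, Fintype.sum_prod_type, Fintype.sum_prod_type, sum_fl, sub_self])
  refine ⟨c, fun U t x => cT_cenT hζ c U ?_⟩
  rw [ZMod.natCast_val, ZMod.cast_id, ZMod.natCast_val, ZMod.cast_id]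
  have h1 := hc (t, x)
  simp only [Prod.mk_add_mk, add_zero] at h1
  rw [h1]
  ring

/-- translation -/
def sh (s : ZMod n) (r : ZMod L) (U : Link n L l → SU N) : Link n L l → SU N :=
  fun e => U (e.1, e.2.1 + s, e.2.2.1 + r, e.2.2.2)

theorem lift_sh (s : ZMod n) (r : ZMod L) (t : ZMod n) (x : ZMod L) (U : Link n L l → SU N) :
    lift t x (sh s r U) = lift (t + s) (x + r) U := by
  funext i t' x' y
  unfold lift sh
  simp only
  congr 2
  exact Prod.ext (by ring) (Prod.ext (by ring) rfl)

theorem cT_sh (m : ℕ) (s : ZMod n) (r : ZMod L) (t : ZMod n) (x : ZMod L)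
    (U : Link n L l → SU N) : cT k m (sh s r U) t x = cT k m U (t + s) (x + r) := by
  rw [cT_lift, cT_lift, lift_sh]

theorem AT_sh (f : ZMod n → ZMod L → ZMod N) (s : ZMod n) (r : ZMod L) (U : Link n L l → SU N) :
    AT k (fun t x => f (t + s) (x + r)) (sh s r U) = AT k f U := by
  unfold AT
  simp only [cT_sh]
  have h1 : (∑ t, ∑ x, cT k (f (t + s) (x + r)).val U (t + s) (x + r)) =
      ∑ t, ∑ x, cT k (f t (x + r)).val U t (x + r) :=
    Equiv.sum_comp (Equiv.addRight s) (fun t => ∑ x, cT k (f t (x + r)).val U t (x + r))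
  rw [h1]
  exact Finset.sum_congr rfl fun t _ =>
    Equiv.sum_comp (Equiv.addRight r) (fun x => cT k (f t x).val U t x)

/-- the energy outside of the block, with flux -/
def Outf (k a b : ℕ) (f : ZMod n → ZMod L → ZMod N) (U : Link n L l → SU N) : ℝ :=
  ∑ t ∈ Finset.range n, ∑ x ∈ Finset.range L,
    if t < a ∧ x < b then 0 else
      cN k (f (t : ZMod n) (x : ZMod L)).val (lift (0 : ZMod n) (0 : ZMod L) U) t x

theorem Outf_mx {a b : ℕ} (ha : 1 ≤ a) (hb : 1 ≤ b) (hn : a < n) (hL : b < L)
    (f : ZMod n → ZMod L → ZMod N) (U V : Link n L l → SU N) :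
    Outf k a b f (mx a b U V) = Outf k a b f U := by
  unfold Outf
  refine Finset.sum_congr rfl fun t ht => Finset.sum_congr rfl fun x hx => ?_
  rw [Finset.mem_range] at ht hx
  split_ifs with h
  · rfl
  · exact cN_mx_out ha hb hn hL ht hx h _ U V

theorem AT_splitf {a b : ℕ} (hn : a < n) (hL : b < L) (f : ZMod n → ZMod L → ZMod N)
    (U : Link n L l → SU N) :
    AT k f U = EN k (fun t x => (f (t : ZMod n) (x : ZMod L)).val) a b
      (lift (0 : ZMod n) (0 : ZMod L) U) + Outf k a b f U := by
  have h1 : AT k f U = ∑ t ∈ Finset.range n, ∑ x ∈ Finset.range L,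
      cN k (f (t : ZMod n) (x : ZMod L)).val (lift (0 : ZMod n) (0 : ZMod L) U) t x := by
    unfold AT
    rw [sum_zmod]
    refine Finset.sum_congr rfl fun t ht => ?_
    rw [sum_zmod]
    refine Finset.sum_congr rfl fun x hx => ?_
    rw [cN_lift, zero_add, zero_add]
  rw [h1, split_block hn hL]
  rfl

/-- the flux distribution after the insertion -/
def fins (a b : ℕ) (i : ZMod N) (f : ZMod n → ZMod L → ZMod N) (t : ZMod n) (x : ZMod L) :
    ZMod N := if t.val < a ∧ x.val < b then fl i 0 0 t x else f t x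

include hζ in
theorem AT_fins {a b : ℕ} (hn : a < n) (hL : b < L) (i : ℕ) (f : ZMod n → ZMod L → ZMod N)
    (U : Link n L l → SU N) :
    AT k (fins a b (i : ZMod N) f) U = EN k (corner i) a b
      (lift (0 : ZMod n) (0 : ZMod L) U) + Outf k a b f U := by
  rw [AT_splitf hn hL]
  congr 1
  · unfold EN
    refine Finset.sum_congr rfl fun t ht => Finset.sum_congr rfl fun x hx => ?_
    rw [Finset.mem_range] at ht hx
    refine cN_congr hζ ?_ _ _ _
    rw [ZMod.natCast_val, ZMod.cast_id]
    have e1 : ((t : ZMod n)).val = t := by rw [ZMod.val_natCast]; exact Nat.mod_eq_of_lt (by omega)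
    have e2 : ((x : ZMod L)).val = x := by rw [ZMod.val_natCast]; exact Nat.mod_eq_of_lt (by omega)
    unfold fins
    rw [e1, e2, if_pos ⟨ht, hx⟩]
    unfold fl corner
    by_cases h0 : t = 0 ∧ x = 0
    · obtain ⟨rfl, rfl⟩ := h0
      simp
    · rw [if_neg h0, if_neg]
      · simp
      · rintro ⟨h2, h3⟩
        apply h0
        rw [ZMod.natCast_eq_zero_iff] at h2 h3
        exact ⟨Nat.eq_zero_of_dvd_of_lt h2 (by omega), Nat.eq_zero_of_dvd_of_lt h3 (by omega)⟩
  · unfold Outf
    refine Finset.sum_congr rfl fun t ht => Finset.sum_congr rfl fun x hx => ?_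
    rw [Finset.mem_range] at ht hx
    split_ifs with h
    · rfl
    · have e1 : ((t : ZMod n)).val = t := by
        rw [ZMod.val_natCast]; exact Nat.mod_eq_of_lt ht
      have e2 : ((x : ZMod L)).val = x := by
        rw [ZMod.val_natCast]; exact Nat.mod_eq_of_lt hx
      unfold fins
      rw [e1, e2, if_neg h]

theorem sum_fins {a b : ℕ} (ha : 1 ≤ a) (hb : 1 ≤ b) (hn : a < n) (hL : b < L) (i : ZMod N)
    (f : ZMod n → ZMod L → ZMod N) :
    (∑ t, ∑ x, fins a b i f t x) = i + (∑ t, ∑ x, f t x) -
      ∑ t ∈ Finset.range a, ∑ x ∈ Finset.range b, f (t : ZMod n) (x : ZMod L) := by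
  have key : ∀ g : ZMod n → ZMod L → ZMod N, (∑ t, ∑ x, g t x) =
      (∑ t ∈ Finset.range a, ∑ x ∈ Finset.range b, g (t : ZMod n) (x : ZMod L)) +
      ∑ t ∈ Finset.range n, ∑ x ∈ Finset.range L,
        if t < a ∧ x < b then 0 else g (t : ZMod n) (x : ZMod L) := by
    intro g
    rw [sum_zmod]
    have h1 : (∑ t ∈ Finset.range n, ∑ x : ZMod L, g (t : ZMod n) x) =
        ∑ t ∈ Finset.range n, ∑ x ∈ Finset.range L, g (t : ZMod n) (x : ZMod L) :=
      Finset.sum_congr rfl fun t _ => sum_zmod L _
    rw [h1]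
    have h2 : (∑ t ∈ Finset.range a, ∑ x ∈ Finset.range b, g (t : ZMod n) (x : ZMod L)) =
        ∑ t ∈ Finset.range n, ∑ x ∈ Finset.range L,
          if t < a ∧ x < b then g (t : ZMod n) (x : ZMod L) else 0 := by
      rw [← Finset.sum_subset (Finset.range_mono hn.le) (fun t _ ht => ?_)]
      · refine Finset.sum_congr rfl fun t ht => ?_
        rw [← Finset.sum_subset (Finset.range_mono hL.le) (fun x _ hx => ?_)]
        · refine Finset.sum_congr rfl fun x hx => ?_
          rw [Finset.mem_range] at ht hx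
          rw [if_pos ⟨ht, hx⟩]
        · rw [Finset.mem_range] at hx
          rw [if_neg (fun h => hx h.2)]
      · rw [Finset.mem_range] at ht
        exact Finset.sum_eq_zero fun x _ => by rw [if_neg (fun h => ht h.1)]
    rw [h2, ← Finset.sum_add_distrib]
    refine Finset.sum_congr rfl fun t _ => ?_
    rw [← Finset.sum_add_distrib]
    refine Finset.sum_congr rfl fun x _ => ?_
    split_ifs <;> simp
  have v1 : ∀ t, t < n → ((t : ZMod n)).val = t := fun t ht => by
    rw [ZMod.val_natCast]; exact Nat.mod_eq_of_lt ht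
  have v2 : ∀ x, x < L → ((x : ZMod L)).val = x := fun x hx => by
    rw [ZMod.val_natCast]; exact Nat.mod_eq_of_lt hx
  rw [key (fins a b i f), key f]
  have e1 : (∑ t ∈ Finset.range a, ∑ x ∈ Finset.range b,
      fins a b i f (t : ZMod n) (x : ZMod L)) = i := by
    rw [Finset.sum_eq_single 0]
    · rw [Finset.sum_eq_single 0]
      · unfold fins fl
        simp [show 0 < a by omega, show 0 < b by omega]
      · intro x hx hx0
        rw [Finset.mem_range] at hx
        unfold fins
        rw [v1 0 (by omega), v2 x (by omega), if_pos ⟨by omega, hx⟩]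
        unfold fl
        rw [if_neg]
        rintro ⟨-, h3⟩
        rw [ZMod.natCast_eq_zero_iff] at h3
        exact hx0 (Nat.eq_zero_of_dvd_of_lt h3 (by omega))
      · intro h; exact absurd (Finset.mem_range.mpr (by omega)) h
    · intro t ht ht0
      rw [Finset.mem_range] at ht
      refine Finset.sum_eq_zero fun x hx => ?_
      rw [Finset.mem_range] at hx
      unfold fins
      rw [v1 t (by omega), v2 x (by omega), if_pos ⟨ht, hx⟩]
      unfold fl
      rw [if_neg]
      rintro ⟨h2, -⟩
      rw [ZMod.natCast_eq_zero_iff] at h2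
      exact ht0 (Nat.eq_zero_of_dvd_of_lt h2 (by omega))
    · intro h; exact absurd (Finset.mem_range.mpr (by omega)) h
  have e2 : (∑ t ∈ Finset.range n, ∑ x ∈ Finset.range L,
      if t < a ∧ x < b then 0 else fins a b i f (t : ZMod n) (x : ZMod L)) =
      ∑ t ∈ Finset.range n, ∑ x ∈ Finset.range L,
        if t < a ∧ x < b then 0 else f (t : ZMod n) (x : ZMod L) := by
    refine Finset.sum_congr rfl fun t ht => Finset.sum_congr rfl fun x hx => ?_
    rw [Finset.mem_range] at ht hx
    split_ifs with h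
    · rfl
    · unfold fins
      rw [v1 t ht, v2 x hx, if_neg h]
  rw [e1, e2]
  ring

end gen

section meas

variable {N n L l : ℕ} [NeZero N] [NeZero n] [NeZero L] [NeZero l] {k : ℕ}
  (hζ : IsPrimitiveRoot (om N k) N)
  [MeasurableSpace (SU N)] [BorelSpace (SU N)] (μ : Measure (SU N)) [IsProbabilityMeasure μ]
  [μ.IsHaarMeasure]

theorem mp_sh (s : ZMod n) (r : ZMod L) :
    MeasurePreserving (sh s r : (Link n L l → SU N) → (Link n L l → SU N))
      (Measure.pi fun _ : Link n L l => μ) (Measure.pi fun _ : Link n L l => μ) := by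
  let σ : Link n L l ≃ Link n L l := Equiv.prodCongr (Equiv.refl _)
    (Equiv.prodCongr (Equiv.addRight s) (Equiv.prodCongr (Equiv.addRight r) (Equiv.refl _)))
  exact mp_gen μ σ (fun _ => id) (fun _ => MeasurePreserving.id μ)

theorem bd_AT (f : ZMod n → ZMod L → ZMod N) (β : ℝ) :
    Bd (fun U : Link n L l → SU N => Real.exp (-(β * AT k f U))) :=
  ((Bd.of_continuous (cont_AT _)).smul β).neg.exp

include hζ in
/-- the partition function depends only on the total flux -/
theorem Zi_gen (f : ZMod n → ZMod L → ZMod N) (β : ℝ) :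
    (∫ U : Link n L l → SU N, Real.exp (-(β * AT k f U)) ∂(Measure.pi fun _ => μ)) =
      Zi μ n L l k (∑ t, ∑ x, f t x) β := by
  obtain ⟨c, hc⟩ := exists_move_gen (l := l) (k := k) hζ f
  rw [mp_int (mp_cenT (n := n) (L := L) (l := l) (k := k) hζ μ c) (bd_AT f β)]
  unfold Zi
  have : ∀ U : Link n L l → SU N, AT k f (cenT hζ c U) =
      AT k (fl (∑ t, ∑ x, f t x) 0 0) U := fun U => by
    unfold AT
    exact Finset.sum_congr rfl fun t _ => Finset.sum_congr rfl fun x _ => hc U t x
  simp only [this]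

/-- the integral over the block -/
def HH (μ : Measure (SU N)) (k a b : ℕ) (f : ZMod n → ZMod L → ZMod N) (β : ℝ)
    (U : Link n L l → SU N) : ℝ :=
  ∫ V : Link n L l → SU N, Real.exp (-(β * AT k f (mx a b U V))) ∂(Measure.pi fun _ => μ)

theorem bd_HH (a b : ℕ) (f : ZMod n → ZMod L → ZMod N) (β : ℝ) :
    Bd (HH μ k a b f β : (Link n L l → SU N) → ℝ) := by
  obtain ⟨h1, C, hC⟩ := bd_AT (N := N) (l := l) (k := k) f β
  refine ⟨?_, C, fun U => ?_⟩
  · have hm : Measurable (fun p : (Link n L l → SU N) × (Link n L l → SU N) =>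
        mx a b p.1 p.2) := measurable_mix _
    have : StronglyMeasurable (fun p : (Link n L l → SU N) × (Link n L l → SU N) =>
        Real.exp (-(β * AT k f (mx a b p.1 p.2)))) := (h1.comp hm).stronglyMeasurable
    exact (StronglyMeasurable.integral_prod_right' this).measurable
  · unfold HH
    calc |∫ V : Link n L l → SU N, Real.exp (-(β * AT k f (mx a b U V)))
          ∂(Measure.pi fun _ => μ)| ≤ ∫ V : Link n L l → SU N,
          |Real.exp (-(β * AT k f (mx a b U V)))| ∂(Measure.pi fun _ => μ) :=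
          abs_integral_le_integral_abs
      _ ≤ ∫ _V : Link n L l → SU N, C ∂(Measure.pi fun _ => μ) := by
        refine integral_mono_of_nonneg (Filter.Eventually.of_forall fun _ => abs_nonneg _)
          (integrable_const _) (Filter.Eventually.of_forall fun V => hC _)
      _ = C := by simp

theorem HH_nonneg (a b : ℕ) (f : ZMod n → ZMod L → ZMod N) (β : ℝ) (U : Link n L l → SU N) :
    0 ≤ HH μ k a b f β U := integral_nonneg fun V => (Real.exp_pos _).le

include hζ in
theorem int_HH (a b : ℕ) (f : ZMod n → ZMod L → ZMod N) (β : ℝ) (s : ZMod n) (r : ZMod L) :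
    (∫ U : Link n L l → SU N, HH μ k a b f β (sh s r U) ∂(Measure.pi fun _ => μ)) =
      Zi μ n L l k (∑ t, ∑ x, f t x) β := by
  have h1 := mp_int (mp_sh (N := N) (n := n) (L := L) (l := l) μ s r)
    (bd_HH (N := N) (n := n) (L := L) (l := l) (k := k) μ a b f β)
  rw [← h1, ← Zi_gen hζ μ f β]
  have hm := mp_mix (ι := Link n L l) μ (inB a b)ᶜ
  rw [mp_int hm (bd_AT f β)]
  exact (integral_prod _ (((bd_AT f β).comp hm.measurable).integrable)).symm

include hζ in
theorem HH_low {a b i : ℕ} (ha : 1 ≤ a) (hb : 1 ≤ b) (hn : a < n) (hL : b < L) {β ρ : ℝ}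
    (hβ : 0 ≤ β) (hρ : 0 < ρ) (f : ZMod n → ZMod L → ZMod N) (U : Link n L l → SU N) {w : LC N l}
    (hw : AgreeB a b (lift (0 : ZMod n) (0 : ZMod L) U) w) :
    ball μ ρ ^ (4 * a * b * l ^ 2) * Real.exp (-(β * (EN k (corner i) a b w +
      a * (b * (48 * (l : ℝ) ^ 2 * N * ρ)) + Outf k a b f U))) ≤
    HH μ k a b (fins a b (i : ZMod N) f) β U := by
  classical
  unfold HH
  obtain ⟨w', hw'⟩ : ∃ w' : Link n L l → SU N, w' = fun e => w e.1 e.2.1.val e.2.2.1.val e.2.2.2 :=
    ⟨_, rfl⟩
  obtain ⟨E, hE⟩ : ∃ E : Set (Link n L l → SU N), E = Set.univ.pi fun e =>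
    if blk a b e then {g : SU N | dd g (w' e) < ρ} else Set.univ := ⟨_, rfl⟩
  have hball : ∀ h : SU N, MeasurableSet {g : SU N | dd g h < ρ} := fun h =>
    (isOpen_lt (continuous_dd' continuous_id continuous_const) continuous_const).measurableSet
  have hEm : MeasurableSet E := by
    rw [hE]
    refine MeasurableSet.univ_pi fun e => ?_
    split_ifs
    · exact hball _
    · exact MeasurableSet.univ
  have hPE : ball μ ρ ^ (4 * a * b * l ^ 2) ≤ (Measure.pi fun _ : Link n L l => μ).real E := by
    unfold Measure.real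
    rw [hE, Measure.pi_pi, ENNReal.toReal_prod]
    have h1 : ∀ e : Link n L l, (μ (if blk a b e then {g : SU N | dd g (w' e) < ρ}
        else Set.univ)).toReal = if blk a b e then ball μ ρ else 1 := by
      intro e
      split_ifs
      · exact ball_eq μ ρ _
      · simp
    rw [Finset.prod_congr rfl fun e _ => h1 e, Finset.prod_ite, Finset.prod_const,
      Finset.prod_const_one, mul_one]
    exact pow_le_pow_of_le_one (ball_nonneg μ ρ) (ball_le_one μ ρ) (card_blk a b)
  have hact : ∀ V ∈ E, AT k (fins a b (i : ZMod N) f) (mx a b U V) ≤ EN k (corner i) a b w +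
      a * (b * (48 * (l : ℝ) ^ 2 * N * ρ)) + Outf k a b f U := by
    intro V hV
    rw [AT_fins hζ hn hL, Outf_mx ha hb hn hL]
    have h2 := EN_mx (n := n) (L := L) hζ hn hL i (U := U) (V := V) hρ.le hw (by
      intro j t x y ht hx
      have h3 : V ((j, (t : ZMod n), (x : ZMod L), y) : Link n L l) ∈
          (if blk a b ((j, (t : ZMod n), (x : ZMod L), y) : Link n L l) then
            {g : SU N | dd g (w' (j, (t : ZMod n), (x : ZMod L), y)) < ρ} else Set.univ) := by
        rw [hE] at hV
        exact hV _ (Set.mem_univ _)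
      have e1 : t % n = t := Nat.mod_eq_of_lt (by omega)
      have e2 : x % L = x := Nat.mod_eq_of_lt (by omega)
      have h4 : blk a b ((j, (t : ZMod n), (x : ZMod L), y) : Link n L l) := by
        unfold blk
        simp only [ZMod.val_natCast, e1, e2]
        exact ⟨ht, hx⟩
      rw [if_pos h4] at h3
      have h5 : dd (V (j, (t : ZMod n), (x : ZMod L), y)) (w' (j, (t : ZMod n), (x : ZMod L), y)) <
        ρ := h3
      rw [hw'] at h5
      simp only [ZMod.val_natCast, e1, e2] at h5
      exact h5.le)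
    linarith
  have hcont : Continuous fun V : Link n L l → SU N => mx a b U V := by
    unfold mx
    refine continuous_pi fun e => ?_
    unfold mix
    by_cases h : e ∈ (inB a b : Set (Link n L l))ᶜ
    · simp only [h, if_true]; exact continuous_const
    · simp only [h, if_false]; exact continuous_apply e
  have hint : Integrable (fun V : Link n L l → SU N =>
      Real.exp (-(β * AT k (fins a b (i : ZMod N) f) (mx a b U V)))) (Measure.pi fun _ => μ) :=
    (((Bd.of_continuous ((cont_AT (k := k) (fins a b (i : ZMod N) f)).comp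
      hcont)).smul β).neg.exp).integrable
  obtain ⟨c, hc⟩ : ∃ c : ℝ, c = Real.exp (-(β * (EN k (corner i) a b w +
      a * (b * (48 * (l : ℝ) ^ 2 * N * ρ)) + Outf k a b f U))) := ⟨_, rfl⟩
  have h1 : ∫ V in E, c ∂(Measure.pi fun _ : Link n L l => μ) ≤
      ∫ V in E, Real.exp (-(β * AT k (fins a b (i : ZMod N) f) (mx a b U V)))
        ∂(Measure.pi fun _ => μ) := by
    refine setIntegral_mono_on (integrable_const _).integrableOn hint.integrableOn hEm ?_
    intro V hV
    rw [hc]
    exact Real.exp_le_exp.mpr (neg_le_neg (mul_le_mul_of_nonneg_left (hact V hV) hβ))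
  have h2 : ∫ V in E, Real.exp (-(β * AT k (fins a b (i : ZMod N) f) (mx a b U V)))
        ∂(Measure.pi fun _ => μ) ≤ ∫ V : Link n L l → SU N,
      Real.exp (-(β * AT k (fins a b (i : ZMod N) f) (mx a b U V))) ∂(Measure.pi fun _ => μ) :=
    setIntegral_le_integral hint (Filter.Eventually.of_forall fun U => (Real.exp_pos _).le)
  refine le_trans ?_ (h1.trans h2)
  rw [setIntegral_const, smul_eq_mul, ← hc]
  exact mul_le_mul_of_nonneg_right hPE (by rw [hc]; exact (Real.exp_pos _).le)

end meas

end

end Run7.h4.VS
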