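import Mathlib
import Pool.Agent.Run7.h4.VS.Flux

/-!
# The recursion for the partition functions with a vortex
-/

open MeasureTheory Matrix Filter Topology
open Run7.h4.YM

namespace Run7.h4.VS

set_option linter.unusedSectionVars false
set_option linter.unusedVariables false

noncomputable section

/-- the combinatorial alternative: a square with a large energy or a rectangle with a charge and a
small ring -/
theorem comb2 (hCOMB : StCOMB) (N : ℕ) [NeZero N] {δ0 η Em : ℝ} (hδ0 : 0 < δ0) (hη : 0 < η)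
    (hEm : 0 < Em) : ∃ K : ℕ, 0 < K ∧ ∀ (n L : ℕ) [NeZero n] [NeZero L], K ≤ n → K ≤ L →
    ∀ (e : ZMod n → ZMod L → ℝ) (q : ZMod n → ZMod L → ZMod N), (∀ t x, 0 ≤ e t x) →
    (∀ t x, e t x < δ0 → q t x = 0) → (∑ t, ∑ x, q t x) ≠ 0 →
    (∃ (s : ZMod n) (r : ZMod L),
      Em ≤ ∑ t ∈ Finset.range K, ∑ x ∈ Finset.range K, e (s + t) (r + x)) ∨
    (∃ (s : ZMod n) (r : ZMod L) (a b : ℕ), 1 ≤ a ∧ 1 ≤ b ∧ a ≤ K ∧ b ≤ K ∧
      (∑ p ∈ ring a b, e (s + p.1) (r + p.2)) < η ∧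
      (∑ t ∈ Finset.range a, ∑ x ∈ Finset.range b, q (s + t) (r + x)) ≠ 0) := by
  obtain ⟨K, hK, h⟩ := hCOMB N 1 (Em + 1) δ0 ((Em + 1) / η) 1 hδ0 (by positivity) one_pos
    (by linarith)
  refine ⟨K, hK, fun n L _ _ hn hL e q he hq hsum => ?_⟩
  by_contra hc
  push Not at hc
  obtain ⟨h1, h2⟩ := hc
  obtain ⟨s, r, h3⟩ := h n L hn hL e q he hq (fun s r a b ha hb haK hbK _ hne => by
    rw [Nat.cast_one, one_mul] at hne
    have h4 : η ≤ ∑ p ∈ ring a b, e (s + p.1) (r + p.2) := by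
      by_contra hlt
      push Not at hlt
      exact hne (h2 s r a b ha hb haK hbK hlt)
    have h5 : Em + 1 ≤ (Em + 1) / η * ∑ p ∈ ring a b, e (s + p.1) (r + p.2) := by
      have := mul_le_mul_of_nonneg_left h4 (by positivity : 0 ≤ (Em + 1) / η)
      have e1 : (Em + 1) / η * η = Em + 1 := by field_simp
      rw [e1] at this
      exact this
    have h6 : 0 ≤ ∑ t ∈ Finset.range a, ∑ x ∈ Finset.range b, e (s + t) (r + x) :=
      Finset.sum_nonneg fun _ _ => Finset.sum_nonneg fun _ _ => he _ _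
    linarith) (by rw [Nat.cast_one, one_mul]; exact hsum)
  have h4 := h1 s r
  linarith

section pt

variable {N n L l : ℕ} [NeZero N] [NeZero n] [NeZero L] [NeZero l] {k : ℕ}
  {hζ : IsPrimitiveRoot (om N k) N} {P0 Q0 : SU N} {F : FC N l → Fib l → SU N}
  {lab : FC N l → (Fib l → SU N) → FC N l → ZMod N} {C : ℝ}
  [MeasurableSpace (SU N)] [BorelSpace (SU N)] (μ : Measure (SU N)) [IsProbabilityMeasure μ]
  [μ.IsHaarMeasure]

/-- The Peierls step at one configuration. -/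
theorem pt_bound (h : Fra hζ P0 Q0 F lab C) (hs : Std N k hζ P0 Q0) {a b : ℕ} (ha : 1 ≤ a)
    (hb : 1 ≤ b) (hn : a < n) (hL : b < L) {β ρ η : ℝ} (hβ : 0 ≤ β) (hρ : 0 < ρ)
    (f : ZMod n → ZMod L → ZMod N) (U : Link n L l → SU N) (iq ii : ℕ)
    (hring : (∑ p ∈ ring a b, cN k (f (p.1 : ZMod n) (p.2 : ZMod L)).val
      (lift (0 : ZMod n) (0 : ZMod L) U) p.1 p.2) ≤ η)
    (hq : (∑ t ∈ Finset.range a, ∑ x ∈ Finset.range b,
      chN lab (f (t : ZMod n) (x : ZMod L)).val (lift (0 : ZMod n) (0 : ZMod L) U) t x) =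
        (iq : ZMod N))
    (hi : (∑ t ∈ Finset.range a, ∑ x ∈ Finset.range b, f (t : ZMod n) (x : ZMod L)) - (iq : ZMod N) =
      (ii : ZMod N)) :
    Real.exp (-(β * AT k f U)) ≤ Real.exp (-(β * (SF k P0 Q0 l iq -
      (1 + 6912 * (l : ℝ) ^ 2 * C ^ 2) * η - a * (b * (48 * (l : ℝ) ^ 2 * N * ρ))))) *
        ((ball μ ρ)⁻¹ ^ (4 * a * b * l ^ 2) * HH μ k a b (fins a b (ii : ZMod N) f) β U) := by
  have hkey := h.key (fun t x => (f (t : ZMod n) (x : ZMod L)).val)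
    (lift (0 : ZMod n) (0 : ZMod L) U) a b ha hb iq hq
  obtain ⟨w, hw1, hw2⟩ := h.vacIn hs (fun t x => (f (t : ZMod n) (x : ZMod L)).val)
    (lift (0 : ZMod n) (0 : ZMod L) U) ha hb (i := ii) (by
      rw [← hi, ← hq, ← Finset.sum_sub_distrib]
      refine Finset.sum_congr rfl fun t _ => ?_
      rw [← Finset.sum_sub_distrib]
      refine Finset.sum_congr rfl fun x _ => ?_
      rw [ZMod.natCast_val, ZMod.cast_id])
  have hlow := HH_low (n := n) (L := L) hζ μ (i := ii) ha hb hn hL hβ hρ f U hw1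
  have hsplit := AT_splitf (k := k) (n := n) (L := L) hn hL f U
  obtain ⟨R, hR⟩ : ∃ R, R = ∑ p ∈ ring a b, cN k (f (p.1 : ZMod n) (p.2 : ZMod L)).val
      (lift (0 : ZMod n) (0 : ZMod L) U) p.1 p.2 := ⟨_, rfl⟩
  rw [← hR] at hring hkey hw2
  obtain ⟨O, hO⟩ : ∃ O, O = Outf k a b f U := ⟨_, rfl⟩
  rw [← hO] at hlow hsplit
  obtain ⟨X, hX⟩ : ∃ X : ℝ, X = a * (b * (48 * (l : ℝ) ^ 2 * N * ρ)) := ⟨_, rfl⟩
  rw [← hX] at hlow ⊢
  obtain ⟨EE, hEE⟩ : ∃ EE, EE = EN k (fun t x => (f (t : ZMod n) (x : ZMod L)).val) a b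
      (lift (0 : ZMod n) (0 : ZMod L) U) := ⟨_, rfl⟩
  rw [← hEE] at hkey hsplit
  obtain ⟨S, hS⟩ : ∃ S, S = SF k P0 Q0 l iq := ⟨_, rfl⟩
  rw [← hS] at hkey ⊢
  obtain ⟨W, hW⟩ : ∃ W, W = EN k (corner ii) a b w := ⟨_, rfl⟩
  rw [← hW] at hlow hw2
  obtain ⟨D, hD⟩ : ∃ D : ℝ, D = 3456 * (l : ℝ) ^ 2 * C ^ 2 := ⟨_, rfl⟩
  have hD0 : 0 ≤ D := by rw [hD]; positivity
  rw [← hD] at hkey hw2
  have e1 : 6912 * (l : ℝ) ^ 2 * C ^ 2 = 2 * D := by rw [hD]; ring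
  rw [e1]
  have hb0 := ball_pos μ hρ
  obtain ⟨y, hy⟩ : ∃ y, y = ball μ ρ ^ (4 * a * b * l ^ 2) := ⟨_, rfl⟩
  have hy0 : 0 < y := by rw [hy]; positivity
  rw [inv_pow]
  rw [← hy] at hlow ⊢
  obtain ⟨Hh, hHh⟩ : ∃ Hh, Hh = HH μ k a b (fins a b (ii : ZMod N) f) β U := ⟨_, rfl⟩
  rw [← hHh] at hlow ⊢
  have h1 : Real.exp (-(β * (W + X + O))) ≤ y⁻¹ * Hh := by
    rw [inv_mul_eq_div, le_div_iff₀ hy0, mul_comm]
    exact hlow
  have h2 : (1 + D) * R ≤ (1 + D) * η := mul_le_mul_of_nonneg_left hring (by linarith)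
  have h3 : D * R ≤ D * η := mul_le_mul_of_nonneg_left hring hD0
  have h4 : S - (1 + 2 * D) * η - X + (W + X + O) ≤ AT k f U := by
    rw [hsplit]; linarith
  calc Real.exp (-(β * AT k f U))
      ≤ Real.exp (-(β * (S - (1 + 2 * D) * η - X + (W + X + O)))) :=
        Real.exp_le_exp.mpr (neg_le_neg (mul_le_mul_of_nonneg_left h4 hβ))
    _ = Real.exp (-(β * (S - (1 + 2 * D) * η - X))) * Real.exp (-(β * (W + X + O))) := by
        rw [← Real.exp_add]; congr 1; ring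
    _ ≤ _ := mul_le_mul_of_nonneg_left h1 (Real.exp_pos _).le

end pt

section rec

variable {N l : ℕ} [NeZero N] [NeZero l] {k : ℕ}
  {hζ : IsPrimitiveRoot (om N k) N} {P0 Q0 : SU N} {F : FC N l → Fib l → SU N}
  {lab : FC N l → (Fib l → SU N) → FC N l → ZMod N} {C : ℝ}
  [MeasurableSpace (SU N)] [BorelSpace (SU N)] (μ : Measure (SU N)) [IsProbabilityMeasure μ]
  [μ.IsHaarMeasure]

/-- the terms of the sum over the positions of the rectangle -/
def Tm {N n L l : ℕ} [NeZero N] [NeZero n] [NeZero L] [NeZero l] [MeasurableSpace (SU N)]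
    (μ : Measure (SU N)) (k : ℕ) (P0 Q0 : SU N) (β ε Y : ℝ) (f : ZMod n → ZMod L → ZMod N)
    (p : ZMod n × ZMod L × ℕ × ℕ × ZMod N) (U : Link n L l → SU N) : ℝ :=
  Real.exp (-(β * (SF k P0 Q0 l p.2.2.2.2.val - ε / 4))) * (Y *
    HH μ k p.2.2.1 p.2.2.2.1 (fins p.2.2.1 p.2.2.2.1
      ((∑ t ∈ Finset.range p.2.2.1, ∑ x ∈ Finset.range p.2.2.2.1,
        f ((t : ZMod n) + p.1) ((x : ZMod L) + p.2.1)) - p.2.2.2.2)
      (fun t x => f (t + p.1) (x + p.2.1))) β (sh p.1 p.2.1 U))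

theorem Tm_nonneg {n L : ℕ} [NeZero n] [NeZero L] {β ε Y : ℝ} (hY : 0 ≤ Y)
    (f : ZMod n → ZMod L → ZMod N)
    (p : ZMod n × ZMod L × ℕ × ℕ × ZMod N) (U : Link n L l → SU N) :
    0 ≤ Tm μ k P0 Q0 β ε Y f p U :=
  mul_nonneg (Real.exp_pos _).le (mul_nonneg hY (HH_nonneg μ _ _ _ _ _))

theorem bd_Tm {n L : ℕ} [NeZero n] [NeZero L] (β ε Y : ℝ) (f : ZMod n → ZMod L → ZMod N)
    (p : ZMod n × ZMod L × ℕ × ℕ × ZMod N) :
    Bd (Tm μ k P0 Q0 β ε Y f p : (Link n L l → SU N) → ℝ) :=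
  (((bd_HH μ _ _ _ β).comp (mp_sh μ p.1 p.2.1).measurable).smul Y).smul _

include hζ in
theorem int_Tm {n L : ℕ} [NeZero n] [NeZero L] (β ε Y : ℝ) (f : ZMod n → ZMod L → ZMod N)
    (s : ZMod n) (r : ZMod L) {a b : ℕ} (ha : 1 ≤ a) (hb : 1 ≤ b) (hn : a < n) (hL : b < L)
    (q : ZMod N) :
    (∫ U : Link n L l → SU N, Tm μ k P0 Q0 β ε Y f (s, r, a, b, q) U ∂(Measure.pi fun _ => μ)) =
      Real.exp (-(β * (SF k P0 Q0 l q.val - ε / 4))) * (Y *
        Zi μ n L l k ((∑ t, ∑ x, f t x) - q) β) := by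
  unfold Tm
  simp only
  rw [integral_const_mul, integral_const_mul, int_HH hζ μ, sum_fins ha hb hn hL]
  congr 3
  have h1 : (∑ t, ∑ x, f (t + s) (x + r)) = ∑ t, ∑ x, f t x := by
    have h2 : (∑ t, ∑ x, f (t + s) (x + r)) = ∑ t, ∑ x, f t (x + r) :=
      Equiv.sum_comp (Equiv.addRight s) (fun t => ∑ x, f t (x + r))
    rw [h2]
    exact Finset.sum_congr rfl fun t _ => Equiv.sum_comp (Equiv.addRight r) (fun x => f t x)
  rw [h1]
  ring

/-- the pointwise bound in the second case -/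
theorem pt2 (h : Fra hζ P0 Q0 F lab C) (hs : Std N k hζ P0 Q0) {n L : ℕ} [NeZero n] [NeZero L]
    {K : ℕ} (hKn : K < n) (hKL : K < L)
    {β ρ η ε Y : ℝ} (hβ : 0 ≤ β) (hρ : 0 < ρ) (hη : (1 + 6912 * (l : ℝ) ^ 2 * C ^ 2) * η ≤ ε / 8)
    (hρ1 : (K : ℝ) * (K * (48 * (l : ℝ) ^ 2 * N * ρ)) ≤ ε / 8)
    (hY : Y = (ball μ ρ)⁻¹ ^ (4 * K * K * l ^ 2))
    (f : ZMod n → ZMod L → ZMod N) (U : Link n L l → SU N) (s : ZMod n) (r : ZMod L) {a b : ℕ}
    (ha : 1 ≤ a) (hb : 1 ≤ b) (haK : a ≤ K) (hbK : b ≤ K)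
    (hring : (∑ p ∈ ring a b, cT k (f (s + p.1) (r + p.2)).val U (s + p.1) (r + p.2)) < η)
    {q : ZMod N} (hq : (∑ t ∈ Finset.range a, ∑ x ∈ Finset.range b,
      chT lab (f (s + t) (r + x)).val U (s + t) (r + x)) = q) :
    Real.exp (-(β * AT k f U)) ≤ Tm μ k P0 Q0 β ε Y f (s, r, a, b, q) U := by
  have hlr : lift (0 : ZMod n) (0 : ZMod L) (sh s r U) = lift s r U := by
    rw [lift_sh, zero_add, zero_add]
  have h1 := pt_bound μ h hs ha hb (by omega : a < n) (by omega : b < L) hβ hρ (η := η)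
    (fun t x => f (t + s) (x + r)) (sh s r U) q.val
    ((∑ t ∈ Finset.range a, ∑ x ∈ Finset.range b, f ((t : ZMod n) + s) ((x : ZMod L) + r)) - q).val
    (by
      rw [hlr]
      refine le_trans (le_of_eq ?_) hring.le
      refine Finset.sum_congr rfl fun p _ => ?_
      rw [cN_lift, add_comm (p.1 : ZMod n) s, add_comm (p.2 : ZMod L) r])
    (by
      rw [hlr, ZMod.natCast_val, ZMod.cast_id, ← hq]
      refine Finset.sum_congr rfl fun t _ => Finset.sum_congr rfl fun x _ => ?_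
      rw [chT_lift, add_comm (t : ZMod n) s, add_comm (x : ZMod L) r])
    (by
      rw [ZMod.natCast_val, ZMod.cast_id, ZMod.natCast_val, ZMod.cast_id])
  rw [AT_sh] at h1
  refine h1.trans ?_
  unfold Tm
  simp only
  rw [ZMod.natCast_val, ZMod.cast_id]
  have hb0 := ball_pos μ hρ
  have hb1 := ball_le_one μ ρ
  have e1 : (ball μ ρ)⁻¹ ^ (4 * a * b * l ^ 2) ≤ Y := by
    rw [hY]
    refine pow_le_pow_right₀ ((one_le_inv₀ hb0).mpr hb1) ?_
    exact Nat.mul_le_mul_right _ (Nat.mul_le_mul (Nat.mul_le_mul_left _ haK) hbK)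
  have e2 : (a : ℝ) * (b * (48 * (l : ℝ) ^ 2 * N * ρ)) ≤ ε / 8 := by
    refine le_trans ?_ hρ1
    have ha' : (a : ℝ) ≤ K := by exact_mod_cast haK
    have hb' : (b : ℝ) ≤ K := by exact_mod_cast hbK
    have h0 : 0 ≤ 48 * (l : ℝ) ^ 2 * N * ρ := by positivity
    exact mul_le_mul ha' (mul_le_mul_of_nonneg_right hb' h0) (by positivity) (by positivity)
  have e3 : Real.exp (-(β * (SF k P0 Q0 l q.val - (1 + 6912 * (l : ℝ) ^ 2 * C ^ 2) * η -
      a * (b * (48 * (l : ℝ) ^ 2 * N * ρ))))) ≤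
      Real.exp (-(β * (SF k P0 Q0 l q.val - ε / 4))) :=
    Real.exp_le_exp.mpr (neg_le_neg (mul_le_mul_of_nonneg_left (by linarith) hβ))
  exact mul_le_mul e3 (mul_le_mul_of_nonneg_right e1 (HH_nonneg μ _ _ _ _ _))
    (mul_nonneg (by positivity) (HH_nonneg μ _ _ _ _ _)) (Real.exp_pos _).le

/-- **The recursion.** -/
theorem recU (hCOMB : StCOMB) (h : Fra hζ P0 Q0 F lab C) (hs : Std N k hζ P0 Q0) {ε Em : ℝ}
    (hε : 0 < ε) (hEm : 0 < Em) : ∃ M : ℕ, ∀ C0 : ℝ, 0 < C0 → ∃ β0 : ℝ, 0 < β0 ∧ ∀ β : ℝ, β0 ≤ β →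
    ∀ (m m' : ℕ) [NeZero m] [NeZero m'], M ≤ m → M ≤ m' → (m : ℝ) ≤ C0 * β → (m' : ℝ) ≤ C0 * β →
    ∀ j : ZMod N, j ≠ 0 → Zi μ (2 * m) (2 * m') l k j β ≤
      Real.exp (-(β * (Em - ε))) * ZZ μ m m' l k β +
      ∑ q ∈ Finset.univ.erase (0 : ZMod N), Real.exp (-(β * (SF k P0 Q0 l q.val - ε))) *
        Zi μ (2 * m) (2 * m') l k (j - q) β := by
  have hN : (0 : ℝ) < N := by exact_mod_cast NeZero.pos N
  have hl : (0 : ℝ) < l := by exact_mod_cast NeZero.pos l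
  obtain ⟨δ0, hδ0, hgood⟩ := h.good
  obtain ⟨D1, hD1⟩ : ∃ D1 : ℝ, D1 = 1 + 6912 * (l : ℝ) ^ 2 * C ^ 2 := ⟨_, rfl⟩
  have hD10 : 0 < D1 := by rw [hD1]; positivity
  obtain ⟨η, hη⟩ : ∃ η : ℝ, η = ε / 8 / D1 := ⟨_, rfl⟩
  have hη0 : 0 < η := by rw [hη]; positivity
  have hη1 : D1 * η ≤ ε / 8 := by rw [hη]; exact le_of_eq (by field_simp)
  rw [hD1] at hη1
  obtain ⟨K, hK, hcomb⟩ := comb2 hCOMB N hδ0 hη0 hEm
  have hKr : (0 : ℝ) < K := by exact_mod_cast hK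
  obtain ⟨ρ, hρ⟩ : ∃ ρ : ℝ, ρ = ε / 8 / (K * (K * (48 * (l : ℝ) ^ 2 * N))) := ⟨_, rfl⟩
  have hρ0 : 0 < ρ := by rw [hρ]; positivity
  have hρ1 : (K : ℝ) * (K * (48 * (l : ℝ) ^ 2 * N * ρ)) ≤ ε / 8 := by
    rw [hρ]; exact le_of_eq (by field_simp)
  obtain ⟨Y, hY⟩ : ∃ Y : ℝ, Y = (ball μ ρ)⁻¹ ^ (4 * K * K * l ^ 2) := ⟨_, rfl⟩
  have hY0 : 0 < Y := by
    have := ball_pos μ hρ0
    rw [hY]; positivity
  obtain ⟨η2, hη2⟩ : ∃ η2 : ℝ, η2 = Real.sqrt (ε / (4 * (48 * (l : ℝ) ^ 2 * (4 * K * K)))) :=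
    ⟨_, rfl⟩
  have hη20 : 0 < η2 := by rw [hη2]; exact Real.sqrt_pos.mpr (by positivity)
  have hη22 : 48 * (l : ℝ) ^ 2 * η2 ^ 2 * (4 * K * K) = ε / 4 := by
    rw [hη2, Real.sq_sqrt (by positivity)]; field_simp
  obtain ⟨D, hD⟩ : ∃ D : ℝ, D = ((ball μ η2 ^ (4 * l ^ 2))⁻¹) ^ (4 * K * K) := ⟨_, rfl⟩
  have hb2 := ball_pos μ hη20
  have hD0 : 0 < D := by rw [hD]; positivity
  refine ⟨K, fun C0 hC0 => ?_⟩
  obtain ⟨β0, hβ0, hpe⟩ := poly_exp (4 * C0 ^ 2 * (D + K * K * Y)) (ε / 2) (by positivity)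
    (by linarith)
  refine ⟨β0, hβ0, fun β hβ m m' _ _ hm hm' hmC hmC' j hj => ?_⟩
  have hβp : 0 < β := lt_of_lt_of_le hβ0 hβ
  have hinv := inv_inv' μ
  have hZ := ZZ_pos (m := m) (m' := m') (l := l) μ k β
  have hKm : K < 2 * m := by omega
  have hKm' : K < 2 * m' := by omega
  obtain ⟨f, hf⟩ : ∃ f : ZMod (2 * m) → ZMod (2 * m') → ZMod N, f = fl j 0 0 := ⟨_, rfl⟩
  have hfs : (∑ t, ∑ x, f t x) = j := by rw [hf]; exact sum_fl j 0 0
  obtain ⟨P, hP⟩ : ∃ P : Finset (ZMod (2 * m) × ZMod (2 * m') × ℕ × ℕ × ZMod N),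
    P = Finset.univ ×ˢ (Finset.univ ×ˢ (Finset.Icc 1 K ×ˢ (Finset.Icc 1 K ×ˢ
      Finset.univ.erase (0 : ZMod N)))) := ⟨_, rfl⟩
  -- the pointwise bound
  have hpt : ∀ U : Cf N m m' l, Real.exp (-(β * AT k f U)) ≤
      (∑ s : ZMod (2 * m), ∑ r : ZMod (2 * m'), Real.exp (-(β * Em)) *
        Real.exp (-(β * (AT k f U - EB k K f s r U)))) +
      ∑ p ∈ P, Tm μ k P0 Q0 β ε Y f p U := by
    intro U
    have nn1 : ∀ (s : ZMod (2 * m)) (r : ZMod (2 * m')), 0 ≤ Real.exp (-(β * Em)) *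
        Real.exp (-(β * (AT k f U - EB k K f s r U))) := fun s r => by positivity
    have nn2 : ∀ p ∈ P, 0 ≤ Tm μ k P0 Q0 β ε Y f p U := fun p _ => Tm_nonneg μ hY0.le f p U
    rcases hcomb (2 * m) (2 * m') hKm.le hKm'.le (fun t x => cT k (f t x).val U t x)
      (fun t x => chT lab (f t x).val U t x) (fun t x => cT_nonneg hζ _ _ _ _)
      (fun t x ht => hgood _ _ _ _ (by rw [← cT_lift]; exact ht))
      (by rw [sum_chT, hfs]; exact hj) with ⟨s, r, hE⟩ | ⟨s, r, a, b, ha, hb, haK, hbK, hr, hq⟩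
    · have h1 : Real.exp (-(β * AT k f U)) ≤ Real.exp (-(β * Em)) *
          Real.exp (-(β * (AT k f U - EB k K f s r U))) := by
        rw [← Real.exp_add]
        refine Real.exp_le_exp.mpr ?_
        have h2 : Em ≤ EB k K f s r U := hE
        have h3 := mul_le_mul_of_nonneg_left h2 hβp.le
        linarith
      have h2 : Real.exp (-(β * Em)) * Real.exp (-(β * (AT k f U - EB k K f s r U))) ≤
          ∑ s : ZMod (2 * m), ∑ r : ZMod (2 * m'), Real.exp (-(β * Em)) *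
            Real.exp (-(β * (AT k f U - EB k K f s r U))) :=
        (Finset.single_le_sum (f := fun r : ZMod (2 * m') => Real.exp (-(β * Em)) *
          Real.exp (-(β * (AT k f U - EB k K f s r U)))) (fun r _ => nn1 s r)
          (Finset.mem_univ r)).trans
        (Finset.single_le_sum (f := fun s : ZMod (2 * m) => ∑ r : ZMod (2 * m'),
          Real.exp (-(β * Em)) * Real.exp (-(β * (AT k f U - EB k K f s r U))))
          (fun s _ => Finset.sum_nonneg fun r _ => nn1 s r) (Finset.mem_univ s))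
      have h3 := Finset.sum_nonneg nn2
      linarith
    · obtain ⟨q, hqe⟩ : ∃ q, q = ∑ t ∈ Finset.range a, ∑ x ∈ Finset.range b,
        chT lab (f (s + t) (r + x)).val U (s + t) (r + x) := ⟨_, rfl⟩
      have hq0 : q ≠ 0 := by rw [hqe]; exact hq
      have h1 := pt2 μ h hs hKm hKm' hβp.le hρ0 hη1 hρ1 hY f U s r ha hb haK hbK hr hqe.symm
      have hmem : (s, r, a, b, q) ∈ P := by
        rw [hP]
        simp only [Finset.mem_product, Finset.mem_univ, Finset.mem_Icc, Finset.mem_erase,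
          true_and, and_true]
        exact ⟨⟨ha, haK⟩, ⟨hb, hbK⟩, hq0⟩
      have h2 := Finset.single_le_sum nn2 hmem
      have h3 : 0 ≤ ∑ s : ZMod (2 * m), ∑ r : ZMod (2 * m'), Real.exp (-(β * Em)) *
            Real.exp (-(β * (AT k f U - EB k K f s r U))) :=
        Finset.sum_nonneg fun s _ => Finset.sum_nonneg fun r _ => nn1 s r
      linarith
  -- integration
  have hbd1 : ∀ (s : ZMod (2 * m)) (r : ZMod (2 * m')), Bd (fun U : Cf N m m' l =>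
      Real.exp (-(β * Em)) * Real.exp (-(β * (AT k f U - EB k K f s r U)))) := fun s r => by
    have h0 : Bd (fun U : Cf N m m' l => AT k f U - EB k K f s r U) :=
      Bd.of_continuous ((cont_AT _).sub (cont_EB _ _ _ _))
    exact (h0.smul β).neg.exp.smul _
  have hbdS : Bd (fun U : Cf N m m' l => ∑ s : ZMod (2 * m), ∑ r : ZMod (2 * m'),
      Real.exp (-(β * Em)) * Real.exp (-(β * (AT k f U - EB k K f s r U)))) :=
    Bd.sum _ fun s _ => Bd.sum _ fun r _ => hbd1 s r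
  have hbdT : Bd (fun U : Cf N m m' l => ∑ p ∈ P, Tm μ k P0 Q0 β ε Y f p U) :=
    Bd.sum _ fun p _ => bd_Tm μ β ε Y f p
  have hint : Zi μ (2 * m) (2 * m') l k j β ≤
      (∫ U : Cf N m m' l, ∑ s : ZMod (2 * m), ∑ r : ZMod (2 * m'),
      Real.exp (-(β * Em)) * Real.exp (-(β * (AT k f U - EB k K f s r U)))
        ∂(Measure.pi fun _ => μ)) +
      ∫ U : Cf N m m' l, ∑ p ∈ P, Tm μ k P0 Q0 β ε Y f p U ∂(Measure.pi fun _ => μ) := by
    rw [← integral_add hbdS.integrable hbdT.integrable]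
    unfold Zi
    rw [← hf]
    exact integral_mono (bd_AT f β).integrable (hbdS.add hbdT).integrable hpt
  -- the first part
  have e1 : ((ball μ η2 ^ (4 * l ^ 2))⁻¹ * Real.exp (β * (48 * (l : ℝ) ^ 2 * η2 ^ 2))) ^
      (4 * K * K) = D * Real.exp (β * (ε / 4)) := by
    rw [mul_pow, ← hD, ← Real.exp_nat_mul]
    congr 2
    push_cast
    rw [← hη22]
    ring
  have hcs : (Finset.univ : Finset (ZMod (2 * m))).card = 2 * m := by
    rw [Finset.card_univ, ZMod.card]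
  have hcr : (Finset.univ : Finset (ZMod (2 * m'))).card = 2 * m' := by
    rw [Finset.card_univ, ZMod.card]
  have part1 : (∫ U : Cf N m m' l, ∑ s : ZMod (2 * m), ∑ r : ZMod (2 * m'),
      Real.exp (-(β * Em)) * Real.exp (-(β * (AT k f U - EB k K f s r U)))
        ∂(Measure.pi fun _ => μ)) ≤ ((2 * m : ℕ) : ℝ) * ((2 * m' : ℕ) * (Real.exp (-(β * Em)) *
          (D * Real.exp (β * (ε / 4)) * ZZ μ m m' l k β))) := by
    rw [integral_finsetSum _ fun s _ => (Bd.sum _ fun r _ => hbd1 s r).integrable]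
    refine (Finset.sum_le_card_nsmul _ _ ((2 * m' : ℕ) * (Real.exp (-(β * Em)) *
      (D * Real.exp (β * (ε / 4)) * ZZ μ m m' l k β))) fun s _ => ?_).trans (le_of_eq ?_)
    · rw [integral_finsetSum _ fun r _ => (hbd1 s r).integrable]
      refine (Finset.sum_le_card_nsmul _ _ (Real.exp (-(β * Em)) *
        (D * Real.exp (β * (ε / 4)) * ZZ μ m m' l k β)) fun r _ => ?_).trans (le_of_eq ?_)
      · rw [integral_const_mul]
        refine mul_le_mul_of_nonneg_left ?_ (Real.exp_pos _).le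
        rw [← e1, hf]
        exact int_square hζ μ hβp.le hη20 hK hm hm' j s r
      · rw [hcr, nsmul_eq_mul]
    · rw [hcs, nsmul_eq_mul]
  -- the second part
  have part2 : (∫ U : Cf N m m' l, ∑ p ∈ P, Tm μ k P0 Q0 β ε Y f p U
      ∂(Measure.pi fun _ => μ)) = ((2 * m : ℕ) : ℝ) * ((2 * m' : ℕ) * (K * (K *
        ∑ q ∈ Finset.univ.erase (0 : ZMod N), Real.exp (-(β * (SF k P0 Q0 l q.val - ε / 4))) *
          (Y * Zi μ (2 * m) (2 * m') l k (j - q) β)))) := by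
    rw [integral_finsetSum _ fun p _ => (bd_Tm μ β ε Y f p).integrable]
    have h1 : ∀ p ∈ P, (∫ U : Cf N m m' l, Tm μ k P0 Q0 β ε Y f p U ∂(Measure.pi fun _ => μ)) =
        Real.exp (-(β * (SF k P0 Q0 l p.2.2.2.2.val - ε / 4))) *
          (Y * Zi μ (2 * m) (2 * m') l k (j - p.2.2.2.2) β) := by
      rintro ⟨s, r, a, b, q⟩ hp
      rw [hP] at hp
      simp only [Finset.mem_product, Finset.mem_univ, Finset.mem_Icc, Finset.mem_erase,
          true_and, and_true] at hp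
      obtain ⟨⟨ha, haK⟩, ⟨hb, hbK⟩, -⟩ := hp
      rw [int_Tm (hζ := hζ) μ β ε Y f s r ha hb (by omega) (by omega) q, hfs]
    rw [Finset.sum_congr rfl h1, hP, Finset.sum_product]
    simp only [Finset.sum_product, Finset.sum_const, hcs, hcr, nsmul_eq_mul, Nat.card_Icc,
      Nat.add_sub_cancel]
  rw [part2] at hint
  -- the constants
  obtain ⟨A, hA⟩ : ∃ A : ℝ, A = ((2 * m : ℕ) : ℝ) * (2 * m' : ℕ) := ⟨_, rfl⟩
  have hA0 : 0 ≤ A := by rw [hA]; positivity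
  have hmp : (0 : ℝ) ≤ m := Nat.cast_nonneg m
  have hmp' : (0 : ℝ) ≤ m' := Nat.cast_nonneg m'
  have hA1 : A ≤ 4 * C0 ^ 2 * β ^ 2 := by
    rw [hA]
    push_cast
    have : (m : ℝ) * m' ≤ (C0 * β) * (C0 * β) := mul_le_mul hmC hmC' hmp' (by positivity)
    linarith
  have hpeβ := hpe β hβ
  have hAD : A * D ≤ Real.exp (β * (ε / 2)) := by
    refine le_trans ?_ hpeβ
    have h1 : A * D ≤ 4 * C0 ^ 2 * β ^ 2 * D := mul_le_mul_of_nonneg_right hA1 hD0.le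
    have h2 : 0 ≤ 4 * C0 ^ 2 * (K * K * Y) * β ^ 2 := by positivity
    linarith
  have hAY : A * (K * K * Y) ≤ Real.exp (β * (ε / 2)) := by
    refine le_trans ?_ hpeβ
    have h1 : A * (K * K * Y) ≤ 4 * C0 ^ 2 * β ^ 2 * (K * K * Y) :=
      mul_le_mul_of_nonneg_right hA1 (by positivity)
    have h2 : 0 ≤ 4 * C0 ^ 2 * D * β ^ 2 := by positivity
    linarith
  have fin1 : ((2 * m : ℕ) : ℝ) * ((2 * m' : ℕ) * (Real.exp (-(β * Em)) *
      (D * Real.exp (β * (ε / 4)) * ZZ μ m m' l k β))) ≤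
      Real.exp (-(β * (Em - ε))) * ZZ μ m m' l k β := by
    have h1 : Real.exp (β * (ε / 2)) * (Real.exp (-(β * Em)) * Real.exp (β * (ε / 4))) ≤
        Real.exp (-(β * (Em - ε))) := by
      rw [← Real.exp_add, ← Real.exp_add]
      refine Real.exp_le_exp.mpr ?_
      have : 0 ≤ β * ε := by positivity
      linarith
    have h2 : A * D * (Real.exp (-(β * Em)) * Real.exp (β * (ε / 4))) ≤
        Real.exp (-(β * (Em - ε))) :=
      (mul_le_mul_of_nonneg_right hAD (by positivity)).trans h1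
    have h3 := mul_le_mul_of_nonneg_right h2 hZ.le
    refine le_trans (le_of_eq ?_) h3
    rw [hA]; ring
  have fin2 : ((2 * m : ℕ) : ℝ) * ((2 * m' : ℕ) * (K * (K *
        ∑ q ∈ Finset.univ.erase (0 : ZMod N), Real.exp (-(β * (SF k P0 Q0 l q.val - ε / 4))) *
          (Y * Zi μ (2 * m) (2 * m') l k (j - q) β)))) ≤
      ∑ q ∈ Finset.univ.erase (0 : ZMod N), Real.exp (-(β * (SF k P0 Q0 l q.val - ε))) *
        Zi μ (2 * m) (2 * m') l k (j - q) β := by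
    have h0 : ((2 * m : ℕ) : ℝ) * ((2 * m' : ℕ) * (K * (K *
        ∑ q ∈ Finset.univ.erase (0 : ZMod N), Real.exp (-(β * (SF k P0 Q0 l q.val - ε / 4))) *
          (Y * Zi μ (2 * m) (2 * m') l k (j - q) β)))) =
        ∑ q ∈ Finset.univ.erase (0 : ZMod N), (A * (K * K * Y)) *
          Real.exp (-(β * (SF k P0 Q0 l q.val - ε / 4))) *
          Zi μ (2 * m) (2 * m') l k (j - q) β := by
      rw [hA]
      simp only [Finset.mul_sum]
      exact Finset.sum_congr rfl fun q _ => by ring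
    rw [h0]
    refine Finset.sum_le_sum fun q _ => ?_
    have hZq : 0 ≤ Zi μ (2 * m) (2 * m') l k (j - q) β :=
      integral_nonneg fun U => (Real.exp_pos _).le
    refine mul_le_mul_of_nonneg_right ?_ hZq
    refine (mul_le_mul_of_nonneg_right hAY (Real.exp_pos _).le).trans ?_
    rw [← Real.exp_add]
    refine Real.exp_le_exp.mpr ?_
    have : 0 ≤ β * ε := by positivity
    linarith
  linarith

end rec

end

end Run7.h4.VS
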