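import Mathlib
import Pool.Agent.Run7.h4.VS.Lim2

/-!
# Subadditivity of the minimal action of a vortex
-/

open Matrix MeasureTheory
open Run7.h4.YM

namespace Run7.h4.VS

set_option linter.unusedSectionVars false
set_option linter.unusedVariables false

noncomputable section

variable {N l : ℕ} [NeZero N] [NeZero l] {k : ℕ} {hζ : IsPrimitiveRoot (om N k) N} {P0 Q0 : SU N}

theorem uext_in {a b : ℕ} {u : LC N l} {t x : ℕ} (ht : t < a) (hx : x < b) (m : ℕ) :
    cN k m (uext P0 Q0 a b u) t x = cN k m u t x := by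
  refine cN_local ?_ ?_ ?_ ?_ ?_ ?_ ?_ ?_
  · rw [uext_f, if_pos (by omega)]
  · rw [uext_f, if_pos (by omega)]
  · rw [uext_f, if_pos (by omega)]
  · rw [uext_f, if_pos (by omega)]
  · rw [uext_0, if_pos (by omega)]
  · rw [uext_0, if_pos (by omega)]
  · rw [uext_1, if_pos (by omega)]
  · rw [uext_1, if_pos (by omega)]

theorem uext_out (hs : Std N k hζ P0 Q0) {a b : ℕ} {u : LC N l} (hu : Framed P0 Q0 a b u)
    {t x : ℕ} (h : ¬ (t < a ∧ x < b)) : cN k 0 (uext P0 Q0 a b u) t x = 0 := by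
  refine cN_vac hs ?_ ?_ ?_ ?_ ?_ ?_ ?_ ?_
  · exact ext_vf hu (by omega)
  · exact ext_vf hu (by omega)
  · exact ext_vf hu (by omega)
  · exact ext_vf hu (by omega)
  · exact ext_v0 hu (by omega)
  · exact ext_v0 hu (by omega)
  · exact ext_v1 hu (by omega)
  · exact ext_v1 hu (by omega)

/-- the energy of the extension -/
theorem sum_uext (hs : Std N k hζ P0 Q0) {a b B : ℕ} (hB : b ≤ B) {u : LC N l}
    (hu : Framed P0 Q0 a b u) (g : ℕ → ℕ → ZMod N) (i : ℕ)
    (hg : ∀ t x, t < a → x < B → g t x = ((corner i t x : ℕ) : ZMod N)) (hb : 1 ≤ b) :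
    (∑ t ∈ Finset.range a, ∑ x ∈ Finset.range B, cN k (g t x).val (uext P0 Q0 a b u) t x) =
      EN k (corner i) a b u := by
  unfold EN
  refine Finset.sum_congr rfl fun t ht => ?_
  rw [Finset.mem_range] at ht
  rw [← Finset.sum_subset (Finset.range_mono hB) (fun x hx hx' => ?_)]
  · refine Finset.sum_congr rfl fun x hx => ?_
    rw [Finset.mem_range] at hx
    rw [uext_in ht hx]
    refine cN_congr hζ ?_ _ _ _
    rw [ZMod.natCast_val, ZMod.cast_id]
    exact hg t x ht (by omega)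
  · rw [Finset.mem_range] at hx hx'
    have h1 : g t x = 0 := by
      rw [hg t x ht hx]
      unfold corner
      rw [if_neg (by omega)]
      simp
    rw [h1, ZMod.val_zero]
    exact uext_out hs hu (by omega)

/-- two framed configurations side by side -/
def glue2 (P0 Q0 : SU N) (a b a' b' : ℕ) (u v : LC N l) : LC N l := fun i t x =>
  if t < a then uext P0 Q0 a b u i t x else uext P0 Q0 a' b' v i (t - a) x

theorem glue2_l {a b a' b' : ℕ} {u v : LC N l} {t : ℕ} (h : t < a) (i : Fin 4) (x : ℕ) :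
    glue2 P0 Q0 a b a' b' u v i t x = uext P0 Q0 a b u i t x := by
  unfold glue2; rw [if_pos h]

theorem glue2_r {a b a' b' : ℕ} {u v : LC N l} (t : ℕ) (i : Fin 4) (x : ℕ) :
    glue2 P0 Q0 a b a' b' u v i (a + t) x = uext P0 Q0 a' b' v i t x := by
  unfold glue2
  rw [if_neg (by omega), Nat.add_sub_cancel_left]

theorem glue2_lf {a b a' b' : ℕ} {u v : LC N l} {t : ℕ} (h : t < a) (x : ℕ) :
    fsN (glue2 P0 Q0 a b a' b' u v) t x = fsN (uext P0 Q0 a b u) t x := by
  unfold fsN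
  rw [glue2_l h, glue2_l h]

theorem glue2_rf {a b a' b' : ℕ} {u v : LC N l} (t : ℕ) (x : ℕ) :
    fsN (glue2 P0 Q0 a b a' b' u v) (a + t) x = fsN (uext P0 Q0 a' b' v) t x := by
  unfold fsN
  rw [glue2_r, glue2_r]

theorem SF_sub (hs : Std N k hζ P0 Q0) (i j p : ℕ) (hp : (p : ZMod N) = i + j) :
    SF k P0 Q0 l p ≤ SF k P0 Q0 l i + SF k P0 Q0 l j := by
  refine le_of_forall_pos_le_add fun ε hε => ?_
  obtain ⟨S, hS⟩ : ∃ S, S = SF k P0 Q0 l i := ⟨_, rfl⟩
  obtain ⟨T, hT⟩ : ∃ T, T = SF k P0 Q0 l j := ⟨_, rfl⟩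
  have hlt : SF k P0 Q0 l i < S + ε / 2 := by rw [← hS]; linarith
  have hlt' : SF k P0 Q0 l j < T + ε / 2 := by rw [← hT]; linarith
  unfold SF at hlt hlt'
  obtain ⟨E, ⟨a, b, u, ha, hb, hu, rfl⟩, hE⟩ := exists_lt_of_csInf_lt
    (SF_nonempty (k := k) (l := l) P0 Q0 i) hlt
  obtain ⟨E', ⟨a', b', v, ha', hb', hv, rfl⟩, hE'⟩ := exists_lt_of_csInf_lt
    (SF_nonempty (k := k) (l := l) P0 Q0 j) hlt'
  obtain ⟨w, hw⟩ : ∃ w, w = glue2 P0 Q0 a b a' b' u v := ⟨_, rfl⟩
  obtain ⟨B, hB⟩ : ∃ B, B = max b b' := ⟨_, rfl⟩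
  have hbB : b ≤ B := by rw [hB]; exact le_max_left _ _
  have hbB' : b' ≤ B := by rw [hB]; exact le_max_right _ _
  -- the vacuum between
  have vf : ∀ t x, (t < a → ¬ (0 < t ∧ t < a ∧ 0 < x ∧ x < b)) →
      (∀ s, t = a + s → ¬ (0 < s ∧ s < a' ∧ 0 < x ∧ x < b')) → fsN w t x = vacF P0 Q0 := by
    intro t x h1 h2
    rw [hw]
    rcases Nat.lt_or_ge t a with h | h
    · rw [glue2_lf h]; exact ext_vf hu (h1 h)
    · obtain ⟨s, rfl⟩ := Nat.exists_eq_add_of_le h
      rw [glue2_rf]; exact ext_vf hv (h2 s rfl)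
  have hfr : Framed P0 Q0 (a + a') B w := by
    refine ⟨fun t x hb => vf t x ?_ ?_, fun t ht y => ?_, fun x hx y => ?_⟩
    · unfold bdy at hb; omega
    · intro s hs'; unfold bdy at hb; omega
    · rcases Nat.lt_or_ge t a with h | h
      · rw [hw, glue2_l h, glue2_l h, ext_v0 hu (by omega), ext_v0 hu (by omega)]
        exact ⟨rfl, rfl⟩
      · obtain ⟨s, rfl⟩ := Nat.exists_eq_add_of_le h
        rw [hw, glue2_r, glue2_r, ext_v0 hv (by omega), ext_v0 hv (by omega)]
        exact ⟨rfl, rfl⟩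
    · rw [hw, glue2_l (by omega : 0 < a), glue2_r, ext_v1 hu (by omega), ext_v1 hv (by omega)]
      exact ⟨rfl, rfl⟩
  -- the flux distribution
  obtain ⟨f, hf⟩ : ∃ f : ℕ → ℕ → ZMod N, f = fun t x =>
    if t < a then ((corner i t x : ℕ) : ZMod N) else ((corner j (t - a) x : ℕ) : ZMod N) := ⟨_, rfl⟩
  have hf1 : ∀ t x, t < a → f t x = ((corner i t x : ℕ) : ZMod N) := fun t x h => by
    rw [hf]; simp only; rw [if_pos h]
  have hf2 : ∀ t x, f (a + t) x = ((corner j t x : ℕ) : ZMod N) := fun t x => by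
    rw [hf]; simp only; rw [if_neg (by omega), Nat.add_sub_cancel_left]
  have hsum : (∑ t ∈ Finset.range (a + a'), ∑ x ∈ Finset.range B, f t x) = (p : ZMod N) := by
    rw [Finset.sum_range_add, hp]
    congr 1
    · rw [← sum_corner (N := N) ha (hb.trans hbB) i]
      refine Finset.sum_congr rfl fun t ht => Finset.sum_congr rfl fun x _ => ?_
      exact hf1 t x (Finset.mem_range.mp ht)
    · rw [← sum_corner (N := N) ha' (hb'.trans hbB') j]
      refine Finset.sum_congr rfl fun t ht => Finset.sum_congr rfl fun x _ => hf2 t x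
  obtain ⟨w', h1, h2⟩ := move (N := N) (l := l) (k := k) hζ (a + a') B (by omega)
    (hb.trans hbB) f w p hsum
  have h3 := SF_le (N := N) (l := l) (k := k) hζ (i := p) (by omega) (hb.trans hbB) (hfr.agree h1)
  rw [h2, Finset.sum_range_add] at h3
  have p1 : (∑ t ∈ Finset.range a, ∑ x ∈ Finset.range B, cN k (f t x).val w t x) =
      EN k (corner i) a b u := by
    rw [← sum_uext hs hbB hu f i (fun t x ht _ => hf1 t x ht) hb]
    refine Finset.sum_congr rfl fun t ht => Finset.sum_congr rfl fun x _ => ?_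
    rw [Finset.mem_range] at ht
    have key : ∀ x', fsN w (t + 1) x' = fsN (uext P0 Q0 a b u) (t + 1) x' := by
      intro x'
      rcases Nat.lt_or_ge (t + 1) a with h | h
      · rw [hw, glue2_lf h]
      · have e : t + 1 = a + 0 := by omega
        rw [hw, e, glue2_rf, ext_vf hv (by omega)]
        exact (ext_vf hu (by omega)).symm
    have key1 : w 1 (t + 1) x = uext P0 Q0 a b u 1 (t + 1) x := by
      rcases Nat.lt_or_ge (t + 1) a with h | h
      · rw [hw, glue2_l h]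
      · have e : t + 1 = a + 0 := by omega
        rw [hw, e, glue2_r, ext_v1 hv (by omega)]
        exact (ext_v1 hu (by omega)).symm
    refine cN_local ?_ (key x) ?_ (key (x + 1)) ?_ ?_ ?_ key1
    · rw [hw, glue2_lf ht]
    · rw [hw, glue2_lf ht]
    · rw [hw, glue2_l ht]
    · rw [hw, glue2_l ht]
    · rw [hw, glue2_l ht]
  have p2 : (∑ t ∈ Finset.range a', ∑ x ∈ Finset.range B, cN k (f (a + t) x).val w (a + t) x) =
      EN k (corner j) a' b' v := by
    rw [← sum_uext hs hbB' hv (fun t x => f (a + t) x) j (fun t x _ _ => hf2 t x) hb']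
    refine Finset.sum_congr rfl fun t ht => Finset.sum_congr rfl fun x _ => ?_
    have e : a + t + 1 = a + (t + 1) := by ring
    refine cN_local ?_ ?_ ?_ ?_ ?_ ?_ ?_ ?_
    · rw [hw, glue2_rf]
    · rw [hw, e, glue2_rf]
    · rw [hw, glue2_rf]
    · rw [hw, e, glue2_rf]
    · rw [hw, glue2_r]
    · rw [hw, glue2_r]
    · rw [hw, glue2_r]
    · rw [hw, e, glue2_r]
  rw [p1, p2] at h3
  linarith

end

end Run7.h4.VS
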