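import Mathlib
import Pool.Agent.Run7.h4.VS.Rec
import Pool.Agent.Run7.h4.VS.Sub
import Pool.Agent.Run7.h4.VS.UpV
import Pool.Agent.Run7.h4.VS.Bounds

/-!
# The sharp upper bound for every flux
-/

open MeasureTheory Matrix Filter Topology
open Run7.h4.YM

namespace Run7.h4.VS

set_option linter.unusedSectionVars false
set_option linter.unusedVariables false

noncomputable section

section

variable {N l : ℕ} [NeZero N] [NeZero l] {k : ℕ} {hζ : IsPrimitiveRoot (om N k) N} {P0 Q0 : SU N}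
variable {F : FC N l → Fib l → SU N} {lab : FC N l → (Fib l → SU N) → FC N l → ZMod N} {C : ℝ}
variable [MeasurableSpace (SU N)] [BorelSpace (SU N)] (μ : Measure (SU N)) [IsProbabilityMeasure μ]
  [μ.IsHaarMeasure]

theorem Zi_zero (m m' : ℕ) [NeZero m] [NeZero m'] (β : ℝ) :
    Zi μ (2 * m) (2 * m') l k 0 β = ZZ μ m m' l k β := by
  unfold Zi ZZ II
  have e : (fl (0 : ZMod N) (0 : ZMod (2 * m)) (0 : ZMod (2 * m'))) = fun _ _ => 0 := by
    funext t x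
    unfold fl
    simp
  simp only [e, AT_zero, one_mul]

theorem SF_val_pos {T : ℝ} (hTS : ∀ i : ℕ, ¬ N ∣ i → T ≤ SF k P0 Q0 l i) {q : ZMod N}
    (hq : q ≠ 0) : T ≤ SF k P0 Q0 l q.val := by
  refine hTS _ fun h => hq ?_
  rw [← ZMod.natCast_eq_zero_iff, ZMod.natCast_val, ZMod.cast_id] at h
  exact h

theorem upJ0 (hKEY : StKEY) (hCOMB : StCOMB) (h : Fra hζ P0 Q0 F lab C)
    (hs : Std N k hζ P0 Q0) {T : ℝ} (hT : 0 < T) (hTS : ∀ i : ℕ, ¬ N ∣ i → T ≤ SF k P0 Q0 l i)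
    (r : ℕ) : ∀ ε : ℝ, 0 < ε → ∃ M : ℕ, ∀ C0 : ℝ, 0 < C0 → ∃ β0 : ℝ, 0 < β0 ∧ ∀ β : ℝ, β0 ≤ β →
    ∀ (m m' : ℕ) [NeZero m] [NeZero m'], M ≤ m → M ≤ m' → (m : ℝ) ≤ C0 * β → (m' : ℝ) ≤ C0 * β →
    ∀ j : ZMod N, j ≠ 0 → Zi μ (2 * m) (2 * m') l k j β ≤
      Real.exp (-(β * (min (SF k P0 Q0 l j.val) ((r + 1) * T) - ε))) * ZZ μ m m' l k β := by
  induction r with
  | zero =>
    intro ε hε
    obtain ⟨M, hM⟩ := upperU hKEY hCOMB N k l hζ P0 Q0 hs μ 1 T hT (fun i hi => by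
      rw [one_mul] at hi; exact hTS i hi) ε hε
    refine ⟨M, fun C0 hC0 => ?_⟩
    obtain ⟨β0, hβ0, hh⟩ := hM C0 hC0
    refine ⟨β0, hβ0, fun β hβ m m' _ _ hm hm' hC hC' j hj => ?_⟩
    have hinv := inv_inv' μ
    have hZ := ZZ_pos (m := m) (m' := m') (l := l) μ k β
    have hβp : 0 < β := lt_of_lt_of_le hβ0 hβ
    refine (hh β hβ m m' hm hm' hC hC' j (by rw [Nat.cast_one, one_mul]; exact hj)).trans ?_
    refine mul_le_mul_of_nonneg_right (Real.exp_le_exp.mpr ?_) hZ.le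
    refine neg_le_neg (mul_le_mul_of_nonneg_left ?_ hβp.le)
    have := min_le_right (SF k P0 Q0 l j.val) (((0 : ℕ) + 1 : ℝ) * T)
    push_cast at this ⊢
    linarith
  | succ r ih =>
    intro ε hε
    have hr : (0 : ℝ) < (r + 1 + 1) * T := by positivity
    obtain ⟨M1, hM1⟩ := recU μ hCOMB h hs (ε := ε / 4) (Em := (r + 1 + 1) * T) (by linarith) hr
    obtain ⟨M2, hM2⟩ := ih (ε / 4) (by linarith)
    refine ⟨max M1 M2, fun C0 hC0 => ?_⟩
    obtain ⟨b1, hb1, h1⟩ := hM1 C0 hC0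
    obtain ⟨b2, hb2, h2⟩ := hM2 C0 hC0
    obtain ⟨b3, hb3⟩ : ∃ b3 : ℝ, b3 = 2 * (N + 1) / ε := ⟨_, rfl⟩
    refine ⟨max b1 (max b2 b3), lt_max_of_lt_left hb1, fun β hβ m m' _ _ hm hm' hC hC' j hj => ?_⟩
    have hβ1 : b1 ≤ β := (le_max_left _ _).trans hβ
    have hβ2 : b2 ≤ β := ((le_max_left _ _).trans (le_max_right _ _)).trans hβ
    have hβ3 : b3 ≤ β := ((le_max_right _ _).trans (le_max_right _ _)).trans hβ
    have hβp : 0 < β := lt_of_lt_of_le hb1 hβ1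
    have hinv := inv_inv' μ
    have hZ := ZZ_pos (m := m) (m' := m') (l := l) μ k β
    have g1 := h1 β hβ1 m m' ((le_max_left _ _).trans hm) ((le_max_left _ _).trans hm') hC hC' j hj
    have g2 := h2 β hβ2 m m' ((le_max_right _ _).trans hm) ((le_max_right _ _).trans hm') hC hC'
    obtain ⟨X, hX⟩ : ∃ X : ℝ, X = min (SF k P0 Q0 l j.val) ((((r + 1 : ℕ) : ℝ) + 1) * T) :=
      ⟨_, rfl⟩
    have hX1 : X ≤ SF k P0 Q0 l j.val := by rw [hX]; exact min_le_left _ _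
    have hX2 : X ≤ (r + 1 + 1) * T := by
      rw [hX]; refine (min_le_right _ _).trans (le_of_eq ?_); push_cast; ring
    rw [← hX]
    -- every term
    have hterm : ∀ q ∈ Finset.univ.erase (0 : ZMod N),
        Real.exp (-(β * (SF k P0 Q0 l q.val - ε / 4))) * Zi μ (2 * m) (2 * m') l k (j - q) β ≤
          Real.exp (-(β * (X - ε / 2))) * ZZ μ m m' l k β := by
      intro q hq
      have hq0 : q ≠ 0 := Finset.ne_of_mem_erase hq
      by_cases hqj : q = j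
      · subst hqj
        rw [sub_self, Zi_zero]
        refine mul_le_mul_of_nonneg_right (Real.exp_le_exp.mpr ?_) hZ.le
        refine neg_le_neg (mul_le_mul_of_nonneg_left ?_ hβp.le)
        linarith
      · have hne : j - q ≠ 0 := sub_ne_zero.mpr (Ne.symm hqj)
        have g3 := g2 (j - q) hne
        have e0 := Real.exp_pos (-(β * (SF k P0 Q0 l q.val - ε / 4)))
        refine (mul_le_mul_of_nonneg_left g3 e0.le).trans ?_
        rw [← mul_assoc, ← Real.exp_add]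
        refine mul_le_mul_of_nonneg_right (Real.exp_le_exp.mpr ?_) hZ.le
        have hsub : SF k P0 Q0 l j.val ≤ SF k P0 Q0 l q.val + SF k P0 Q0 l (j - q).val := by
          refine SF_sub hs _ _ _ ?_
          simp only [ZMod.natCast_val, ZMod.cast_id]
          ring
        have hTq := SF_val_pos hTS hq0
        have hmin : X ≤ SF k P0 Q0 l q.val +
            min (SF k P0 Q0 l (j - q).val) (((r : ℕ) + 1 : ℝ) * T) := by
          rcases min_choice (SF k P0 Q0 l (j - q).val) (((r : ℕ) + 1 : ℝ) * T) with h5 | h5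
          · rw [h5]; linarith
          · rw [h5]; linarith
        have h6 := mul_le_mul_of_nonneg_left hmin hβp.le
        nlinarith
    have hsum := Finset.sum_le_sum hterm
    rw [Finset.sum_const, nsmul_eq_mul] at hsum
    have hcard : ((Finset.univ.erase (0 : ZMod N)).card : ℝ) ≤ N := by
      have : (Finset.univ.erase (0 : ZMod N)).card ≤ N := by
        refine (Finset.card_le_univ _).trans (le_of_eq ?_)
        exact ZMod.card N
      exact_mod_cast this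
    have hlast : Real.exp (-(β * ((r + 1 + 1) * T - ε / 4))) * ZZ μ m m' l k β ≤
        Real.exp (-(β * (X - ε / 2))) * ZZ μ m m' l k β := by
      refine mul_le_mul_of_nonneg_right (Real.exp_le_exp.mpr ?_) hZ.le
      refine neg_le_neg (mul_le_mul_of_nonneg_left ?_ hβp.le)
      linarith
    have hY : 0 ≤ Real.exp (-(β * (X - ε / 2))) * ZZ μ m m' l k β := by positivity
    have htot : Zi μ (2 * m) (2 * m') l k j β ≤
        (N + 1) * (Real.exp (-(β * (X - ε / 2))) * ZZ μ m m' l k β) := by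
      have := mul_le_mul_of_nonneg_right hcard hY
      linarith
    refine htot.trans ?_
    have hN1 : ((N : ℝ) + 1) ≤ Real.exp (β * (ε / 2)) := by
      have h7 : (N : ℝ) + 1 ≤ β * (ε / 2) := by
        rw [hb3, div_le_iff₀ hε] at hβ3
        linarith
      have h8 := Real.add_one_le_exp (β * (ε / 2))
      linarith
    have h9 := mul_le_mul_of_nonneg_right hN1 hY
    refine h9.trans (le_of_eq ?_)
    rw [← mul_assoc, ← Real.exp_add]
    congr 2
    ring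

/-- **The sharp upper bound for every flux.** -/
theorem upJ (hKEY : StKEY) (hCOMB : StCOMB) (h : Fra hζ P0 Q0 F lab C)
    (hs : Std N k hζ P0 Q0) (ε : ℝ) (hε : 0 < ε) :
    ∃ M : ℕ, ∀ C0 : ℝ, 0 < C0 → ∃ β0 : ℝ, 0 < β0 ∧ ∀ β : ℝ, β0 ≤ β →
    ∀ (m m' : ℕ) [NeZero m] [NeZero m'], M ≤ m → M ≤ m' → (m : ℝ) ≤ C0 * β → (m' : ℝ) ≤ C0 * β →
    ∀ j : ZMod N, j ≠ 0 → Zi μ (2 * m) (2 * m') l k j β ≤
      Real.exp (-(β * (SF k P0 Q0 l j.val - ε))) * ZZ μ m m' l k β := by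
  obtain ⟨δ0, hδ0, hgood⟩ := h.good
  have hTS : ∀ i : ℕ, ¬ N ∣ i → δ0 ≤ SF k P0 Q0 l i := fun i hi => SF_pos hζ hδ0 hgood hi
  obtain ⟨r, hr⟩ : ∃ r : ℕ, ∀ j : ZMod N, SF k P0 Q0 l j.val ≤ (r + 1) * δ0 := by
    have h1 : ∃ B : ℝ, ∀ j : ZMod N, SF k P0 Q0 l j.val ≤ B := by
      obtain ⟨B, hB⟩ := (Set.finite_range fun j : ZMod N => SF k P0 Q0 l j.val).bddAbove
      exact ⟨B, fun j => hB ⟨j, rfl⟩⟩
    obtain ⟨B, hB⟩ := h1
    obtain ⟨r, hr⟩ := exists_nat_ge (B / δ0)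
    refine ⟨r, fun j => (hB j).trans ?_⟩
    rw [div_le_iff₀ hδ0] at hr
    nlinarith
  obtain ⟨M, hM⟩ := upJ0 μ hKEY hCOMB h hs hδ0 hTS r ε hε
  refine ⟨M, fun C0 hC0 => ?_⟩
  obtain ⟨β0, hβ0, hh⟩ := hM C0 hC0
  refine ⟨β0, hβ0, fun β hβ m m' _ _ hm hm' hC hC' j hj => ?_⟩
  have h1 := hh β hβ m m' hm hm' hC hC' j hj
  rwa [min_eq_left (hr j)] at h1

end

/-- both sharp bounds for every flux, in terms of the final definitions; subadditivity -/
structure BndJ (N l k : ℕ) [NeZero N] [NeZero l] [MeasurableSpace (SU N)] (μ : Measure (SU N))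
    (S : ℕ → ℝ) : Prop extends Bnd N l k μ S where
  sub : ∀ i j p : ℕ, (p : ZMod N) = i + j → S p ≤ S i + S j
  upj : ∀ ε : ℝ, 0 < ε → ∃ M : ℕ,
    ∀ C0 : ℝ, 0 < C0 → ∃ β0 : ℝ, 0 < β0 ∧ ∀ β : ℝ, β0 ≤ β → ∀ (m m' : ℕ) [NeZero m] [NeZero m'],
      M ≤ m → M ≤ m' → (m : ℝ) ≤ C0 * β → (m' : ℝ) ≤ C0 * β → ∀ j : ℕ, ¬ N ∣ j →
      Zf (2 * m) (2 * m') l μ k j β ≤ Real.exp (-(β * (S j - ε))) * Zf (2 * m) (2 * m') l μ k 0 β

theorem boundsJ (hFR : StFR) (hLK : StLK) (hCOMB : StCOMB) (hINS : StINS) (N l k : ℕ) [NeZero N]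
    [NeZero l] (hk : Nat.Coprime k N) [MeasurableSpace (SU N)] [BorelSpace (SU N)]
    (μ : Measure (SU N)) [IsProbabilityMeasure μ] [μ.IsHaarMeasure] : ∃ S : ℕ → ℝ,
    BndJ N l k μ S := by
  have hζ := om_prim (N := N) hk
  obtain ⟨P0, Q0, hs⟩ := exists_std hζ
  obtain ⟨F, lab, C, hfra⟩ := exists_fra (l := l) hζ hFR hLK hs
  have hKEY := key_of hFR hLK
  choose ix hix using fun j => exists_flux hζ j
  have hrel : ∀ j, (k : ZMod N) * (ix j : ℕ) = (j : ℕ) := fun j => flux_rel (hix j)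
  have hku : IsUnit (k : ZMod N) := (ZMod.isUnit_iff_coprime k N).mpr hk
  obtain ⟨S, hS⟩ := bounds hFR hLK hCOMB hINS N l k hk μ
  have hSF : ∀ j, S j = SF k P0 Q0 l (ix j) := by
    intro j
    refine tendsto_nhds_unique (hS.lim j) ?_
    have h1 := hfra.lim hs (ix j)
    refine h1.congr fun p => ?_
    unfold Sm
    congr 1
    ext E
    simp only [Set.mem_range]
    constructor
    · rintro ⟨U, rfl⟩
      exact ⟨U, action2_AT hζ (hix j) U⟩
    · rintro ⟨U, rfl⟩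
      exact ⟨U, (action2_AT hζ (hix j) U).symm⟩
  refine ⟨S, { toBnd := hS, sub := fun i j p hp => ?_, upj := fun ε hε => ?_ }⟩
  · rw [hSF, hSF, hSF]
    refine SF_sub hs _ _ _ ?_
    rw [← hrel i, ← hrel j, ← hrel p, ← mul_add] at hp
    exact hku.mul_left_cancel hp
  · obtain ⟨M, hM⟩ := upJ μ hKEY hCOMB hfra hs ε hε
    refine ⟨M, fun C0 hC0 => ?_⟩
    obtain ⟨β0, hβ0, h⟩ := hM C0 hC0
    refine ⟨β0, hβ0, fun β hβ m m' _ _ hm hm' hC hC' j hj => ?_⟩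
    have hne : (ix j : ZMod N) ≠ 0 := by
      intro h0
      apply hj
      rw [← ZMod.natCast_eq_zero_iff, ← hrel j, h0, mul_zero]
    have h1 := h β hβ m m' hm hm' hC hC' (ix j : ZMod N) hne
    rw [Zf_zero μ m m' hζ, Zf_eq μ hζ (hix j), hSF j]
    have e : SF k P0 Q0 l (ix j : ZMod N).val = SF k P0 Q0 l (ix j) :=
      SF_congr hζ P0 Q0 (by rw [ZMod.natCast_val, ZMod.cast_id])
    rw [e] at h1
    exact h1

end

end Run7.h4.VS
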