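import Mathlib
import Pool.Agent.Run7.h897.ST.PD

/-!
# Project C, the numerical part I: the overlap of the loop with the flux sector
-/

open Filter Topology
open Pool.Agent.Run7.h897.PC

namespace Run7.h4.VS

noncomputable section

/-- the exponent of the main term -/
def mn (D : PD) (q i j : ℕ) : ℝ := (q : ℝ) * (i * D.φ 0 + j * D.φ (D.s 0))

theorem exp_le_lin {z : ℝ} (h0 : 0 ≤ z) (h1 : z ≤ 1) : Real.exp z ≤ 1 + 2 * z := by
  have := Real.abs_exp_sub_one_sub_id_le (x := z) (by rw [abs_of_nonneg h0]; exact h1)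
  rw [abs_le] at this
  nlinarith [this.2]

theorem f3_aux {x y : ℝ} (hx1 : x ≤ 1) (hy0 : 0 ≤ y) (hxy : y ≤ x / 16) :
    x / 2 ≤ x * (1 - y) - 2 * y := by
  have h1 : x * y ≤ y := mul_le_of_le_one_left hy0 hx1
  have h2 : x * (1 - y) = x - x * y := by ring
  linarith

theorem w1_aux {i j q e0 e1 E y p0 p1 : ℝ} (hi : 0 ≤ i) (hj : 0 ≤ j) (hq : 0 ≤ q) (hE : 0 ≤ E)
    (b0 : e0 ≤ q * p0 + E) (b1 : e1 ≤ q * p1 + E) (h : (i + q) * E + (j + q) * E ≤ y) :
    i * e0 + j * e1 - y ≤ q * (i * p0 + j * p1) := by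
  have c1 := mul_le_mul_of_nonneg_left b0 hi
  have c2 := mul_le_mul_of_nonneg_left b1 hj
  have c3 : 0 ≤ q * E := by positivity
  linarith

/-- extension to larger distances -/
theorem ext_A {D : PD} {N A0 : ℕ} {m : ℝ} (h : D.Ok N A0 m) (hN : 1 ≤ N) (hA : 1 ≤ A0)
    {q i0 j0 : ℕ} (hq : A0 ≤ q) (hi : q ≤ i0) (hj : q ≤ j0) {x y : ℝ} (hx1 : x ≤ 1)
    (hxy : y ≤ x / 16) (hy : ((i0 : ℝ) + j0 + 2 * q) * Real.exp (-(2 * m * q)) ≤ y)
    (h0 : x * Real.exp (mn D q i0 j0) ≤ D.A 0 q i0 j0) (i j : ℕ) (hii : i0 ≤ i) (hjj : j0 ≤ j) :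
    x / 2 * Real.exp (mn D q i j) ≤ D.A 0 q i j := by
  have hs := h.sN 0 (by omega)
  have h00 : 0 < N := by omega
  obtain ⟨E, hE⟩ : ∃ E, E = Real.exp (-(2 * m * q)) := ⟨_, rfl⟩
  have hE0 : 0 < E := by rw [hE]; exact Real.exp_pos _
  obtain ⟨e0, he0⟩ : ∃ e, e = D.e 0 q := ⟨_, rfl⟩
  obtain ⟨e1, he1⟩ : ∃ e, e = D.e (D.s 0) q := ⟨_, rfl⟩
  have a0 := h.elo 0 q h00 hq
  have b0 := h.eup 0 q h00 hq
  have a1 := h.elo (D.s 0) q hs hq
  have b1 := h.eup (D.s 0) q hs hq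
  have hi0r : (0 : ℝ) ≤ i0 := Nat.cast_nonneg _
  have hj0r : (0 : ℝ) ≤ j0 := Nat.cast_nonneg _
  have hqr : (0 : ℝ) ≤ q := Nat.cast_nonneg _
  rw [← hE] at b0 b1 hy
  rw [← he0] at a0 b0
  rw [← he1] at a1 b1
  have hy0 : 0 ≤ y := le_trans (by positivity) hy
  have hx0 : 0 ≤ x := by linarith
  have hy1 : y ≤ 1 := by linarith
  have hiE : ((i0 : ℝ) + q) * E + ((j0 : ℝ) + q) * E ≤ y := by
    have e : ((i0 : ℝ) + q) * E + ((j0 : ℝ) + q) * E = ((i0 : ℝ) + j0 + 2 * q) * E := by ring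
    rw [e]; exact hy
  have hp1 : 0 ≤ ((i0 : ℝ) + q) * E := by positivity
  have hp2 : 0 ≤ ((j0 : ℝ) + q) * E := by positivity
  -- the partition functions
  have hZ : ∀ (c p : ℕ), c < N → q ≤ p → ((p : ℝ) + q) * E ≤ 1 → ∀ e, (q : ℝ) * D.φ c ≤ e →
      D.Z c p q ≤ Real.exp (p * e) * (1 + 2 * (((p : ℝ) + q) * E)) := by
    intro c p hc hp hsm e he
    have hpr : (0 : ℝ) ≤ p := Nat.cast_nonneg _
    have h1 := h.Zup c p q hc (hq.trans hp) hq
    rw [Nat.min_eq_right hp, ← hE] at h1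
    have h2 := h.Zpos c p q hc (hq.trans hp) hq
    have h3 : D.Z c p q ≤ Real.exp (p * e + ((p : ℝ) + q) * E) := by
      rw [← Real.log_le_iff_le_exp h2]
      have : (p : ℝ) * (q * D.φ c) ≤ p * e := mul_le_mul_of_nonneg_left he hpr
      linarith
    rw [Real.exp_add] at h3
    exact h3.trans (mul_le_mul_of_nonneg_left (exp_le_lin (by positivity) hsm) (Real.exp_pos _).le)
  have hZ1 := hZ (D.s 0) j0 hs hj (by linarith) e1 a1
  have hZ0 := hZ 0 i0 h00 hi (by linarith) e0 a0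
  have u1 := h.up1 q i0 j0 (j - j0) hq (by omega) (by omega)
  have u2 := h.up2 q i0 j (i - i0) hq (by omega) (by omega)
  rw [Nat.add_sub_cancel' hjj, ← he0, ← he1] at u1
  rw [Nat.add_sub_cancel' hii, ← he0, ← he1] at u2
  obtain ⟨t, ht⟩ : ∃ t : ℝ, t = ((j - j0 : ℕ) : ℝ) := ⟨_, rfl⟩
  obtain ⟨t', ht'⟩ : ∃ t' : ℝ, t' = ((i - i0 : ℕ) : ℝ) := ⟨_, rfl⟩
  have hjt : (j : ℝ) = j0 + t := by rw [ht, Nat.cast_sub hjj]; ring
  have hit : (i : ℝ) = i0 + t' := by rw [ht', Nat.cast_sub hii]; ring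
  rw [← ht] at u1
  rw [← ht'] at u2
  -- first step
  have v1 : Real.exp (t * e1) * D.A 0 q i0 j0 -
      Real.exp (i0 * e0 + j * e1) * (2 * (((j0 : ℝ) + q) * E)) ≤ D.A 0 q i0 j := by
    have w1 : D.A 0 q i0 j0 - Real.exp (i0 * e0) * (Real.exp (j0 * e1) *
        (2 * (((j0 : ℝ) + q) * E))) ≤ D.A 0 q i0 j * Real.exp (-(t * e1)) := by
      refine le_trans ?_ u1
      have := mul_le_mul_of_nonneg_left (show D.Z (D.s 0) j0 q - Real.exp (j0 * e1) ≤
        Real.exp (j0 * e1) * (2 * (((j0 : ℝ) + q) * E)) by linarith) (Real.exp_pos (i0 * e0)).le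
      linarith
    have w2 := mul_le_mul_of_nonneg_left w1 (Real.exp_pos (t * e1)).le
    have w3 : Real.exp (t * e1) * (D.A 0 q i0 j * Real.exp (-(t * e1))) = D.A 0 q i0 j := by
      have : Real.exp (t * e1) * Real.exp (-(t * e1)) = 1 := by
        rw [← Real.exp_add, add_neg_cancel, Real.exp_zero]
      calc Real.exp (t * e1) * (D.A 0 q i0 j * Real.exp (-(t * e1)))
          = D.A 0 q i0 j * (Real.exp (t * e1) * Real.exp (-(t * e1))) := by ring
        _ = _ := by rw [this, mul_one]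
    have w4 : Real.exp (i0 * e0 + j * e1) = Real.exp (t * e1) * (Real.exp (i0 * e0) *
        Real.exp (j0 * e1)) := by
      rw [← Real.exp_add, ← Real.exp_add]; congr 1; rw [hjt]; ring
    rw [w3] at w2
    rw [w4]
    linarith
  have v2 : Real.exp (t' * e0) * D.A 0 q i0 j -
      Real.exp (i * e0 + j * e1) * (2 * (((i0 : ℝ) + q) * E)) ≤ D.A 0 q i j := by
    have w1 : D.A 0 q i0 j - Real.exp (j * e1) * (Real.exp (i0 * e0) *
        (2 * (((i0 : ℝ) + q) * E))) ≤ D.A 0 q i j * Real.exp (-(t' * e0)) := by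
      refine le_trans ?_ u2
      have := mul_le_mul_of_nonneg_left (show D.Z 0 i0 q - Real.exp (i0 * e0) ≤
        Real.exp (i0 * e0) * (2 * (((i0 : ℝ) + q) * E)) by linarith) (Real.exp_pos (j * e1)).le
      linarith
    have w2 := mul_le_mul_of_nonneg_left w1 (Real.exp_pos (t' * e0)).le
    have w3 : Real.exp (t' * e0) * (D.A 0 q i j * Real.exp (-(t' * e0))) = D.A 0 q i j := by
      have : Real.exp (t' * e0) * Real.exp (-(t' * e0)) = 1 := by
        rw [← Real.exp_add, add_neg_cancel, Real.exp_zero]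
      calc Real.exp (t' * e0) * (D.A 0 q i j * Real.exp (-(t' * e0)))
          = D.A 0 q i j * (Real.exp (t' * e0) * Real.exp (-(t' * e0))) := by ring
        _ = _ := by rw [this, mul_one]
    have w4 : Real.exp (i * e0 + j * e1) = Real.exp (t' * e0) * (Real.exp (j * e1) *
        Real.exp (i0 * e0)) := by
      rw [← Real.exp_add, ← Real.exp_add]; congr 1; rw [hit]; ring
    rw [w3] at w2
    rw [w4]
    linarith
  -- the start
  have v0 : Real.exp (i0 * e0 + j0 * e1) * (x * (1 - y)) ≤ D.A 0 q i0 j0 := by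
    refine le_trans ?_ h0
    have w1 : (i0 : ℝ) * e0 + j0 * e1 - y ≤ mn D q i0 j0 :=
      w1_aux hi0r hj0r hqr hE0.le b0 b1 hiE
    have w2 := Real.exp_le_exp.mpr w1
    rw [sub_eq_add_neg, Real.exp_add] at w2
    have w3 : 1 - y ≤ Real.exp (-y) := by
      have := Real.add_one_le_exp (-y); linarith
    calc Real.exp (i0 * e0 + j0 * e1) * (x * (1 - y))
        = x * (Real.exp (i0 * e0 + j0 * e1) * (1 - y)) := by ring
      _ ≤ x * (Real.exp (i0 * e0 + j0 * e1) * Real.exp (-y)) :=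
          mul_le_mul_of_nonneg_left (mul_le_mul_of_nonneg_left w3 (Real.exp_pos _).le) hx0
      _ ≤ _ := mul_le_mul_of_nonneg_left w2 hx0
  have v3 : Real.exp (i * e0 + j * e1) * (x / 2) ≤ D.A 0 q i j := by
    refine le_trans ?_ v2
    have c1 : Real.exp (t' * e0) * Real.exp (i0 * e0 + j * e1) = Real.exp (i * e0 + j * e1) := by
      rw [← Real.exp_add]; congr 1; rw [hit]; ring
    have c2 : Real.exp (t' * e0) * (Real.exp (t * e1) * Real.exp (i0 * e0 + j0 * e1)) =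
        Real.exp (i * e0 + j * e1) := by
      rw [← Real.exp_add, ← Real.exp_add]; congr 1; rw [hit, hjt]; ring
    have d1 := mul_le_mul_of_nonneg_left v1 (Real.exp_pos (t' * e0)).le
    have d0 := mul_le_mul_of_nonneg_left (mul_le_mul_of_nonneg_left v0 (Real.exp_pos (t * e1)).le)
      (Real.exp_pos (t' * e0)).le
    obtain ⟨X, hX⟩ : ∃ X, X = Real.exp (i * e0 + j * e1) := ⟨_, rfl⟩
    rw [← hX] at c1 c2 ⊢
    have hX0 : 0 < X := by rw [hX]; exact Real.exp_pos _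
    have f1 : X * (x * (1 - y)) ≤ Real.exp (t' * e0) * (Real.exp (t * e1) * D.A 0 q i0 j0) := by
      refine le_trans (le_of_eq ?_) d0
      rw [← c2]; ring
    have f2 : Real.exp (t' * e0) * (Real.exp (t * e1) * D.A 0 q i0 j0) -
        X * (2 * (((j0 : ℝ) + q) * E)) ≤ Real.exp (t' * e0) * D.A 0 q i0 j := by
      refine le_trans (le_of_eq ?_) d1
      rw [← c1]; ring
    have f4 := mul_le_mul_of_nonneg_left (f3_aux hx1 hy0 hxy) hX0.le
    have f5 : X * (2 * (((i0 : ℝ) + q) * E + ((j0 : ℝ) + q) * E)) ≤ X * (2 * y) :=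
      mul_le_mul_of_nonneg_left (by linarith only [hiE]) hX0.le
    linarith only [f1, f2, f4, f5]
  refine le_trans ?_ v3
  rw [mul_comm]
  refine mul_le_mul_of_nonneg_right (Real.exp_le_exp.mpr ?_) (by linarith)
  unfold mn
  have c1 := mul_le_mul_of_nonneg_left a0 (Nat.cast_nonneg (α := ℝ) i)
  have c2 := mul_le_mul_of_nonneg_left a1 (Nat.cast_nonneg (α := ℝ) j)
  linarith

/-- the upper bound for one sector -/
theorem A_le {D : PD} {N A0 : ℕ} {m : ℝ} (h : D.Ok N A0 m) (hA : 1 ≤ A0)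
    {q i j : ℕ} (hq : A0 ≤ q) (hi : q ≤ i) (hj : q ≤ j)
    (hy : ((i : ℝ) + j + q) * Real.exp (-(2 * m * q)) ≤ 1 / 2) {c : ℕ} (hc : c < N) :
    D.A c q i j ≤ 2 * Real.exp (q * (i * D.φ c + j * D.φ (D.s c))) := by
  have hs := h.sN c hc
  have h1 := h.Ale c q i j hc (by omega) (by omega) (by omega)
  have h2 := h.An c q i j hc (by omega) (by omega) (by omega)
  have z1 := h.Zup c (2 * i) q hc (by omega) hq
  have z2 := h.Zup (D.s c) (2 * j) q hs (by omega) hq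
  rw [Nat.min_eq_right (by omega)] at z1 z2
  have p1 := h.Zpos c (2 * i) q hc (by omega) hq
  have p2 := h.Zpos (D.s c) (2 * j) q hs (by omega) hq
  rw [Real.log_le_iff_le_exp p1] at z1
  rw [Real.log_le_iff_le_exp p2] at z2
  obtain ⟨E, hE⟩ : ∃ E, E = Real.exp (-(2 * m * q)) := ⟨_, rfl⟩
  rw [← hE] at z1 z2 hy
  have h3 : D.A c q i j ^ 2 ≤ (Real.exp (q * (i * D.φ c + j * D.φ (D.s c)) +
      ((i : ℝ) + j + q) * E)) ^ 2 := by
    refine h1.trans ((mul_le_mul z1 z2 p2.le (Real.exp_pos _).le).trans (le_of_eq ?_))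
    rw [← Real.exp_add, ← Real.exp_nat_mul]
    congr 1
    push_cast
    ring
  have h4 := le_of_sq_le_sq h3 (Real.exp_pos _).le
  rw [Real.exp_add] at h4
  have h5 : Real.exp (((i : ℝ) + j + q) * E) ≤ 2 := by
    have hE0 : 0 < E := by rw [hE]; exact Real.exp_pos _
    have := exp_le_lin (z := ((i : ℝ) + j + q) * E) (by positivity) (by linarith)
    linarith
  have h6 := mul_le_mul_of_nonneg_left h5
    (Real.exp_pos (q * (i * D.φ c + j * D.φ (D.s c)))).le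
  linarith

/-- the other sectors are small -/
theorem A_other {D : PD} {N A0 K : ℕ} {m : ℝ} (h : D.Ok N A0 m) (hA : 1 ≤ A0)
    (hK : ∀ c, c < N → c ≠ 0 → D.φ 0 - D.φ (D.s 0) + 1 ≤ K * (D.φ 0 - D.φ c))
    {q i j : ℕ} (hq : A0 ≤ q) (hi : q ≤ i) (hj : q ≤ j) (hij : K * j ≤ i)
    (hy : ((i : ℝ) + j + q) * Real.exp (-(2 * m * q)) ≤ 1 / 2) {c : ℕ} (hc : c < N) (hc0 : c ≠ 0) :
    D.A c q i j ≤ 2 * Real.exp (mn D q i j - q * j) := by
  refine (A_le h hA hq hi hj hy hc).trans (mul_le_mul_of_nonneg_left (Real.exp_le_exp.mpr ?_)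
    (by norm_num))
  unfold mn
  have h1 := h.φle c hc
  have h2 := h.φle (D.s c) (h.sN c hc)
  have h3 := hK c hc hc0
  have hqr : (0 : ℝ) ≤ q := Nat.cast_nonneg _
  have hjr : (0 : ℝ) ≤ j := Nat.cast_nonneg _
  have hijr : (K : ℝ) * j ≤ i := by exact_mod_cast hij
  have h4 : (j : ℝ) * (D.φ 0 - D.φ (D.s 0) + 1) ≤ i * (D.φ 0 - D.φ c) := by
    have e1 := mul_le_mul_of_nonneg_left h3 hjr
    have e2 := mul_le_mul_of_nonneg_right hijr (by linarith : 0 ≤ D.φ 0 - D.φ c)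
    linarith
  have h5 : (j : ℝ) * D.φ (D.s c) ≤ j * D.φ 0 := mul_le_mul_of_nonneg_left h2 hjr
  have h6 : (i : ℝ) * D.φ c + j * D.φ (D.s c) ≤ i * D.φ 0 + j * D.φ (D.s 0) - j := by linarith
  have h7 := mul_le_mul_of_nonneg_left h6 hqr
  linarith

theorem F_le {D : PD} {N A0 K : ℕ} {m : ℝ} (h : D.Ok N A0 m) (hN : 1 ≤ N) (hA : 1 ≤ A0)
    (hK : ∀ c, c < N → c ≠ 0 → D.φ 0 - D.φ (D.s 0) + 1 ≤ K * (D.φ 0 - D.φ c))
    {q i j : ℕ} (hq : A0 ≤ q) (hi : q ≤ i) (hj : q ≤ j) (hij : K * j ≤ i)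
    (hy : ((i : ℝ) + j + q) * Real.exp (-(2 * m * q)) ≤ 1 / 2) :
    D.F q i j ≤ 2 * N * Real.exp (mn D q i j) := by
  rw [h.sum q i j (by omega) (by omega) (by omega)]
  refine (Finset.sum_le_card_nsmul _ _ (2 * Real.exp (mn D q i j)) fun c hc => ?_).trans
    (le_of_eq (by rw [Finset.card_range, nsmul_eq_mul]; ring))
  rw [Finset.mem_range] at hc
  by_cases h0 : c = 0
  · subst h0
    exact A_le h hA hq hi hj hy hc
  · refine (A_other h hA hK hq hi hj hij hy hc h0).trans (mul_le_mul_of_nonneg_left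
      (Real.exp_le_exp.mpr ?_) (by norm_num))
    have : (0 : ℝ) ≤ (q : ℝ) * j := by positivity
    linarith

theorem F_sub {D : PD} {N A0 K : ℕ} {m : ℝ} (h : D.Ok N A0 m) (hN : 1 ≤ N) (hA : 1 ≤ A0)
    (hK : ∀ c, c < N → c ≠ 0 → D.φ 0 - D.φ (D.s 0) + 1 ≤ K * (D.φ 0 - D.φ c))
    {q i j : ℕ} (hq : A0 ≤ q) (hi : q ≤ i) (hj : q ≤ j) (hij : K * j ≤ i)
    (hy : ((i : ℝ) + j + q) * Real.exp (-(2 * m * q)) ≤ 1 / 2) :
    D.F q i j ≤ D.A 0 q i j + 2 * N * Real.exp (mn D q i j - q * j) := by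
  rw [h.sum q i j (by omega) (by omega) (by omega)]
  obtain ⟨M, rfl⟩ : ∃ M, N = M + 1 := ⟨N - 1, by omega⟩
  rw [Finset.sum_range_succ', add_comm]
  refine add_le_add le_rfl ?_
  refine (Finset.sum_le_card_nsmul _ _ (2 * Real.exp (mn D q i j - q * j)) fun c hc => ?_).trans ?_
  · rw [Finset.mem_range] at hc
    exact A_other h hA hK hq hi hj hij hy (by omega) (by omega)
  · rw [Finset.card_range, nsmul_eq_mul]
    have := Real.exp_pos (mn D q i j - q * j)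
    push_cast
    nlinarith

/-- discrete convexity -/
theorem conv3 {f : ℕ → ℝ} (hf : ∀ q, 1 ≤ q → 2 * f (q + 1) ≤ f q + f (q + 2)) {v u w : ℕ}
    (hv : 1 ≤ v) (hvu : v < u) (huw : u ≤ w) :
    ((w : ℝ) - u) * (f u - f v) ≤ ((u : ℝ) - v) * (f w - f u) := by
  have hd : ∀ a n : ℕ, 1 ≤ a → f (a + 1) - f a ≤ f (a + n + 1) - f (a + n) := by
    intro a n ha
    induction n with
    | zero => exact le_refl _
    | succ n ih =>
      have := hf (a + n) (by omega)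
      have e1 : a + (n + 1) + 1 = a + n + 2 := by ring
      have e2 : a + (n + 1) = a + n + 1 := by ring
      rw [e1, e2]
      linarith
  obtain ⟨b, hb⟩ : ∃ b, u = b + 1 := ⟨u - 1, by omega⟩
  subst hb
  have hb1 : 1 ≤ b := by omega
  obtain ⟨Dd, hD⟩ : ∃ Dd, Dd = f (b + 1) - f b := ⟨_, rfl⟩
  have c1 : ∀ n : ℕ, f (b + 1) + n * Dd ≤ f (b + 1 + n) := by
    intro n
    induction n with
    | zero => simp
    | succ n ih =>
      have h1 := hd b (n + 1) hb1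
      have e1 : b + (n + 1) + 1 = b + 1 + (n + 1) := by ring
      have e2 : b + (n + 1) = b + 1 + n := by ring
      rw [e1, e2, ← hD] at h1
      push_cast
      linarith
  have c2 : ∀ n a : ℕ, 1 ≤ a → a + n = b + 1 → f (b + 1) - n * Dd ≤ f a := by
    intro n
    induction n with
    | zero => intro a _ h; rw [add_zero] at h; rw [h]; simp
    | succ n ih =>
      intro a ha h
      have h1 := ih (a + 1) (by omega) (by omega)
      have h2 := hd a n ha
      have e1 : a + n = b := by omega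
      rw [e1, ← hD] at h2
      push_cast
      linarith
  have k1 := c1 (w - (b + 1))
  rw [Nat.add_sub_cancel' huw] at k1
  have k2 := c2 (b + 1 - v) v hv (by omega)
  rw [Nat.cast_sub huw] at k1
  rw [Nat.cast_sub hvu.le] at k2
  have p1 : (0 : ℝ) ≤ (w : ℝ) - (b + 1 : ℕ) := by
    have : ((b + 1 : ℕ) : ℝ) ≤ w := by exact_mod_cast huw
    linarith
  have p2 : (0 : ℝ) ≤ ((b + 1 : ℕ) : ℝ) - v := by
    have : (v : ℝ) ≤ ((b + 1 : ℕ) : ℝ) := by exact_mod_cast hvu.le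
    linarith
  have q1 := mul_le_mul_of_nonneg_left k1 p2
  have q2 := mul_le_mul_of_nonneg_left k2 p1
  nlinarith

end

end Run7.h4.VS
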