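import Mathlib
import Pool.Agent.Run7.h4.VS.PI

/-!
# Project C, the numerical part I: induction on the length of the loops
-/

open Filter Topology
open Pool.Agent.Run7.h897.PC

namespace Run7.h4.VS

noncomputable section

theorem num1 {q0 x u v s : ℝ} (hq0 : 40000 ≤ q0) (hx : 64 * q0 ≤ x) (hs : s = Real.sqrt (q0 / x))
    (hu1 : x / 2 ≤ u) (hv : v ≤ q0 + Real.sqrt x) :
    0 < s ∧ s ≤ 1 / 8 ∧ v ≤ 0.13 * s * x ∧ v * (1 + 0.3 * s) ≤ 0.3 * s * u ∧ s ^ 2 * x = q0 := by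
  have hx0 : 0 < x := by linarith
  have hs0 : 0 < s := by rw [hs]; exact Real.sqrt_pos.mpr (by positivity)
  have hs2 : s ^ 2 * x = q0 := by
    rw [hs, Real.sq_sqrt (by positivity)]; field_simp
  have hs8 : s ≤ 1 / 8 := by
    by_contra hc
    push Not at hc
    have h1 : (1 / 8) ^ 2 < s ^ 2 := by
      have := mul_self_lt_mul_self (by norm_num : (0 : ℝ) ≤ 1 / 8) hc
      nlinarith
    have h2 := mul_lt_mul_of_pos_right h1 hx0
    rw [hs2] at h2
    linarith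
  obtain ⟨y, hy⟩ : ∃ y, y = Real.sqrt x := ⟨_, rfl⟩
  have hy2 : y ^ 2 = x := by rw [hy, Real.sq_sqrt hx0.le]
  have hy0 : 0 < y := by rw [hy]; exact Real.sqrt_pos.mpr hx0
  -- `200 ≤ s y`
  have hsy : 200 ≤ s * y := by
    by_contra hc
    push Not at hc
    have h1 : (s * y) ^ 2 < 200 ^ 2 := by
      have := mul_self_lt_mul_self (by positivity : (0 : ℝ) ≤ s * y) hc
      nlinarith
    have h2 : (s * y) ^ 2 = q0 := by rw [mul_pow, hy2, hs2]
    rw [h2] at h1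
    linarith
  have h1 : y ≤ 0.005 * (s * x) := by
    have : 200 * y ≤ s * y * y := mul_le_mul_of_nonneg_right hsy hy0.le
    have e : s * y * y = s * x := by rw [← hy2]; ring
    rw [e] at this
    linarith
  have h2 : q0 ≤ 0.125 * (s * x) := by
    have e : q0 = s * (s * x) := by rw [← hs2]; ring
    have : s * (s * x) ≤ 1 / 8 * (s * x) := mul_le_mul_of_nonneg_right hs8 (by positivity)
    linarith
  have h3 : v ≤ 0.13 * s * x := by rw [← hy] at hv; linarith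
  refine ⟨hs0, hs8, h3, ?_, hs2⟩
  have h4 : v * (1 + 0.3 * s) ≤ 0.13 * s * x * (1 + 0.3 * s) :=
    mul_le_mul_of_nonneg_right h3 (by positivity)
  have h5 : 0.13 * s * x * (1 + 0.3 * s) ≤ 0.13 * s * x * 1.0375 :=
    mul_le_mul_of_nonneg_left (by linarith) (by positivity)
  have h6 : 0.3 * s * (x / 2) ≤ 0.3 * s * u := mul_le_mul_of_nonneg_left hu1 (by positivity)
  have h7 : 0 < s * x := by positivity
  nlinarith

theorem num2 {q0 x u s : ℝ} (hq0 : 40000 ≤ q0) (hx : 64 * q0 ≤ x) (hs : s = Real.sqrt (q0 / x))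
    (hs0 : 0 < s) (hs2 : s ^ 2 * x = q0) (hu0 : 0 < u) (hu : u ≤ (x + 1) / 2) :
    1.4 * s ≤ Real.sqrt (q0 / u) := by
  have hx0 : 0 < x := by linarith
  refine Real.le_sqrt_of_sq_le ?_
  rw [le_div_iff₀ hu0]
  have h1 : (1.4 * s) ^ 2 * u ≤ (1.4 * s) ^ 2 * ((x + 1) / 2) :=
    mul_le_mul_of_nonneg_left hu (by positivity)
  refine h1.trans ?_
  have h2 : s ^ 2 ≤ 1 / 49 * q0 := by
    have : s ^ 2 * 49 ≤ s ^ 2 * x := mul_le_mul_of_nonneg_left (by linarith) (by positivity)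
    linarith
  nlinarith

theorem num3 {α q0 x s w L : ℝ} (hα : 0 < α) (hs0 : 0 < s) (hs8 : s ≤ 1 / 8)
    (hs2 : s ^ 2 * x = q0) (hw : 1.4 * s ≤ w) (hx0 : 0 < x) (hL : L ≤ 1.6 * α * q0) :
    2 * α * (1 - w) * (x * (1 + 0.3 * s)) + L ≤ 2 * α * (1 - s) * x := by
  have h1 : 2 * α * (1 - w) * (x * (1 + 0.3 * s)) ≤
      2 * α * (1 - 1.4 * s) * (x * (1 + 0.3 * s)) := by
    refine mul_le_mul_of_nonneg_right ?_ (by positivity)
    exact mul_le_mul_of_nonneg_left (by linarith) (by positivity)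
  have h2 : 8 * q0 ≤ s * x := by
    have e : q0 = s * (s * x) := by rw [← hs2]; ring
    have : s * (s * x) ≤ 1 / 8 * (s * x) := mul_le_mul_of_nonneg_right hs8 (by positivity)
    linarith
  have h3 : 0.2 * α * (8 * q0) ≤ 0.2 * α * (s * x) := mul_le_mul_of_nonneg_left h2 (by positivity)
  have h4 : 0 ≤ 2 * α * x * (0.42 * s ^ 2) := by positivity
  have h5 : 2 * α * (1 - 1.4 * s) * (x * (1 + 0.3 * s)) =
      2 * α * (1 - s) * x - 0.2 * α * (s * x) - 2 * α * x * (0.42 * s ^ 2) := by ring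
  linarith

/-- the numerical conditions on the scale -/
structure Sc (m α : ℝ) (N q0 : ℕ) : Prop where
  h1 : 16 ≤ m ^ 2 * q0
  h2 : 36 ≤ m * q0
  h3 : 4 ≤ m ^ 3 * q0
  h4 : 40000 ≤ (q0 : ℝ)
  h5 : 1.1 * Real.log (2 * N) + Real.log 4 ≤ 1.6 * α * q0
  h6 : 2 * α + Real.log (4 * N) + 1 ≤ q0
  h7 : 2 ≤ α * q0

theorem exists_sc {m α : ℝ} (hm : 0 < m) (hα : 0 < α) (N : ℕ) :
    ∃ Q : ℕ, ∀ q0 : ℕ, Q ≤ q0 → Sc m α N q0 := by
  obtain ⟨Q, hQ⟩ := exists_nat_ge (max (16 / m ^ 2) (max (36 / m) (max (4 / m ^ 3) (max 40000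
    (max ((1.1 * Real.log (2 * N) + Real.log 4) / (1.6 * α)) (max (2 * α + Real.log (4 * N) + 1)
      (2 / α)))))))
  refine ⟨Q, fun q0 hq => ?_⟩
  have hq' : (Q : ℝ) ≤ q0 := by exact_mod_cast hq
  have h := hQ.trans hq'
  simp only [max_le_iff] at h
  obtain ⟨a1, a2, a3, a4, a5, a6, a7⟩ := h
  rw [div_le_iff₀ (by positivity)] at a1 a2 a3 a5 a7
  exact ⟨by linarith, by linarith, by linarith, a4, by linarith, a6, by linarith⟩

/-- the rate -/
def rr (α q0 q : ℝ) : ℝ := 2 * α * (1 - Real.sqrt (q0 / q))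

theorem small3 {m α : ℝ} {N q0 K q : ℕ} (hm : 0 < m) (hs : Sc m α N q0) (hK1 : 1 ≤ K)
    (hK : (K : ℝ) ≤ Real.exp (m * q0 / 4)) (hq : q0 ≤ q) :
    4 * (K : ℝ) * q * Real.exp (-(2 * m * q)) ≤ Real.exp (-(m * q)) := by
  have hqr : (q0 : ℝ) ≤ q := by exact_mod_cast hq
  have hq0 : (0 : ℝ) < q0 := by linarith [hs.h4]
  have hqp : (0 : ℝ) < q := by linarith
  have h1 : (K : ℝ) ≤ Real.exp (m * q / 4) := hK.trans (Real.exp_le_exp.mpr (by nlinarith))
  have h2 : 4 * (q : ℝ) ≤ Real.exp (3 / 4 * (m * q)) := by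
    have h3 := Real.quadratic_le_exp_of_nonneg (x := 3 / 4 * (m * q)) (by positivity)
    have h4 : 16 * (q : ℝ) ≤ m ^ 2 * q * q := by
      have : m ^ 2 * (q0 : ℝ) ≤ m ^ 2 * q := mul_le_mul_of_nonneg_left hqr (by positivity)
      exact mul_le_mul_of_nonneg_right (hs.h1.trans this) hqp.le
    have h5 : 0 < m * q := by positivity
    nlinarith
  have h3 : 4 * (K : ℝ) * q ≤ Real.exp (m * q) := by
    have h4 : (K : ℝ) * (4 * q) ≤ Real.exp (m * q / 4) * Real.exp (3 / 4 * (m * q)) :=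
      mul_le_mul h1 h2 (by positivity) (Real.exp_pos _).le
    rw [← Real.exp_add] at h4
    have e : m * q / 4 + 3 / 4 * (m * q) = m * q := by ring
    rw [e] at h4
    linarith
  have h4 := mul_le_mul_of_nonneg_right h3 (Real.exp_pos (-(2 * m * q))).le
  refine h4.trans (le_of_eq ?_)
  rw [← Real.exp_add]; congr 1; ring

theorem small1 {m α : ℝ} {N q0 K q : ℕ} (hm : 0 < m) (hs : Sc m α N q0) (hK1 : 1 ≤ K)
    (hK : (K : ℝ) ≤ Real.exp (m * q0 / 4)) :
    3 * (K : ℝ) * q * Real.exp (-(2 * m * (q0 + Nat.sqrt q : ℕ))) ≤ 1 / 2 := by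
  have hq0 : (0 : ℝ) < q0 := by linarith [hs.h4]
  have hqn : (0 : ℝ) ≤ q := Nat.cast_nonneg q
  obtain ⟨y, hy⟩ : ∃ y, y = Real.sqrt q := ⟨_, rfl⟩
  have hy2 : y ^ 2 = q := by rw [hy, Real.sq_sqrt hqn]
  have hy0 : 0 ≤ y := by rw [hy]; exact Real.sqrt_nonneg _
  have hsq : y ≤ Nat.sqrt q + 1 := by
    have h1 : q < (Nat.sqrt q + 1) ^ 2 := Nat.lt_succ_sqrt' q
    have h2 : (q : ℝ) ≤ ((Nat.sqrt q : ℝ) + 1) ^ 2 := by exact_mod_cast h1.le
    rw [hy]
    exact Real.sqrt_le_left (by positivity) |>.mp (by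
      rw [Real.sqrt_le_left (by positivity)]; exact h2) |> fun h => Real.sqrt_le_iff.mpr ⟨by positivity, h⟩
  have h1 : m ^ 2 * q ≤ Real.exp (2 * m * y) := by
    have h2 : m * y ≤ Real.exp (m * y) := by
      have := Real.add_one_le_exp (m * y); linarith
    have h3 : (m * y) * (m * y) ≤ Real.exp (m * y) * Real.exp (m * y) :=
      mul_le_mul h2 h2 (by positivity) (Real.exp_pos _).le
    rw [← Real.exp_add] at h3
    have e1 : (m * y) * (m * y) = m ^ 2 * q := by rw [← hy2]; ring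
    have e2 : m * y + m * y = 2 * m * y := by ring
    rw [e1, e2] at h3
    exact h3
  have h2 : 6 ≤ m ^ 2 * Real.exp (7 / 4 * m * q0 - 2 * m) := by
    have h3 : 3 / 2 * (m * q0) ≤ Real.exp (7 / 4 * m * q0 - 2 * m) := by
      have h4 := Real.add_one_le_exp (7 / 4 * m * q0 - 2 * m)
      have h5 : 8 * m ≤ m * q0 := by nlinarith [hs.h4]
      linarith
    have h4 := mul_le_mul_of_nonneg_left h3 (by positivity : 0 ≤ m ^ 2)
    have h5 := hs.h3
    nlinarith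
  have h3 : 6 * (K : ℝ) * q ≤ Real.exp (2 * m * (q0 + Nat.sqrt q : ℕ)) := by
    have h4 : 6 * (K : ℝ) * (m ^ 2 * q) ≤ m ^ 2 * Real.exp (7 / 4 * m * q0 - 2 * m) *
        Real.exp (m * q0 / 4) * Real.exp (2 * m * y) :=
      mul_le_mul (mul_le_mul h2 hK (by positivity) (by positivity)) h1 (by positivity)
        (by positivity)
    have h5 : m ^ 2 * Real.exp (7 / 4 * m * q0 - 2 * m) * Real.exp (m * q0 / 4) *
        Real.exp (2 * m * y) ≤ m ^ 2 * Real.exp (2 * m * (q0 + Nat.sqrt q : ℕ)) := by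
      rw [mul_assoc, mul_assoc, ← Real.exp_add, ← Real.exp_add]
      refine mul_le_mul_of_nonneg_left (Real.exp_le_exp.mpr ?_) (by positivity)
      push_cast
      have := mul_le_mul_of_nonneg_left hsq (by positivity : 0 ≤ 2 * m)
      linarith
    have h6 : m ^ 2 * (6 * (K : ℝ) * q) ≤ m ^ 2 * Real.exp (2 * m * (q0 + Nat.sqrt q : ℕ)) := by
      refine le_trans (le_of_eq (by ring)) (h4.trans h5)
    exact le_of_mul_le_mul_left h6 (by positivity)
  have h4 := mul_le_mul_of_nonneg_right h3 (Real.exp_pos (-(2 * m * (q0 + Nat.sqrt q : ℕ)))).le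
  rw [← Real.exp_add, add_neg_cancel, Real.exp_zero] at h4
  linarith

end

end Run7.h4.VS
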