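import Mathlib
import Pool.Agent.Run7.h4.VS.PI2

/-!
# Project C, the numerical part I: conclusion
-/

open Filter Topology
open Pool.Agent.Run7.h897.PC

namespace Run7.h4.VS

noncomputable section

set_option linter.unusedVariables false

/-- the claim for loops of half length `q` -/
def PP (D : PD) (α : ℝ) (K q0 q : ℕ) : Prop := ∀ i j : ℕ, K * q ≤ i → q ≤ j →
  Real.exp (-(rr α q0 q * q)) * Real.exp (mn D q i j) ≤ D.A 0 q i j

theorem A_le_F {D : PD} {N A0 : ℕ} {m : ℝ} (h : D.Ok N A0 m) (hN : 1 ≤ N) {q i j : ℕ}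
    (hq : 1 ≤ q) (hi : 1 ≤ i) (hj : 1 ≤ j) : D.A 0 q i j ≤ D.F q i j := by
  rw [h.sum q i j hq hi hj]
  exact Finset.single_le_sum (f := fun c => D.A c q i j)
    (fun c hc => h.An c q i j (Finset.mem_range.mp hc) hq hi hj) (Finset.mem_range.mpr (by omega))

/-- the convexity of the logarithm -/
theorem F_conv {D : PD} {N A0 : ℕ} {m : ℝ} (h : D.Ok N A0 m) {i j : ℕ} (hi : 1 ≤ i) (hj : 1 ≤ j) :
    ∀ q, 1 ≤ q → 2 * Real.log (D.F (q + 1) i j) ≤ Real.log (D.F q i j) +
      Real.log (D.F (q + 2) i j) := by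
  intro q hq
  have h1 := h.Fpos q i j hq hi hj
  have h2 := h.Fpos (q + 1) i j (by omega) hi hj
  have h3 := h.Fpos (q + 2) i j (by omega) hi hj
  rw [← Real.log_mul h1.ne' h3.ne']
  have h4 := Real.log_le_log (by positivity) (h.lcq q i j hq hi hj)
  rw [Real.log_pow] at h4
  push_cast at h4
  exact h4

/-- the lower bound for the correlation from convexity -/
theorem F_low {D : PD} {N A0 K q0 q u v : ℕ} {m α s : ℝ} (h : D.Ok N A0 m) (hN : 1 ≤ N)
    (hA : 1 ≤ A0) (hα : 0 < α)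
    (hK : ∀ c, c < N → c ≠ 0 → D.φ 0 - D.φ (D.s 0) + 1 ≤ K * (D.φ 0 - D.φ c))
    {i j : ℕ} (hvA : A0 ≤ v) (hvu : v < u) (huq : u ≤ q) (hi : K * q ≤ i) (hj : q ≤ j)
    (hij : K * j ≤ i) (hvi : v ≤ i)
    (hsm : ((i : ℝ) + j + v) * Real.exp (-(2 * m * v)) ≤ 1 / 2)
    (hPu : PP D α K q0 u) (hru : 0 ≤ rr α q0 u) (hs0 : 0 ≤ s)
    (hsv : (v : ℝ) * (1 + 0.3 * s) ≤ 0.3 * s * u)
    (hth : (q : ℝ) - u ≤ 1.1 * ((u : ℝ) - v)) :
    Real.exp (mn D q i j - (rr α q0 u * (q * (1 + 0.3 * s)) + 1.1 * Real.log (2 * N))) ≤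
      D.F q i j := by
  have hi1 : 1 ≤ i := by omega
  have hj1 : 1 ≤ j := by omega
  have hv1 : 1 ≤ v := by omega
  have hc := conv3 (f := fun q => Real.log (D.F q i j)) (F_conv h hi1 hj1) hv1 hvu huq
  -- lower bound at `u`
  have hu1 := hPu i j ((Nat.mul_le_mul_left K huq).trans hi) (huq.trans hj)
  have hu2 := A_le_F h hN (q := u) (i := i) (j := j) (by omega) hi1 hj1
  have hFu := h.Fpos u i j (by omega) hi1 hj1
  have hFv := h.Fpos v i j hv1 hi1 hj1
  have hFq := h.Fpos q i j (by omega) hi1 hj1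
  rw [← Real.exp_add] at hu1
  have hfu : -(rr α q0 u * u) + mn D u i j ≤ Real.log (D.F u i j) := by
    rw [Real.le_log_iff_exp_le hFu]
    exact hu1.trans hu2
  -- upper bound at `v`
  have hNr : (0 : ℝ) < N := by exact_mod_cast hN
  have hfv : Real.log (D.F v i j) ≤ Real.log (2 * N) + mn D v i j := by
    have h1 := F_le h hN hA hK hvA hvi (by omega) hij hsm
    have h2 := Real.log_le_log hFv h1
    rw [Real.log_mul (by positivity) (Real.exp_pos _).ne', Real.log_exp] at h2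
    exact h2
  -- combine
  obtain ⟨M0, hM0⟩ : ∃ M0 : ℝ, M0 = i * D.φ 0 + j * D.φ (D.s 0) := ⟨_, rfl⟩
  have eu : mn D u i j = u * M0 := by unfold mn; rw [hM0]
  have ev : mn D v i j = v * M0 := by unfold mn; rw [hM0]
  have eq' : mn D q i j = q * M0 := by unfold mn; rw [hM0]
  rw [eu] at hfu
  rw [ev] at hfv
  rw [eq', ← Real.le_log_iff_exp_le hFq]
  obtain ⟨fu, hfue⟩ : ∃ x, x = Real.log (D.F u i j) := ⟨_, rfl⟩
  obtain ⟨fv, hfve⟩ : ∃ x, x = Real.log (D.F v i j) := ⟨_, rfl⟩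
  obtain ⟨fq, hfqe⟩ : ∃ x, x = Real.log (D.F q i j) := ⟨_, rfl⟩
  obtain ⟨ℓ, hℓ⟩ : ∃ x, x = Real.log (2 * N) := ⟨_, rfl⟩
  obtain ⟨r, hr⟩ : ∃ x, x = rr α q0 u := ⟨_, rfl⟩
  rw [← hfue, ← hfve, ← hfqe] at hc
  rw [← hfue, ← hr] at hfu
  rw [← hfve, ← hℓ] at hfv
  rw [← hfqe, ← hr, ← hℓ]
  rw [← hr] at hru
  have hℓ0 : 0 ≤ ℓ := by
    rw [hℓ]
    refine Real.log_nonneg ?_
    have : (1 : ℝ) ≤ N := by exact_mod_cast hN
    linarith
  have pu : (0 : ℝ) < (u : ℝ) - v := by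
    have : (v : ℝ) < u := by exact_mod_cast hvu
    linarith
  have pq : (0 : ℝ) ≤ (q : ℝ) - u := by
    have : (u : ℝ) ≤ q := by exact_mod_cast huq
    linarith
  have pv : (0 : ℝ) ≤ v := Nat.cast_nonneg v
  have puu : (0 : ℝ) ≤ u := Nat.cast_nonneg u
  have pqq : (0 : ℝ) ≤ q := Nat.cast_nonneg q
  have c1 : ((u : ℝ) - v) * fq ≥ ((q : ℝ) - v) * fu - ((q : ℝ) - u) * fv := by linarith
  have c2 : ((q : ℝ) - v) * (u * M0 - r * u) ≤ ((q : ℝ) - v) * fu :=
    mul_le_mul_of_nonneg_left (by linarith) (by linarith)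
  have c3 : ((q : ℝ) - u) * fv ≤ ((q : ℝ) - u) * (ℓ + v * M0) :=
    mul_le_mul_of_nonneg_left hfv pq
  have c4 : ((q : ℝ) - u) * ℓ ≤ 1.1 * ((u : ℝ) - v) * ℓ := mul_le_mul_of_nonneg_right hth hℓ0
  have c5 : ((q : ℝ) - v) * (r * u) ≤ ((u : ℝ) - v) * (r * (q * (1 + 0.3 * s))) := by
    have d1 : ((q : ℝ) - v) * u ≤ q * u := mul_le_mul_of_nonneg_right (by linarith) puu
    have d2 : (u : ℝ) ≤ ((u : ℝ) - v) * (1 + 0.3 * s) := by linarith
    have d3 : (q : ℝ) * u ≤ q * (((u : ℝ) - v) * (1 + 0.3 * s)) :=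
      mul_le_mul_of_nonneg_left d2 pqq
    have d4 := mul_le_mul_of_nonneg_left (d1.trans d3) hru
    linarith
  have c6 : ((u : ℝ) - v) * (q * M0 - (r * (q * (1 + 0.3 * s)) + 1.1 * ℓ)) ≤ ((u : ℝ) - v) * fq := by
    have e : ((q : ℝ) - v) * (u * M0) - ((q : ℝ) - u) * (v * M0) = ((u : ℝ) - v) * (q * M0) := by
      ring
    have e1 : ((q : ℝ) - v) * (u * M0 - r * u) = ((q : ℝ) - v) * (u * M0) - ((q : ℝ) - v) * (r * u) := by
      ring
    have e2 : ((q : ℝ) - u) * (ℓ + v * M0) = ((q : ℝ) - u) * ℓ + ((q : ℝ) - u) * (v * M0) := by ring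
    have e3 : ((u : ℝ) - v) * (q * M0 - (r * (q * (1 + 0.3 * s)) + 1.1 * ℓ)) =
      ((u : ℝ) - v) * (q * M0) - ((u : ℝ) - v) * (r * (q * (1 + 0.3 * s))) -
        1.1 * ((u : ℝ) - v) * ℓ := by ring
    rw [e1] at c2
    rw [e2] at c3
    rw [e3]
    linarith
  exact le_of_mul_le_mul_left c6 pu

/-- from the base -/
theorem base_ext {D : PD} {N A0 q0 q : ℕ} {m α : ℝ} (h : D.Ok N A0 m) (hN : 1 ≤ N)
    (hA : 1 ≤ A0) (hm : 0 < m) (hα : 0 < α) (hαm : 16 * α ≤ m) (hs : Sc m α N q0)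
    (hqA : A0 ≤ q) (hq : q0 ≤ q)
    (hb : Real.exp (-(α / 2 * q)) * Real.exp (q * (q * D.φ 0 + q * D.φ (D.s 0))) ≤ D.A 0 q q q)
    (i j : ℕ) (hi : q ≤ i) (hj : q ≤ j) :
    Real.exp (-(α * q)) * Real.exp (mn D q i j) ≤ D.A 0 q i j := by
  have hqr : (q0 : ℝ) ≤ q := by exact_mod_cast hq
  have hq0 : (0 : ℝ) < q0 := by linarith [hs.h4]
  have hqp : (0 : ℝ) < q := by linarith
  have h36 : 36 ≤ m * q := hs.h2.trans (mul_le_mul_of_nonneg_left hqr hm.le)
  have h2α : 2 ≤ α * q := hs.h7.trans (mul_le_mul_of_nonneg_left hqr hα.le)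
  have h3 := small3 (K := 1) (q := q) hm hs le_rfl (by
    rw [Nat.cast_one]; exact Real.one_le_exp (by positivity)) hq
  have h4 := ext_A h hN hA (q := q) (i0 := q) (j0 := q) hqA le_rfl le_rfl
    (x := Real.exp (-(α / 2 * q))) (y := Real.exp (-(m * q)))
    (Real.exp_le_one_iff.mpr (by nlinarith)) (by
      rw [le_div_iff₀ (by norm_num)]
      have e1 : (16 : ℝ) ≤ Real.exp (m * q - α / 2 * q) := by
        have := Real.add_one_le_exp (m * q - α / 2 * q)
        have : α / 2 * q ≤ m * q / 32 := by nlinarith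
        linarith
      have e2 := mul_le_mul_of_nonneg_left e1 (Real.exp_pos (-(m * q))).le
      rw [← Real.exp_add] at e2
      have e3 : -(m * q) + (m * q - α / 2 * q) = -(α / 2 * q) := by ring
      rw [e3] at e2
      exact e2) (by
      refine le_trans (le_of_eq ?_) h3
      push_cast; ring) (by
      unfold mn
      exact hb) i j hi hj
  refine le_trans (mul_le_mul_of_nonneg_right ?_ (Real.exp_pos _).le) h4
  have e1 : (2 : ℝ) ≤ Real.exp (α / 2 * q) := by
    have := Real.add_one_le_exp (α / 2 * q); linarith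
  have e2 := mul_le_mul_of_nonneg_left e1 (Real.exp_pos (-(α * q))).le
  rw [← Real.exp_add] at e2
  have e3 : -(α * q) + α / 2 * q = -(α / 2 * q) := by ring
  rw [e3] at e2
  linarith

/-- the induction step -/
theorem step {D : PD} {N A0 K q0 q : ℕ} {m α : ℝ} (h : D.Ok N A0 m) (hN : 1 ≤ N)
    (hA : 1 ≤ A0) (hm : 0 < m) (hα : 0 < α) (hαm : 16 * α ≤ m) (hs : Sc m α N q0)
    (hAq : A0 ≤ q0) (hK1 : 1 ≤ K) (hKe : (K : ℝ) ≤ Real.exp (m * q0 / 4))
    (hK : ∀ c, c < N → c ≠ 0 → D.φ 0 - D.φ (D.s 0) + 1 ≤ K * (D.φ 0 - D.φ c))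
    (hq : 64 * q0 < q) (hPu : PP D α K q0 ((q + 1) / 2)) : PP D α K q0 q := by
  obtain ⟨u, hu⟩ : ∃ u, u = (q + 1) / 2 := ⟨_, rfl⟩
  rw [← hu] at hPu
  obtain ⟨v, hv⟩ : ∃ v, v = q0 + Nat.sqrt q := ⟨_, rfl⟩
  have hx : 64 * (q0 : ℝ) ≤ q := by exact_mod_cast hq.le
  have h40 := hs.h4
  have hq0 : (0 : ℝ) < q0 := by linarith
  have hxp : (0 : ℝ) < q := by linarith
  have hu1 : (q : ℝ) / 2 ≤ u := by
    have h1 : q ≤ 2 * u := by omega
    have h2 : (q : ℝ) ≤ 2 * u := by exact_mod_cast h1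
    linarith
  have hu2 : (u : ℝ) ≤ (q + 1) / 2 := by
    have h1 : 2 * u ≤ q + 1 := by omega
    have h2 : 2 * (u : ℝ) ≤ q + 1 := by exact_mod_cast h1
    linarith
  have hvr : (v : ℝ) ≤ q0 + Real.sqrt q := by
    rw [hv]
    push_cast
    have h1 : ((Nat.sqrt q : ℕ) : ℝ) ≤ Real.sqrt q := Real.nat_sqrt_le_real_sqrt
    linarith
  obtain ⟨s, hsdef⟩ : ∃ s, s = Real.sqrt (q0 / q) := ⟨_, rfl⟩
  obtain ⟨hs0, hs8, hv3, hsv, hs2⟩ := num1 h40 hx hsdef hu1 hvr
  have hup : (0 : ℝ) < u := by linarith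
  have hw := num2 h40 hx hsdef hs0 hs2 hup hu2
  have hvx : (v : ℝ) ≤ 0.01625 * q := by
    have : 0.13 * s * q ≤ 0.13 * (1 / 8) * q :=
      mul_le_mul_of_nonneg_right (by linarith) hxp.le
    linarith
  have hvu : v < u := by
    have : (v : ℝ) < u := by linarith
    exact_mod_cast this
  have huq : u ≤ q := by omega
  have hvq : v ≤ q := by omega
  have hth : (q : ℝ) - u ≤ 1.1 * ((u : ℝ) - v) := by linarith
  -- the point
  have hKr : (1 : ℝ) ≤ K := by exact_mod_cast hK1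
  have hKq : (q : ℝ) ≤ K * q := by nlinarith
  have hqKq : q ≤ K * q := Nat.le_mul_of_pos_left q (by omega)
  have hsm1 := small1 (q := q) hm hs hK1 hKe
  rw [← hv] at hsm1
  have hsmv : (((K * q : ℕ) : ℝ) + (q : ℕ) + v) * Real.exp (-(2 * m * v)) ≤ 1 / 2 := by
    refine le_trans (mul_le_mul_of_nonneg_right ?_ (Real.exp_pos _).le) hsm1
    have : (v : ℝ) ≤ q := by exact_mod_cast hvq
    push_cast
    linarith
  have hru : 0 ≤ rr α q0 u := by
    unfold rr
    have h1 : Real.sqrt ((q0 : ℝ) / u) ≤ 1 := by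
      rw [Real.sqrt_le_one, div_le_one hup]
      linarith
    exact mul_nonneg (by linarith) (by linarith)
  have hF := F_low (s := s) h hN hA hα hK (q := q) (i := K * q) (j := q) (by omega) hvu huq le_rfl
    le_rfl le_rfl (by omega) hsmv hPu hru hs0.le hsv hth
  obtain ⟨B, hB⟩ : ∃ B, B = rr α q0 u * (q * (1 + 0.3 * s)) + 1.1 * Real.log (2 * N) := ⟨_, rfl⟩
  rw [← hB] at hF
  have hNr : (1 : ℝ) ≤ N := by exact_mod_cast hN
  have hlog2 : 0 ≤ Real.log (2 * N) := Real.log_nonneg (by linarith)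
  have hlog4N : 0 ≤ Real.log (4 * N) := Real.log_nonneg (by linarith)
  have hlog4 : 0 ≤ Real.log 4 := Real.log_nonneg (by norm_num)
  have hB0 : 0 ≤ B := by
    rw [hB]
    have : 0 ≤ rr α q0 u * (q * (1 + 0.3 * s)) := mul_nonneg hru (by positivity)
    linarith
  -- the rate
  have hBr : B + Real.log 4 ≤ rr α q0 q * q := by
    have h1 := num3 (α := α) (L := 1.1 * Real.log (2 * N) + Real.log 4) hα hs0 hs8 hs2 hw hxp hs.h5
    rw [hB]
    unfold rr
    rw [← hsdef]
    linarith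
  have hrq : rr α q0 q * q ≤ 2 * α * q := by
    unfold rr
    rw [← hsdef]
    refine mul_le_mul_of_nonneg_right ?_ hxp.le
    have : 2 * α * (1 - s) ≤ 2 * α * 1 := mul_le_mul_of_nonneg_left (by linarith) (by linarith)
    linarith
  have hsm3 := small3 (q := q) hm hs hK1 hKe (by omega)
  have hmq : 36 ≤ m * q := hs.h2.trans (mul_le_mul_of_nonneg_left (by linarith) hm.le)
  have hE1 : Real.exp (-(m * q)) ≤ 1 / 2 := by
    rw [Real.exp_neg]
    have : 2 ≤ Real.exp (m * q) := by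
      have := Real.add_one_le_exp (m * q); linarith
    rw [inv_le_comm₀ (Real.exp_pos _) (by norm_num)]
    linarith
  have hsmq : (((K * q : ℕ) : ℝ) + (q : ℕ) + (q : ℕ)) * Real.exp (-(2 * m * q)) ≤ 1 / 2 := by
    refine le_trans (mul_le_mul_of_nonneg_right ?_ (Real.exp_pos _).le) (hsm3.trans hE1)
    push_cast
    linarith
  have hFs := F_sub h hN hA hK (q := q) (i := K * q) (j := q) (by omega) hqKq le_rfl le_rfl hsmq
  -- the overlap at the point
  have hAp : Real.exp (-B) / 2 * Real.exp (mn D q (K * q) q) ≤ D.A 0 q (K * q) q := by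
    have h1 : Real.exp (mn D q (K * q) q - B) = Real.exp (mn D q (K * q) q) * Real.exp (-B) := by
      rw [← Real.exp_add]; congr 1
    have h2 : 2 * (N : ℝ) * Real.exp (mn D q (K * q) q - q * q) ≤
        Real.exp (mn D q (K * q) q) * (Real.exp (-B) / 2) := by
      have h3 : 4 * (N : ℝ) ≤ Real.exp (q * q - B) := by
        have h4 : Real.log (4 * N) ≤ q * q - B := by
          have h5 : (q0 : ℝ) * q ≤ q * q := mul_le_mul_of_nonneg_right (by linarith) hxp.le
          have h6 : (2 * α + Real.log (4 * N) + 1) * q ≤ q0 * q :=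
            mul_le_mul_of_nonneg_right hs.h6 hxp.le
          have h7 : Real.log (4 * N) ≤ Real.log (4 * N) * q := by
            have : (1 : ℝ) ≤ q := by linarith
            exact le_mul_of_one_le_right hlog4N this
          linarith
        rw [Real.log_le_iff_le_exp (by positivity)] at h4
        exact h4
      have h4 := mul_le_mul_of_nonneg_right h3 (Real.exp_pos (mn D q (K * q) q - q * q)).le
      rw [← Real.exp_add] at h4
      have e : (q : ℝ) * q - B + (mn D q (K * q) q - q * q) = mn D q (K * q) q - B := by ring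
      rw [e, h1] at h4
      linarith
    rw [h1] at hF
    linarith
  -- extension
  intro i j hi hj
  have hy16 : Real.exp (-(m * q)) ≤ Real.exp (-B) / 2 / 16 := by
    rw [div_div, le_div_iff₀ (by norm_num)]
    have h1 : (2 * 16 : ℝ) ≤ Real.exp (m * q - B) := by
      have h2 := Real.add_one_le_exp (m * q - B)
      have h3 : B ≤ m * q / 8 := by
        have h4 : 16 * α * q ≤ m * q := mul_le_mul_of_nonneg_right hαm hxp.le
        linarith only [h4, hBr, hrq, hlog4]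
      linarith
    have h2 := mul_le_mul_of_nonneg_left h1 (Real.exp_pos (-(m * q))).le
    rw [← Real.exp_add] at h2
    have e : -(m * q) + (m * q - B) = -B := by ring
    rw [e] at h2
    exact h2
  have h5 := ext_A h hN hA (q := q) (i0 := K * q) (j0 := q) (by omega) hqKq le_rfl
    (x := Real.exp (-B) / 2) (y := Real.exp (-(m * q)))
    (by
      have : Real.exp (-B) ≤ 1 := Real.exp_le_one_iff.mpr (by linarith)
      linarith) hy16 (by
      refine le_trans (mul_le_mul_of_nonneg_right ?_ (Real.exp_pos _).le) hsm3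
      push_cast
      linarith) hAp i j hi hj
  refine le_trans (mul_le_mul_of_nonneg_right ?_ (Real.exp_pos _).le) h5
  have h6 : Real.exp (-(rr α q0 q * q)) ≤ Real.exp (-(B + Real.log 4)) :=
    Real.exp_le_exp.mpr (by linarith)
  refine h6.trans (le_of_eq ?_)
  rw [neg_add, Real.exp_add, Real.exp_neg (Real.log 4), Real.exp_log (by norm_num)]
  ring

/-- **PC4-I.** -/
theorem tI : S_I := by
  intro m α N hm hα hαm hN
  obtain ⟨Q, hQ⟩ := exists_sc hm hα N
  refine ⟨Q, fun D A0 K q0 h hA hq0 hA4 hK1 hKe hK hbase q i j hq hi hj => ?_⟩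
  have hs := hQ q0 hq0
  have h40 := hs.h4
  have hq0p : (0 : ℝ) < q0 := by linarith
  have hAq : A0 ≤ q0 := by omega
  have hKq : ∀ q, q ≤ K * q := fun q => Nat.le_mul_of_pos_left q (by omega)
  have hb : ∀ q, q0 ≤ q → q ≤ 64 * q0 → ∀ i j, K * q ≤ i → q ≤ j →
      Real.exp (-(α * q)) * Real.exp (mn D q i j) ≤ D.A 0 q i j := fun q h1 h2 i j h3 h4 =>
    base_ext h hN hA hm hα hαm hs (by omega) h1 (hbase q h1 h2) i j ((hKq q).trans h3) h4
  have hP : ∀ q, 32 * q0 ≤ q → PP D α K q0 q := by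
    intro q
    induction q using Nat.strong_induction_on with
    | _ q ih =>
      intro h32
      by_cases hle : q ≤ 64 * q0
      · intro i j h3 h4
        refine le_trans (mul_le_mul_of_nonneg_right (Real.exp_le_exp.mpr ?_) (Real.exp_pos _).le)
          (hb q (by omega) hle i j h3 h4)
        have hqp : (0 : ℝ) < q := by
          have : (32 * q0 : ℕ) ≤ (q : ℝ) := by exact_mod_cast h32
          push_cast at this
          linarith
        have h5 : Real.sqrt ((q0 : ℝ) / q) ≤ 1 / 2 := by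
          rw [Real.sqrt_le_left (by norm_num)]
          rw [div_le_iff₀ hqp]
          have : (32 * q0 : ℕ) ≤ (q : ℝ) := by exact_mod_cast h32
          push_cast at this
          linarith
        have h6 : α ≤ rr α q0 q := by
          unfold rr
          have := mul_le_mul_of_nonneg_left h5 (by linarith : 0 ≤ 2 * α)
          linarith
        have := mul_le_mul_of_nonneg_right h6 hqp.le
        linarith
      · have hq1 : 1 ≤ q0 := by
          have : (1 : ℝ) ≤ q0 := by linarith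
          exact_mod_cast this
        exact step h hN hA hm hα hαm hs hAq hK1 hKe hK (by omega) (ih _ (by omega) (by omega))
  have hqr : (0 : ℝ) ≤ q := Nat.cast_nonneg q
  by_cases hle : q ≤ 64 * q0
  · refine le_trans (mul_le_mul_of_nonneg_right (Real.exp_le_exp.mpr ?_) (Real.exp_pos _).le)
      (hb q hq hle i j hi hj)
    have : 0 ≤ α * q := mul_nonneg hα.le hqr
    linarith
  · refine le_trans (mul_le_mul_of_nonneg_right (Real.exp_le_exp.mpr ?_) (Real.exp_pos _).le)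
      (hP q (by omega) i j hi hj)
    have h1 : rr α q0 q ≤ 2 * α := by
      unfold rr
      have := mul_nonneg (by linarith : 0 ≤ 2 * α) (Real.sqrt_nonneg ((q0 : ℝ) / q))
      linarith
    have := mul_le_mul_of_nonneg_right h1 hqr
    linarith

end

end Run7.h4.VS
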