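import Mathlib
import Pool.Agent.Run7.h4.VS.Iter
import Pool.Agent.Run7.h4.VS.Dens2
import Pool.Agent.Run7.h897.ST.Joint2

/-!
# The densities of the vortices
-/

open MeasureTheory Matrix Filter Topology
open Run7.h4.YM

namespace Run7.h4.VS

set_option linter.unusedSectionVars false
set_option linter.unusedVariables false
set_option linter.style.haveILetI false

noncomputable section

section

variable {N : ℕ} [NeZero N]

theorem sum_rz (g : ZMod N → ℝ) : ∑ c ∈ Finset.range N, g (c : ZMod N) = ∑ z, g z := by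
  refine Finset.sum_nbij' (fun c => (c : ZMod N)) (fun z => z.val) (fun c _ => Finset.mem_univ _)
    (fun z _ => Finset.mem_range.mpr (ZMod.val_lt z)) (fun c hc => ?_) (fun z _ => ?_)
    (fun c _ => rfl)
  · rw [Finset.mem_range] at hc
    exact ZMod.val_natCast_of_lt hc
  · rw [ZMod.natCast_val, ZMod.cast_id]

theorem cs_mul_nat (c j : ℕ) : cs ((c : ZMod N) * (j : ZMod N)) =
    Real.cos (2 * Real.pi * (c * j) / N) := by
  rw [← Nat.cast_mul, cs_nat]
  push_cast
  rfl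

/-- the density of the vortices with the flux `j` -/
def wj (σ : ℕ → ℝ → ℝ) (N j : ℕ) (β : ℝ) : ℝ :=
  -(1 / N) * ∑ c ∈ Finset.range N, Real.cos (2 * Real.pi * (c * j) / N) * σ c β

theorem wj_cs (σ : ℕ → ℝ → ℝ) (j : ℕ) (β : ℝ) :
    wj σ N j β = -(1 / N) * ∑ z : ZMod N, cs (z * (j : ZMod N)) * σ z.val β := by
  unfold wj
  rw [← sum_rz fun z : ZMod N => cs (z * (j : ZMod N)) * σ z.val β]
  congr 1
  refine Finset.sum_congr rfl fun c hc => ?_
  rw [Finset.mem_range] at hc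
  rw [cs_mul_nat, ZMod.val_natCast_of_lt hc]

/-- the Fourier inversion for an even function with `s 0 = 0` -/
theorem fourier_inv {s : ZMod N → ℝ} (he : ∀ z, s (-z) = s z) (h0 : s 0 = 0) (c : ZMod N) :
    ∑ j : ZMod N, (-(1 / N) * ∑ z : ZMod N, cs (z * j) * s z) * (1 - cs (c * j)) = s c := by
  have hN : (N : ℝ) ≠ 0 := by exact_mod_cast NeZero.ne N
  have h1 := cp_inv he c 1
  have h2 := cp_inv he 0 1
  rw [cp_one] at h1 h2
  simp only [pow_one, mul_zero, cs_zero, one_mul] at h1 h2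
  have e : ∀ j : ZMod N, (-(1 / N) * ∑ z : ZMod N, cs (z * j) * s z) * (1 - cs (c * j)) =
      (1 / N) * (cs (j * c) * ∑ i, s i * cs (j * i)) - (1 / N) * ∑ i, s i * cs (j * i) := by
    intro j
    have e2 : ∑ z : ZMod N, cs (z * j) * s z = ∑ i, s i * cs (j * i) :=
      Finset.sum_congr rfl fun z _ => by rw [mul_comm z j, mul_comm]
    rw [e2, mul_comm c j]
    ring
  simp only [e, Finset.sum_sub_distrib, ← Finset.mul_sum, h1, h2, h0]
  field_simp
  ring

end

section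

variable {N l k : ℕ} [NeZero N] [NeZero l] [MeasurableSpace (SU N)] [BorelSpace (SU N)]

open Pool.Agent.Run7.h897.ST in
theorem Zf_even {a b : ℕ} [NeZero a] [NeZero b] (μ : Measure (SU N)) [IsProbabilityMeasure μ]
    [μ.IsHaarMeasure] {j j' : ℕ} (h : (j : ZMod N) = -(j' : ZMod N)) (β : ℝ) :
    Run7.h4.VS.Zf a b l μ k j β = Run7.h4.VS.Zf a b l μ k j' β := by
  letI : MeasurableSpace (S6 N) := borel _
  haveI : BorelSpace (S6 N) := ⟨rfl⟩
  haveI := mu6_prob μ
  haveI := mu6_haar μ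
  haveI := right_inv'' (mu6 μ)
  haveI := inv_inv'' (mu6 μ)
  rw [Pool.Agent.Run7.h897.ST.Zf_eq, Pool.Agent.Run7.h897.ST.Zf_eq, h,
    ZT_neg (Pool.Agent.Run7.h871.TC.wE_bd β) (Pool.Agent.Run7.h871.TC.wE_sy β)
      (Pool.Agent.Run7.h871.UP.zc_cn β)]

theorem Zf_posN {m m' : ℕ} [NeZero m] [NeZero m'] (hζ : IsPrimitiveRoot (om N k) N)
    (μ : Measure (SU N)) [IsProbabilityMeasure μ] [μ.IsHaarMeasure] (β : ℝ) :
    0 < Run7.h4.VS.Zf (2 * m) (2 * m') l μ k 0 β := by
  have hinv := inv_inv' μ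
  rw [Zf_zero μ m m' hζ]
  exact ZZ_pos (m := m) (m' := m') (l := l) μ k β

/-- the relative weights of the fluxes -/
def aw2 (μ : Measure (SU N)) (p l k : ℕ) [NeZero l] [NeZero (2 * p)] (β : ℝ) (z : ZMod N) : ℝ :=
  if z = 0 then 0 else Run7.h4.VS.Zf (2 * p) (2 * p) l μ k z.val β /
    Run7.h4.VS.Zf (2 * p) (2 * p) l μ k 0 β

/-- the densities and the logarithm -/
theorem core {p : ℕ} [NeZero p] [NeZero (2 * p)] (hk : Nat.Coprime k N) (μ : Measure (SU N))
    [IsProbabilityMeasure μ] [μ.IsHaarMeasure] {σ : ℕ → ℝ → ℝ} {β E : ℝ}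
    (hZ : ∀ c : ℕ, 0 < Pool.Agent.Run7.h897.ST.Ze (2 * p) (2 * p) l μ k c β ∧
      |Real.log (Pool.Agent.Run7.h897.ST.Ze (2 * p) (2 * p) l μ k c β /
        Pool.Agent.Run7.h897.ST.Ze (2 * p) (2 * p) l μ k 0 β) + σ c β * (4 * (p * p))| ≤ E)
    {j : ℕ} (hj : ¬ N ∣ j) :
    |wj σ N j β * (4 * (p * p)) - lg (aw2 μ p l k β) (j : ZMod N)| ≤ E := by
  have hζ := om_prim (N := N) hk
  have hN : (0 : ℝ) < N := by exact_mod_cast NeZero.pos N
  obtain ⟨D, hD⟩ : ∃ D : ℝ, D = Run7.h4.VS.Zf (2 * p) (2 * p) l μ k 0 β := ⟨_, rfl⟩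
  have hD0 : 0 < D := by rw [hD]; exact Zf_posN hζ μ β
  obtain ⟨x, hx⟩ : ∃ x : ZMod N → ℝ, x = fun c => ∑ i, aw2 μ p l k β i * cs (c * i) := ⟨_, rfl⟩
  -- the electric partition functions
  have hZe : ∀ c : ℕ, Pool.Agent.Run7.h897.ST.Ze (2 * p) (2 * p) l μ k c β =
      D / N * (1 + x (c : ZMod N)) := by
    intro c
    unfold Pool.Agent.Run7.h897.ST.Ze
    have h1 : ∑ i ∈ Finset.range N, Real.cos (2 * Real.pi * (c * i) / N) *
        Run7.h4.VS.Zf (2 * p) (2 * p) l μ k i β =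
        ∑ z : ZMod N, cs ((c : ZMod N) * z) * Run7.h4.VS.Zf (2 * p) (2 * p) l μ k z.val β := by
      rw [← sum_rz fun z : ZMod N => cs ((c : ZMod N) * z) *
        Run7.h4.VS.Zf (2 * p) (2 * p) l μ k z.val β]
      refine Finset.sum_congr rfl fun i hi => ?_
      rw [Finset.mem_range] at hi
      rw [cs_mul_nat, ZMod.val_natCast_of_lt hi]
    have h2 : ∑ z : ZMod N, cs ((c : ZMod N) * z) * Run7.h4.VS.Zf (2 * p) (2 * p) l μ k z.val β =
        D * (1 + x (c : ZMod N)) := by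
      rw [hx]
      simp only
      rw [← Finset.add_sum_erase _ _ (Finset.mem_univ (0 : ZMod N)),
        ← Finset.add_sum_erase (a := (0 : ZMod N)) Finset.univ
          (fun i => aw2 μ p l k β i * cs ((c : ZMod N) * i)) (Finset.mem_univ _)]
      have e0 : aw2 μ p l k β 0 = 0 := by unfold aw2; rw [if_pos rfl]
      rw [e0, zero_mul, zero_add, mul_add, mul_one, mul_zero, cs_zero, one_mul, ZMod.val_zero, ← hD,
        Finset.mul_sum]
      congr 1
      refine Finset.sum_congr rfl fun z hz => ?_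
      have hz0 : z ≠ 0 := Finset.ne_of_mem_erase hz
      unfold aw2
      rw [if_neg hz0, ← hD]
      field_simp
    rw [h1, h2]
    ring
  have hx1 : ∀ c : ℕ, 0 < 1 + x (c : ZMod N) := by
    intro c
    have h1 := (hZ c).1
    rw [hZe] at h1
    have h2 : 0 < D / N := by positivity
    exact (mul_pos_iff_of_pos_left h2).mp h1
  have hlog : ∀ c : ℕ, Real.log (Pool.Agent.Run7.h897.ST.Ze (2 * p) (2 * p) l μ k c β /
      Pool.Agent.Run7.h897.ST.Ze (2 * p) (2 * p) l μ k 0 β) =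
      Real.log (1 + x (c : ZMod N)) - Real.log (1 + x 0) := by
    intro c
    have h0 : 0 < 1 + x 0 := by
      have := hx1 0
      rwa [Nat.cast_zero] at this
    rw [hZe, hZe, Nat.cast_zero, mul_div_mul_left _ _ (by positivity),
      Real.log_div (hx1 c).ne' h0.ne']
  have hjz : (j : ZMod N) ≠ 0 := fun h => hj ((ZMod.natCast_eq_zero_iff j N).mp h)
  have hsum0 : ∑ z : ZMod N, cs (z * (j : ZMod N)) = 0 := by rw [sum_cs, if_neg hjz]
  have e1 : wj σ N j β * (4 * (p * p)) - lg (aw2 μ p l k β) (j : ZMod N) =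
      -(1 / N) * ∑ z : ZMod N, cs (z * (j : ZMod N)) *
        (Real.log (Pool.Agent.Run7.h897.ST.Ze (2 * p) (2 * p) l μ k z.val β /
          Pool.Agent.Run7.h897.ST.Ze (2 * p) (2 * p) l μ k 0 β) + σ z.val β * (4 * (p * p))) := by
    rw [wj_cs]
    unfold lg
    have e2 : ∑ z : ZMod N, cs (z * (j : ZMod N)) *
        (Real.log (Pool.Agent.Run7.h897.ST.Ze (2 * p) (2 * p) l μ k z.val β /
          Pool.Agent.Run7.h897.ST.Ze (2 * p) (2 * p) l μ k 0 β) + σ z.val β * (4 * (p * p))) =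
        ∑ z : ZMod N, cs (z * (j : ZMod N)) * Real.log (1 + x z) -
          Real.log (1 + x 0) * ∑ z : ZMod N, cs (z * (j : ZMod N)) +
          (∑ z : ZMod N, cs (z * (j : ZMod N)) * σ z.val β) * (4 * (p * p)) := by
      rw [Finset.mul_sum, Finset.sum_mul, ← Finset.sum_sub_distrib, ← Finset.sum_add_distrib]
      refine Finset.sum_congr rfl fun z _ => ?_
      rw [hlog, ZMod.natCast_val, ZMod.cast_id]
      ring
    rw [e2, hsum0, hx]
    simp only
    ring
  rw [e1, abs_mul, abs_neg, abs_of_pos (by positivity : (0 : ℝ) < 1 / N)]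
  have h3 : |∑ z : ZMod N, cs (z * (j : ZMod N)) *
      (Real.log (Pool.Agent.Run7.h897.ST.Ze (2 * p) (2 * p) l μ k z.val β /
        Pool.Agent.Run7.h897.ST.Ze (2 * p) (2 * p) l μ k 0 β) + σ z.val β * (4 * (p * p)))| ≤
      N * E := by
    refine (Finset.abs_sum_le_sum_abs _ _).trans ?_
    have h4 : ∀ z ∈ (Finset.univ : Finset (ZMod N)), |cs (z * (j : ZMod N)) *
        (Real.log (Pool.Agent.Run7.h897.ST.Ze (2 * p) (2 * p) l μ k z.val β /
          Pool.Agent.Run7.h897.ST.Ze (2 * p) (2 * p) l μ k 0 β) + σ z.val β * (4 * (p * p)))| ≤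
        E := by
      intro z _
      rw [abs_mul]
      have h5 := (hZ z.val).2
      have h6 := abs_cs_le (z * (j : ZMod N))
      have h7 := abs_nonneg (Real.log (Pool.Agent.Run7.h897.ST.Ze (2 * p) (2 * p) l μ k z.val β /
          Pool.Agent.Run7.h897.ST.Ze (2 * p) (2 * p) l μ k 0 β) + σ z.val β * (4 * (p * p)))
      calc _ ≤ 1 * _ := mul_le_mul_of_nonneg_right h6 h7
        _ ≤ E := by rw [one_mul]; exact h5
    refine (Finset.sum_le_sum h4).trans (le_of_eq ?_)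
    rw [Finset.sum_const, Finset.card_univ, ZMod.card, nsmul_eq_mul]
  refine (mul_le_mul_of_nonneg_left h3 (by positivity)).trans (le_of_eq ?_)
  field_simp

end

end

end Run7.h4.VS
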