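import Mathlib
import Pool.Agent.Run7.h4.VS.Dens3

/-!
# The densities of the vortices: asymptotics
-/

open MeasureTheory Matrix Filter Topology
open Run7.h4.YM
open Pool.Agent.Run7.h897.ST (SoftZ)

namespace Run7.h4.VS

set_option linter.unusedSectionVars false
set_option linter.unusedVariables false
set_option linter.style.haveILetI false

noncomputable section

theorem size_p {C0 B m : ℝ} (hm : 0 < m) (hC0 : 0 < C0) (hB : B + 1 ≤ 2 * m * C0) (n0 : ℕ) :
    ∃ β0 : ℝ, 0 < β0 ∧ ∀ β : ℝ, β0 ≤ β → ∃ p : ℕ, n0 ≤ p ∧ 1 ≤ p ∧ (p : ℝ) ≤ C0 * β ∧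
      ((p : ℝ) + p) * Real.exp (-(2 * m * p)) ≤ Real.exp (-(B * β)) := by
  obtain ⟨b1, hb1, hpe⟩ := poly_exp (2 * C0 * Real.exp (2 * m)) 1 (by positivity) one_pos
  refine ⟨max (max b1 1) ((n0 + 2) / C0), by positivity, fun β hβ => ?_⟩
  have hβ1 : b1 ≤ β := ((le_max_left _ _).trans (le_max_left _ _)).trans hβ
  have hβ2 : 1 ≤ β := ((le_max_right _ _).trans (le_max_left _ _)).trans hβ
  have hβ3 : (n0 + 2) / C0 ≤ β := (le_max_right _ _).trans hβ
  rw [div_le_iff₀ hC0] at hβ3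
  have hn : (0 : ℝ) ≤ C0 * β := by positivity
  have h1 := Nat.floor_le hn
  have h2 := Nat.lt_floor_add_one (C0 * β)
  obtain ⟨p, hp⟩ : ∃ p : ℕ, p = ⌊C0 * β⌋₊ := ⟨_, rfl⟩
  rw [← hp] at h1 h2
  have h3 : (n0 : ℝ) + 1 < p + 0 := by linarith
  have h4 : n0 + 1 < p := by
    have : ((n0 + 1 : ℕ) : ℝ) < (p : ℝ) := by push_cast; linarith
    exact_mod_cast this
  refine ⟨p, by omega, by omega, h1, ?_⟩
  have h5 : Real.exp (-(2 * m * p)) ≤ Real.exp (2 * m) * Real.exp (-((B + 1) * β)) := by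
    rw [← Real.exp_add]
    refine Real.exp_le_exp.mpr ?_
    have h6 : 2 * m * (C0 * β) ≤ 2 * m * (p + 1) :=
      mul_le_mul_of_nonneg_left (by linarith) (by positivity)
    have h7 : (B + 1) * β ≤ 2 * m * C0 * β := mul_le_mul_of_nonneg_right hB (by linarith)
    nlinarith
  have h8 : (p : ℝ) + p ≤ 2 * C0 * β ^ 2 := by nlinarith
  have h9 := hpe β hβ1
  have h10 : ((p : ℝ) + p) * Real.exp (-(2 * m * p)) ≤
      2 * C0 * β ^ 2 * (Real.exp (2 * m) * Real.exp (-((B + 1) * β))) :=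
    mul_le_mul h8 h5 (Real.exp_pos _).le (by positivity)
  refine h10.trans ?_
  have h11 : 2 * C0 * β ^ 2 * (Real.exp (2 * m) * Real.exp (-((B + 1) * β))) =
      2 * C0 * Real.exp (2 * m) * β ^ 2 * Real.exp (-((B + 1) * β)) := by ring
  rw [h11]
  refine (mul_le_mul_of_nonneg_right h9 (Real.exp_pos _).le).trans (le_of_eq ?_)
  rw [← Real.exp_add]
  congr 1
  ring

section

variable {N l k : ℕ} [NeZero N] [NeZero l] [MeasurableSpace (SU N)] [BorelSpace (SU N)]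

/-- the action as a function on residues -/
def Sz (S : ℕ → ℝ) (z : ZMod N) : ℝ := if z = 0 then 0 else S z.val

theorem val_ndvd {z : ZMod N} (hz : z ≠ 0) : ¬ N ∣ z.val := fun h => hz (by
  have h1 := (ZMod.natCast_eq_zero_iff z.val N).mpr h
  rwa [ZMod.natCast_val, ZMod.cast_id] at h1)

theorem Sz_sub {μ : Measure (SU N)} {S : ℕ → ℝ} (hS : BndJ N l k μ S) (i j : ZMod N) :
    Sz S (i + j) ≤ Sz S i + Sz S j := by
  obtain ⟨δ, hδ, hδS⟩ := hS.pos
  have hnn : ∀ z : ZMod N, 0 ≤ Sz S z := by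
    intro z
    unfold Sz
    split_ifs with h
    · exact le_rfl
    · exact hδ.le.trans (hδS _ (val_ndvd h))
  by_cases hij : i + j = 0
  · have : Sz S (i + j) = 0 := by unfold Sz; rw [if_pos hij]
    rw [this]
    exact add_nonneg (hnn i) (hnn j)
  · by_cases hi : i = 0
    · subst hi; rw [zero_add]; linarith [hnn 0]
    · by_cases hj : j = 0
      · subst hj; rw [add_zero]; linarith [hnn 0]
      · unfold Sz
        rw [if_neg hij, if_neg hi, if_neg hj]
        refine hS.sub _ _ _ ?_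
        simp only [ZMod.natCast_val, ZMod.cast_id]

theorem aw2_even {p : ℕ} [NeZero p] [NeZero (2 * p)] (μ : Measure (SU N))
    [IsProbabilityMeasure μ] [μ.IsHaarMeasure] (β : ℝ) (z : ZMod N) :
    aw2 μ p l k β (-z) = aw2 μ p l k β z := by
  unfold aw2
  by_cases hz : z = 0
  · subst hz; simp
  · rw [if_neg hz, if_neg (neg_ne_zero.mpr hz)]
    congr 1
    refine Zf_even μ ?_ β
    simp only [ZMod.natCast_val, ZMod.cast_id]

theorem aw2_nonneg {p : ℕ} [NeZero p] [NeZero (2 * p)] (μ : Measure (SU N))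
    [IsProbabilityMeasure μ] [μ.IsHaarMeasure] (β : ℝ) (z : ZMod N) :
    0 ≤ aw2 μ p l k β z := by
  unfold aw2
  split_ifs
  · exact le_rfl
  · exact div_nonneg (integral_nonneg fun U => (Real.exp_pos _).le)
      (integral_nonneg fun U => (Real.exp_pos _).le)

/-- the upper bound for all densities -/
theorem dens_up (hk : Nat.Coprime k N) (μ : Measure (SU N)) [IsProbabilityMeasure μ]
    [μ.IsHaarMeasure] {S : ℕ → ℝ} (hS : BndJ N l k μ S) {σ : ℕ → ℝ → ℝ} {m : ℝ} (hm : 0 < m)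
    (hσ : SoftZ μ l k σ m) {j : ℕ} (hj : ¬ N ∣ j) {ε : ℝ} (hε : 0 < ε) :
    ∀ᶠ β in atTop, |wj σ N j β| ≤ Real.exp (-(β * (S j - ε))) := by
  have hζ := om_prim (N := N) hk
  obtain ⟨δ, hδ, hδS⟩ := hS.pos
  have hSz : ∀ i : ZMod N, i ≠ 0 → Sz S i = S i.val := fun i hi => by unfold Sz; rw [if_neg hi]
  have hjz : (j : ZMod N) ≠ 0 := fun h => hj ((ZMod.natCast_eq_zero_iff j N).mp h)
  have hSj : Sz S (j : ZMod N) = S j := by
    rw [hSz _ hjz]
    refine hS.congr _ _ ?_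
    rw [ZMod.natCast_val, ZMod.cast_id]
  obtain ⟨ε', hε', b1, hb1, hlg⟩ := lg_up (S := Sz (N := N) S) (T := δ) (by unfold Sz; simp)
    (Sz_sub hS) hδ (fun i hi => by rw [hSz i hi]; exact hδS _ (val_ndvd hi)) (half_pos hε)
  obtain ⟨M, hM⟩ := hS.upj ε' hε'
  obtain ⟨C0, hC0⟩ : ∃ C0 : ℝ, C0 = (|S j| + 2) / m := ⟨_, rfl⟩
  have hC00 : 0 < C0 := by rw [hC0]; positivity
  have hmC : m * C0 = |S j| + 2 := by rw [hC0]; field_simp
  obtain ⟨b2, hb2, hup⟩ := hM C0 hC00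
  obtain ⟨A, b3, hA1, hsoft⟩ := hσ
  obtain ⟨b4, hb4, hsz⟩ := size_p (C0 := C0) (B := S j) (m := m) hm hC00
    (by have := le_abs_self (S j); nlinarith [abs_nonneg (S j)]) (max M A)
  have h2e : ∃ b5 : ℝ, ∀ β, b5 ≤ β → 2 ≤ Real.exp (β * (ε / 2)) := by
    refine ⟨2 / ε, fun β hβ => ?_⟩
    rw [div_le_iff₀ hε] at hβ
    have := Real.add_one_le_exp (β * (ε / 2))
    linarith
  obtain ⟨b5, hb5⟩ := h2e
  filter_upwards [eventually_ge_atTop b1, eventually_ge_atTop b2, eventually_ge_atTop b3,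
    eventually_ge_atTop b4, eventually_ge_atTop b5, eventually_ge_atTop 0] with β h1 h2 h3 h4 h5 h6
  obtain ⟨p, hp1, hp2, hp3, hp4⟩ := hsz β h4
  haveI : NeZero p := ⟨by omega⟩
  haveI : NeZero (2 * p) := ⟨by omega⟩
  have hsf := hsoft β h3 p p ((le_max_right _ _).trans hp1) ((le_max_right _ _).trans hp1)
  have hcore := core (p := p) hk μ (σ := σ) (β := β)
    (E := ((p : ℝ) + p) * Real.exp (-(2 * m * (p : ℕ)))) (fun c => by
      have := hsf.1 c
      rwa [min_self] at this) hj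
  have hub : ∀ i : ZMod N, i ≠ 0 → aw2 μ p l k β i ≤ Real.exp (-(β * (Sz S i - ε'))) := by
    intro i hi
    have h7 := hup β h2 p p ((le_max_left _ _).trans hp1) ((le_max_left _ _).trans hp1) hp3 hp3
      i.val (val_ndvd hi)
    have hD := Zf_posN (m := p) (m' := p) (l := l) hζ μ β
    unfold aw2
    rw [if_neg hi, div_le_iff₀ hD, hSz i hi]
    exact h7
  obtain ⟨-, h8⟩ := hlg β h1 (aw2 μ p l k β) (aw2_nonneg μ β) (aw2_even μ β)
    (by unfold aw2; rw [if_pos rfl]) hub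
  have h9 := h8 (j : ZMod N)
  rw [hSj] at h9
  have hpr : (1 : ℝ) ≤ p := by exact_mod_cast hp2
  have h10 : |wj σ N j β * (4 * (p * p))| ≤ Real.exp (-(β * (S j - ε / 2))) +
      Real.exp (-(S j * β)) := by
    have h11 := abs_add_le (wj σ N j β * (4 * (p * p)) - lg (aw2 μ p l k β) (j : ZMod N))
      (lg (aw2 μ p l k β) (j : ZMod N))
    rw [sub_add_cancel] at h11
    linarith
  have h12 : |wj σ N j β| ≤ |wj σ N j β * (4 * (p * p))| := by
    rw [abs_mul, abs_of_nonneg (by positivity : (0 : ℝ) ≤ 4 * (p * p))]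
    have : (1 : ℝ) ≤ 4 * (p * p) := by nlinarith
    nlinarith [abs_nonneg (wj σ N j β)]
  have h13 : Real.exp (-(S j * β)) ≤ Real.exp (-(β * (S j - ε / 2))) := by
    refine Real.exp_le_exp.mpr ?_
    have : 0 ≤ β * ε := by positivity
    nlinarith
  have h14 : |wj σ N j β| ≤ 2 * Real.exp (-(β * (S j - ε / 2))) := by linarith
  refine h14.trans ?_
  refine (mul_le_mul_of_nonneg_right (hb5 β h5) (Real.exp_pos _).le).trans (le_of_eq ?_)
  rw [← Real.exp_add]
  congr 1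
  ring

/-- the lower bound for the densities of the irreducible vortices -/
theorem dens_lo (hk : Nat.Coprime k N) (μ : Measure (SU N)) [IsProbabilityMeasure μ]
    [μ.IsHaarMeasure] {S : ℕ → ℝ} (hS : BndJ N l k μ S) {σ : ℕ → ℝ → ℝ} {m : ℝ} (hm : 0 < m)
    (hσ : SoftZ μ l k σ m) {j : ℕ} (hj : ¬ N ∣ j)
    (hirr : ∀ i i' : ℕ, ¬ N ∣ i → ¬ N ∣ i' → i + i' ≡ j [MOD N] → S j < S i + S i')
    {ε : ℝ} (hε : 0 < ε) :
    ∀ᶠ β in atTop, Real.exp (-(β * (S j + ε))) ≤ wj σ N j β := by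
  have hζ := om_prim (N := N) hk
  obtain ⟨δ, hδ, hδS⟩ := hS.pos
  have hSz : ∀ i : ZMod N, i ≠ 0 → Sz S i = S i.val := fun i hi => by unfold Sz; rw [if_neg hi]
  have hjz : (j : ZMod N) ≠ 0 := fun h => hj ((ZMod.natCast_eq_zero_iff j N).mp h)
  have hSj : Sz S (j : ZMod N) = S j := by
    rw [hSz _ hjz]
    refine hS.congr _ _ ?_
    rw [ZMod.natCast_val, ZMod.cast_id]
  have hirr' : ∀ i : ZMod N, i ≠ 0 → i ≠ (j : ZMod N) →
      Sz S (j : ZMod N) < Sz S i + Sz S ((j : ZMod N) - i) := by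
    intro i hi hij
    have h0 : (j : ZMod N) - i ≠ 0 := sub_ne_zero.mpr (Ne.symm hij)
    rw [hSj, hSz i hi, hSz _ h0]
    refine hirr _ _ (val_ndvd hi) (val_ndvd h0) ?_
    rw [← ZMod.natCast_eq_natCast_iff]
    push_cast
    simp only [ZMod.natCast_val, ZMod.cast_id]
    exact add_sub_cancel _ _
  obtain ⟨ε', hε', b1, hb1, hlg⟩ := lg_lo (S := Sz (N := N) S) (T := δ) (by unfold Sz; simp)
    (Sz_sub hS) hδ (fun i hi => by rw [hSz i hi]; exact hδS _ (val_ndvd hi)) hirr'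
    (by linarith : 0 < ε / 4)
  obtain ⟨M, hM⟩ := hS.upj ε' hε'
  obtain ⟨b6, M', hb6, hM'0, hlo⟩ := hS.lo j ε' hε'
  obtain ⟨B, hB⟩ : ∃ B : ℝ, B = S j + ε / 4 + 1 := ⟨_, rfl⟩
  obtain ⟨C0, hC0⟩ : ∃ C0 : ℝ, C0 = (|B| + 2) / m := ⟨_, rfl⟩
  have hC00 : 0 < C0 := by rw [hC0]; positivity
  have hmC : m * C0 = |B| + 2 := by rw [hC0]; field_simp
  obtain ⟨b2, hb2, hup⟩ := hM C0 hC00
  obtain ⟨A, b3, hA1, hsoft⟩ := hσ
  obtain ⟨b4, hb4, hsz⟩ := size_p (C0 := C0) (B := B) (m := m) hm hC00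
    (by have := le_abs_self B; nlinarith [abs_nonneg B]) (max (max M M') A)
  obtain ⟨b5, hb5, hpe⟩ := poly_exp (8 * C0 ^ 2) (3 * ε / 4) (by positivity) (by linarith)
  filter_upwards [eventually_ge_atTop b1, eventually_ge_atTop b2, eventually_ge_atTop b3,
    eventually_ge_atTop b4, eventually_ge_atTop b5, eventually_ge_atTop b6,
    eventually_ge_atTop 1] with β h1 h2 h3 h4 h5 h6 h7
  obtain ⟨p, hp1, hp2, hp3, hp4⟩ := hsz β h4
  haveI : NeZero p := ⟨by omega⟩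
  haveI : NeZero (2 * p) := ⟨by omega⟩
  have hpA : A ≤ p := (le_max_right _ _).trans hp1
  have hpM : M ≤ p := ((le_max_left _ _).trans (le_max_left _ _)).trans hp1
  have hpM' : M' ≤ p := ((le_max_right _ _).trans (le_max_left _ _)).trans hp1
  have hsf := hsoft β h3 p p hpA hpA
  have hcore := core (p := p) hk μ (σ := σ) (β := β)
    (E := ((p : ℝ) + p) * Real.exp (-(2 * m * (p : ℕ)))) (fun c => by
      have := hsf.1 c
      rwa [min_self] at this) hj
  have hD := Zf_posN (m := p) (m' := p) (l := l) hζ μ β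
  have hub : ∀ i : ZMod N, i ≠ 0 → aw2 μ p l k β i ≤ Real.exp (-(β * (Sz S i - ε'))) := by
    intro i hi
    have h7 := hup β h2 p p hpM hpM hp3 hp3 i.val (val_ndvd hi)
    unfold aw2
    rw [if_neg hi, div_le_iff₀ hD, hSz i hi]
    exact h7
  have hlb : Real.exp (-(β * (Sz S (j : ZMod N) + ε'))) ≤ aw2 μ p l k β (j : ZMod N) := by
    have h8 := hlo β h6 p p hpM' hpM'
    unfold aw2
    rw [if_neg hjz, le_div_iff₀ hD, hSj]
    refine h8.trans (le_of_eq ?_)
    have hζ' := Zf_even (N := N) (l := l) (k := k) (a := 2 * p) (b := 2 * p) μ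
      (j := (-(j : ZMod N)).val) (j' := (j : ZMod N).val) (by
        simp only [ZMod.natCast_val, ZMod.cast_id]) β
    have hζ2 := Zf_even (N := N) (l := l) (k := k) (a := 2 * p) (b := 2 * p) μ
      (j := (-(j : ZMod N)).val) (j' := j) (by
        simp only [ZMod.natCast_val, ZMod.cast_id]) β
    rw [← hζ', hζ2]
  have h9 := hlg β h1 (aw2 μ p l k β) (aw2_nonneg μ β) (aw2_even μ β)
    (by unfold aw2; rw [if_pos rfl]) hub hlb
  rw [hSj] at h9
  have hpr : (1 : ℝ) ≤ p := by exact_mod_cast hp2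
  have h10 : Real.exp (-(B * β)) ≤ 1 / 2 * Real.exp (-(β * (S j + ε / 4))) := by
    have e : Real.exp (-(B * β)) = Real.exp (-β) * Real.exp (-(β * (S j + ε / 4))) := by
      rw [← Real.exp_add, hB]; congr 1; ring
    rw [e]
    refine mul_le_mul_of_nonneg_right ?_ (Real.exp_pos _).le
    rw [Real.exp_neg, inv_eq_one_div]
    refine one_div_le_one_div_of_le (by norm_num) ?_
    have := Real.add_one_le_exp β
    linarith
  have h11 : 1 / 2 * Real.exp (-(β * (S j + ε / 4))) ≤ wj σ N j β * (4 * (p * p)) := by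
    have h12 := (abs_le.mp hcore).1
    linarith
  have hpp : 4 * ((p : ℝ) * p) ≤ 4 * C0 ^ 2 * β ^ 2 := by
    have : (p : ℝ) * p ≤ (C0 * β) * (C0 * β) := mul_le_mul hp3 hp3 (by positivity) (by positivity)
    nlinarith
  have hw0 : 0 < wj σ N j β := by
    have h13 : 0 < wj σ N j β * (4 * (p * p)) := lt_of_lt_of_le (by positivity) h11
    exact (mul_pos_iff_of_pos_right (by positivity)).mp h13
  have h14 : Real.exp (-(β * (S j + ε / 4))) ≤ wj σ N j β * (8 * C0 ^ 2 * β ^ 2) := by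
    have h15 := mul_le_mul_of_nonneg_left hpp hw0.le
    nlinarith
  have h16 := hpe β h5
  have h17 : Real.exp (-(β * (S j + ε / 4))) ≤ wj σ N j β * Real.exp (β * (3 * ε / 4)) :=
    h14.trans (mul_le_mul_of_nonneg_left h16 hw0.le)
  have h18 : Real.exp (-(β * (S j + ε / 4))) = Real.exp (-(β * (S j + ε))) *
      Real.exp (β * (3 * ε / 4)) := by
    rw [← Real.exp_add]; congr 1; ring
  rw [h18] at h17
  exact le_of_mul_le_mul_right h17 (Real.exp_pos _)

end

end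

end Run7.h4.VS
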