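import Mathlib
import Pool.Agent.Run7.h4.VS.Dens4

/-!
# The string tensions in terms of the densities of the vortices
-/

open MeasureTheory Matrix Filter Topology
open Run7.h4.YM
open Pool.Agent.Run7.h897.ST (SoftZ)

namespace Run7.h4.VS

set_option linter.unusedSectionVars false
set_option linter.unusedVariables false
set_option linter.style.haveILetI false

noncomputable section

variable {N l k : ℕ} [NeZero N] [NeZero l] [MeasurableSpace (SU N)] [BorelSpace (SU N)]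

theorem zero_of_small {x : ℝ} {A : ℕ} (h : ∀ p : ℕ, A ≤ p → 1 ≤ p → |x| * (4 * (p * p)) ≤ 4 * p) :
    x = 0 := by
  by_contra hx
  have hx0 : 0 < |x| := abs_pos.mpr hx
  obtain ⟨n, hn⟩ := exists_nat_gt (1 / |x|)
  have h1 := h (max (max A 1) n) ((le_max_left _ _).trans (le_max_left _ _))
    ((le_max_right _ _).trans (le_max_left _ _))
  obtain ⟨p, hp⟩ : ∃ p : ℕ, p = max (max A 1) n := ⟨_, rfl⟩
  rw [← hp] at h1
  have hp1 : (1 : ℝ) ≤ p := by
    rw [hp]; exact_mod_cast (le_max_right A 1).trans (le_max_left _ _)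
  have hpn : (n : ℝ) ≤ p := by rw [hp]; exact_mod_cast le_max_right _ _
  rw [div_lt_iff₀ hx0] at hn
  have h2 : |x| * p ≤ 1 := by
    have h3 : (|x| * p) * p ≤ 1 * p := by nlinarith
    exact le_of_mul_le_mul_right h3 (by linarith)
  nlinarith

/-- symmetries of the string tensions -/
theorem soft_sym {μ : Measure (SU N)} [IsProbabilityMeasure μ] [μ.IsHaarMeasure]
    {σ : ℕ → ℝ → ℝ} {m : ℝ} (hm : 0 < m) (hσ : SoftZ μ l k σ m) : ∃ β0 : ℝ, ∀ β : ℝ, β0 ≤ β →
    σ 0 β = 0 ∧ ∀ c c' : ℕ, ((c : ZMod N) = c' ∨ (c : ZMod N) = -c') → σ c β = σ c' β := by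
  obtain ⟨A, β0, hA, h⟩ := hσ
  refine ⟨β0, fun β hβ => ⟨?_, fun c c' hc => ?_⟩⟩
  · refine zero_of_small (A := A) fun p hp hp1 => ?_
    haveI : NeZero p := ⟨by omega⟩
    haveI : NeZero (2 * p) := ⟨by omega⟩
    obtain ⟨h1, h2⟩ := (h β hβ p p hp hp).1 0
    rw [div_self h1.ne', Real.log_one, zero_add, min_self, abs_mul,
      abs_of_nonneg (by positivity : (0 : ℝ) ≤ 4 * (p * p))] at h2
    have h3 : Real.exp (-(2 * m * (p : ℕ))) ≤ 1 := Real.exp_le_one_iff.mpr (by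
      have : 0 ≤ 2 * m * (p : ℝ) := by positivity
      linarith)
    have h4 : (0 : ℝ) ≤ p := by positivity
    nlinarith
  · have hcos : ∀ i : ℕ, Real.cos (2 * Real.pi * (c * i) / N) =
        Real.cos (2 * Real.pi * (c' * i) / N) := by
      intro i
      rw [← cs_mul_nat, ← cs_mul_nat]
      rcases hc with hc | hc
      · rw [hc]
      · rw [hc, neg_mul, cs_neg]
    have h0 : σ c β - σ c' β = 0 := by
      refine zero_of_small (A := A) fun p hp hp1 => ?_
      haveI : NeZero p := ⟨by omega⟩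
      haveI : NeZero (2 * p) := ⟨by omega⟩
      have h1 := ((h β hβ p p hp hp).1 c).2
      have h2 := ((h β hβ p p hp hp).1 c').2
      have e : Pool.Agent.Run7.h897.ST.Ze (2 * p) (2 * p) l μ k c β =
          Pool.Agent.Run7.h897.ST.Ze (2 * p) (2 * p) l μ k c' β := by
        unfold Pool.Agent.Run7.h897.ST.Ze
        simp only [hcos]
      rw [e] at h1
      have h3 : Real.exp (-(2 * m * (min p p : ℕ))) ≤ 1 := Real.exp_le_one_iff.mpr (by
        have : 0 ≤ 2 * m * ((min p p : ℕ) : ℝ) := by positivity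
        linarith)
      have h4 : (0 : ℝ) ≤ p := by positivity
      have h5 : ((p : ℝ) + p) * Real.exp (-(2 * m * (min p p : ℕ))) ≤ 2 * p := by nlinarith
      have h6 := abs_le.mp (h1.trans h5)
      have h7 := abs_le.mp (h2.trans h5)
      have h8 : |(σ c β - σ c' β) * (4 * (p * p))| ≤ 4 * p := by
        rw [abs_le]
        constructor <;> linarith [h6.1, h6.2, h7.1, h7.2]
      rwa [abs_mul, abs_of_nonneg (by positivity : (0 : ℝ) ≤ 4 * (p * p))] at h8
    linarith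

/-- the string tensions in terms of the densities -/
theorem sig_dens {μ : Measure (SU N)} [IsProbabilityMeasure μ] [μ.IsHaarMeasure]
    {σ : ℕ → ℝ → ℝ} {m : ℝ} (hm : 0 < m) (hσ : SoftZ μ l k σ m) : ∃ β0 : ℝ, ∀ β : ℝ, β0 ≤ β →
    ∀ c : ℕ, σ c β = ∑ j ∈ Finset.range N,
      wj σ N j β * (1 - Real.cos (2 * Real.pi * (c * j) / N)) := by
  obtain ⟨β0, h⟩ := soft_sym hm hσ
  refine ⟨β0, fun β hβ c => ?_⟩
  obtain ⟨h0, hs⟩ := h β hβ
  have he : ∀ z : ZMod N, σ (-z).val β = σ z.val β := by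
    intro z
    refine hs _ _ (Or.inr ?_)
    simp only [ZMod.natCast_val, ZMod.cast_id]
  have h1 := fourier_inv (s := fun z : ZMod N => σ z.val β) he (by
    simp only [ZMod.val_zero]; exact h0) (c : ZMod N)
  have h2 : σ (c : ZMod N).val β = σ c β := hs _ _ (Or.inl (by
    rw [ZMod.natCast_val, ZMod.cast_id]))
  rw [h2] at h1
  rw [← h1, ← sum_rz]
  refine Finset.sum_congr rfl fun j _ => ?_
  rw [wj_cs, cs_mul_nat]

open Pool.Agent.Run7.h897.ST in
/-- **The joint theorem with the densities of the vortices.** -/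
theorem joint3 (l k : ℕ) [NeZero l] (hN : 2 ≤ N) (hk : Nat.Coprime k N) (μ : Measure (S4 N))
    [IsProbabilityMeasure μ] [μ.IsHaarMeasure] :
    ∃ (S : ℕ → ℝ) (σ w : ℕ → ℝ → ℝ),
      (∀ j, Tendsto (fun p : ℕ × ℕ => sInf (Set.range fun U : Link (p.1 + 1) (p.2 + 1) l → S4 N =>
        action2 k j U)) atTop (𝓝 (S j))) ∧
      (∀ m : ℝ, 0 < m → m < 2 * Real.arsinh (Real.sin (Real.pi / (l * N))) → SoftZ μ l k σ m) ∧
      (∀ c : ℕ, ¬ N ∣ c → ∃ T : ℝ, 0 < T ∧ IsLeast {s | ∃ j : ℕ, ¬ N ∣ c * j ∧ s = S j} T ∧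
        (∀ᶠ β in atTop, 0 < σ c β) ∧
        Tendsto (fun β => -Real.log (σ c β) / β) atTop (𝓝 T)) ∧
      (∀ᶠ β in atTop, ∀ c : ℕ, σ c β = ∑ j ∈ Finset.range N,
        w j β * (1 - Real.cos (2 * Real.pi * (c * j) / N))) ∧
      ∀ j : ℕ, ¬ N ∣ j → ∀ ε : ℝ, 0 < ε →
        (∀ᶠ β in atTop, |w j β| ≤ Real.exp (-(β * (S j - ε)))) ∧
        ((∀ i i' : ℕ, ¬ N ∣ i → ¬ N ∣ i' → i + i' ≡ j [MOD N] → S j < S i + S i') →
          ∀ᶠ β in atTop, Real.exp (-(β * (S j + ε))) ≤ w j β) := by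
  obtain ⟨S, σ, h1, h2, h3⟩ := joint (N := N) l k hN hk μ
  obtain ⟨S', hS'⟩ := boundsJ (Run7.h182.VS.tFR Run7.h630.VS.tA1) (Run7.h182.VS.tLK Run7.h630.VS.tA2)
    Pool.Agent.Run7.h897.CO.comb Run7.h630.VS.tINS N l k hk μ
  have hSS : S = S' := funext fun j => tendsto_nhds_unique (h1 j) (hS'.lim j)
  subst hSS
  -- a reference rate
  have hl : (0 : ℝ) < l := by exact_mod_cast NeZero.pos l
  have hNr : (2 : ℝ) ≤ N := by exact_mod_cast hN
  have hM0 : 0 < 2 * Real.arsinh (Real.sin (Real.pi / (l * N))) := by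
    have hl1 : (1 : ℝ) ≤ l := by exact_mod_cast NeZero.one_le (n := l)
    have h4 : 0 < Real.sin (Real.pi / (l * N)) := by
      refine Real.sin_pos_of_pos_of_lt_pi (by positivity) ?_
      rw [div_lt_iff₀ (by positivity)]
      have : (2 : ℝ) ≤ l * N := by nlinarith
      nlinarith [Real.pi_pos]
    have h5 := Real.arsinh_pos_iff.mpr h4
    linarith
  obtain ⟨m, hm, hmM⟩ := exists_between hM0
  have hsoft := h2 m hm hmM
  refine ⟨S, σ, wj σ N, h1, h2, h3, ?_, fun j hj ε hε => ⟨dens_up hk μ hS' hm hsoft hj hε,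
    fun hirr => dens_lo hk μ hS' hm hsoft hj hirr hε⟩⟩
  obtain ⟨β0, hβ0⟩ := sig_dens hm hsoft
  filter_upwards [eventually_ge_atTop β0] with β hβ
  exact hβ0 β hβ

end

end Run7.h4.VS
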