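import Mathlib
import Pool.Agent.Run7.h4.VS.Dens5

/-!
# The ratios of the string tensions
-/

open MeasureTheory Matrix Filter Topology
open Run7.h4.YM
open Pool.Agent.Run7.h897.ST (SoftZ)

namespace Run7.h4.VS

set_option linter.unusedSectionVars false
set_option linter.unusedVariables false
set_option linter.style.haveILetI false

noncomputable section

variable {N l k : ℕ} [NeZero N] [NeZero l] [MeasurableSpace (SU N)] [BorelSpace (SU N)]

/-- the action is even in the flux -/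
theorem S_even (hk : Nat.Coprime k N) {μ : Measure (SU N)} [IsProbabilityMeasure μ]
    [μ.IsHaarMeasure] {S : ℕ → ℝ} (hS : BndJ N l k μ S) {j j' : ℕ} (hj : ¬ N ∣ j)
    (hj' : ¬ N ∣ j') (h : (j : ZMod N) = -(j' : ZMod N)) : S j' ≤ S j := by
  have hζ := om_prim (N := N) hk
  by_contra hlt
  push Not at hlt
  obtain ⟨ε, hε⟩ : ∃ ε : ℝ, ε = (S j' - S j) / 4 := ⟨_, rfl⟩
  have hε0 : 0 < ε := by rw [hε]; linarith
  obtain ⟨M, hM⟩ := hS.upj ε hε0
  obtain ⟨b1, hb1, hup⟩ := hM 1 one_pos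
  obtain ⟨b2, M', hb2, hM', hlo⟩ := hS.lo j ε hε0
  obtain ⟨p, hp⟩ : ∃ p : ℕ, p = max M M' := ⟨_, rfl⟩
  have hpM : M ≤ p := by rw [hp]; exact le_max_left _ _
  have hpM' : M' ≤ p := by rw [hp]; exact le_max_right _ _
  haveI : NeZero p := ⟨by omega⟩
  obtain ⟨β, hβ⟩ : ∃ β : ℝ, β = max (max b1 b2) (max p 1) := ⟨_, rfl⟩
  have h1 : b1 ≤ β := by rw [hβ]; exact (le_max_left _ _).trans (le_max_left _ _)
  have h2 : b2 ≤ β := by rw [hβ]; exact (le_max_right _ _).trans (le_max_left _ _)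
  have h3 : (p : ℝ) ≤ β := by rw [hβ]; exact (le_max_left _ _).trans (le_max_right _ _)
  have h4 : (1 : ℝ) ≤ β := by rw [hβ]; exact (le_max_right _ _).trans (le_max_right _ _)
  have g1 := hup β h1 p p hpM hpM (by linarith) (by linarith) j' hj'
  have g2 := hlo β h2 p p hpM' hpM'
  have hD := Zf_posN (m := p) (m' := p) (l := l) hζ μ β
  rw [Zf_even μ h β] at g2
  have g3 := g2.trans g1
  have g4 := le_of_mul_le_mul_right g3 hD
  rw [Real.exp_le_exp] at g4
  have g5 : β * (S j' - ε) ≤ β * (S j + ε) := by linarith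
  have g6 := le_of_mul_le_mul_left g5 (by linarith)
  linarith

theorem wj_even (σ : ℕ → ℝ → ℝ) {j j' : ℕ} (h : (j : ZMod N) = j' ∨ (j : ZMod N) = -j') (β : ℝ) :
    wj σ N j β = wj σ N j' β := by
  unfold wj
  congr 1
  refine Finset.sum_congr rfl fun c _ => ?_
  rw [← cs_mul_nat, ← cs_mul_nat]
  rcases h with h | h
  · rw [h]
  · rw [h, mul_neg, cs_neg]

/-- **The ratios of the string tensions.** -/
theorem ratio (hk : Nat.Coprime k N) (μ : Measure (SU N)) [IsProbabilityMeasure μ]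
    [μ.IsHaarMeasure] {S : ℕ → ℝ} (hS : BndJ N l k μ S) {σ : ℕ → ℝ → ℝ} {m : ℝ} (hm : 0 < m)
    (hσ : SoftZ μ l k σ m) {j0 : ℕ} (hj0 : ¬ N ∣ j0)
    (hmin : ∀ j : ℕ, ¬ N ∣ j → ¬ j ≡ j0 [MOD N] → ¬ N ∣ j + j0 → S j0 < S j) {c c' : ℕ}
    (hc' : ¬ N ∣ c' * j0) :
    Tendsto (fun β => σ c β / σ c' β) atTop
      (𝓝 ((1 - Real.cos (2 * Real.pi * (c * j0) / N)) /
        (1 - Real.cos (2 * Real.pi * (c' * j0) / N)))) := by
  obtain ⟨δ, hδ, hδS⟩ := hS.pos
  have hmin' : ∀ j : ℕ, ¬ N ∣ j → S j0 ≤ S j := by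
    intro j hj
    by_cases h1 : j ≡ j0 [MOD N]
    · exact le_of_eq (hS.congr _ _ ((ZMod.natCast_eq_natCast_iff _ _ _).mpr h1.symm))
    · by_cases h2 : N ∣ j + j0
      · refine S_even hk hS hj hj0 ?_
        have h3 := (ZMod.natCast_eq_zero_iff (j + j0) N).mpr h2
        push_cast at h3
        exact eq_neg_of_add_eq_zero_left h3
      · exact (hmin j hj h1 h2).le
  have hlo : ∀ ε : ℝ, 0 < ε → ∀ᶠ β in atTop, Real.exp (-(β * (S j0 + ε))) ≤ wj σ N j0 β :=
    fun ε hε => dens_lo hk μ hS hm hσ hj0 (fun i i' hi hi' _ => by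
      have h1 := hmin' i hi
      have h2 := hδS i' hi'
      linarith) hε
  obtain ⟨g, hg⟩ : ∃ g : ℕ → ℝ, g = fun j : ℕ => if (j : ZMod N) = (j0 : ZMod N) ∨
    (j : ZMod N) = -(j0 : ZMod N) then (1 : ℝ) else 0 := ⟨_, rfl⟩
  -- the limits of the ratios of the densities
  have hw : ∀ j : ℕ, ¬ N ∣ j → Tendsto (fun β => wj σ N j β / wj σ N j0 β) atTop (𝓝 (g j)) := by
    intro j hj
    have hpos := hlo 1 one_pos
    by_cases h1 : (j : ZMod N) = j0 ∨ (j : ZMod N) = -j0
    · have hg1 : g j = 1 := by rw [hg]; simp only; rw [if_pos h1]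
      rw [hg1]
      refine tendsto_const_nhds.congr' ?_
      filter_upwards [hpos] with β h2
      have h3 : 0 < wj σ N j0 β := lt_of_lt_of_le (Real.exp_pos _) h2
      rw [wj_even σ h1 β, div_self h3.ne']
    · have hg1 : g j = 0 := by rw [hg]; simp only; rw [if_neg h1]
      rw [hg1]
      push Not at h1
      have hlt : S j0 < S j := by
        refine hmin j hj (fun h2 => h1.1 ((ZMod.natCast_eq_natCast_iff _ _ _).mpr h2))
          (fun h2 => h1.2 ?_)
        have h3 := (ZMod.natCast_eq_zero_iff (j + j0) N).mpr h2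
        push_cast at h3
        exact eq_neg_of_add_eq_zero_left h3
      obtain ⟨ε, hε⟩ : ∃ ε : ℝ, ε = (S j - S j0) / 4 := ⟨_, rfl⟩
      have hε0 : 0 < ε := by rw [hε]; linarith
      have h4 := dens_up hk μ hS hm hσ hj hε0
      have h5 : Tendsto (fun β : ℝ => Real.exp (-(β * (2 * ε)))) atTop (𝓝 0) := by
        have h6 : Tendsto (fun β : ℝ => β * (2 * ε)) atTop atTop :=
          Tendsto.atTop_mul_const (by linarith) tendsto_id
        exact Real.tendsto_exp_neg_atTop_nhds_zero.comp h6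
      refine squeeze_zero_norm' ?_ h5
      filter_upwards [h4, hlo ε hε0] with β h6 h7
      have h8 : 0 < wj σ N j0 β := lt_of_lt_of_le (Real.exp_pos _) h7
      rw [Real.norm_eq_abs, abs_div, abs_of_pos h8, div_le_iff₀ h8]
      refine h6.trans ?_
      have h9 : Real.exp (-(β * (S j - ε))) = Real.exp (-(β * (2 * ε))) *
          Real.exp (-(β * (S j0 + ε))) := by
        rw [← Real.exp_add, hε]; congr 1; ring
      rw [h9]
      exact mul_le_mul_of_nonneg_left h7 (Real.exp_pos _).le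
  -- the limits of the string tensions
  obtain ⟨K, hK⟩ : ∃ K : ℝ, K = ∑ j ∈ Finset.range N, g j := ⟨_, rfl⟩
  have hK0 : 0 < K := by
    rw [hK]
    have h1 : ∀ j ∈ Finset.range N, 0 ≤ g j := fun j _ => by
      rw [hg]; simp only; split_ifs <;> norm_num
    have h2 : g (j0 % N) = 1 := by
      rw [hg]; simp only; rw [if_pos (Or.inl (ZMod.natCast_mod j0 N))]
    have h3 := Finset.single_le_sum h1 (Finset.mem_range.mpr (Nat.mod_lt j0 (NeZero.pos N)))
    rw [h2] at h3
    linarith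
  have hlim : ∀ d : ℕ, Tendsto (fun β => σ d β / wj σ N j0 β) atTop
      (𝓝 (K * (1 - Real.cos (2 * Real.pi * (d * j0) / N)))) := by
    intro d
    obtain ⟨β0, hβ0⟩ := sig_dens hm hσ
    have h1 : Tendsto (fun β => ∑ j ∈ Finset.range N,
        wj σ N j β / wj σ N j0 β * (1 - Real.cos (2 * Real.pi * (d * j) / N))) atTop
        (𝓝 (∑ j ∈ Finset.range N, g j * (1 - Real.cos (2 * Real.pi * (d * j) / N)))) := by
      refine tendsto_finsetSum _ fun j hj => ?_
      by_cases hjN : N ∣ j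
      · have h2 : Real.cos (2 * Real.pi * (d * j) / N) = 1 := by
          have h3 : (j : ZMod N) = 0 := (ZMod.natCast_eq_zero_iff j N).mpr hjN
          rw [← cs_mul_nat, h3, mul_zero, cs_zero]
        rw [h2]
        simp only [sub_self, mul_zero]
        exact tendsto_const_nhds
      · exact (hw j hjN).mul_const _
    have h2 : ∑ j ∈ Finset.range N, g j * (1 - Real.cos (2 * Real.pi * (d * j) / N)) =
        K * (1 - Real.cos (2 * Real.pi * (d * j0) / N)) := by
      rw [hK, Finset.sum_mul]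
      refine Finset.sum_congr rfl fun j _ => ?_
      rw [hg]
      simp only
      split_ifs with h3
      · rw [← cs_mul_nat, ← cs_mul_nat]
        rcases h3 with h3 | h3
        · rw [h3]
        · rw [h3, mul_neg, cs_neg]
      · simp
    rw [h2] at h1
    refine h1.congr' ?_
    filter_upwards [eventually_ge_atTop β0] with β h3
    rw [hβ0 β h3 d, Finset.sum_div]
    refine Finset.sum_congr rfl fun j _ => ?_
    ring
  have hne : 1 - Real.cos (2 * Real.pi * (c' * j0) / N) ≠ 0 := by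
    intro h
    apply hc'
    have h1 : Real.cos (2 * Real.pi * (c' * j0) / N) = 1 := by linarith
    rw [Real.cos_eq_one_iff] at h1
    obtain ⟨n, hn⟩ := h1
    have hN : (N : ℝ) ≠ 0 := by exact_mod_cast NeZero.ne N
    have hpi := Real.pi_pos.ne'
    have h2 : (n : ℝ) * N = c' * j0 := by
      have h3 : (n : ℝ) * (2 * Real.pi) * N = 2 * Real.pi * (c' * j0) := by
        rw [hn]; field_simp
      have h4 : (2 * Real.pi) * ((n : ℝ) * N) = (2 * Real.pi) * (c' * j0) := by linarith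
      exact mul_left_cancel₀ (by positivity) h4
    have h5 : (n : ℤ) * N = ((c' * j0 : ℕ) : ℤ) := by
      have : ((n * N : ℤ) : ℝ) = (((c' * j0 : ℕ) : ℤ) : ℝ) := by push_cast; exact h2
      exact_mod_cast this
    exact Int.natCast_dvd_natCast.mp ⟨n, by rw [← h5]; ring⟩
  have hfin := (hlim c).div (hlim c') (mul_ne_zero hK0.ne' hne)
  rw [mul_div_mul_left _ _ hK0.ne'] at hfin
  refine hfin.congr' ?_
  filter_upwards [hlo 1 one_pos] with β h1
  have h2 : 0 < wj σ N j0 β := lt_of_lt_of_le (Real.exp_pos _) h1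
  rw [Pi.div_apply, div_div_div_cancel_right₀ h2.ne']

end

end Run7.h4.VS
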