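import Mathlib
import Pool.Agent.Run7.h4.VS.Ratio

/-!
# The string tensions, the densities of the vortices and the ratios
-/

open MeasureTheory Matrix Filter Topology
open Run7.h4.YM

namespace Run7.h4.VS

set_option linter.unusedSectionVars false
set_option linter.unusedVariables false
set_option linter.style.haveILetI false

noncomputable section

variable {N : ℕ} [NeZero N] [MeasurableSpace (SU N)] [BorelSpace (SU N)]

open Pool.Agent.Run7.h897.ST in
/-- **The joint theorem with the densities of the vortices and the ratios.** -/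
theorem joint4 (l k : ℕ) [NeZero l] (hN : 2 ≤ N) (hk : Nat.Coprime k N) (μ : Measure (S4 N))
    [IsProbabilityMeasure μ] [μ.IsHaarMeasure] :
    ∃ (S : ℕ → ℝ) (σ w : ℕ → ℝ → ℝ),
      (∀ j, Tendsto (fun p : ℕ × ℕ => sInf (Set.range fun U : Link (p.1 + 1) (p.2 + 1) l → S4 N =>
        action2 k j U)) atTop (𝓝 (S j))) ∧
      (∀ m : ℝ, 0 < m → m < 2 * Real.arsinh (Real.sin (Real.pi / (l * N))) → SoftZ μ l k σ m) ∧
      (∀ c : ℕ, ¬ N ∣ c → ∃ T : ℝ, 0 < T ∧ IsLeast {s | ∃ j : ℕ, ¬ N ∣ c * j ∧ s = S j} T ∧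
        (∀ᶠ β in atTop, 0 < σ c β) ∧
        Tendsto (fun β => -Real.log (σ c β) / β) atTop (𝓝 T)) ∧
      (∀ᶠ β in atTop, ∀ c : ℕ, σ c β = ∑ j ∈ Finset.range N,
        w j β * (1 - Real.cos (2 * Real.pi * (c * j) / N))) ∧
      (∀ j : ℕ, ¬ N ∣ j → ∀ ε : ℝ, 0 < ε →
        (∀ᶠ β in atTop, |w j β| ≤ Real.exp (-(β * (S j - ε)))) ∧
        ((∀ i i' : ℕ, ¬ N ∣ i → ¬ N ∣ i' → i + i' ≡ j [MOD N] → S j < S i + S i') →
          ∀ᶠ β in atTop, Real.exp (-(β * (S j + ε))) ≤ w j β)) ∧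
      ∀ i : ℕ, ¬ N ∣ i → (∀ j : ℕ, ¬ N ∣ j → ¬ j ≡ i [MOD N] → ¬ N ∣ j + i → S i < S j) →
        ∀ c d : ℕ, ¬ N ∣ d * i → Tendsto (fun β => σ c β / σ d β) atTop
          (𝓝 ((1 - Real.cos (2 * Real.pi * (c * i) / N)) /
            (1 - Real.cos (2 * Real.pi * (d * i) / N)))) := by
  obtain ⟨S, σ, h1, h2, h3⟩ := joint (N := N) l k hN hk μ
  obtain ⟨S', hS'⟩ := boundsJ (Run7.h182.VS.tFR Run7.h630.VS.tA1) (Run7.h182.VS.tLK Run7.h630.VS.tA2)
    Pool.Agent.Run7.h897.CO.comb Run7.h630.VS.tINS N l k hk μ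
  have hSS : S = S' := funext fun j => tendsto_nhds_unique (h1 j) (hS'.lim j)
  subst hSS
  -- a reference rate
  have hl : (0 : ℝ) < l := by exact_mod_cast NeZero.pos l
  have hNr : (2 : ℝ) ≤ N := by exact_mod_cast hN
  have hM0 : 0 < 2 * Real.arsinh (Real.sin (Real.pi / (l * N))) := by
    have hl1 : (1 : ℝ) ≤ l := by exact_mod_cast NeZero.one_le (n := l)
    have h4 : 0 < Real.sin (Real.pi / (l * N)) := by
      refine Real.sin_pos_of_pos_of_lt_pi (by positivity) ?_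
      rw [div_lt_iff₀ (by positivity)]
      have : (2 : ℝ) ≤ l * N := by nlinarith
      nlinarith [Real.pi_pos]
    have h5 := Real.arsinh_pos_iff.mpr h4
    linarith
  obtain ⟨m, hm, hmM⟩ := exists_between hM0
  have hsoft := h2 m hm hmM
  refine ⟨S, σ, wj σ N, h1, h2, h3, ?_, fun j hj ε hε => ⟨dens_up hk μ hS' hm hsoft hj hε,
    fun hirr => dens_lo hk μ hS' hm hsoft hj hirr hε⟩, fun i hi hmin c d hd =>
      ratio hk μ hS' hm hsoft hi hmin hd⟩
  obtain ⟨β0, hβ0⟩ := sig_dens hm hsoft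
  filter_upwards [eventually_ge_atTop β0] with β hβ
  exact hβ0 β hβ

end

end Run7.h4.VS
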