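import Mathlib
import Pool.Agent.Run7.h4.YM.Lower
import Pool.Agent.Run7.h4.VS.Conv
import Pool.Agent.Run7.h897.ST.PC

/-!
# The correlation of two Polyakov loops, without normalisation
-/

open MeasureTheory Matrix Filter Topology
open Run7.h4.YM

namespace Run7.h4.VS

set_option linter.unusedSectionVars false
set_option linter.unusedVariables false

noncomputable section

open Pool.Agent.Run7.h897.PC (Fp)

variable {N l m m' : ℕ} [NeZero N] [NeZero l] [NeZero m] [NeZero m'] {k : ℕ}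
  [MeasurableSpace (SU N)] [BorelSpace (SU N)]
  (μ : Measure (SU N)) [IsProbabilityMeasure μ] [μ.IsHaarMeasure]

theorem Fp_eq (β : ℝ) (R : ℕ) :
    Fp (2 * m) (2 * m') l μ k β R = gg (N := N) μ k m m' l β R / (N : ℝ) ^ 2 := by
  have hi := inv_inv' μ
  have hN : (N : ℝ) ≠ 0 := by exact_mod_cast NeZero.ne N
  have h : (fun U : Cf N m m' l => (trace (line U 0).1 / N *
      star (trace (line U (R : ZMod (2 * m'))).1 / N)).re) =
      fun U => (1 / (N : ℝ) ^ 2) * pol R U := by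
    funext U
    unfold pol
    have e : trace (line U 0).1 / N * star (trace (line U (R : ZMod (2 * m'))).1 / N) =
        ((1 / (N : ℝ) ^ 2 : ℝ) : ℂ) *
          (trace (line U 0).1 * star (trace (line U (R : ZMod (2 * m'))).1)) := by
      rw [star_div₀]
      simp only [RCLike.star_def, Complex.conj_natCast]
      push_cast
      field_simp
    rw [e, Complex.re_ofReal_mul]
  have e1 : Fp (2 * m) (2 * m') l μ k β R = II μ k β (fun U : Cf N m m' l =>
      (trace (line U 0).1 / N * star (trace (line U (R : ZMod (2 * m'))).1 / N)).re) := rfl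
  rw [e1, h, II_smul]
  unfold gg
  rw [div_mul_eq_mul_div, one_mul]

/-- log-convexity in the distance -/
theorem Fp_cs (β : ℝ) {a b : ℕ} (ha : a ≤ m') (hb : b ≤ m') :
    Fp (2 * m) (2 * m') l μ k β (a + b) ^ 2 ≤
      Fp (2 * m) (2 * m') l μ k β (2 * a) * Fp (2 * m) (2 * m') l μ k β (2 * b) := by
  have hi := inv_inv' μ
  have hN : (0 : ℝ) < N := by exact_mod_cast NeZero.pos N
  rw [Fp_eq, Fp_eq, Fp_eq, div_pow, div_mul_div_comm, ← sq]
  exact div_le_div_of_nonneg_right (gg_cs μ β ha hb) (by positivity)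

theorem Fp_zero_le (hζ : IsPrimitiveRoot (om N k) N) (β : ℝ) :
    Fp (2 * m) (2 * m') l μ k β 0 ≤ Zf (2 * m) (2 * m') l μ k 0 β := by
  have hi := inv_inv' μ
  have hN : (0 : ℝ) < N := by exact_mod_cast NeZero.pos N
  rw [Fp_eq, Zf_zero μ m m' hζ, div_le_iff₀ (by positivity), mul_comm]
  exact gg_zero_le μ β

/-- the lower bound -/
theorem Fp_lower (N l k : ℕ) [NeZero N] [NeZero l] (hk : Nat.Coprime k N)
    [MeasurableSpace (SU N)] [BorelSpace (SU N)] (μ : Measure (SU N)) [IsProbabilityMeasure μ]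
    [μ.IsHaarMeasure] : ∃ c : ℝ, 0 < c ∧ ∀ ε : ℝ, 0 < ε → ∃ β0 : ℝ, 0 < β0 ∧ ∀ β : ℝ, β0 ≤ β →
    ∀ (m m' : ℕ) [NeZero m] [NeZero m'] (r : ℕ), 0 < r → r ≤ m' →
      Real.exp (-((2 * m : ℕ) * (ε + Real.exp (-(c * β)) * (2 * r : ℕ)))) / (N : ℝ) ^ 2 *
        Zf (2 * m) (2 * m') l μ k 0 β ≤ Fp (2 * m) (2 * m') l μ k β (2 * r) := by
  have hi := inv_inv' μ
  have hζ := om_prim (N := N) hk
  have hN : (0 : ℝ) < N := by exact_mod_cast NeZero.pos N
  obtain ⟨c, hc, h⟩ := lower N l k hk μ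
  refine ⟨c, hc, fun ε hε => ?_⟩
  obtain ⟨β0, hβ0, h⟩ := h ε hε
  refine ⟨β0, hβ0, fun β hβ m m' _ _ r hr hrm => ?_⟩
  have h1 := h β hβ m m' r hr hrm
  have hZ := ZZ_pos (N := N) (m := m) (m' := m') (l := l) μ k β
  rw [polyakov_eq] at h1
  rw [Fp_eq, Zf_zero μ m m' hζ]
  have h2 : gg (N := N) μ k m m' l β (2 * r) / ((N : ℝ) ^ 2 * ZZ μ m m' l k β) =
      gg (N := N) μ k m m' l β (2 * r) / (N : ℝ) ^ 2 / ZZ μ m m' l k β := by
    rw [div_div]
  rw [h2, le_div_iff₀ hZ] at h1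
  exact h1

theorem Fp_pos (N l k : ℕ) [NeZero N] [NeZero l] (hk : Nat.Coprime k N)
    [MeasurableSpace (SU N)] [BorelSpace (SU N)] (μ : Measure (SU N)) [IsProbabilityMeasure μ]
    [μ.IsHaarMeasure] : ∃ β0 : ℝ, 0 < β0 ∧ ∀ β : ℝ, β0 ≤ β →
    ∀ (m m' : ℕ) [NeZero m] [NeZero m'] (r : ℕ), 0 < r → r ≤ m' →
      0 < Fp (2 * m) (2 * m') l μ k β (2 * r) := by
  have hi := inv_inv' μ
  have hζ := om_prim (N := N) hk
  have hN : (0 : ℝ) < N := by exact_mod_cast NeZero.pos N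
  obtain ⟨c, hc, h⟩ := Fp_lower N l k hk μ
  obtain ⟨β0, hβ0, h⟩ := h 1 one_pos
  refine ⟨β0, hβ0, fun β hβ m m' _ _ r hr hrm => ?_⟩
  have h1 := h β hβ m m' r hr hrm
  have hZ := ZZ_pos (N := N) (m := m) (m' := m') (l := l) μ k β
  rw [Zf_zero μ m m' hζ] at h1
  exact lt_of_lt_of_le (by positivity) h1

end

end Run7.h4.VS
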